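import Pool.Agent.Work.Monodromy.InterfaceL

/-!
# ABSL: the values in degree `D` are bounded by the values in degree `D - 1` (helper99)

Descending induction on the degree of the additional factor `x^γ`: `NLS` expresses the value at
`x^γ T^m` by values in degree `D - 1`, small multiples of values at `x^γ' T^m'`, `|γ'| ≥ |γ|`, and
values with `|γ'| > |γ|`.
-/

set_option autoImplicit false
set_option linter.unusedSectionVars false

namespace Pool.Agent.Mono.LO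

open MvPolynomial Filter Topology NP

namespace ABSLAux

section

variable {ι κ : Type} [Fintype ι] [DecidableEq ι] [Fintype κ] [DecidableEq κ]

/-- the value of `Φ` at the point `(k, u)` plus an exponent -/
noncomputable def val (w : κ → ι → ℕ) (Φ : ℤ → (ι → ℤ) → ℂ) (k : ℤ) (u : ι → ℤ)
    (M : (κ ⊕ ι) →₀ ℕ) : ℂ :=
  Φ (k + (tdeg M : ℕ)) (fun j => u j + (twt w M j : ℕ))

/-- the functional `Λ` -/
noncomputable def LamA (w : κ → ι → ℕ) (Φ : ℤ → (ι → ℤ) → ℂ) (k : ℤ) (u : ι → ℤ) :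
    MvPolynomial (κ ⊕ ι) ℂ →ₗ[ℂ] ℂ :=
  (MvPolynomial.basisMonomials (κ ⊕ ι) ℂ).constr ℂ (val w Φ k u)

theorem LamA_monomial (w : κ → ι → ℕ) (Φ : ℤ → (ι → ℤ) → ℂ) (k : ℤ) (u : ι → ℤ)
    (M : (κ ⊕ ι) →₀ ℕ) : LamA w Φ k u (monomial M 1) = val w Φ k u M := by
  have h := (MvPolynomial.basisMonomials (κ ⊕ ι) ℂ).constr_basis ℂ (val w Φ k u) M
  rw [MvPolynomial.coe_basisMonomials] at h
  exact h

theorem val_congr (w : κ → ι → ℕ) (Φ : ℤ → (ι → ℤ) → ℂ) (k : ℤ) (u : ι → ℤ)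
    (M M' : (κ ⊕ ι) →₀ ℕ) (h1 : tdeg M = tdeg M') (h2 : ∀ i, twt w M i = twt w M' i) :
    val w Φ k u M = val w Φ k u M' := by
  unfold val
  rw [h1]
  congr 1
  funext j
  rw [h2 j]

theorem tdeg_add_single (M : (κ ⊕ ι) →₀ ℕ) (v : κ) :
    tdeg (M + Finsupp.single (Sum.inl v) 1) = tdeg M + 1 := by
  unfold tdeg
  simp only [Finsupp.add_apply, Finset.sum_add_distrib]
  congr 1
  rw [Finset.sum_eq_single v]
  · simp
  · intro b _ hb
    rw [Finsupp.single_apply, if_neg]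
    intro h
    exact hb (Sum.inl_injective h).symm
  · intro h
    exact absurd (Finset.mem_univ v) h

theorem twt_add_single (w : κ → ι → ℕ) (M : (κ ⊕ ι) →₀ ℕ) (v : κ) (i : ι) :
    twt w (M + Finsupp.single (Sum.inl v) 1) i = twt w M i + w v i := by
  unfold twt
  simp only [Finsupp.add_apply, add_mul, Finset.sum_add_distrib]
  have h1 : ∑ x, (Finsupp.single (Sum.inl v : κ ⊕ ι) 1 : (κ ⊕ ι) →₀ ℕ) (Sum.inl x) * w x i =
      w v i := by
    rw [Finset.sum_eq_single v]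
    · simp
    · intro b _ hb
      rw [Finsupp.single_apply, if_neg, zero_mul]
      intro h
      exact hb (Sum.inl_injective h).symm
    · intro h
      exact absurd (Finset.mem_univ v) h
  have h2 : (Finsupp.single (Sum.inl v : κ ⊕ ι) 1 : (κ ⊕ ι) →₀ ℕ) (Sum.inr i) = 0 := by
    rw [Finsupp.single_apply, if_neg]
    exact Sum.inl_ne_inr
  rw [h1, h2]
  ring

theorem tdeg_map (m : κ →₀ ℕ) : tdeg (m.mapDomain (Sum.inl : κ → κ ⊕ ι)) = m.degree := by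
  unfold tdeg
  rw [Finsupp.degree_eq_sum]
  exact Finset.sum_congr rfl fun v _ => Finsupp.mapDomain_apply Sum.inl_injective m v

theorem twt_map (w : κ → ι → ℕ) (m : κ →₀ ℕ) (i : ι) :
    twt w (m.mapDomain (Sum.inl : κ → κ ⊕ ι)) i = ∑ v, m v * w v i := by
  unfold twt
  have h : (m.mapDomain (Sum.inl : κ → κ ⊕ ι)) (Sum.inr i) = 0 :=
    Finsupp.mapDomain_of_notMem_range _ _ (by simp)
  rw [h, add_zero]
  exact Finset.sum_congr rfl fun v _ => by rw [Finsupp.mapDomain_apply Sum.inl_injective m v]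

theorem val_add_single (w : κ → ι → ℕ) (Φ : ℤ → (ι → ℤ) → ℂ) (k : ℤ) (u : ι → ℤ)
    (M : (κ ⊕ ι) →₀ ℕ) (v : κ) : val w Φ k u (M + Finsupp.single (Sum.inl v) 1) =
      Φ (k + (tdeg M : ℕ) + 1) (fun j => (u j + (twt w M j : ℕ)) + w v j) := by
  unfold val
  rw [tdeg_add_single]
  have h2 : k + ((tdeg M + 1 : ℕ) : ℤ) = k + (tdeg M : ℕ) + 1 := by push_cast; ring
  rw [h2]
  congr 1
  funext j
  rw [twt_add_single]
  push_cast
  ring

theorem LamA_mul_lin (w : κ → ι → ℕ) (Φ : ℤ → (ι → ℤ) → ℂ) (k : ℤ) (u : ι → ℤ)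
    (M : (κ ⊕ ι) →₀ ℕ) (e : κ → ℂ) :
    LamA w Φ k u (monomial M 1 * ∑ v, C (e v) * X (Sum.inl v)) =
      ∑ v, e v * val w Φ k u (M + Finsupp.single (Sum.inl v) 1) := by
  rw [Finset.mul_sum, map_sum]
  refine Finset.sum_congr rfl fun v _ => ?_
  have h1 : (monomial M (1 : ℂ)) * (C (e v) * X (Sum.inl v)) =
      e v • monomial (M + Finsupp.single (Sum.inl v) 1) (1 : ℂ) := by
    rw [← MvPolynomial.C_mul', mul_left_comm, MvPolynomial.X, MvPolynomial.monomial_mul, one_mul]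
  rw [h1, map_smul, LamA_monomial, smul_eq_mul]

theorem LamA_sum (w : κ → ι → ℕ) (Φ : ℤ → (ι → ℤ) → ℂ) (k : ℤ) (u : ι → ℤ)
    (G L : MvPolynomial (κ ⊕ ι) ℂ) :
    LamA w Φ k u (G * L) = ∑ M ∈ G.support, G.coeff M * LamA w Φ k u (monomial M 1 * L) := by
  conv_lhs => rw [G.as_sum, Finset.sum_mul, map_sum]
  refine Finset.sum_congr rfl fun M _ => ?_
  have h1 : (monomial M (G.coeff M)) * L = G.coeff M • (monomial M (1 : ℂ) * L) := by
    rw [← smul_mul_assoc, MvPolynomial.smul_monomial, smul_eq_mul, mul_one]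
  rw [h1, map_smul, smul_eq_mul]

theorem LamA_eq (w : κ → ι → ℕ) (Φ : ℤ → (ι → ℤ) → ℂ) (k : ℤ) (u : ι → ℤ)
    (G : MvPolynomial (κ ⊕ ι) ℂ) :
    LamA w Φ k u G = ∑ M ∈ G.support, G.coeff M * val w Φ k u M := by
  have h := LamA_sum w Φ k u G 1
  simp only [mul_one, LamA_monomial] at h
  exact h

/-- the factor in the relations -/
noncomputable def fac (w : κ → ι → ℕ) (o : Option ι) (v : κ) (γ : ι →₀ ℕ) : ℂ :=
  match o with
  | none => 1
  | some i => (w v i : ℂ) + (γ i : ℂ)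

/-- the factor on the right -/
noncomputable def rhs (ν : ι → ℚ) (β : ℚ) (k : ℤ) (p : ι → ℤ) (o : Option ι) : ℂ :=
  match o with
  | none => (β : ℂ) - (k : ℂ)
  | some i => -(((p i + 1 : ℤ) : ℂ) + (ν i : ℂ))

theorem LinF_eq (w : κ → ι → ℕ) (a : κ → ℂ) (o : Option ι) :
    rename Sum.inl (LinF w a o) =
      ∑ v, C (fac w o v 0 * a v) * (X (Sum.inl v) : MvPolynomial (κ ⊕ ι) ℂ) := by
  cases o with
  | none =>
    simp only [LinF, map_sum, map_mul, rename_C, rename_X, fac, one_mul]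
  | some i =>
    simp only [LinF, map_sum, map_mul, rename_C, rename_X, fac, Finsupp.coe_zero, Pi.zero_apply,
      Nat.cast_zero, add_zero]

/-- a bound for the factors -/
noncomputable def Fc (w : κ → ι → ℕ) (v : κ) (γ : ι →₀ ℕ) : ℝ :=
  1 + ∑ i, ((w v i : ℝ) + (γ i : ℝ))

theorem Fc_nonneg (w : κ → ι → ℕ) (v : κ) (γ : ι →₀ ℕ) : 0 ≤ Fc w v γ := by
  have h0 : 0 ≤ ∑ i, ((w v i : ℝ) + (γ i : ℝ)) := Finset.sum_nonneg fun i _ => by positivity
  unfold Fc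
  linarith

theorem fac_le (w : κ → ι → ℕ) (o : Option ι) (v : κ) (γ : ι →₀ ℕ) :
    ‖fac w o v γ‖ ≤ Fc w v γ := by
  have h0 : 0 ≤ ∑ i, ((w v i : ℝ) + (γ i : ℝ)) := Finset.sum_nonneg fun i _ => by positivity
  unfold Fc
  cases o with
  | none =>
    simp only [fac, norm_one]
    linarith
  | some i =>
    simp only [fac]
    have h1 : (w v i : ℝ) + (γ i : ℝ) ≤ ∑ i, ((w v i : ℝ) + (γ i : ℝ)) :=
      Finset.single_le_sum (f := fun i => (w v i : ℝ) + (γ i : ℝ)) (fun i _ => by positivity)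
        (Finset.mem_univ i)
    have h2 : ‖(w v i : ℂ) + (γ i : ℂ)‖ ≤ (w v i : ℝ) + (γ i : ℝ) := by
      refine (norm_add_le _ _).trans ?_
      rw [Complex.norm_natCast, Complex.norm_natCast]
    linarith

/-- the relations as finite sums -/
theorem rel {w : κ → ι → ℕ} {B : κ → MvPowerSeries ι ℂ} {J : Finset ι} {ν : ι → ℚ} {β : ℚ}
    {k₀ : ℤ} {Φ : ℤ → (ι → ℤ) → ℂ} (hR : RlS w B J ν β k₀ Φ) (k : ℤ) (p : ι → ℤ) (hp : Al J p)
    (Γ₀ : Finset (ι →₀ ℕ))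
    (h0 : ∀ v, ∀ γ : ι →₀ ℕ, γ ∉ Γ₀ → Φ (k + 1) (fun j => p j + w v j + γ j) = 0)
    (o : Option ι) :
    ∑ v, ∑ γ ∈ Γ₀, fac w o v γ * (MvPowerSeries.coeff γ (B v) *
      Φ (k + 1) (fun j => p j + w v j + γ j)) = rhs ν β k p o * Φ k p := by
  cases o with
  | none =>
    obtain ⟨Γ, h1, h2⟩ := ((hR.2.1 k p hp).and (eventually_ge_atTop Γ₀)).exists
    simp only [fac, rhs, one_mul]
    rw [← h1]
    refine Finset.sum_congr rfl fun v _ => Finset.sum_subset h2 fun γ _ hγ => ?_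
    rw [h0 v γ hγ, mul_zero]
  | some i =>
    have hp' : Al J (fun j => p j + if j = i then 1 else 0) := by
      intro j hj
      have := hp j hj
      show 0 ≤ p j + if j = i then 1 else 0
      split_ifs <;> omega
    obtain ⟨Γ, h1, h2⟩ := ((hR.1 k _ i hp').and (eventually_ge_atTop Γ₀)).exists
    have e1 : ∀ (v : κ) (γ : ι →₀ ℕ), (fun j => (p j + if j = i then (1 : ℤ) else 0) + w v j +
        γ j - if j = i then 1 else 0) = (fun j => p j + w v j + γ j) := by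
      intro v γ; funext j; ring
    have e2 : (fun j => (p j + if j = i then (1 : ℤ) else 0) - if j = i then 1 else 0) = p := by
      funext j; ring
    simp only [e1, e2, if_true] at h1
    simp only [fac, rhs]
    rw [← h1]
    refine Finset.sum_congr rfl fun v _ => Finset.sum_subset h2 fun γ _ hγ => ?_
    rw [h0 v γ hγ, mul_zero, mul_zero]

/-- the bound for one linear form at one point -/
theorem lin_bound {w : κ → ι → ℕ} {B : κ → MvPowerSeries ι ℂ} {J : Finset ι} {ν : ι → ℚ} {β : ℚ}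
    {k₀ : ℤ} {Φ : ℤ → (ι → ℤ) → ℂ} (hR : RlS w B J ν β k₀ Φ) (a : κ → ℂ) (k : ℤ) (p : ι → ℤ)
    (hp : Al J p) (Γ : Finset (ι →₀ ℕ)) (δ M S Mx K : ℝ) (hM0 : 0 ≤ M) (hK0 : 0 ≤ K)
    (h0 : ∀ v, ∀ γ : ι →₀ ℕ, γ ∉ Γ → Φ (k + 1) (fun j => p j + w v j + γ j) = 0)
    (hB : ∀ v, ‖lead B v - a v‖ ≤ δ) (hM : ∀ v, ∀ γ ∈ Γ, ‖MvPowerSeries.coeff γ (B v)‖ ≤ M)
    (hS : ‖Φ k p‖ ≤ S) (hMx : ∀ v, ‖Φ (k + 1) (fun j => p j + w v j)‖ ≤ Mx)
    (hK : ∀ v, ∀ γ : ι →₀ ℕ, γ ≠ 0 → ‖Φ (k + 1) (fun j => p j + w v j + γ j)‖ ≤ K)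
    (o : Option ι) :
    ‖∑ v, fac w o v 0 * a v * Φ (k + 1) (fun j => p j + w v j)‖ ≤
      ‖rhs ν β k p o‖ * S + δ * (∑ v, Fc w v 0) * Mx + M * (∑ v, ∑ γ ∈ Γ, Fc w v γ) * K := by
  have h1 := rel hR k p hp (insert 0 Γ) (fun v γ hγ => h0 v γ fun h => hγ
    (Finset.mem_insert_of_mem h)) o
  have h2 : ∀ v, ∑ γ ∈ insert 0 Γ, fac w o v γ * (MvPowerSeries.coeff γ (B v) *
      Φ (k + 1) (fun j => p j + w v j + γ j)) =
      fac w o v 0 * (lead B v * Φ (k + 1) (fun j => p j + w v j)) +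
      ∑ γ ∈ Γ.erase 0, fac w o v γ * (MvPowerSeries.coeff γ (B v) *
        Φ (k + 1) (fun j => p j + w v j + γ j)) := by
    intro v
    rw [← Finset.add_sum_erase _ _ (Finset.mem_insert_self 0 Γ), Finset.erase_insert_eq_erase]
    congr 3
    congr 1
    funext j
    simp
  simp only [h2] at h1
  rw [Finset.sum_add_distrib] at h1
  have h3 : ∑ v, fac w o v 0 * a v * Φ (k + 1) (fun j => p j + w v j) =
      rhs ν β k p o * Φ k p -
      ∑ v, fac w o v 0 * (lead B v - a v) * Φ (k + 1) (fun j => p j + w v j) -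
      ∑ v, ∑ γ ∈ Γ.erase 0, fac w o v γ * (MvPowerSeries.coeff γ (B v) *
        Φ (k + 1) (fun j => p j + w v j + γ j)) := by
    rw [← h1]
    have h4 : ∑ v, fac w o v 0 * (lead B v - a v) * Φ (k + 1) (fun j => p j + w v j) =
        ∑ v, fac w o v 0 * (lead B v * Φ (k + 1) (fun j => p j + w v j)) -
        ∑ v, fac w o v 0 * a v * Φ (k + 1) (fun j => p j + w v j) := by
      rw [← Finset.sum_sub_distrib]
      exact Finset.sum_congr rfl fun v _ => by ring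
    rw [h4]
    ring
  rw [h3]
  have n1 : ‖rhs ν β k p o * Φ k p‖ ≤ ‖rhs ν β k p o‖ * S := by
    rw [norm_mul]
    exact mul_le_mul_of_nonneg_left hS (norm_nonneg _)
  have n2 : ‖∑ v, fac w o v 0 * (lead B v - a v) * Φ (k + 1) (fun j => p j + w v j)‖ ≤
      δ * (∑ v, Fc w v 0) * Mx := by
    refine (norm_sum_le _ _).trans ?_
    rw [Finset.mul_sum, Finset.sum_mul]
    refine Finset.sum_le_sum fun v _ => ?_
    rw [norm_mul, norm_mul, mul_comm δ]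
    exact mul_le_mul (mul_le_mul (fac_le w o v 0) (hB v) (norm_nonneg _) (Fc_nonneg w v 0))
      (hMx v) (norm_nonneg _) (mul_nonneg (Fc_nonneg w v 0) ((norm_nonneg _).trans (hB v)))
  have n3 : ‖∑ v, ∑ γ ∈ Γ.erase 0, fac w o v γ * (MvPowerSeries.coeff γ (B v) *
      Φ (k + 1) (fun j => p j + w v j + γ j))‖ ≤ M * (∑ v, ∑ γ ∈ Γ, Fc w v γ) * K := by
    refine (norm_sum_le _ _).trans ?_
    rw [Finset.mul_sum, Finset.sum_mul]
    refine Finset.sum_le_sum fun v _ => ?_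
    refine (norm_sum_le _ _).trans ?_
    rw [Finset.mul_sum, Finset.sum_mul]
    refine (Finset.sum_le_sum fun γ hγ => ?_).trans (Finset.sum_le_sum_of_subset_of_nonneg
      (Finset.erase_subset 0 Γ) fun γ _ _ => mul_nonneg (mul_nonneg hM0 (Fc_nonneg w v γ)) hK0)
    obtain ⟨h5, h6⟩ := Finset.mem_erase.1 hγ
    rw [norm_mul, norm_mul]
    calc ‖fac w o v γ‖ * (‖MvPowerSeries.coeff γ (B v)‖ * ‖Φ (k + 1) (fun j => p j + w v j + γ j)‖)
        ≤ Fc w v γ * (M * K) := mul_le_mul (fac_le w o v γ) (mul_le_mul (hM v γ h6) (hK v γ h5)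
          (norm_nonneg _) hM0) (mul_nonneg (norm_nonneg _) (norm_nonneg _)) (Fc_nonneg w v γ)
      _ = M * Fc w v γ * K := by ring
  refine (norm_sub_le _ _).trans ?_
  refine (add_le_add (norm_sub_le _ _) le_rfl).trans ?_
  exact add_le_add (add_le_add n1 n2) n3

/-- the value at the point `x^γ T^m` -/
noncomputable def pv (w : κ → ι → ℕ) (Φ : ℤ → (ι → ℤ) → ℂ) (k : ℤ) (u : ι → ℤ) (m : κ →₀ ℕ)
    (γ : ι →₀ ℕ) : ℂ :=
  Φ (k + (m.degree : ℕ)) (fun j => u j + γ j + ∑ v, (m v : ℤ) * w v j)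

/-- the exponent of `T` -/
noncomputable def cl (N : (κ ⊕ ι) →₀ ℕ) : κ →₀ ℕ :=
  N.comapDomain Sum.inl Sum.inl_injective.injOn

/-- the exponent of `x` -/
noncomputable def cr (N : (κ ⊕ ι) →₀ ℕ) : ι →₀ ℕ :=
  N.comapDomain Sum.inr Sum.inr_injective.injOn

theorem degree_cl (N : (κ ⊕ ι) →₀ ℕ) : (cl N).degree = tdeg N := by
  rw [Finsupp.degree_eq_sum]
  rfl

theorem val_eq (w : κ → ι → ℕ) (Φ : ℤ → (ι → ℤ) → ℂ) (k : ℤ) (u : ι → ℤ)
    (N : (κ ⊕ ι) →₀ ℕ) : val w Φ k u N = pv w Φ k u (cl N) (cr N) := by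
  unfold val pv
  rw [degree_cl]
  congr 1
  funext j
  unfold twt
  have h1 : ∀ v, cl N v = N (Sum.inl v) := fun v => rfl
  have h2 : cr N j = N (Sum.inr j) := rfl
  simp only [h1, h2]
  push_cast
  ring

theorem val_map (w : κ → ι → ℕ) (Φ : ℤ → (ι → ℤ) → ℂ) (k : ℤ) (u : ι → ℤ) (m : κ →₀ ℕ) :
    val w Φ k u (m.mapDomain Sum.inl) = pv w Φ k u m 0 := by
  unfold val pv
  rw [tdeg_map]
  congr 1
  funext j
  rw [twt_map]
  simp

theorem pv_shift (w : κ → ι → ℕ) (Φ : ℤ → (ι → ℤ) → ℂ) (k : ℤ) (u : ι → ℤ) (m m' : κ →₀ ℕ)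
    (γ γ' : ι →₀ ℕ) :
    pv w Φ (k + (m.degree : ℕ)) (fun j => u j + γ j + ∑ v, (m v : ℤ) * w v j) m' γ' =
      pv w Φ k u (m + m') (γ + γ') := by
  unfold pv
  have h1 : k + ((m + m').degree : ℕ) = k + (m.degree : ℕ) + (m'.degree : ℕ) := by
    rw [map_add]; push_cast; ring
  rw [h1]
  congr 1
  funext j
  simp only [Finsupp.add_apply, Nat.cast_add, add_mul, Finset.sum_add_distrib]
  ring

/-- the bound for one monomial of degree `d` -/
theorem core {w : κ → ι → ℕ} {a : κ → ℂ} {B : κ → MvPowerSeries ι ℂ} {J : Finset ι} {ν : ι → ℚ}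
    {β : ℚ} {k₀ : ℤ} {Φ : ℤ → (ι → ℤ) → ℂ} (hR : RlS w B J ν β k₀ Φ) (d : ℕ) (hd : 1 ≤ d)
    (m : κ →₀ ℕ) (G : Option ι → MvPolynomial (κ ⊕ ι) ℂ) (H : MvPolynomial (κ ⊕ ι) ℂ)
    (hG : ∀ o, ∀ N ∈ (G o).support, tdeg N = d - 1)
    (hH : ∀ N ∈ H.support, tdeg N = d ∧ ∃ i, N (Sum.inr i) ≠ 0)
    (hrep : ∀ Λ : MvPolynomial (κ ⊕ ι) ℂ →ₗ[ℂ] ℂ,
      (∀ M M' : (κ ⊕ ι) →₀ ℕ, tdeg M = tdeg M' → (∀ i, twt w M i = twt w M' i) →
        Λ (monomial M 1) = Λ (monomial M' 1)) →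
      Λ (monomial (m.mapDomain Sum.inl) 1) =
        ∑ o, Λ (G o * rename Sum.inl (LinF w a o)) + Λ H)
    (k : ℤ) (u : ι → ℤ) (hu : Al J u) (Γ : Finset (ι →₀ ℕ)) (δ M S Mx K : ℝ) (hM0 : 0 ≤ M)
    (hK0 : 0 ≤ K)
    (h0 : ∀ p : ι → ℤ, (∀ j, u j ≤ p j) → ∀ γ : ι →₀ ℕ, γ ∉ Γ →
      Φ (k + (d : ℕ)) (fun j => p j + γ j) = 0)
    (hB : ∀ v, ‖lead B v - a v‖ ≤ δ) (hM : ∀ v, ∀ γ ∈ Γ, ‖MvPowerSeries.coeff γ (B v)‖ ≤ M)
    (hS : ∀ (m : κ →₀ ℕ) (γ : ι →₀ ℕ), m.degree = d - 1 → ‖pv w Φ k u m γ‖ ≤ S)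
    (hMx : ∀ (m : κ →₀ ℕ) (γ : ι →₀ ℕ), m.degree = d → ‖pv w Φ k u m γ‖ ≤ Mx)
    (hK : ∀ (m : κ →₀ ℕ) (γ : ι →₀ ℕ), m.degree = d → γ ≠ 0 → ‖pv w Φ k u m γ‖ ≤ K) :
    ‖pv w Φ k u m 0‖ ≤
      (∑ o, ∑ N ∈ (G o).support, ‖(G o).coeff N‖ *
        ‖rhs ν β (k + ((d - 1 : ℕ) : ℤ)) (fun j => u j + (twt w N j : ℕ)) o‖) * S +
      (∑ o, ∑ N ∈ (G o).support, ‖(G o).coeff N‖) *
        (δ * (∑ v, Fc w v 0) * Mx + M * (∑ v, ∑ γ ∈ Γ, Fc w v γ) * K) +
      (∑ N ∈ H.support, ‖H.coeff N‖) * K := by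
  have h1 := hrep (LamA w Φ k u) (by
    intro M M' h1 h2
    rw [LamA_monomial, LamA_monomial]
    exact val_congr w Φ k u M M' h1 h2)
  rw [LamA_monomial, val_map] at h1
  rw [h1]
  have hd1 : k + ((d - 1 : ℕ) : ℤ) + 1 = k + (d : ℕ) := by omega
  refine (norm_add_le _ _).trans (add_le_add ?_ ?_)
  · have h2 : (∑ o, ∑ N ∈ (G o).support, ‖(G o).coeff N‖ *
          ‖rhs ν β (k + ((d - 1 : ℕ) : ℤ)) (fun j => u j + (twt w N j : ℕ)) o‖) * S +
        (∑ o, ∑ N ∈ (G o).support, ‖(G o).coeff N‖) *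
          (δ * (∑ v, Fc w v 0) * Mx + M * (∑ v, ∑ γ ∈ Γ, Fc w v γ) * K) =
        ∑ o, ∑ N ∈ (G o).support, ‖(G o).coeff N‖ *
          (‖rhs ν β (k + ((d - 1 : ℕ) : ℤ)) (fun j => u j + (twt w N j : ℕ)) o‖ * S +
            δ * (∑ v, Fc w v 0) * Mx + M * (∑ v, ∑ γ ∈ Γ, Fc w v γ) * K) := by
      rw [Finset.sum_mul, Finset.sum_mul, ← Finset.sum_add_distrib]
      refine Finset.sum_congr rfl fun o _ => ?_
      rw [Finset.sum_mul, Finset.sum_mul, ← Finset.sum_add_distrib]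
      refine Finset.sum_congr rfl fun N _ => ?_
      ring
    rw [h2]
    refine (norm_sum_le _ _).trans (Finset.sum_le_sum fun o _ => ?_)
    rw [LamA_sum]
    refine (norm_sum_le _ _).trans (Finset.sum_le_sum fun N hN => ?_)
    rw [norm_mul]
    refine mul_le_mul_of_nonneg_left ?_ (norm_nonneg _)
    have hN' : tdeg N = d - 1 := hG o N hN
    rw [LinF_eq, LamA_mul_lin]
    simp only [val_add_single, hN']
    have hp : ∀ j, u j ≤ u j + (twt w N j : ℕ) := fun j => by omega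
    have hpA : Al J (fun j => u j + (twt w N j : ℕ)) := fun j hj => (hu j hj).trans (hp j)
    have hcl : (cl N).degree = d - 1 := by rw [degree_cl, hN']
    -- values as `pv`
    have hv1 : ∀ (v : κ) (γ : ι →₀ ℕ),
        Φ (k + ((d - 1 : ℕ) : ℤ) + 1) (fun j => (u j + (twt w N j : ℕ)) + w v j + γ j) =
          pv w Φ k u (cl N + Finsupp.single v 1) (cr N + γ) := by
      intro v γ
      have e1 : pv w Φ k u (cl N + Finsupp.single v 1) (cr N + γ) =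
          val w Φ k (fun j => u j + γ j) (N + Finsupp.single (Sum.inl v) 1) := by
        rw [val_eq]
        have e2 : cl (N + Finsupp.single (Sum.inl v) 1) = cl N + Finsupp.single v 1 := by
          ext v'
          show (N + Finsupp.single (Sum.inl v) 1 : (κ ⊕ ι) →₀ ℕ) (Sum.inl v') =
            N (Sum.inl v') + (Finsupp.single v 1 : κ →₀ ℕ) v'
          rw [Finsupp.add_apply, Finsupp.single_apply, Finsupp.single_apply]
          simp only [Sum.inl.injEq]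
        have e3 : cr (N + Finsupp.single (Sum.inl v) 1) = cr N := by
          ext i
          show (N + Finsupp.single (Sum.inl v) 1 : (κ ⊕ ι) →₀ ℕ) (Sum.inr i) = N (Sum.inr i)
          rw [Finsupp.add_apply, Finsupp.single_apply, if_neg Sum.inl_ne_inr, add_zero]
        rw [e2, e3]
        unfold pv
        congr 1
        funext j
        simp only [Finsupp.add_apply, Nat.cast_add]
        ring
      rw [e1, val_add_single, hN']
      congr 1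
      funext j
      ring
    have hv0 : ∀ v : κ,
        Φ (k + ((d - 1 : ℕ) : ℤ) + 1) (fun j => (u j + (twt w N j : ℕ)) + w v j) =
          pv w Φ k u (cl N + Finsupp.single v 1) (cr N) := by
      intro v
      have := hv1 v 0
      simp only [Finsupp.coe_zero, Pi.zero_apply, Nat.cast_zero, add_zero] at this
      exact this
    have hdeg : ∀ v : κ, (cl N + Finsupp.single v 1).degree = d := by
      intro v
      rw [map_add, Finsupp.degree_single, hcl]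
      omega
    refine lin_bound hR a (k + ((d - 1 : ℕ) : ℤ)) (fun j => u j + (twt w N j : ℕ)) hpA Γ δ M S
      Mx K hM0 hK0 ?_ hB hM ?_ ?_ ?_ o
    · intro v γ hγ
      rw [hd1]
      exact h0 (fun j => u j + (twt w N j : ℕ) + w v j) (fun j => by
        have := hp j
        have h3 : (0 : ℤ) ≤ (w v j : ℤ) := by positivity
        linarith) γ hγ
    · have := hS (cl N) (cr N) hcl
      rw [← val_eq] at this
      unfold val at this
      rw [hN'] at this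
      exact this
    · intro v
      rw [hv0]
      exact hMx _ _ (hdeg v)
    · intro v γ hγ
      rw [hv1]
      refine hK _ _ (hdeg v) fun h => hγ ?_
      ext i
      have := DFunLike.congr_fun h i
      simp only [Finsupp.add_apply, Finsupp.coe_zero, Pi.zero_apply] at this
      simp only [Finsupp.coe_zero, Pi.zero_apply]
      omega
  · rw [LamA_eq, Finset.sum_mul]
    refine (norm_sum_le _ _).trans (Finset.sum_le_sum fun N hN => ?_)
    rw [norm_mul]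
    refine mul_le_mul_of_nonneg_left ?_ (norm_nonneg _)
    obtain ⟨h3, i, h4⟩ := hH N hN
    rw [val_eq]
    refine hK _ _ (by rw [degree_cl, h3]) fun h => h4 ?_
    exact DFunLike.congr_fun h i

/-- only finitely many `γ` matter -/
theorem fin_set (X : Finset ((ι → ℚ) × ℚ)) (hX : XPos X) (R : ((ι → ℚ) × ℚ) → ℚ) :
    {γ : ι →₀ ℕ | ∃ q ∈ X, ∑ i, q.1 i * (γ i : ℚ) ≤ R q}.Finite := by
  have h : {γ : ι →₀ ℕ | ∃ q ∈ X, ∑ i, q.1 i * (γ i : ℚ) ≤ R q} =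
      ⋃ q ∈ (X : Set ((ι → ℚ) × ℚ)), {γ : ι →₀ ℕ | ∑ i, q.1 i * (γ i : ℚ) ≤ R q} := by
    ext γ
    simp
  rw [h]
  refine X.finite_toSet.biUnion fun q hq => ?_
  refine (Set.finite_Iic (Finsupp.equivFunOnFinite.symm fun i => ⌈R q / q.1 i⌉₊)).subset ?_
  intro γ hγ
  rw [Set.mem_Iic]
  intro i
  have hγ' : ∑ i, q.1 i * (γ i : ℚ) ≤ R q := hγ
  have hqi : 0 < q.1 i := hX q hq i
  have h1 : q.1 i * (γ i : ℚ) ≤ R q := by
    refine (Finset.single_le_sum (f := fun i => q.1 i * (γ i : ℚ)) (fun i _ => ?_)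
      (Finset.mem_univ i)).trans hγ'
    have := hX q hq i
    positivity
  have h2 : (γ i : ℚ) ≤ R q / q.1 i := by
    rw [le_div_iff₀ hqi, mul_comm]
    exact h1
  have h3 : (γ i : ℚ) ≤ (⌈R q / q.1 i⌉₊ : ℚ) := h2.trans (Nat.le_ceil _)
  exact_mod_cast h3

/-- the vanishing outside of a finite set -/
theorem exists_Gam (J : Finset ι) (ν : ι → ℚ) (β : ℚ) (X : Finset ((ι → ℚ) × ℚ)) (hX : XPos X)
    (k : ℤ) (u : ι → ℤ) (hu : Al J u) : ∃ Γ : Finset (ι →₀ ℕ),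
      ∀ Φ : ℤ → (ι → ℤ) → ℂ, SB J ν β X Φ → ∀ p : ι → ℤ, (∀ j, u j ≤ p j) →
        ∀ γ : ι →₀ ℕ, γ ∉ Γ → Φ k (fun j => p j + γ j) = 0 := by
  have hfin := fin_set X hX fun q => q.2 * ((k : ℚ) - β) - ∑ i, q.1 i * ((u i : ℚ) + 1 + ν i)
  refine ⟨hfin.toFinset, fun Φ hΦ p hp γ hγ => ?_⟩
  by_contra hne
  apply hγ
  rw [Set.Finite.mem_toFinset]
  have hA : Al J (fun j => p j + γ j) := by
    intro j hj
    have h1 := hu j hj
    have h2 := hp j
    show 0 ≤ p j + γ j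
    omega
  obtain ⟨q, hq, h1⟩ := hΦ k _ hA hne
  refine ⟨q, hq, ?_⟩
  have h2 : ∑ i, q.1 i * ((u i : ℚ) + 1 + ν i) + ∑ i, q.1 i * (γ i : ℚ) ≤
      ∑ i, q.1 i * (((p i + γ i : ℤ) : ℚ) + 1 + ν i) := by
    rw [← Finset.sum_add_distrib]
    refine Finset.sum_le_sum fun i _ => ?_
    have h3 : (u i : ℚ) ≤ (p i : ℚ) := by exact_mod_cast hp i
    have h4 := (hX q hq i).le
    push_cast
    nlinarith
  linarith

/-- all exponents of degree `d` -/
def Dg (κ : Type) [Fintype κ] [DecidableEq κ] (d : ℕ) : Finset (κ →₀ ℕ) :=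
  Finset.finsuppAntidiag Finset.univ d

theorem mem_Dg (d : ℕ) (m : κ →₀ ℕ) : m ∈ Dg κ d ↔ m.degree = d := by
  unfold Dg
  rw [Finset.mem_finsuppAntidiag, Finsupp.degree_eq_sum]
  constructor
  · rintro ⟨h, _⟩
    exact h
  · intro h
    exact ⟨h, Finset.subset_univ _⟩

end

end ABSLAux

open ABSLAux in
theorem stmt_ABSL (hN : Stmt_NLS) : Stmt_ABSL := by
  intro ι κ _ _ _ _ w a ha
  obtain ⟨d, hd, hm⟩ := hN ι κ w a ha
  have hm' : ∀ m : κ →₀ ℕ, ∃ (G : Option ι → MvPolynomial (κ ⊕ ι) ℂ)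
      (H : MvPolynomial (κ ⊕ ι) ℂ), m.degree = d →
        (∀ o, ∀ M ∈ (G o).support, tdeg M = d - 1) ∧
        (∀ M ∈ H.support, tdeg M = d ∧ ∃ i, M (Sum.inr i) ≠ 0) ∧
        ∀ Λ : MvPolynomial (κ ⊕ ι) ℂ →ₗ[ℂ] ℂ,
          (∀ M M' : (κ ⊕ ι) →₀ ℕ, tdeg M = tdeg M' → (∀ i, twt w M i = twt w M' i) →
            Λ (monomial M 1) = Λ (monomial M' 1)) →
          Λ (monomial (m.mapDomain Sum.inl) 1) =
            ∑ o, Λ (G o * rename Sum.inl (LinF w a o)) + Λ H := by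
    intro m
    by_cases h : m.degree = d
    · obtain ⟨G, H, hG⟩ := hm m h
      exact ⟨G, H, fun _ => hG⟩
    · exact ⟨fun _ => 0, 0, fun h' => absurd h' h⟩
  choose G H hGH using hm'
  -- the constants
  let A1 : (κ →₀ ℕ) → ℝ := fun m => ∑ o, ∑ N ∈ (G m o).support, ‖(G m o).coeff N‖
  let A2 : (κ →₀ ℕ) → ℝ := fun m => ∑ N ∈ (H m).support, ‖(H m).coeff N‖
  have hA1 : ∀ m, 0 ≤ A1 m := fun m =>
    Finset.sum_nonneg fun o _ => Finset.sum_nonneg fun N _ => norm_nonneg _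
  have hA2 : ∀ m, 0 ≤ A2 m := fun m => Finset.sum_nonneg fun N _ => norm_nonneg _
  let T1 : ℝ := ∑ m ∈ Dg κ d, A1 m
  let T2 : ℝ := ∑ m ∈ Dg κ d, A2 m
  have hT1 : 0 ≤ T1 := Finset.sum_nonneg fun m _ => hA1 m
  have hT2 : 0 ≤ T2 := Finset.sum_nonneg fun m _ => hA2 m
  have hAT1 : ∀ m : κ →₀ ℕ, m.degree = d → A1 m ≤ T1 := fun m h =>
    Finset.single_le_sum (f := A1) (fun m _ => hA1 m) ((mem_Dg d m).2 h)
  have hAT2 : ∀ m : κ →₀ ℕ, m.degree = d → A2 m ≤ T2 := fun m h =>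
    Finset.single_le_sum (f := A2) (fun m _ => hA2 m) ((mem_Dg d m).2 h)
  let Kc : ℝ := ∑ v, Fc w v 0
  have hKc : 0 ≤ Kc := Finset.sum_nonneg fun v _ => Fc_nonneg w v 0
  refine ⟨d, 1 / (4 * (T1 * Kc + 1)), hd, by positivity, ?_⟩
  intro J ν β k₀ X hX k u hu D hD
  set δ : ℝ := 1 / (4 * (T1 * Kc + 1)) with hδ
  have hδ0 : 0 ≤ δ := by positivity
  have hδC : T1 * (δ * Kc) ≤ 1 / 4 := by
    have h1 : 0 ≤ T1 * Kc := mul_nonneg hT1 hKc
    have h2 : T1 * (δ * Kc) = T1 * Kc / (4 * (T1 * Kc + 1)) := by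
      rw [hδ]; ring
    rw [h2, div_le_div_iff₀ (by positivity) (by norm_num)]
    linarith
  obtain ⟨Γ, hΓ⟩ := exists_Gam J ν β X hX (k + (D : ℕ)) u hu
  refine ⟨Γ, fun M₀ => ?_⟩
  let M : ℝ := |M₀|
  have hM0 : 0 ≤ M := abs_nonneg _
  let W : ℝ := M * ∑ v, ∑ γ ∈ Γ, Fc w v γ
  have hW : 0 ≤ W := mul_nonneg hM0 (Finset.sum_nonneg fun v _ =>
    Finset.sum_nonneg fun γ _ => Fc_nonneg w v γ)
  -- the hypotheses
  let Hy : (κ → MvPowerSeries ι ℂ) → (ℤ → (ι → ℤ) → ℂ) → ℝ → Prop := fun B Φ S =>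
    (∀ v, ‖lead B v - a v‖ ≤ δ) ∧ (∀ v, ∀ γ ∈ Γ, ‖MvPowerSeries.coeff γ (B v)‖ ≤ M) ∧
    RlS w B J ν β k₀ Φ ∧ SB J ν β X Φ ∧ 0 ≤ S ∧
    ∀ (m : κ →₀ ℕ) (γ : ι →₀ ℕ), m.degree = D - 1 → ‖pv w Φ k u m γ‖ ≤ S
  -- the choice of a divisor of degree `d`
  have hdiv : ∀ m : κ →₀ ℕ, ∃ m₁ m₂ : κ →₀ ℕ, m.degree = D →
      m₂ + m₁ = m ∧ m₁.degree = d ∧ m₂.degree = D - d := by
    intro m
    by_cases h : m.degree = D
    · obtain ⟨m₁, h1, h2⟩ := Finsupp.exists_le_degree_eq m d (by omega)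
      refine ⟨m₁, m - m₁, fun _ => ⟨tsub_add_cancel_of_le h1, h2, ?_⟩⟩
      have h3 : (m - m₁ + m₁).degree = D := by rw [tsub_add_cancel_of_le h1, h]
      rw [map_add, h2] at h3
      omega
    · exact ⟨0, 0, fun h' => absurd h' h⟩
  choose m₁ m₂ hmm using hdiv
  have step : ∀ j : ℕ, (∃ C : ℝ, 0 ≤ C ∧ ∀ B Φ S, Hy B Φ S → ∀ (m : κ →₀ ℕ) (γ : ι →₀ ℕ),
      m.degree = D → j + 1 ≤ γ.degree → ‖pv w Φ k u m γ‖ ≤ C * S) →
      ∃ C : ℝ, 0 ≤ C ∧ ∀ B Φ S, Hy B Φ S → ∀ (m : κ →₀ ℕ) (γ : ι →₀ ℕ),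
        m.degree = D → j ≤ γ.degree → ‖pv w Φ k u m γ‖ ≤ C * S := by
    rintro j ⟨C', hC', hj⟩
    let u' : (κ →₀ ℕ) → (ι →₀ ℕ) → ι → ℤ := fun m γ j =>
      u j + γ j + ∑ v, (m₂ m v : ℤ) * w v j
    let c : (κ →₀ ℕ) → (ι →₀ ℕ) → ℝ := fun m γ =>
      ∑ o, ∑ N ∈ (G (m₁ m) o).support, ‖(G (m₁ m) o).coeff N‖ *
        ‖rhs ν β (k + ((m₂ m).degree : ℕ) + ((d - 1 : ℕ) : ℤ))
          (fun j => u' m γ j + (twt w N j : ℕ)) o‖
    have hc : ∀ m γ, 0 ≤ c m γ := fun m γ => Finset.sum_nonneg fun o _ =>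
      Finset.sum_nonneg fun N _ => mul_nonneg (norm_nonneg _) (norm_nonneg _)
    let c₁ : ℝ := ∑ m ∈ Dg κ D, ∑ γ ∈ Dg ι j, c m γ
    have hc₁ : 0 ≤ c₁ := Finset.sum_nonneg fun m _ => Finset.sum_nonneg fun γ _ => hc m γ
    have hcc : ∀ (m : κ →₀ ℕ) (γ : ι →₀ ℕ), m.degree = D → γ.degree = j → c m γ ≤ c₁ := by
      intro m γ h1 h2
      exact (Finset.single_le_sum (f := fun γ => c m γ) (fun γ _ => hc m γ)
        ((mem_Dg j γ).2 h2)).trans (Finset.single_le_sum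
        (f := fun m => ∑ γ ∈ Dg ι j, c m γ) (fun m _ => Finset.sum_nonneg fun γ _ => hc m γ)
        ((mem_Dg D m).2 h1))
    refine ⟨2 * (c₁ + (T1 * W + T2 + 1) * C'), by positivity, ?_⟩
    intro B Φ S hHy m γ hmD hγj
    obtain ⟨hB, hBM, hR, hSB, hS, hlow⟩ := hHy
    have hjj := hj B Φ S ⟨hB, hBM, hR, hSB, hS, hlow⟩
    set K : ℝ := C' * S with hK
    have hK0 : 0 ≤ K := mul_nonneg hC' hS
    have hTW : 0 ≤ T1 * W := mul_nonneg hT1 hW
    have hCS : 2 * (c₁ + (T1 * W + T2 + 1) * C') * S =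
        2 * (c₁ * S) + 2 * (T1 * W * K) + 2 * (T2 * K) + 2 * K := by
      rw [hK]; ring
    rw [hCS]
    have p1 : 0 ≤ c₁ * S := mul_nonneg hc₁ hS
    have p2 : 0 ≤ T1 * W * K := mul_nonneg hTW hK0
    have p3 : 0 ≤ T2 * K := mul_nonneg hT2 hK0
    rcases Nat.lt_or_ge j γ.degree with hlt | hge
    · have := hjj m γ hmD hlt
      linarith
    have hγe : γ.degree = j := le_antisymm hge hγj
    obtain ⟨⟨mx, γx⟩, hxm, hx⟩ := Finset.exists_max_image (Dg κ D ×ˢ Dg ι j)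
      (fun q => ‖pv w Φ k u q.1 q.2‖)
      ⟨(m, γ), Finset.mem_product.2 ⟨(mem_Dg D m).2 hmD, (mem_Dg j γ).2 hγe⟩⟩
    obtain ⟨hx1, hx2⟩ := Finset.mem_product.1 hxm
    have hx1' : mx.degree = D := (mem_Dg D mx).1 hx1
    have hx2' : γx.degree = j := (mem_Dg j γx).1 hx2
    let Mx : ℝ := ‖pv w Φ k u mx γx‖ + K
    have hMx : ∀ (m : κ →₀ ℕ) (γ : ι →₀ ℕ), m.degree = D → j ≤ γ.degree →
        ‖pv w Φ k u m γ‖ ≤ Mx := by
      intro m γ h1 h2
      show ‖pv w Φ k u m γ‖ ≤ ‖pv w Φ k u mx γx‖ + K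
      rcases Nat.lt_or_ge j γ.degree with hlt | hge
      · have := hjj m γ h1 hlt
        have h3 := norm_nonneg (pv w Φ k u mx γx)
        linarith
      · have := hx (m, γ) (Finset.mem_product.2 ⟨(mem_Dg D m).2 h1,
          (mem_Dg j γ).2 (le_antisymm hge h2)⟩)
        linarith
    obtain ⟨e1, e2, e3⟩ := hmm mx hx1'
    obtain ⟨g1, g2, g3⟩ := hGH (m₁ mx) e2
    have hk' : k + ((m₂ mx).degree : ℕ) + (d : ℕ) = k + (D : ℕ) := by
      rw [e3]; omega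
    have huu : ∀ j, u j ≤ u' mx γx j := by
      intro j
      have h1 : (0 : ℤ) ≤ ∑ v, (m₂ mx v : ℤ) * w v j :=
        Finset.sum_nonneg fun v _ => by positivity
      have h2 : (0 : ℤ) ≤ (γx j : ℤ) := by positivity
      show u j ≤ u j + γx j + ∑ v, (m₂ mx v : ℤ) * w v j
      linarith
    have hu' : Al J (u' mx γx) := fun j hj => (hu j hj).trans (huu j)
    have hcore := core hR d hd (m₁ mx) (G (m₁ mx)) (H (m₁ mx)) g1 g2 g3
      (k + ((m₂ mx).degree : ℕ)) (u' mx γx) hu' Γ δ M S Mx K hM0 hK0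
      (by
        intro p hp γ hγ
        rw [hk']
        exact hΓ Φ hSB p (fun j => (huu j).trans (hp j)) γ hγ)
      hB hBM
      (by
        intro m' γ' h1
        rw [pv_shift]
        exact hlow _ _ (by rw [map_add, e3, h1]; omega))
      (by
        intro m' γ' h1
        rw [pv_shift]
        exact hMx _ _ (by rw [map_add, e3, h1]; omega) (by rw [map_add, hx2']; omega))
      (by
        intro m' γ' h1 h2
        rw [pv_shift]
        refine hjj _ _ (by rw [map_add, e3, h1]; omega) ?_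
        have h3 : γ'.degree ≠ 0 := fun h => h2 ((Finsupp.degree_eq_zero_iff γ').1 h)
        rw [map_add, hx2']
        omega)
    have hval : pv w Φ (k + ((m₂ mx).degree : ℕ)) (u' mx γx) (m₁ mx) 0 =
        pv w Φ k u mx γx := by
      rw [pv_shift, e1, add_zero]
    rw [hval] at hcore
    have hMx0 : 0 ≤ Mx := add_nonneg (norm_nonneg _) hK0
    have q1 : c mx γx * S ≤ c₁ * S := mul_le_mul_of_nonneg_right (hcc mx γx hx1' hx2') hS
    have q2 : A1 (m₁ mx) * (δ * Kc * Mx + W * K) ≤ 1 / 4 * Mx + T1 * W * K := by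
      have h1 : A1 (m₁ mx) * (δ * Kc * Mx + W * K) ≤ T1 * (δ * Kc * Mx + W * K) :=
        mul_le_mul_of_nonneg_right (hAT1 _ e2) (add_nonneg (mul_nonneg (mul_nonneg hδ0 hKc) hMx0)
          (mul_nonneg hW hK0))
      have h2 : T1 * (δ * Kc) * Mx ≤ 1 / 4 * Mx := mul_le_mul_of_nonneg_right hδC hMx0
      have h3 : T1 * (δ * Kc * Mx + W * K) = T1 * (δ * Kc) * Mx + T1 * W * K := by ring
      linarith
    have q3 : A2 (m₁ mx) * K ≤ T2 * K := mul_le_mul_of_nonneg_right (hAT2 _ e2) hK0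
    have hcore' : ‖pv w Φ k u mx γx‖ ≤ c mx γx * S + A1 (m₁ mx) * (δ * Kc * Mx + W * K) +
        A2 (m₁ mx) * K := hcore
    have hMxd : Mx = ‖pv w Φ k u mx γx‖ + K := rfl
    have hfin := hMx m γ hmD hγj
    have n0 := norm_nonneg (pv w Φ k u mx γx)
    linarith
  -- descending induction
  have hall : ∀ n j : ℕ, (Γ.sup fun γ => γ.degree) + 1 ≤ j + n →
      ∃ C : ℝ, 0 ≤ C ∧ ∀ B Φ S, Hy B Φ S → ∀ (m : κ →₀ ℕ) (γ : ι →₀ ℕ),
        m.degree = D → j ≤ γ.degree → ‖pv w Φ k u m γ‖ ≤ C * S := by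
    intro n
    induction n with
    | zero =>
      intro j hj
      refine ⟨0, le_rfl, fun B Φ S hHy m γ hmD hγ => ?_⟩
      have hγΓ : γ ∉ Γ := by
        intro h
        have h5 : γ.degree ≤ Γ.sup fun γ => γ.degree :=
          Finset.le_sup (f := fun γ : ι →₀ ℕ => γ.degree) h
        omega
      have hz := hΓ Φ hHy.2.2.2.1 (fun j => u j + ∑ v, (m v : ℤ) * w v j) (fun j => by
        have h1 : (0 : ℤ) ≤ ∑ v, (m v : ℤ) * w v j := Finset.sum_nonneg fun v _ => by positivity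
        linarith) γ hγΓ
      have he : pv w Φ k u m γ = 0 := by
        unfold pv
        rw [hmD, ← hz]
        congr 1
        funext j
        ring
      rw [he, norm_zero, zero_mul]
    | succ n ih =>
      intro j hj
      exact step j (ih (j + 1) (by omega))
  obtain ⟨C, hC, hCb⟩ := hall _ 0 (le_of_eq (zero_add _).symm)
  refine ⟨C, hC, ?_⟩
  intro B Φ S hB hBM hR hSB hS hlow m γ hmD
  have h1 : Hy B Φ S := by
    refine ⟨hB, fun v γ hγ => (hBM v γ hγ).trans (le_abs_self _), hR, hSB, hS, ?_⟩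
    intro m' γ' h2
    unfold pv
    rw [h2]
    exact hlow m' γ' h2
  have h2 := hCb B Φ S h1 m γ hmD (Nat.zero_le _)
  unfold pv at h2
  rw [hmD] at h2
  exact h2

end Pool.Agent.Mono.LO
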