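import Pool.Agent.Work.Monodromy.InterfaceL
import Pool.Agent.Work.Monodromy14.ASM14
import Pool.Agent.Work.Monodromy9.STP9
import Pool.Agent.Work.Monodromy.Cubic

/-!
# Phase L: the theorem from the blocks (helper2)
-/

set_option autoImplicit false

namespace Pool.Agent.Mono.LO

open MvPolynomial Filter Topology NP

namespace ASMLAux

open FinalAux

/-! ## Poles -/

theorem gpo_zero {ι : Type} (f : MvPolynomial ι ℂ) : GPo f 0 := by
  intro s hs
  simp at hs

theorem gpo_C_mul {ι : Type} {f : MvPolynomial ι ℂ} {R : RatFunc ℚ} (h : GPo f R) (q : ℚ) :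
    GPo f (RatFunc.C q * R) := by
  intro s hs
  rcases pole_mul hs with h1 | h1
  · rw [RatFunc.denom_C] at h1
    simp at h1
  · exact h s h1

theorem gpo_sum {ι : Type} {f : MvPolynomial ι ℂ} {β : Type} [Fintype β] {V : β → RatFunc ℚ}
    (h : ∀ b, GPo f (V b)) : GPo f (∑ b, V b) := by
  intro s hs
  obtain ⟨b, hb⟩ := ASM14Aux.pole_sum V s hs
  exact h b s hb

/-! ## Local jets -/

theorem con_start {ι : Type} [Finite ι] (p : ι → ℂ) {τ : Type} (c : ι → τ) :
    Constructible {z : τ → ℂ | ∀ i, z (c i) = p i} := by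
  have h1 : {z : τ → ℂ | ∀ i, z (c i) = p i} =
      {z : τ → ℂ | ∀ i, eval z (X (c i) - C (p i)) = 0} := by
    ext z
    simp only [Set.mem_setOf_eq, map_sub, eval_X, eval_C, sub_eq_zero]
  rw [h1]
  exact Constructible.all fun i => Constructible.zero _

theorem con_contactJetsAt {ι : Type} [Finite ι] (f : MvPolynomial ι ℂ) (p : ι → ℂ) (k : ℕ) :
    Constructible (contactJetsAt f p k) :=
  (constructible_contactJets f k).and (con_start p fun i => (i, (0 : Fin (k + 1))))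

theorem con_jetAt {ι : Type} [Finite ι] (f : MvPolynomial ι ℂ) (p : ι → ℂ) (e k : ℕ) :
    Constructible (jetAt f p e k) :=
  (constructible_jetSet f e k).and (con_start p fun i => Sum.inl (i, (0 : Fin (k + 1))))

theorem val_jetAt_one {R : Type} [CommRing R] (μ : MotivicMeasure R) {ι : Type} [Finite ι]
    (f : MvPolynomial ι ℂ) (p : ι → ℂ) (k : ℕ) :
    μ.val (jetAt f p 1 k) = μ.val (contactJetsAt f p k) := by
  refine μ.map _ _ (fun s => X (Sum.inl s)) (con_jetAt f p 1 k) (con_contactJetsAt f p k)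
    ⟨?_, ?_, ?_⟩
  · intro z hz
    simp only [eval_X]
    exact ⟨⟨hz.1.1, hz.1.2.1⟩, hz.2⟩
  · intro z hz z' hz' h
    have h1 : ∀ s, z (Sum.inl s) = z' (Sum.inl s) := by
      intro s
      have := congrFun h s
      simpa using this
    have h2 : (fun s => z (Sum.inl s)) = fun s => z' (Sum.inl s) := funext h1
    funext s
    rcases s with s | s
    · exact h1 s
    · have e1 := hz.1.2.2
      have e2 := hz'.1.2.2
      rw [pow_one] at e1 e2
      rw [h2] at e1
      rw [show s = () from rfl, e1, e2]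
  · intro v hv
    refine ⟨Sum.elim v fun _ => (aeval (jet v) f : Polynomial ℂ).coeff k, ?_, ?_⟩
    · refine ⟨⟨hv.1.1, hv.1.2, ?_⟩, hv.2⟩
      simp
    · funext s
      simp

/-- the untwisted local zeta function -/
theorem tw_of_top {ι : Type} [Fintype ι] (P : HodgeMeasure) (f : MvPolynomial ι ℂ) (p : ι → ℂ)
    (R : RatFunc ℚ) (h : IsTopologicalZetaAt P f p R) :
    ∃ q : ℚ, IsTwTopZetaAt P f p 1 (R + RatFunc.C q) := by
  have h2 := (LimOne.toRat (-P.val (contactJetsAt f p 0)))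
  refine ⟨(((-P.val (contactJetsAt f p 0)).eval 1 : ℤ) : ℚ), fun _ =>
    R + RatFunc.C ((((-P.val (contactJetsAt f p 0)).eval 1 : ℤ) : ℚ)), fun d hd => ?_, ?_⟩
  · rw [Nat.divisors_one, Finset.mem_singleton] at hd
    subst hd
    have h3 : locSer1 P.rat (RatFunc.X)⁻¹ f p 1 = (PowerSeries.mk fun k =>
        toRat (P.val (contactJetsAt f p k)) * (RatFunc.X)⁻¹ ^ (k * Fintype.card ι)) +
        PowerSeries.C (toRat (-P.val (contactJetsAt f p 0))) := by
      ext k
      rw [map_add, locSer1, PowerSeries.coeff_mk, PowerSeries.coeff_mk, PowerSeries.coeff_C]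
      by_cases hk : k = 0
      · subst hk
        simp
      · rw [if_neg hk, if_neg hk, add_zero, val_jetAt_one]
        rfl
    rw [h3]
    exact IsLim.add h (IsLim.C h2)
  · simp

/-- points outside of `f = 0` -/
theorem gpo_off {ι : Type} [Fintype ι] (P : HodgeMeasure) (f : MvPolynomial ι ℂ) (p : ι → ℂ)
    (hp : eval p f ≠ 0) (e : ℕ) (he : 1 ≤ e) (R : RatFunc ℚ) (hR : IsTwTopZetaAt P f p e R) :
    GPo f R := by
  obtain ⟨r, hr, hR⟩ := hR
  have hemp : ∀ d k : ℕ, k ≠ 0 → jetAt f p d k = ∅ := by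
    intro d k hk
    rw [Set.eq_empty_iff_forall_notMem]
    rintro z ⟨⟨h1, -, -⟩, h2⟩
    have h3 := h1 0 (Nat.pos_of_ne_zero hk)
    apply hp
    rw [← h3, Polynomial.coeff_zero_eq_eval_zero]
    have h4 : ∀ g : MvPolynomial ι ℂ, eval p g =
        Polynomial.eval 0 (aeval (jet fun s => z (Sum.inl s)) g : Polynomial ℂ) := by
      intro g
      induction g using MvPolynomial.induction_on with
      | C a => simp
      | add g g' h h' => rw [map_add, map_add, Polynomial.eval_add, h, h']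
      | mul_X g i h =>
        rw [map_mul, map_mul, Polynomial.eval_mul, h, eval_X, aeval_X]
        congr 1
        rw [jet, Polynomial.eval_finsetSum, Finset.sum_eq_single (0 : Fin (k + 1))]
        · simp [h2 i]
        · intro l _ hl
          have : (l : ℕ) ≠ 0 := fun h0 => hl (Fin.ext h0)
          simp [this]
        · intro h0
          exact absurd (Finset.mem_univ _) h0
    exact h4 f
  have hz : ∀ d, locSer1 P.rat (RatFunc.X)⁻¹ f p d = 0 := by
    intro d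
    ext k
    rw [locSer1, PowerSeries.coeff_mk]
    by_cases hk : k = 0
    · simp [hk]
    · rw [if_neg hk, hemp d k hk, val_empty, zero_mul]
      simp
  have h0 : ∀ d ∈ e.divisors, r d = 0 := by
    intro d hd
    have h1 := hr d hd
    rw [hz d] at h1
    exact stmt_Uniq _ _ _ h1 IsLim.zero
  have h1 : RatFunc.C (e.totient : ℚ) * R = 0 := by
    rw [hR]
    refine Finset.sum_eq_zero fun d hd => ?_
    rw [h0 d hd, mul_zero]
  have htot : ((e.totient : ℚ)) ≠ 0 := by exact_mod_cast (Nat.totient_pos.2 he).ne'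
  have h2 : R = 0 := by
    rcases mul_eq_zero.1 h1 with h | h
    · exact absurd ((map_eq_zero _).1 h) htot
    · exact h
  rw [h2]
  exact gpo_zero f

end ASMLAux

open FinalAux ASMLAux

/-- points where `f` is nondegenerate in formal coordinates -/
theorem loc_nd (hDCP : Stmt_DCP) (hHLOC : Stmt_HLOC) (hTRZ : Stmt_TRZ) (hIL : Stmt_IL)
    (hIIIL : Stmt_IIIL) (E : EulerMeasure) {ι : Type} [Fintype ι] [DecidableEq ι]
    (f : MvPolynomial ι ℂ) (hf : f.totalDegree ≠ 0) (p : ι → ℂ) (hp : IsNondegenerateAt f p)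
    (e : ℕ) (he : 1 ≤ e) (R : RatFunc ℚ) (hR : IsTwTopZetaAt E.toHodgeMeasure f p e R) :
    GPo f R := by
  classical
  obtain ⟨φ, hφ1, hφ2, hnd⟩ := hp
  have hφ : FCo p φ := ⟨hφ1, hφ2⟩
  obtain ⟨κ, i1, i2, w, A, hne, hinj, hA, hN⟩ := hDCP ι (aeval φ f) hnd
  obtain ⟨h, hh, hC⟩ := hHLOC ι κ w
  obtain ⟨P, D, hTP, hD, hpole⟩ := part_II ι κ w h e hinj hh he
  have hR' := hTRZ E.toHodgeMeasure ι κ f p φ w A e R hφ hA hN he hR
  obtain ⟨c, hc⟩ := hIL E ι κ w (lead A) h e R P D hinj hN hh hC he hR' hTP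
  intro s hs
  by_cases hz : ∃ z : ℤ, s = z
  · obtain ⟨z, rfl⟩ := hz
    exact eig_z f hf z
  push Not at hz
  have htot : ((e.totient : ℚ)) ≠ 0 := by exact_mod_cast (Nat.totient_pos.2 he).ne'
  have h1 : Polynomial.aeval s (RatFunc.C (e.totient : ℚ) * R + RatFunc.C c).denom = 0 :=
    SSAux.pole_add_C (SSAux.pole_C_mul htot hs)
  have h2 : RatFunc.C (e.totient : ℚ) * R + RatFunc.C c =
      pref e * (aeval (line ι) P / aeval (line ι) D) := by
    rw [← mul_div_assoc, ← hc, mul_div_assoc, div_self hD, mul_one]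
  rw [h2] at h1
  rcases pole_mul h1 with h3 | h3
  · exact absurd (by rw [pole_pref h3]; push_cast; rfl) (hz (-1))
  · obtain ⟨s₀, hs₀, hL⟩ := hpole s hz h3
    have hs₀z : ∀ z : ℤ, s₀ ≠ z := by
      intro z hz'
      apply hz z
      rw [← hs₀, hz']
      simp
    obtain ⟨β, z, hβ, hW⟩ := hIIIL ι κ f p φ w A h s₀ hφ hA hN hC hh hs₀z hL
    rw [← hs₀]
    exact eig_wit f s₀ β z hs₀z hβ hW

/-- stably nondegenerate points -/
theorem loc_st (hDCP : Stmt_DCP) (hHLOC : Stmt_HLOC) (hTRZ : Stmt_TRZ) (hIL : Stmt_IL)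
    (hIIIL : Stmt_IIIL) (hSTN : Stmt_STN) (E : EulerMeasure) {ι : Type} [Fintype ι]
    [DecidableEq ι] (f : MvPolynomial ι ℂ) (hf : f.totalDegree ≠ 0) (p : ι → ℂ)
    (h0 : eval p f = 0) (hp : IsStablyNondegenerateAt f p)
    (e : ℕ) (he : 1 ≤ e) (R : RatFunc ℚ) (hR : IsTwTopZetaAt E.toHodgeMeasure f p e R) :
    GPo f R := by
  classical
  obtain ⟨N, hN⟩ := hp
  refine hSTN ι f p E.toHodgeMeasure N hf h0 (fun e R he hR => ?_) e R he hR
  exact loc_nd hDCP hHLOC hTRZ hIL hIIIL E (susN N f) (Cub.totalDegree_susN N hf)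
    (Sum.elim p fun _ => 0) hN e he R hR

/-- one point -/
theorem loc_pt (hDCP : Stmt_DCP) (hHLOC : Stmt_HLOC) (hTRZ : Stmt_TRZ) (hIL : Stmt_IL)
    (hIIIL : Stmt_IIIL) (hSTN : Stmt_STN) (hGDP : Stmt_GDP) (hGDS : Stmt_GDS)
    (hPOLL : Stmt_POLL) (E : EulerMeasure) {ι : Type} [Fintype ι]
    [DecidableEq ι] (f : MvPolynomial ι ℂ) (hf : f.totalDegree ≠ 0) (p : ι → ℂ)
    (hc : p ∈ SP.Crit0 f → Fintype.card ι ≤ (SP.Hs f p).rank + 2 ∨ (∃ r, RO.SQAt f p r) ∨
      IsStablyNondegenerateAt f p)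
    (e : ℕ) (he : 1 ≤ e) (R : RatFunc ℚ) (hR : IsTwTopZetaAt E.toHodgeMeasure f p e R) :
    GPo f R := by
  by_cases h0 : eval p f = 0
  · by_cases h1 : ∃ a, eval p (pderiv a f) ≠ 0
    · exact hPOLL E.toHodgeMeasure ι f p hf (hGDS ι f p h0 h1) e R he hR
    · push Not at h1
      rcases hc ⟨h0, h1⟩ with h | ⟨r, h⟩ | h
      · exact hPOLL E.toHodgeMeasure ι f p hf (hGDP ι f p hf ⟨h0, h1⟩ h) e R he hR
      · exact hPOLL E.toHodgeMeasure ι f p hf (C9.STP9Aux.gd_sq f hf p ⟨h0, h1⟩ r h) e R he hR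
      · exact loc_st hDCP hHLOC hTRZ hIL hIIIL hSTN E f hf p h0 h e he R hR
  · exact gpo_off E.toHodgeMeasure f p h0 e he R hR

/-- all points -/
theorem loc_all (hDCP : Stmt_DCP) (hHLOC : Stmt_HLOC) (hTRZ : Stmt_TRZ) (hIL : Stmt_IL)
    (hIIIL : Stmt_IIIL) (hSTN : Stmt_STN) (hGDP : Stmt_GDP) (hGDS : Stmt_GDS)
    (hPOLL : Stmt_POLL) (E : EulerMeasure) {ι : Type} [Fintype ι]
    [DecidableEq ι] (f : MvPolynomial ι ℂ) (hf : f.totalDegree ≠ 0)
    (hc : ∀ p ∈ SP.Crit0 f, Fintype.card ι ≤ (SP.Hs f p).rank + 2 ∨ (∃ r, RO.SQAt f p r) ∨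
      IsStablyNondegenerateAt f p) (p : ι → ℂ)
    (e : ℕ) (he : 1 ≤ e) (R : RatFunc ℚ) (hR : IsTwTopZetaAt E.toHodgeMeasure f p e R) :
    GPo f R :=
  loc_pt hDCP hHLOC hTRZ hIL hIIIL hSTN hGDP hGDS hPOLL E f hf p (hc p) e he R hR

/-- the twisted zeta functions -/
theorem goodL_tw {ι : Type} [Fintype ι] (P : HodgeMeasure) (f : MvPolynomial ι ℂ) (e : ℕ)
    (R : RatFunc ℚ) (hR : IsTwTopZetaInt P f e R)
    (hloc : ∀ p R, IsTwTopZetaAt P f p e R → GPo f R) : GPo f R := by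
  obtain ⟨m, S, r, -, -, hr, rfl⟩ := hR
  refine gpo_sum fun j => ?_
  rcases (S j).eq_empty_or_nonempty with h | ⟨p, hp⟩
  · rw [h, val_empty]
    simpa using gpo_zero f
  · exact gpo_C_mul (hloc p _ (hr j p hp)) _

/-- the untwisted zeta function -/
theorem goodL_top {ι : Type} [Fintype ι] (P : HodgeMeasure) (f : MvPolynomial ι ℂ)
    (R : RatFunc ℚ) (hR : IsTopologicalZetaInt P f R)
    (hloc : ∀ p R, IsTwTopZetaAt P f p 1 R → GPo f R) : GPo f R := by
  obtain ⟨m, S, r, -, -, hr, rfl⟩ := hR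
  refine gpo_sum fun j => ?_
  rcases (S j).eq_empty_or_nonempty with h | ⟨p, hp⟩
  · rw [h, val_empty]
    simpa using gpo_zero f
  · refine gpo_C_mul ?_ _
    obtain ⟨q, hq⟩ := tw_of_top P f p _ (hr j p hp)
    intro s hs
    exact hloc p _ hq s (SSAux.pole_add_C hs)

end Pool.Agent.Mono.LO
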