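import Pool.Agent.Work.Monodromy.InterfaceL
import Pool.Agent.Work.Monodromy12.LIMA12

/-!
# Phase L, block BDYL (helper22): the `k` with a zero coordinate do not contribute to the limits
-/

set_option autoImplicit false
set_option linter.unusedSectionVars false

namespace Pool.Agent.Mono.LO

open MvPolynomial Filter Topology NP

namespace BDYLAux

open Finset NP.LIMAAux

variable {ι κ : Type} [Fintype ι] [DecidableEq ι] [Fintype κ] [DecidableEq κ]

/-- the point `(k, -mnk w k)` -/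
noncomputable def pt (w : κ → ι → ℕ) (k : ι → ℕ) : ι ⊕ Unit → ℤ :=
  Sum.elim (fun i => (k i : ℤ)) fun _ => -(mnk w k : ℤ)

theorem pt_inj (w : κ → ι → ℕ) {k k' : ι → ℕ} (h : pt w k = pt w k') : k = k' := by
  funext i
  have h1 := congrFun h (Sum.inl i)
  simpa [pt] using h1

theorem mnk_le (w : κ → ι → ℕ) (k : ι → ℕ) (a : κ) : mnk w k ≤ kw w k a :=
  ciInf_le (OrderBot.bddBelow _) a

theorem mnk_eq (w : κ → ι → ℕ) (k : ι → ℕ) (a : κ) (ha : a ∈ fc w k) : mnk w k = kw w k a := by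
  have : Nonempty κ := ⟨a⟩
  apply le_antisymm (mnk_le w k a)
  apply le_ciInf
  intro b
  exact (mem_filter.mp ha).2 b

theorem zp_pt_inl (w : κ → ι → ℕ) (k : ι → ℕ) (a : κ) :
    zp w (pt w k) (Sum.inl a) = (kw w k a : ℤ) - mnk w k := by
  rw [zp, Fintype.sum_sum_type]
  simp only [zv, pt, Sum.elim_inl, Sum.elim_inr, kw]
  simp only [univ_unique, sum_singleton, one_mul]
  push_cast
  rw [← sub_eq_add_neg]
  congr 1
  apply sum_congr rfl
  intro i _
  ring

theorem zp_pt_inr (w : κ → ι → ℕ) (k : ι → ℕ) (j : ι) :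
    zp w (pt w k) (Sum.inr j) = (k j : ℤ) := by
  rw [zp, Fintype.sum_sum_type]
  simp [zv, pt, Pi.single_apply]

/-- the new vector is independent of the others -/
theorem indep (w : κ → ι → ℕ) (C : Finset κ) (k : ι → ℕ) (hk : ∀ i, 1 ≤ k i) (hC : C ⊆ fc w k)
    (hi : LinearIndependent ℚ fun a : C => hat w (Sum.inl (a : κ))) (i : ι) :
    LinearIndependent ℚ fun v : (insert (Sum.inr i) (inl C) : Finset (κ ⊕ ι)) =>
      hat w (v : κ ⊕ ι) := by
  have h2 : ((inl C : Finset (κ ⊕ ι)) : Set (κ ⊕ ι)) = Sum.inl '' (C : Set κ) := by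
    ext v
    simp only [inl, coe_map, Function.Embedding.inl_apply, Set.mem_image, mem_coe]
  have h1 : LinearIndepOn ℚ (hat w) ((inl C : Finset (κ ⊕ ι)) : Set (κ ⊕ ι)) := by
    rw [h2]
    exact LinearIndepOn.image_of_comp Sum.inl (hat w) hi
  -- the functional
  let φ : (ι ⊕ Unit → ℚ) →ₗ[ℚ] ℚ :=
    { toFun := fun x => ∑ i, (k i : ℚ) * x (Sum.inl i) - (mnk w k : ℚ) * x (Sum.inr ())
      map_add' := fun x y => by
        simp only [Pi.add_apply, mul_add, Finset.sum_add_distrib]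
        ring
      map_smul' := fun c x => by
        simp only [Pi.smul_apply, smul_eq_mul, RingHom.id_apply, mul_sub, Finset.mul_sum]
        congr 1
        · exact Finset.sum_congr rfl fun i _ => by ring
        · ring }
  have hφ : ∀ a ∈ C, φ (hat w (Sum.inl a)) = 0 := by
    intro a ha
    have h3 := mnk_eq w k a (hC ha)
    change ∑ i, (k i : ℚ) * hat w (Sum.inl a) (Sum.inl i) -
      (mnk w k : ℚ) * hat w (Sum.inl a) (Sum.inr ()) = _
    simp only [hat, Sum.elim_inl, Sum.elim_inr, mul_one]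
    rw [h3, kw]
    push_cast
    rw [sub_self]
  have hφi : φ (hat w (Sum.inr i)) = (k i : ℚ) := by
    change ∑ j, (k j : ℚ) * hat w (Sum.inr i) (Sum.inl j) -
      (mnk w k : ℚ) * hat w (Sum.inr i) (Sum.inr ()) = _
    simp [hat, Pi.single_apply]
  have hnot : hat w (Sum.inr i) ∉ Submodule.span ℚ (hat w '' ((inl C : Finset (κ ⊕ ι)) :
      Set (κ ⊕ ι))) := by
    intro hmem
    have hker : Submodule.span ℚ (hat w '' ((inl C : Finset (κ ⊕ ι)) : Set (κ ⊕ ι))) ≤
        LinearMap.ker φ := by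
      rw [Submodule.span_le]
      rintro _ ⟨v, hv, rfl⟩
      rw [h2] at hv
      obtain ⟨a, ha, rfl⟩ := hv
      exact hφ a (mem_coe.1 ha)
    have h4 : φ (hat w (Sum.inr i)) = 0 := hker hmem
    rw [hφi] at h4
    have h5 := hk i
    have h6 : (k i : ℚ) ≠ 0 := by
      have : k i ≠ 0 := by omega
      exact_mod_cast this
    exact h6 h4
  have h3 := h1.insert hnot
  have h4 : ((insert (Sum.inr i) (inl C) : Finset (κ ⊕ ι)) : Set (κ ⊕ ι)) =
      insert (Sum.inr i) ((inl C : Finset (κ ⊕ ι)) : Set (κ ⊕ ι)) := by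
    rw [coe_insert]
  rw [← h4] at h3
  exact h3

open Classical in
/-- growth of the sums over the `k` with `k i = 0` -/
theorem bound (hGRO : Stmt_GRO) (w : κ → ι → ℕ) (s : ℕ) (C : Finset κ) (hne : C.Nonempty)
    (i : ι) (hi : LinearIndependent ℚ fun v : (insert (Sum.inr i) (inl C) : Finset (κ ⊕ ι)) =>
      hat w (v : κ ⊕ ι)) :
    (∀ ε : ℝ, 0 < ε → Summable fun k : ι → ℕ => if C ⊆ fc w k ∧ k i = 0 then ex w s ε k else 0) ∧
    ∃ A : ℝ, ∀ ε : ℝ, 0 < ε → ε ≤ 1 → ε ^ (Fintype.card ι + 1 - (C.card + 1)) *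
      (∑' k : ι → ℕ, if C ⊆ fc w k ∧ k i = 0 then ex w s ε k else 0) ≤ A := by
  set C' : Finset (κ ⊕ ι) := insert (Sum.inr i) (inl C) with hC'
  have hcard : C'.card = C.card + 1 := by
    rw [hC', card_insert_of_notMem, inl, card_map]
    rw [inl, Finset.mem_map]
    rintro ⟨a, -, ha⟩
    simp at ha
  set p : ι ⊕ Unit → ℝ := Sum.elim (fun _ => 1) fun _ => -(s : ℝ) with hp
  have hpos : Pos p := ⟨fun i => by rw [hp]; simp, by rw [hp]; simp⟩
  obtain ⟨a₀, ha₀⟩ := hne
  obtain ⟨hsum, A, hA⟩ := hGRO ι κ w p hpos C' 0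
    ⟨a₀, mem_insert_of_mem (Finset.mem_map.mpr ⟨a₀, ha₀, rfl⟩)⟩ hi
  -- the embedding
  have hmemY : ∀ k : ι → ℕ, (C ⊆ fc w k ∧ k i = 0) →
      (∀ v, -((0 : ℕ) : ℤ) ≤ zp w (pt w k) v) ∧ ∀ v ∈ C', zp w (pt w k) v ≤ ((0 : ℕ) : ℤ) := by
    rintro k ⟨hk, hki⟩
    constructor
    · rintro (a | j)
      · rw [zp_pt_inl]
        have := mnk_le w k a
        push_cast
        omega
      · rw [zp_pt_inr]
        push_cast
        omega
    · intro v hv
      rcases mem_insert.1 hv with rfl | hv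
      · rw [zp_pt_inr, hki]
      · obtain ⟨a, ha, rfl⟩ := Finset.mem_map.mp hv
        rw [Function.Embedding.inl_apply, zp_pt_inl, mnk_eq w k a (hk ha)]
        simp
  have hph : ∀ k : ι → ℕ, ph p (pt w k) = ∑ i, (k i : ℝ) + (s : ℝ) * (mnk w k : ℝ) := by
    intro k
    rw [ph, Fintype.sum_sum_type, hp]
    simp [pt]
  set f : {k : ι → ℕ // C ⊆ fc w k ∧ k i = 0} →
      {y : ι ⊕ Unit → ℤ // (∀ v, -((0 : ℕ) : ℤ) ≤ zp w y v) ∧
      ∀ v ∈ C', zp w y v ≤ ((0 : ℕ) : ℤ)} :=
    fun k => ⟨pt w k.1, hmemY k.1 k.2⟩ with hf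
  have hfinj : Function.Injective f := fun k k' h =>
    Subtype.ext (pt_inj w (congrArg Subtype.val h))
  have hterm : ∀ (ε : ℝ) (k : {k : ι → ℕ // C ⊆ fc w k ∧ k i = 0}),
      ex w s ε k = Real.exp (-ε * ph p (f k).1) := by
    intro ε k
    rw [hf]
    simp only
    rw [hph, ex]
  have hS : ∀ ε : ℝ, 0 < ε →
      Summable fun k : {k : ι → ℕ // C ⊆ fc w k ∧ k i = 0} => ex w s ε k := by
    intro ε hε
    have h1 := (hsum ε hε).comp_injective hfinj
    exact (summable_congr (fun k => (hterm ε k))).mpr h1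
  constructor
  · intro ε hε
    have h2 : Summable ((fun k : ι → ℕ => ex w s ε k) ∘
        ((↑) : {k : ι → ℕ | C ⊆ fc w k ∧ k i = 0} → (ι → ℕ))) := hS ε hε
    rw [summable_subtype_iff_indicator] at h2
    refine h2.congr fun k => ?_
    simp only [Set.indicator_apply, Set.mem_ofPred_eq]
  · refine ⟨A, fun ε hε hε1 => ?_⟩
    have h0 : (∑' k : ι → ℕ, if C ⊆ fc w k ∧ k i = 0 then ex w s ε k else 0) =
        ∑' k : {k : ι → ℕ | C ⊆ fc w k ∧ k i = 0}, ex w s ε k := by
      rw [tsum_subtype {k : ι → ℕ | C ⊆ fc w k ∧ k i = 0} (fun k : ι → ℕ => ex w s ε k)]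
      refine tsum_congr fun k => ?_
      simp only [Set.indicator_apply, Set.mem_ofPred_eq]
    have h1 : ∑' k : {k : ι → ℕ // C ⊆ fc w k ∧ k i = 0}, ex w s ε k ≤
        ∑' y : {y : ι ⊕ Unit → ℤ // (∀ v, -((0 : ℕ) : ℤ) ≤ zp w y v) ∧
          ∀ v ∈ C', zp w y v ≤ ((0 : ℕ) : ℤ)}, Real.exp (-ε * ph p y.1) := by
      rw [tsum_congr (hterm ε)]
      exact tsum_comp_le_tsum_of_inj (hsum ε hε) (fun y => (Real.exp_pos _).le) hfinj
    have h2 := hA ε hε hε1
    rw [hcard] at h2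
    refine le_trans ?_ h2
    rw [h0]
    exact mul_le_mul_of_nonneg_left h1 (pow_nonneg hε.le _)

end BDYLAux

open BDYLAux NP.LIMAAux in
theorem stmt_BDYL (hGRO : NP.Stmt_GRO) (hGRK : NP.Stmt_GRK) (hCELI : NP.Stmt_CELI) :
    Stmt_BDYL := by
  intro ι κ _ _ _ _ _ w h hh s C hC k hk hCk hr J hJ
  classical
  have hi := cls0_indep hCELI w h hh C hC
  have hne : C.Nonempty := (Finset.mem_filter.1 hC).2.1
  have hlim := lim_face hGRK hCELI w h hh s C hC k hCk hr J hJ
  rw [hr] at hlim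
  set F := fc w k with hF
  -- the boundary terms
  let rest : ℝ → ℝ := fun ε => ∑' k' : ι → ℕ,
    if ¬ (∀ i, 1 ≤ k' i) ∧ fc w k' = F then ex w s ε k' else 0
  have hb := fun i => bound hGRO w s C hne i (indep w C k hk hCk hi i)
  choose hbs A hA using hb
  have hsumF : ∀ ε : ℝ, 0 < ε → Summable fun k' : ι → ℕ =>
      if fc w k' = F then ex w s ε k' else 0 := fun ε hε => summ_eq hGRK w s F ε hε
  have hsum1 : ∀ (P : (ι → ℕ) → Prop) [DecidablePred P], (∀ k', P k' → fc w k' = F) →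
      ∀ (ε : ℝ), 0 < ε → Summable fun k' : ι → ℕ => if P k' then ex w s ε k' else 0 := by
    intro P _ hP ε hε
    refine Summable.of_nonneg_of_le (fun k' => ?_) (fun k' => ?_) (hsumF ε hε)
    · split_ifs
      · exact (ex_pos _ _ _ _).le
      · exact le_rfl
    · by_cases h1 : P k'
      · rw [if_pos h1, if_pos (hP k' h1)]
      · rw [if_neg h1]
        split_ifs
        · exact (ex_pos _ _ _ _).le
        · exact le_rfl
  have hsplit : ∀ ε : ℝ, 0 < ε → SFp w s F ε = SF w s F ε - rest ε := by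
    intro ε hε
    have h1 : SFp w s F ε = ∑' k' : ι → ℕ,
        if (∀ i, 1 ≤ k' i) ∧ fc w k' = F then ex w s ε k' else 0 := by
      have h2 : SFp w s F ε = ∑' k' : {k' : ι → ℕ | (∀ i, 1 ≤ k' i) ∧ fc w k' = F},
          ex w s ε k' := rfl
      rw [h2, tsum_subtype {k' : ι → ℕ | (∀ i, 1 ≤ k' i) ∧ fc w k' = F}
        (fun k' : ι → ℕ => ex w s ε k')]
      refine tsum_congr fun k' => ?_
      simp only [Set.indicator_apply, Set.mem_ofPred_eq]
    rw [h1, eq_sub_iff_add_eq]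
    simp only [rest, SF]
    rw [← Summable.tsum_add (hsum1 _ (fun k' h => h.2) ε hε) (hsum1 _ (fun k' h => h.2) ε hε)]
    refine tsum_congr fun k' => ?_
    by_cases h2 : fc w k' = F
    · by_cases h3 : ∀ i, 1 ≤ k' i
      · rw [if_pos ⟨h3, h2⟩, if_neg (fun h4 => h4.1 h3), if_pos h2, add_zero]
      · rw [if_neg (fun h4 => h3 h4.1), if_pos ⟨h3, h2⟩, if_pos h2, zero_add]
    · rw [if_neg (fun h4 => h2 h4.2), if_neg (fun h4 => h2 h4.2), if_neg h2, add_zero]
  have hrest0 : ∀ ε : ℝ, 0 ≤ rest ε := by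
    intro ε
    refine tsum_nonneg fun k' => ?_
    split_ifs
    · exact (ex_pos _ _ _ _).le
    · exact le_rfl
  have hrest1 : ∀ ε : ℝ, 0 < ε → rest ε ≤
      ∑ i, ∑' k' : ι → ℕ, if C ⊆ fc w k' ∧ k' i = 0 then ex w s ε k' else 0 := by
    intro ε hε
    rw [← Summable.tsum_finsetSum fun i _ => hbs i ε hε]
    refine Summable.tsum_le_tsum (fun k' => ?_) (hsum1 _ (fun k' h => h.2) ε hε)
      (summable_sum fun i _ => hbs i ε hε)
    have hnn : ∀ i ∈ (Finset.univ : Finset ι),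
        0 ≤ (if C ⊆ fc w k' ∧ k' i = 0 then ex w s ε k' else 0) := by
      intro i _
      split_ifs
      · exact (ex_pos _ _ _ _).le
      · exact le_rfl
    by_cases h1 : ¬ (∀ i, 1 ≤ k' i) ∧ fc w k' = F
    · rw [if_pos h1]
      obtain ⟨h2, h3⟩ := h1
      push Not at h2
      obtain ⟨i, hi0⟩ := h2
      have h4 : (if C ⊆ fc w k' ∧ k' i = 0 then ex w s ε k' else 0) = ex w s ε k' := by
        rw [if_pos]
        exact ⟨by rw [h3]; exact hCk, by omega⟩
      exact h4.symm.le.trans (Finset.single_le_sum (f := fun i => if C ⊆ fc w k' ∧ k' i = 0 then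
        ex w s ε k' else 0) hnn (Finset.mem_univ i))
    · rw [if_neg h1]
      exact Finset.sum_nonneg hnn
  -- the rank
  by_cases hn : Nonempty ι
  · obtain ⟨i₀⟩ := hn
    have hle : C.card + 1 ≤ Fintype.card ι + 1 := by
      have h1 := (indep w C k hk hCk hi i₀).fintype_card_le_finrank
      rw [Module.finrank_fintype_fun_eq_card, Fintype.card_sum, Fintype.card_unit,
        Fintype.card_coe, Finset.card_insert_of_notMem, inl, Finset.card_map] at h1
      · exact h1
      · rw [inl, Finset.mem_map]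
        rintro ⟨a, -, ha⟩
        simp at ha
    have hrlim : Tendsto (fun ε : ℝ => ε ^ (Fintype.card ι + 1 - C.card) * rest ε) (𝓝[>] 0)
        (𝓝 0) := by
      have h1 := tendsto_small (fun ε => ε ^ (Fintype.card ι - C.card) * rest ε) (∑ i, A i) 1
        one_pos (by
        intro ε hε hε1
        rw [abs_of_nonneg (mul_nonneg (pow_nonneg hε.le _) (hrest0 ε))]
        refine (mul_le_mul_of_nonneg_left (hrest1 ε hε) (pow_nonneg hε.le _)).trans ?_
        rw [Finset.mul_sum]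
        refine Finset.sum_le_sum fun i _ => ?_
        have h2 := hA i ε hε hε1
        rw [Nat.add_sub_add_right] at h2
        exact h2)
      refine h1.congr fun ε => ?_
      rw [← mul_assoc, ← pow_add]
      congr 2
      omega
    have h2 := hlim.sub hrlim
    rw [sub_zero] at h2
    refine h2.congr' ?_
    filter_upwards [ev_Ioc] with ε hε
    rw [hsplit ε hε.1]
    ring
  · -- no variables: nothing is removed
    refine hlim.congr' ?_
    filter_upwards [ev_Ioc] with ε hε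
    rw [hsplit ε hε.1]
    have h3 : rest ε = 0 := by
      have h4 : (fun k' : ι → ℕ => if ¬ (∀ i, 1 ≤ k' i) ∧ fc w k' = F then ex w s ε k' else 0) =
          fun _ => 0 := by
        funext k'
        rw [if_neg]
        rintro ⟨h5, -⟩
        exact h5 fun i => absurd ⟨i⟩ hn
      simp only [rest]
      rw [h4, tsum_zero]
    rw [h3, sub_zero]

end Pool.Agent.Mono.LO
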