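import Pool.Agent.Work.Monodromy.InterfaceL
import Pool.Agent.Work.Monodromy12.CLS112

/-!
# Phase L, block CLSL: arcs on which the leading form vanishes, one face only
(helper84, from CLS112 of helper69)
-/

set_option autoImplicit false

namespace Pool.Agent.Mono.NP.CLSLAux

open MvPolynomial CLS1Aux

theorem core (hXPD : Stmt_XPD) (hTRIS : Stmt_TRIS) : LO.Stmt_CLSL := by
  classical
  intro ι κ _ _ _ _ _ w a R _ μ d K k hNd hd hmK
  set F := fc w k with hF
  set B := {i : ι // K < k i} with hB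
  set SS : Set (((ι × Fin (K + 1)) ⊕ Unit) ⊕ B → ℂ) :=
    {x | (fun p => x (Sum.inl p)) ∈ Jt w a d K k ∧ (fun b => x (Sum.inr b)) ∈
      {t : B → ℂ | ∀ b, t b ≠ 0}} with hSS
  have hSSc : Constructible SS := Constructible.prodSet (con_Jt w a d K k) (con_torus B)
  have hSSv : μ.val SS = μ.val (Jt w a d K k) *
      (μ.L - 1) ^ (Finset.univ.filter fun i => K < k i).card := by
    rw [hSS, μ.prod _ _ (con_Jt w a d K k) (con_torus B), val_torus]
    congr 2
    exact Fintype.card_subtype _
  rw [← hSSv]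
  -- the leading vector lies in `VF`
  have hlead : ∀ x ∈ SS, ∀ (i : ι), x (lead K k i) ≠ 0 := by
    intro x hx i
    rw [lead]
    split_ifs with h
    · exact hx.2 ⟨i, h⟩
    · exact (hx.1.2 i ⟨k i, by omega⟩).2 rfl
  have hleadz : ∀ x : ((ι × Fin (K + 1)) ⊕ Unit) ⊕ B → ℂ, ∀ (i : ι) (l : Fin (K + 1)),
      (l : ℕ) = k i → x (lead K k i) = x (Sum.inl (Sum.inl (i, l))) := by
    intro x i l hl
    have hlK := l.2
    rw [lead, dif_neg (by omega)]
    congr 4
    exact Fin.ext hl.symm
  have hVF : ∀ x ∈ SS, (fun i => x (lead K k i)) ∈ VF w a F := by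
    intro x hx
    refine ⟨hlead x hx, ?_⟩
    obtain ⟨_, h2, _⟩ := hXPD ι κ w a K k (fun p => x (Sum.inl (Sum.inl p)))
      fun i l hl => (hx.1.2 i l).1 hl
    rw [← h2 (le_of_lt hmK) (fun i => x (lead K k i)) (hleadz x)]
    exact hx.1.1.1 (mnk w k) hmK
  -- the strata
  set e := Fintype.equivFin ι with he
  set V : ι → Set (ι → ℂ) := fun i => {x | x ∈ VF w a F ∧ lc w a F i x ≠ 0 ∧
    ∀ i', e i' < e i → lc w a F i' x = 0} with hV
  have hVc : ∀ i, Constructible (V i) := fun i =>
    Constructible.and (con_VF w a F) (Constructible.and (Constructible.not (con_lc w a F i))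
      (Constructible.all fun i' => Constructible.imp (Constructible.const _) (con_lc w a F i')))
  have hVd : ∀ i ∈ (Finset.univ : Finset ι), ∀ j ∈ (Finset.univ : Finset ι), i ≠ j →
      Disjoint (V i) (V j) := by
    intro i _ j _ hij
    rw [Set.disjoint_left]
    rintro x ⟨_, h1, h2⟩ ⟨_, h3, h4⟩
    rcases lt_trichotomy (e i) (e j) with h | h | h
    · exact h1 (h4 i h)
    · exact hij (e.injective h)
    · exact h3 (h2 j h)
  have hVu : VF w a F = ⋃ i ∈ (Finset.univ : Finset ι), V i := by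
    ext x
    simp only [Finset.mem_univ, Set.iUnion_true, Set.mem_iUnion]
    constructor
    · intro hx
      have h1 := hNd x hx.1 hx.2
      have h2 : ((Finset.univ.filter fun i => lc w a F i x ≠ 0).image e).Nonempty := by
        obtain ⟨i, hi⟩ := h1
        exact ⟨e i, Finset.mem_image_of_mem _ (Finset.mem_filter.2 ⟨Finset.mem_univ _, hi⟩)⟩
      have h3 := Finset.min'_mem _ h2
      obtain ⟨i, hi, hie⟩ := Finset.mem_image.1 h3
      refine ⟨i, hx, (Finset.mem_filter.1 hi).2, fun i' hi' => ?_⟩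
      by_contra hc
      have h5 : i' ∈ Finset.univ.filter fun i => lc w a F i x ≠ 0 :=
        Finset.mem_filter.2 ⟨Finset.mem_univ i', hc⟩
      have h4 := Finset.min'_le _ (e i') (Finset.mem_image_of_mem e h5)
      rw [← hie] at h4
      exact absurd hi' (not_lt.2 h4)
    · rintro ⟨i, hi⟩
      exact hi.1
  set SV : ι → Set (((ι × Fin (K + 1)) ⊕ Unit) ⊕ B → ℂ) := fun i =>
    {x | x ∈ SS ∧ (fun i' => x (lead K k i')) ∈ V i} with hSV
  have hSVc : ∀ i, Constructible (SV i) := fun i =>
    Constructible.and hSSc (Constructible.comap (lead K k) (hVc i))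
  have hSu : SS = ⋃ i ∈ (Finset.univ : Finset ι), SV i := by
    ext x
    simp only [Finset.mem_univ, Set.iUnion_true, Set.mem_iUnion]
    constructor
    · intro hx
      have h1 := hVF x hx
      rw [hVu] at h1
      simp only [Finset.mem_univ, Set.iUnion_true, Set.mem_iUnion] at h1
      obtain ⟨i, hi⟩ := h1
      exact ⟨i, hx, hi⟩
    · rintro ⟨i, hi⟩
      exact hi.1
  have hSd : ∀ i ∈ (Finset.univ : Finset ι), ∀ j ∈ (Finset.univ : Finset ι), i ≠ j →
      Disjoint (SV i) (SV j) := by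
    intro i hi j hj hij
    rw [Set.disjoint_left]
    rintro x ⟨_, h1⟩ ⟨_, h2⟩
    exact (Set.disjoint_left.1 (hVd i hi j hj hij)) h1 h2
  rw [hSu, μ.val_biUnion _ _ (fun i _ => hSVc i) hSd, hVu, μ.val_biUnion _ _ (fun i _ => hVc i) hVd,
    Finset.sum_mul, Finset.sum_mul, Finset.sum_mul]
  refine Finset.sum_congr rfl fun i₀ _ => ?_
  -- one stratum
  by_cases hex : ∃ v ∈ F, w v i₀ ≠ 0
  swap
  · have h0 : V i₀ = ∅ := by
      rw [Set.eq_empty_iff_forall_notMem]
      rintro x ⟨_, h1, _⟩
      apply h1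
      rw [lc]
      apply Finset.sum_eq_zero
      intro v hv
      have : w v i₀ = 0 := by
        by_contra hc
        exact hex ⟨v, hv, hc⟩
      rw [this, Nat.cast_zero, zero_mul]
    have h1 : SV i₀ = ∅ := by
      rw [Set.eq_empty_iff_forall_notMem]
      rintro x ⟨_, h1⟩
      rw [h0] at h1
      exact h1
    rw [h0, h1, μ.val_empty, μ.val_empty]
    ring
  have hk0 : k i₀ ≤ mnk w k := by
    obtain ⟨v, hv, hvi⟩ := hex
    rw [hF, fc, Finset.mem_filter] at hv
    have h1 : kw w k v ≤ mnk w k := le_ciInf hv.2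
    calc k i₀ ≤ k i₀ * w v i₀ := Nat.le_mul_of_pos_right _ (Nat.pos_of_ne_zero hvi)
      _ ≤ kw w k v := Finset.single_le_sum (f := fun i => k i * w v i) (fun _ _ => Nat.zero_le _)
          (Finset.mem_univ i₀)
      _ ≤ mnk w k := h1
  set n := K - mnk w k with hn
  have hn1 : 1 ≤ n := by omega
  have hcard : (∑ i, (K - k i)) = Fintype.card (Qt K k i₀ n) + n := by
    rw [card_slots, ← Finset.add_sum_erase _ _ (Finset.mem_univ i₀),
      ← Finset.add_sum_erase _ (fun i => K - mm k i₀ n i) (Finset.mem_univ i₀)]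
    have h1 : ∑ i ∈ Finset.univ.erase i₀, (K - mm k i₀ n i) =
        ∑ i ∈ Finset.univ.erase i₀, (K - k i) := by
      refine Finset.sum_congr rfl fun i hi => ?_
      rw [mm, if_neg (Finset.ne_of_mem_erase hi)]
    rw [h1, mm, if_pos rfl]
    omega
  -- the target
  set TT : Set ((ι ⊕ Unit) ⊕ Qt K k i₀ n → ℂ) := {y | (fun p => y (Sum.inl p)) ∈
    {q : ι ⊕ Unit → ℂ | (fun i => q (Sum.inl i)) ∈ V i₀ ∧ (fun u => q (Sum.inr u)) ∈
      {u : Unit → ℂ | u () ≠ 0}}} with hTT
  have hT1c := Constructible.prodSet (hVc i₀) con_ne0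
  have hTTc : Constructible TT := Constructible.comap Sum.inl hT1c
  have hTTv : μ.val TT = μ.val (V i₀) * (μ.L - 1) * μ.L ^ Fintype.card (Qt K k i₀ n) := by
    rw [hTT, μ.val_prod_univ hT1c, μ.prod _ _ (hVc i₀) con_ne0, val_ne0]
  -- the bijection
  have hkey : ∀ y ∈ TT, ∃! s : Fin n → ℂ, bx K k i₀ n y s ∈ SV i₀ := by
    intro y hy
    obtain ⟨hyV, hy0⟩ := hy
    have hy0' : y (Sum.inl (Sum.inr ())) ≠ 0 := hy0
    set x : ι → ℂ := fun i => y (Sum.inl (Sum.inl i)) with hx
    have hxV : x ∈ V i₀ := hyV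
    have hx0 : ∀ i, x i ≠ 0 := hxV.1.1
    set G : (Fin n → ℂ) → Fin n → ℂ := fun s j =>
      (aeval (jet (bz K k i₀ n y s)) (poly w a) : Polynomial ℂ).coeff (mnk w k + ((j : ℕ) + 1))
      with hG
    have hz0 : ∀ s, ∀ (i : ι) (l : Fin (K + 1)), (l : ℕ) < k i → bz K k i₀ n y s (i, l) = 0 := by
      intro s i l hl
      simp only [bz]
      rw [if_pos hl]
    have hz1 : ∀ s, ∀ (i : ι) (l : Fin (K + 1)), (l : ℕ) = k i → bz K k i₀ n y s (i, l) = x i := by
      intro s i l hl
      simp only [bz]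
      rw [if_neg (by omega), if_pos hl]
    have hc : lc w a F i₀ x / x i₀ ≠ 0 := div_ne_zero hxV.2.1 (hx0 i₀)
    have hGtri : ∀ (j : Fin n) (s s' : Fin n → ℂ), (∀ i, i < j → s i = s' i) →
        G s j - G s' j = lc w a F i₀ x / x i₀ * (s j - s' j) := by
      intro j s s' hss
      obtain ⟨_, _, h3⟩ := hXPD ι κ w a K k (bz K k i₀ n y s') (hz0 s')
      obtain ⟨l₀, hl₀, h4⟩ := h3 ((j : ℕ) + 1) i₀ x (bz K k i₀ n y s) (by omega)
        (by have := j.2; omega) (fun i l hl => (hz1 s' i l hl).symm)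
        (fun i l hil => bz_agree K k i₀ n y j s s' hss i l hil) hex
      rw [bz_last K k i₀ n y j s l₀ hl₀, bz_last K k i₀ n y j s' l₀ hl₀] at h4
      have h5 : x i₀ * (G s j - G s' j) = (s j - s' j) * lc w a F i₀ x := h4
      rw [div_mul_eq_mul_div, eq_div_iff (hx0 i₀)]
      linear_combination h5
    have hiff : ∀ s, bx K k i₀ n y s ∈ SV i₀ ↔
        G s = fun j : Fin n => if (j : ℕ) + 1 = n then y (Sum.inl (Sum.inr ())) ^ d else 0 := by
      intro s
      obtain ⟨h1, h2, _⟩ := hXPD ι κ w a K k (bz K k i₀ n y s) (hz0 s)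
      have h2' := h2 (le_of_lt hmK) x (fun i l hl => (hz1 s i l hl).symm)
      rw [hxV.1.2] at h2'
      constructor
      · rintro ⟨⟨⟨hj, _⟩, _⟩, _⟩
        funext j
        split_ifs with hjn
        · have h5 := hj.2.2
          have h6 : mnk w k + ((j : ℕ) + 1) = K := by omega
          rw [hG]
          simp only
          rw [h6]
          exact h5.symm
        · have h5 := hj.1 (mnk w k + ((j : ℕ) + 1)) (by have := j.2; omega)
          exact h5
      · intro hGs
        have hK : (aeval (jet (bz K k i₀ n y s)) (poly w a) : Polynomial ℂ).coeff K =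
            y (Sum.inl (Sum.inr ())) ^ d := by
          have h5 := congrFun hGs (⟨n - 1, by omega⟩ : Fin n)
          rw [if_pos (by simp only; omega)] at h5
          rw [← h5, hG]
          simp only
          congr 1
          omega
        refine ⟨⟨⟨⟨fun l hl => ?_, ?_, ?_⟩, fun i l => ⟨fun hl => ?_, fun hl => ?_⟩⟩, ?_⟩, ?_⟩
        · rcases lt_trichotomy l (mnk w k) with h | h | h
          · exact h1 l h hl.le
          · rw [h]
            exact h2'
          · have h5 := congrFun hGs (⟨l - mnk w k - 1, by omega⟩ : Fin n)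
            rw [if_neg (by simp only; omega)] at h5
            rw [← h5, hG]
            simp only
            congr 1
            omega
        · exact hK.trans_ne (pow_ne_zero _ hy0')
        · exact hK.symm
        · exact hz0 s i l hl
        · exact (hz1 s i l hl).trans_ne (hx0 i)
        · intro b
          exact hx0 b.1
        · have h6 : (fun i' => bx K k i₀ n y s (lead K k i')) = x := by
            funext i'
            exact bx_prj K k i₀ n y s (Sum.inl (Sum.inl i'))
          rw [h6]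
          exact hxV
    obtain ⟨s, hs, hu⟩ := hTRIS n G _ hc hGtri
      fun j : Fin n => if (j : ℕ) + 1 = n then y (Sum.inl (Sum.inr ())) ^ d else 0
    exact ⟨s, (hiff s).2 hs, fun s' hs' => hu s' ((hiff s').1 hs')⟩
  have hform : ∀ x ∈ SV i₀, ∃ s : Fin n → ℂ,
      x = bx K k i₀ n (fun p => x (prj K k i₀ n p)) s := by
    intro x hx
    refine ⟨fun j => x (Sum.inl (Sum.inl (i₀, ⟨k i₀ + 1 + (j : ℕ), by have := j.2; omega⟩))), ?_⟩
    funext p
    rcases p with (⟨i, l⟩ | u) | b
    · simp only [bx, Sum.elim_inl, bz]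
      split_ifs with h1 h2 h3 h4
      · exact (hx.1.1.2 i l).1 h1
      · exact (hleadz x i l h2).symm
      · rfl
      · rw [mm] at h3
        split_ifs at h3 with h5
        · subst h5
          congr 4
          apply Fin.ext
          simp only
          omega
        · omega
      · rw [mm] at h3
        split_ifs at h3 with h5
        · subst h5
          omega
        · omega
    · rfl
    · have h1 : lead K k b.1 = Sum.inr b := by
        rw [lead, dif_pos b.2]
      simp only [bx, Sum.elim_inr, prj, Sum.elim_inl]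
      rw [h1]
  have hbij : Set.BijOn (fun x j => eval x (X (prj K k i₀ n j) :
      MvPolynomial (((ι × Fin (K + 1)) ⊕ Unit) ⊕ B) ℂ)) (SV i₀) TT := by
    simp only [eval_X]
    have hmaps : ∀ x ∈ SV i₀, (fun p => x (prj K k i₀ n p)) ∈ TT := by
      intro x hx
      refine ⟨hx.2, ?_⟩
      change x (Sum.inl (Sum.inr ())) ≠ 0
      intro h0
      have h1 := hx.1.1.1.2.1
      have h2 := hx.1.1.1.2.2
      apply h1
      rw [← h2]
      have h3 : x (Sum.inl (Sum.inr ())) ^ d = 0 := by
        rw [h0, zero_pow (by omega)]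
      exact h3
    refine ⟨hmaps, ?_, ?_⟩
    · intro x hx x' hx' hxx'
      simp only at hxx'
      obtain ⟨s, hs⟩ := hform x hx
      obtain ⟨s', hs'⟩ := hform x' hx'
      rw [← hxx'] at hs'
      obtain ⟨s₁, _, hu⟩ := hkey _ (hmaps x hx)
      have h1 : s = s₁ := hu s (by simp only; rw [← hs]; exact hx)
      have h2 : s' = s₁ := hu s' (by simp only; rw [← hs']; exact hx')
      rw [hs, hs', h1, h2]
    · intro y hy
      obtain ⟨s, hs, _⟩ := hkey y hy
      exact ⟨bx K k i₀ n y s, hs, funext fun p => bx_prj K k i₀ n y s p⟩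
  rw [μ.map _ _ _ (hSVc i₀) hTTc hbij, hTTv, hcard, pow_add]
  ring

end Pool.Agent.Mono.NP.CLSLAux

namespace Pool.Agent.Mono.LO

/-- CLSL -/
theorem stmt_CLSL (hXPD : NP.Stmt_XPD) (hTRIS : NP.Stmt_TRIS) : Stmt_CLSL :=
  NP.CLSLAux.core hXPD hTRIS

end Pool.Agent.Mono.LO
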