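import Pool.Agent.Work.Monodromy.InterfaceL

/-! # Phase L, block CNV (helper96): polynomials as power series -/

set_option autoImplicit false

namespace Pool.Agent.Mono.LO

open NP Filter Finset

namespace CNVAux

variable {ι κ : Type} [Fintype ι] [DecidableEq ι] [Fintype κ] [DecidableEq κ]

/-- `δ` as a finitely supported function -/
noncomputable def dl {n : ℕ} (δ : ι → Fin (n + 1)) : ι →₀ ℕ :=
  Finsupp.equivFunOnFinite.symm fun i => (δ i : ℕ)

theorem dl_apply {n : ℕ} (δ : ι → Fin (n + 1)) (i : ι) : dl δ i = (δ i : ℕ) := rfl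

theorem prod_X_eq {n : ℕ} (δ : ι → Fin (n + 1)) :
    (∏ i, MvPowerSeries.X i ^ (δ i : ℕ) : MvPowerSeries ι ℂ) =
      MvPowerSeries.monomial (dl δ) 1 := by
  have h1 : ∀ s : Finset ι, (∏ i ∈ s, MvPowerSeries.X i ^ (δ i : ℕ) : MvPowerSeries ι ℂ) =
      MvPowerSeries.monomial (∑ i ∈ s, Finsupp.single i (δ i : ℕ)) 1 := by
    intro s
    induction s using Finset.induction_on with
    | empty => simp
    | insert a s ha ih =>
      rw [Finset.prod_insert ha, Finset.sum_insert ha, ih, MvPowerSeries.X_pow_eq,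
        MvPowerSeries.monomial_mul_monomial, one_mul]
  rw [h1]
  have h2 : ∑ i, Finsupp.single i (δ i : ℕ) = dl δ := by
    ext j
    rw [Finsupp.finset_sum_apply, Finset.sum_eq_single j]
    · simp [dl_apply]
    · intro b _ hb
      rw [Finsupp.single_apply, if_neg hb]
    · simp
  rw [h2]

theorem coeff_serX (n : ℕ) (b : κ ⊕ (κ × (ι → Fin (n + 1))) → ℂ) (v : κ) (γ : ι →₀ ℕ) :
    MvPowerSeries.coeff γ (serX n b v) = (if γ = 0 then b (Sum.inl v) else 0) +
      ∑ δ : ι → Fin (n + 1), if γ = dl δ then b (Sum.inr (v, δ)) else 0 := by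
  unfold serX
  rw [map_add, MvPowerSeries.coeff_C, map_sum]
  congr 1
  apply Finset.sum_congr rfl
  intro δ _
  rw [prod_X_eq, MvPowerSeries.coeff_C_mul, MvPowerSeries.coeff_monomial]
  split_ifs
  · rw [mul_one]
  · rw [mul_zero]

/-- the exponents which occur -/
noncomputable def G0 (ι : Type) [Fintype ι] [DecidableEq ι] (n : ℕ) : Finset (ι →₀ ℕ) :=
  insert 0 (Finset.univ.image fun δ : ι → Fin (n + 1) => dl δ)

theorem sum_eq (n : ℕ) (b : κ ⊕ (κ × (ι → Fin (n + 1))) → ℂ) (v : κ) (F : (ι →₀ ℕ) → ℂ)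
    (Γ : Finset (ι →₀ ℕ)) (hΓ : G0 ι n ⊆ Γ) :
    ∑ γ ∈ Γ, MvPowerSeries.coeff γ (serX n b v) * F γ =
      b (Sum.inl v) * F 0 + ∑ δ : ι → Fin (n + 1), b (Sum.inr (v, δ)) * F (dl δ) := by
  simp_rw [coeff_serX, add_mul, Finset.sum_add_distrib, Finset.sum_mul]
  congr 1
  · rw [Finset.sum_eq_single 0]
    · rw [if_pos rfl]
    · intro γ _ hγ
      rw [if_neg hγ, zero_mul]
    · intro h
      exact absurd (hΓ (Finset.mem_insert_self _ _)) h
  · rw [Finset.sum_comm]
    apply Finset.sum_congr rfl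
    intro δ _
    rw [Finset.sum_eq_single (dl δ)]
    · rw [if_pos rfl]
    · intro γ _ hγ
      rw [if_neg hγ, zero_mul]
    · intro h
      exact absurd (hΓ (Finset.mem_insert_of_mem (Finset.mem_image_of_mem _ (Finset.mem_univ _)))) h

end CNVAux

open CNVAux in
theorem stmt_CNV : Stmt_CNV := by
  classical
  intro ι κ _ _ _ _ w n b J ν β k₀ Φ h
  obtain ⟨h1, h2, h3⟩ := h
  refine ⟨fun k u i hu => ?_, fun k u hu => ?_, fun k hk u hu => h3 k hk u hu⟩
  · filter_upwards [eventually_ge_atTop (G0 ι n)] with Γ hΓ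
    rw [← h1 k u i hu, Fintype.sum_sum_type, Fintype.sum_prod_type, ← Finset.sum_add_distrib]
    apply Finset.sum_congr rfl
    intro v _
    have e := sum_eq n b v (fun γ => ((w v i : ℂ) + (γ i : ℂ)) *
      Φ (k + 1) (fun j => u j + w v j + γ j - if j = i then 1 else 0)) Γ hΓ
    have e1 : ∀ γ ∈ Γ, ((w v i : ℂ) + (γ i : ℂ)) * (MvPowerSeries.coeff γ (serX n b v) *
        Φ (k + 1) (fun j => u j + w v j + γ j - if j = i then 1 else 0)) =
        MvPowerSeries.coeff γ (serX n b v) * (((w v i : ℂ) + (γ i : ℂ)) *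
        Φ (k + 1) (fun j => u j + w v j + γ j - if j = i then 1 else 0)) := by
      intro γ _
      ring
    rw [Finset.sum_congr rfl e1, e]
    congr 1
    · simp only [Finsupp.coe_zero, Pi.zero_apply, Nat.cast_zero, add_zero, wX, Sum.elim_inl]
      ring
    · apply Finset.sum_congr rfl
      intro δ _
      simp only [dl_apply, wX, Sum.elim_inr]
      push_cast
      have e2 : (fun j => u j + (w v j : ℤ) + ((δ j : ℕ) : ℤ) - if j = i then 1 else 0) =
          fun j => u j + ((w v j : ℤ) + ((δ j : ℕ) : ℤ)) - if j = i then 1 else 0 := by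
        funext j
        ring
      rw [e2]
      ring
  · filter_upwards [eventually_ge_atTop (G0 ι n)] with Γ hΓ
    rw [← h2 k u hu, Fintype.sum_sum_type, Fintype.sum_prod_type, ← Finset.sum_add_distrib]
    apply Finset.sum_congr rfl
    intro v _
    rw [sum_eq n b v (fun γ => Φ (k + 1) (fun j => u j + w v j + γ j)) Γ hΓ]
    congr 1
    · simp only [Finsupp.coe_zero, Pi.zero_apply, Nat.cast_zero, add_zero, wX, Sum.elim_inl]
    · apply Finset.sum_congr rfl
      intro δ _
      simp only [dl_apply, wX, Sum.elim_inr]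
      push_cast
      have e2 : (fun j => u j + (w v j : ℤ) + ((δ j : ℕ) : ℤ)) =
          fun j => u j + ((w v j : ℤ) + ((δ j : ℕ) : ℤ)) := by
        funext j
        ring
      rw [e2]

end Pool.Agent.Mono.LO
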