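import Pool.Agent.Work.Monodromy.InterfaceL

/-!
# Phase L, block DCP: a nondegenerate power series as a sum `∑ A_v x^{w_v}` (helper85)
-/

set_option autoImplicit false

namespace Pool.Agent.Mono.LO

open MvPolynomial NP

namespace DCPLAux

section

variable {ι : Type} [Fintype ι] [DecidableEq ι] (g : MvPowerSeries ι ℂ)

/-- the minimal exponents -/
abbrev KK : Type := {v : ι →₀ ℕ // Minimal (fun m => MvPowerSeries.coeff m g ≠ 0) v}

theorem finite_KK : Finite (KK g) := by
  have h := (Set.isPWO_of_wellQuasiOrderedLE {x : ι →₀ ℕ |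
    Minimal (fun m => MvPowerSeries.coeff m g ≠ 0) x})
  exact ((setOfPred_minimal_antichain _).finite_of_partiallyWellOrderedOn h).to_subtype

theorem exists_min (m : ι →₀ ℕ) (hm : MvPowerSeries.coeff m g ≠ 0) :
    ∃ v : KK g, (v : ι →₀ ℕ) ≤ m := by
  obtain ⟨v, hv1, hv2⟩ := (Set.isPWO_of_wellQuasiOrderedLE {x : ι →₀ ℕ |
    MvPowerSeries.coeff x g ≠ 0}).exists_le_minimal (a := m) hm
  exact ⟨⟨v, hv2⟩, hv1⟩

/-- the chosen minimal exponent below `m` -/
noncomputable def vm (m : ι →₀ ℕ) (hm : MvPowerSeries.coeff m g ≠ 0) : KK g :=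
  (exists_min g m hm).choose

theorem vm_le (m : ι →₀ ℕ) (hm : MvPowerSeries.coeff m g ≠ 0) :
    (vm g m hm : ι →₀ ℕ) ≤ m := (exists_min g m hm).choose_spec

theorem vm_self (v : KK g) (hv : MvPowerSeries.coeff (v : ι →₀ ℕ) g ≠ 0) :
    vm g v hv = v := by
  apply Subtype.ext
  exact le_antisymm (vm_le g v hv) (v.2.2 (vm g v hv).2.1 (vm_le g v hv))

open Classical in
/-- the power series `A_v` -/
noncomputable def AA (v : KK g) : MvPowerSeries ι ℂ := fun γ =>
  if h : MvPowerSeries.coeff ((v : ι →₀ ℕ) + γ) g ≠ 0 then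
    (if vm g _ h = v then MvPowerSeries.coeff ((v : ι →₀ ℕ) + γ) g else 0) else 0

open Classical in
theorem AA_add (v : KK g) (γ : ι →₀ ℕ) : MvPowerSeries.coeff γ (AA g v) =
    if h : MvPowerSeries.coeff ((v : ι →₀ ℕ) + γ) g ≠ 0 then
      (if vm g _ h = v then MvPowerSeries.coeff ((v : ι →₀ ℕ) + γ) g else 0) else 0 := rfl

open Classical in
theorem AA_sub (v : KK g) (m : ι →₀ ℕ) (hm : (v : ι →₀ ℕ) ≤ m) :
    MvPowerSeries.coeff (m - (v : ι →₀ ℕ)) (AA g v) =
    if h : MvPowerSeries.coeff m g ≠ 0 then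
      (if vm g m h = v then MvPowerSeries.coeff m g else 0) else 0 := by
  obtain ⟨γ, rfl⟩ := exists_add_of_le hm
  rw [add_tsub_cancel_left, AA_add]

theorem lead_AA (v : KK g) : lead (AA g) v = MvPowerSeries.coeff (v : ι →₀ ℕ) g := by
  classical
  unfold lead
  rw [← MvPowerSeries.coeff_zero_eq_constantCoeff_apply, AA_add]
  have h0 : MvPowerSeries.coeff ((v : ι →₀ ℕ) + 0) g ≠ 0 := by
    rw [add_zero]
    exact v.2.1
  rw [dif_pos h0]
  have h1 : vm g ((v : ι →₀ ℕ) + 0) h0 = v := by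
    apply Subtype.ext
    have h2 : (vm g ((v : ι →₀ ℕ) + 0) h0 : ι →₀ ℕ) ≤ (v : ι →₀ ℕ) :=
      (vm_le g _ h0).trans (add_zero _).le
    exact le_antisymm h2 (v.2.2 (vm g _ h0).2.1 h2)
  rw [if_pos h1, add_zero]

theorem prod_X (v : ι →₀ ℕ) : ∏ i, (MvPowerSeries.X i : MvPowerSeries ι ℂ) ^ v i =
    MvPowerSeries.monomial v 1 := by
  have h1 : ∏ i, (X i : MvPolynomial ι ℂ) ^ v i = monomial v 1 := by
    rw [monomial_eq, map_one, one_mul, Finsupp.prod_fintype]
    intro i
    rw [pow_zero]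
  have h2 := congrArg (fun p : MvPolynomial ι ℂ => (p : MvPowerSeries ι ℂ)) h1
  simp only [coe_monomial] at h2
  rw [← h2]
  have h3 : (((∏ i, (X i : MvPolynomial ι ℂ) ^ v i : MvPolynomial ι ℂ)) : MvPowerSeries ι ℂ) =
      coeToMvPowerSeries.ringHom (∏ i, (X i : MvPolynomial ι ℂ) ^ v i) := rfl
  rw [h3, map_prod]
  refine Finset.prod_congr rfl fun i _ => ?_
  rw [map_pow]
  congr 1
  exact (coe_X i).symm

variable [Fintype (KK g)] [DecidableEq (KK g)]

/-- the exponents as functions -/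
def ww (v : KK g) (i : ι) : ℕ := (v : ι →₀ ℕ) i

theorem eq_ser : g = ser (ww g) (AA g) := by
  classical
  ext m
  unfold ser
  rw [map_sum]
  have h1 : ∀ v : KK g, MvPowerSeries.coeff m (AA g v * ∏ i, MvPowerSeries.X i ^ ww g v i) =
      if (v : ι →₀ ℕ) ≤ m then (if h : MvPowerSeries.coeff m g ≠ 0 then
        (if vm g m h = v then MvPowerSeries.coeff m g else 0) else 0) else 0 := by
    intro v
    have h2 : ∏ i, (MvPowerSeries.X i : MvPowerSeries ι ℂ) ^ ww g v i =
        MvPowerSeries.monomial (v : ι →₀ ℕ) 1 := prod_X (v : ι →₀ ℕ)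
    rw [h2, MvPowerSeries.coeff_mul_monomial, mul_one]
    by_cases hv : (v : ι →₀ ℕ) ≤ m
    · rw [if_pos hv, if_pos hv, AA_sub g v m hv]
      split_ifs <;> rfl
    · rw [if_neg hv, if_neg hv]
  rw [Finset.sum_congr rfl fun v _ => h1 v]
  by_cases hm : MvPowerSeries.coeff m g ≠ 0
  · rw [Finset.sum_eq_single (vm g m hm), if_pos (vm_le g m hm), dif_pos hm, if_pos rfl]
    · intro v _ hv
      rw [dif_pos hm, if_neg (Ne.symm hv), ite_self]
    · intro h
      exact absurd (Finset.mem_univ _) h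
  · rw [Finset.sum_eq_zero]
    · exact not_not.1 hm
    · intro v _
      rw [dif_neg hm, ite_self]

theorem ndc (hg : IsNondegenerateSeries g) : NdC (ww g) (lead (AA g)) := by
  classical
  intro k hk x hx hsum
  have hKne : Nonempty (KK g) := by
    by_contra hne
    apply hg.1
    ext m
    rw [map_zero]
    by_contra hm
    exact hne ⟨(exists_min g m hm).choose⟩
  obtain ⟨v₀, hv₀⟩ := Finite.exists_min (fun v : KK g => kw (ww g) k v)
  have hfc : ∀ v, v ∈ fc (ww g) k ↔ kw (ww g) k v = kw (ww g) k v₀ := by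
    intro v
    unfold fc
    rw [Finset.mem_filter]
    constructor
    · rintro ⟨_, h⟩
      exact le_antisymm (h v₀) (hv₀ v)
    · intro h
      exact ⟨Finset.mem_univ _, fun b => by rw [h]; exact hv₀ b⟩
  have hkw : ∀ v : KK g, kw (ww g) k v = ∑ i, k i * (v : ι →₀ ℕ) i := fun v => rfl
  set N := kw (ww g) k v₀ with hN
  set P : MvPolynomial ι ℂ := ∑ v ∈ fc (ww g) k,
    monomial (v : ι →₀ ℕ) (MvPowerSeries.coeff (v : ι →₀ ℕ) g) with hPdef
  have hlow : ∀ (m : ι →₀ ℕ) (hm : MvPowerSeries.coeff m g ≠ 0),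
      N ≤ ∑ i, k i * m i ∧ (∑ i, k i * m i = N → (vm g m hm : ι →₀ ℕ) = m) := by
    intro m hm
    have h1 : kw (ww g) k (vm g m hm) ≤ ∑ i, k i * m i := by
      rw [hkw]
      exact Finset.sum_le_sum fun i _ => Nat.mul_le_mul_left _ (vm_le g m hm i)
    refine ⟨(hv₀ _).trans h1, fun h2 => ?_⟩
    have h3 : ∑ i, k i * (vm g m hm : ι →₀ ℕ) i = ∑ i, k i * m i :=
      le_antisymm h1 (by rw [h2, ← hkw]; exact hv₀ _)
    have h4 := (Finset.sum_eq_sum_iff_of_le fun i _ =>
      Nat.mul_le_mul_left (k i) (vm_le g m hm i)).1 h3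
    ext i
    exact Nat.eq_of_mul_eq_mul_left (hk i) (h4 i (Finset.mem_univ i))
  have hcoeff : ∀ m : ι →₀ ℕ, MvPolynomial.coeff m P =
      if ∑ i, k i * m i = N then MvPowerSeries.coeff m g else 0 := by
    intro m
    rw [hPdef, coeff_sum]
    simp only [coeff_monomial]
    by_cases hmN : ∑ i, k i * m i = N
    · rw [if_pos hmN]
      by_cases hm : MvPowerSeries.coeff m g ≠ 0
      · have h1 := (hlow m hm).2 hmN
        have h2 : vm g m hm ∈ fc (ww g) k := by
          rw [hfc, hkw, h1, hmN]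
        rw [Finset.sum_eq_single (vm g m hm), if_pos h1, h1]
        · intro v _ hv
          rw [if_neg]
          intro hvm
          apply hv
          apply Subtype.ext
          rw [hvm, h1]
        · intro h
          exact absurd h2 h
      · rw [Finset.sum_eq_zero]
        · exact (not_not.1 hm).symm
        · intro v _
          by_cases hv : (v : ι →₀ ℕ) = m
          · rw [if_pos hv, hv]
            exact not_not.1 hm
          · rw [if_neg hv]
    · rw [if_neg hmN]
      refine Finset.sum_eq_zero fun v hv => ?_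
      rw [if_neg]
      intro hvm
      apply hmN
      rw [← hvm, ← hkw]
      exact (hfc v).1 hv
  have hP0 : P ≠ 0 := by
    intro h
    have h1 := hcoeff (v₀ : ι →₀ ℕ)
    rw [h, MvPolynomial.coeff_zero, ← hkw, if_pos hN.symm] at h1
    exact v₀.2.1 h1.symm
  have hev : eval x P = 0 := by
    rw [← hsum, hPdef, map_sum]
    refine Finset.sum_congr rfl fun v _ => ?_
    rw [eval_monomial, Finsupp.prod_fintype _ _ (fun i => pow_zero _), lead_AA]
    rfl
  obtain ⟨i, hi⟩ := hg.2 k N P hk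
    (fun m hm => by
      by_contra hne
      exact absurd (hlow m hne).1 (not_le.2 hm)) hcoeff hP0 x hx hev
  refine ⟨i, ?_⟩
  have h1 : ∑ v ∈ fc (ww g) k, (ww g v i : ℂ) * (lead (AA g) v * ∏ i', x i' ^ ww g v i') =
      x i * eval x (pderiv i P) := by
    rw [← eval_X (f := x) i, ← map_mul, hPdef, map_sum, Finset.mul_sum, map_sum]
    refine Finset.sum_congr rfl fun v _ => ?_
    rw [X_mul_pderiv_monomial, map_nsmul, eval_monomial,
      Finsupp.prod_fintype _ _ (fun i => pow_zero _), lead_AA, nsmul_eq_mul]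
    rfl
  rw [h1]
  exact mul_ne_zero (hx i) hi

end

end DCPLAux

open DCPLAux in
/-- DCP: a nondegenerate power series as a sum `∑ A_v x^{w_v}` -/
theorem stmt_DCP : Stmt_DCP := by
  classical
  intro ι _ _ g hg
  haveI := finite_KK g
  letI : Fintype (KK g) := Fintype.ofFinite _
  refine ⟨KK g, inferInstance, inferInstance, ww g, AA g, ?_, ?_, eq_ser g, ndc g hg⟩
  · by_contra hne
    apply hg.1
    ext m
    rw [map_zero]
    by_contra hm
    exact hne ⟨(exists_min g m hm).choose⟩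
  · intro v v' h
    apply Subtype.ext
    ext i
    exact congrFun h i

end Pool.Agent.Mono.LO
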