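import Pool.Agent.Work.Monodromy.InterfaceL

/-!
# Phase L, block ETA: change of coordinates for witnesses (helper85)
-/

set_option autoImplicit false

namespace Pool.Agent.Mono.LO

open MvPolynomial

namespace ETALAux

section

variable {ι R : Type} [Fintype ι] [DecidableEq ι] [CommRing R] [Algebra ℂ R]

/-- the chain rule -/
theorem chain (D : Derivation ℂ R R) (φ : ι → R) (f : MvPolynomial ι ℂ) :
    D (aeval φ f) = ∑ a, aeval φ (pderiv a f) * D (φ a) := by
  induction f using MvPolynomial.induction_on with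
  | C c =>
    rw [aeval_C, Derivation.map_algebraMap]
    simp
  | add p q hp hq =>
    rw [map_add, map_add, hp, hq, ← Finset.sum_add_distrib]
    refine Finset.sum_congr rfl fun a _ => ?_
    rw [map_add, map_add, add_mul]
  | mul_X p i hp =>
    rw [map_mul, aeval_X, Derivation.leibniz, hp]
    have h : ∀ a, aeval φ (pderiv a (p * X i)) * D (φ a) =
        φ i * (aeval φ (pderiv a p) * D (φ a)) + if a = i then aeval φ p * D (φ i) else 0 := by
      intro a
      rw [Derivation.leibniz, pderiv_X, map_add, smul_eq_mul, smul_eq_mul, map_mul, map_mul,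
        aeval_X]
      by_cases hai : a = i
      · subst hai
        rw [Pi.single_eq_same, map_one, if_pos rfl]
        ring
      · rw [Pi.single_eq_of_ne (Ne.symm hai), map_zero, if_neg hai]
        ring
    rw [Finset.sum_congr rfl fun a _ => h a, Finset.sum_add_distrib, Finset.sum_ite_eq',
      if_pos (Finset.mem_univ i), ← Finset.mul_sum, smul_eq_mul, smul_eq_mul]
    ring

variable (D : ι → Derivation ℂ R R) (hD : ∀ i j g, D i (D j g) = D j (D i g)) (φ : ι → R)
  (M : Matrix ι ι R) (hM : (Matrix.of fun a b => D b (φ a)) * M = 1)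

include hM in
theorem hM' (c a : ι) : ∑ b, M b a * D b (φ c) = if a = c then 1 else 0 := by
  have h := congrFun (congrFun hM c) a
  rw [Matrix.mul_apply, Matrix.one_apply] at h
  simp only [Matrix.of_apply] at h
  rw [show (∑ b, M b a * D b (φ c)) = ∑ b, D b (φ c) * M b a from
    Finset.sum_congr rfl fun b _ => mul_comm _ _, h]
  by_cases hc : c = a
  · rw [if_pos hc, if_pos hc.symm]
  · rw [if_neg hc, if_neg (Ne.symm hc)]

include hD hM in
/-- the coefficients of the commutators vanish -/
theorem comm (a c d : ι) : ∑ b, M b a * D b (M d c) = ∑ b, M b c * D b (M d a) := by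
  have key : ∀ (a c e : ι), ∑ d, D d (φ e) * (∑ b, M b a * D b (M d c)) =
      -∑ b, ∑ d, M b a * M d c * D b (D d (φ e)) := by
    intro a c e
    have h1 : ∑ b, M b a * D b (∑ d, M d c * D d (φ e)) = 0 := by
      rw [hM' D φ M hM e c]
      refine Finset.sum_eq_zero fun b _ => ?_
      by_cases h : c = e
      · rw [if_pos h, Derivation.map_one_eq_zero, mul_zero]
      · rw [if_neg h, map_zero, mul_zero]
    have h2 : ∑ b, M b a * D b (∑ d, M d c * D d (φ e)) =
        ∑ b, ∑ d, M b a * M d c * D b (D d (φ e)) +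
          ∑ b, ∑ d, D d (φ e) * (M b a * D b (M d c)) := by
      rw [← Finset.sum_add_distrib]
      refine Finset.sum_congr rfl fun b _ => ?_
      rw [map_sum, Finset.mul_sum, ← Finset.sum_add_distrib]
      refine Finset.sum_congr rfl fun d _ => ?_
      rw [Derivation.leibniz, smul_eq_mul, smul_eq_mul]
      ring
    rw [h2] at h1
    have h3 : ∑ b, ∑ d, D d (φ e) * (M b a * D b (M d c)) =
        ∑ d, D d (φ e) * (∑ b, M b a * D b (M d c)) := by
      rw [Finset.sum_comm]
      refine Finset.sum_congr rfl fun d _ => ?_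
      rw [Finset.mul_sum]
    rw [h3] at h1
    exact eq_neg_of_add_eq_zero_right h1
  have key2 : ∀ e : ι, ∑ d, D d (φ e) * (∑ b, M b a * D b (M d c)) =
      ∑ d, D d (φ e) * (∑ b, M b c * D b (M d a)) := by
    intro e
    rw [key a c e, key c a e]
    congr 1
    rw [Finset.sum_comm]
    refine Finset.sum_congr rfl fun b _ => Finset.sum_congr rfl fun d _ => ?_
    rw [hD d b]
    ring
  have hM2 : M * (Matrix.of fun a b => D b (φ a)) = 1 := mul_eq_one_comm.1 hM
  have key3 : ∀ q : ι → R, M.mulVec ((Matrix.of fun a b => D b (φ a)).mulVec q) = q := by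
    intro q
    rw [Matrix.mulVec_mulVec, hM2, Matrix.one_mulVec]
  have h1 := key3 fun d => ∑ b, M b a * D b (M d c)
  have h2 := key3 fun d => ∑ b, M b c * D b (M d a)
  have h3 : (Matrix.of fun a b => D b (φ a)).mulVec (fun d => ∑ b, M b a * D b (M d c)) =
      (Matrix.of fun a b => D b (φ a)).mulVec (fun d => ∑ b, M b c * D b (M d a)) := by
    funext e
    exact key2 e
  rw [h3, h2] at h1
  exact (congrFun h1 d).symm

variable {V : Type} [AddCommGroup V] [Module ℂ V] (P : R →ₐ[ℂ] Module.End ℂ V)
  (DV : ι → Module.End ℂ V) (hDV : ∀ i j, DV i * DV j = DV j * DV i)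
  (hP : ∀ i g, DV i * P g = P g * DV i + P (D i g))

/-- the new derivations -/
noncomputable def Dn (a : ι) : Module.End ℂ V := ∑ b, P (M b a) * DV b

include hP in
theorem Dn_mul (a : ι) (g : R) :
    Dn M P DV a * P g = P g * Dn M P DV a + P (∑ b, M b a * D b g) := by
  unfold Dn
  rw [Finset.sum_mul, Finset.mul_sum, map_sum, ← Finset.sum_add_distrib]
  refine Finset.sum_congr rfl fun b _ => ?_
  rw [mul_assoc, hP, mul_add, ← mul_assoc, ← mul_assoc, ← map_mul, ← map_mul,
    mul_comm (M b a) g, map_mul P g (M b a)]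

include hD hM hDV hP in
theorem Dn_comm (a c : ι) : Dn M P DV a * Dn M P DV c = Dn M P DV c * Dn M P DV a := by
  have key : ∀ a c : ι, Dn M P DV a * Dn M P DV c =
      ∑ d, ∑ b, P (M d c * M b a) * (DV b * DV d) + ∑ d, P (∑ b, M b a * D b (M d c)) * DV d := by
    intro a c
    conv_lhs => rw [show Dn M P DV c = ∑ d, P (M d c) * DV d from rfl]
    rw [Finset.mul_sum, ← Finset.sum_add_distrib]
    refine Finset.sum_congr rfl fun d _ => ?_
    rw [← mul_assoc, Dn_mul D M P DV hP, add_mul]
    congr 1
    unfold Dn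
    rw [Finset.mul_sum, Finset.sum_mul]
    refine Finset.sum_congr rfl fun b _ => ?_
    rw [map_mul]
    simp only [mul_assoc]
  rw [key a c, key c a]
  congr 1
  · rw [Finset.sum_comm]
    refine Finset.sum_congr rfl fun b _ => Finset.sum_congr rfl fun d _ => ?_
    rw [hDV b d, mul_comm (M d c)]
  · refine Finset.sum_congr rfl fun d _ => ?_
    rw [comm D hD φ M hM a c d]

/-- the Weyl algebra module in the new coordinates -/
noncomputable def W : BP.WMod ℂ V ι where
  X' a := P (φ a)
  D' a := Dn M P DV a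
  XX i j := by rw [← map_mul, ← map_mul, mul_comm]
  DD i j := Dn_comm D hD φ M hM P DV hDV hP i j
  DX i j := by
    rw [Dn_mul D M P DV hP, hM' D φ M hM j i]
    congr 1
    split_ifs with h
    · rw [map_one]
    · rw [map_zero]

theorem W_pX (g : MvPolynomial ι ℂ) :
    (W D hD φ M hM P DV hDV hP).pX g = P (aeval φ g) := by
  have h : (W D hD φ M hM P DV hDV hP).pX = P.comp (aeval φ) := by
    refine MvPolynomial.algHom_ext fun i => ?_
    rw [BP.WMod.pX_X, AlgHom.comp_apply, aeval_X]
    rfl
  rw [h]
  rfl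

include hM in
theorem sum_D (f : MvPolynomial ι ℂ) (a : ι) :
    ∑ b, M b a * D b (aeval φ f) = aeval φ (pderiv a f) := by
  have h1 : ∀ b, M b a * D b (aeval φ f) =
      ∑ c, aeval φ (pderiv c f) * (M b a * D b (φ c)) := by
    intro b
    rw [chain, Finset.mul_sum]
    refine Finset.sum_congr rfl fun c _ => by ring
  rw [Finset.sum_congr rfl fun b _ => h1 b, Finset.sum_comm]
  have h2 : ∀ c, ∑ b, aeval φ (pderiv c f) * (M b a * D b (φ c)) =
      if a = c then aeval φ (pderiv c f) else 0 := by
    intro c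
    rw [← Finset.mul_sum, hM' D φ M hM c a]
    split_ifs
    · rw [mul_one]
    · rw [mul_zero]
  rw [Finset.sum_congr rfl fun c _ => h2 c, Finset.sum_ite_eq, if_pos (Finset.mem_univ a)]

end

end ETALAux

open ETALAux in
/-- ETA: change of coordinates for witnesses -/
theorem stmt_ETA : Stmt_ETA := by
  intro ι _ _ R _ _ D hD φ M hM V _ _ P DV hDV hP f β v hv0 hf0 hdf hDv hfv
  refine ⟨V, inferInstance, inferInstance, W D hD φ M hM P DV hDV hP, v, hv0, ?_, ?_, ?_, ?_⟩
  · rw [W_pX]
    exact hf0
  · intro a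
    rw [W_pX, ← sum_D D φ M hM f a, map_sum, LinearMap.sum_apply]
    refine Finset.sum_eq_zero fun b _ => ?_
    rw [map_mul, Module.End.mul_apply, hdf b, map_zero]
  · intro i a
    rw [W_pX, ← sum_D D φ M hM f a, map_sum, LinearMap.sum_apply]
    show (∑ b, P (M b a) * DV b) (v i) = _
    rw [LinearMap.sum_apply]
    refine Finset.sum_congr rfl fun b _ => ?_
    rw [map_mul, Module.End.mul_apply, Module.End.mul_apply, hDv i b]
  · intro i
    rw [W_pX]
    exact hfv i

end Pool.Agent.Mono.LO
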