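import Pool.Agent.Work.Monodromy.InterfaceL
import Pool.Agent.Work.Monodromy12.EXCH12

/-!
# Phase L, block EXCHL: the local zeta function at `T = u^{-s}` (helper76)
-/

set_option autoImplicit false

namespace Pool.Agent.Mono.LO

open MvPolynomial Filter Topology NP

theorem stmt_EXCHL (hS : Stmt_SUMKL) : Stmt_EXCHL := by
  intro ι κ _ _ _ _ _ w a E d u s hNd hd hu
  have hu0 : (0 : ℝ) < u := by linarith
  have hsum : ∀ s : ℕ, Summable fun p : (ι → ℕ) × ℕ =>
      ctL E w a d p.2 u p.1 * u⁻¹ ^ (p.2 * s) := by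
    intro s
    refine Summable.of_norm_bounded (EXCHAux.summable_ct E w a d u s hu).norm ?_
    rintro ⟨k, K⟩
    simp only [ctL]
    split_ifs
    · exact le_refl _
    · rw [zero_mul, norm_zero]
      exact norm_nonneg _
  have key : ∀ s : ℕ, HasSum (fun K : ℕ =>
      Polynomial.aeval u (E.val (jetAt (poly w a) (fun _ => 0) d K)) *
        u⁻¹ ^ (K * Fintype.card ι) * u⁻¹ ^ (K * s))
      (∑' p : (ι → ℕ) × ℕ, ctL E w a d p.2 u p.1 * u⁻¹ ^ (p.2 * s)) := by
    intro s
    have h1 := (hsum s).hasSum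
    have h2 : HasSum (fun p : ℕ × (ι → ℕ) => ctL E w a d p.1 u p.2 * u⁻¹ ^ (p.1 * s))
        (∑' p : (ι → ℕ) × ℕ, ctL E w a d p.2 u p.1 * u⁻¹ ^ (p.2 * s)) :=
      (Equiv.prodComm ℕ (ι → ℕ)).hasSum_iff.2 h1
    exact h2.prod_fiberwise fun K => (hS ι κ w a E d K u hNd hd hu).mul_right _
  refine ⟨?_, ?_⟩
  · have h1 := (key 0).summable.abs
    refine h1.congr fun K => ?_
    rw [mul_zero, pow_zero, mul_one, abs_mul, abs_of_pos (pow_pos (inv_pos.2 hu0) _)]
  · rw [(key s).tsum_eq]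
    refine (hsum s).hasSum.prod_fiberwise fun k => ?_
    simp only [ctL, exL]
    by_cases hk : ∀ i, 1 ≤ k i
    · simp only [if_pos hk]
      exact EXCHAux.hasSum_K E w a d u s hu k
    · simp only [if_neg hk, zero_mul]
      exact hasSum_zero

end Pool.Agent.Mono.LO
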