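import Pool.Agent.Work.Monodromy.InterfaceL

/-!
# Phase L, block EXD: the datum for additional exponents
-/

set_option autoImplicit false
set_option linter.unusedSectionVars false

namespace Pool.Agent.Mono.LO

open MvPolynomial Filter Topology NP

namespace EXDAux

theorem not_finite_real : ¬ Module.Finite ℚ ℝ := by
  intro hfin
  have e := (Module.finBasis ℚ ℝ).equivFun
  have hc : Countable ℝ := e.toEquiv.injective.countable
  exact not_countable hc

theorem exists_ext {κ μ : Type} [Fintype κ] [Fintype μ] (h : κ → ℝ)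
    (hh : LinearIndependent ℚ h) : ∃ g : μ → ℝ, LinearIndependent ℚ (Sum.elim h g) := by
  classical
  have hM : Module.Finite ℚ (Submodule.span ℚ (Set.range h)) :=
    FiniteDimensional.span_of_finite ℚ (Set.finite_range h)
  let b := Module.Basis.ofVectorSpace ℚ (ℝ ⧸ Submodule.span ℚ (Set.range h))
  have hinf : Infinite
      (Module.Basis.ofVectorSpaceIndex ℚ (ℝ ⧸ Submodule.span ℚ (Set.range h))) := by
    by_contra hn
    rw [not_infinite_iff_finite] at hn
    have := hn
    have hQ : Module.Finite ℚ (ℝ ⧸ Submodule.span ℚ (Set.range h)) := Module.Finite.of_basis b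
    exact not_finite_real
      (Module.Finite.of_submodule_quotient (Submodule.span ℚ (Set.range h)))
  let g : μ ↪ Module.Basis.ofVectorSpaceIndex ℚ (ℝ ⧸ Submodule.span ℚ (Set.range h)) :=
    ((Fintype.equivFin μ).toEmbedding.trans Fin.valEmbedding).trans (Infinite.natEmbedding _)
  have hsurj : ∀ m : μ, ∃ x : ℝ,
      Submodule.Quotient.mk (p := Submodule.span ℚ (Set.range h)) x = b (g m) := fun m =>
    Submodule.Quotient.mk_surjective _ _
  choose t ht using hsurj
  refine ⟨t, ?_⟩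
  have h1 := linearIndependent_span hh
  have h2 : LinearIndependent ℚ
      (Submodule.Quotient.mk (p := Submodule.span ℚ (Set.range h)) ∘ t) := by
    have h3 : Submodule.Quotient.mk (p := Submodule.span ℚ (Set.range h)) ∘ t =
        fun m => b (g m) := funext fun m => ht m
    rw [h3]
    exact b.linearIndependent.comp g g.injective
  exact LinearIndependent.sumElim_of_quotient h1 t h2

theorem exists_mul_ge (θ B : ℝ) (h : θ ≠ 0) : ∃ q : ℚ, B ≤ q * θ := by
  rcases lt_or_gt_of_ne h with h1 | h1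
  · obtain ⟨q, hq⟩ := exists_rat_lt (B / θ)
    refine ⟨q, ?_⟩
    rw [lt_div_iff_of_neg h1] at hq
    exact hq.le
  · obtain ⟨q, hq⟩ := exists_rat_gt (B / θ)
    refine ⟨q, ?_⟩
    rw [div_lt_iff₀ h1] at hq
    exact hq.le

theorem exists_heights {κ μ : Type} [Fintype κ] [Fintype μ] (h : κ → ℝ)
    (hh : LinearIndependent ℚ h) (B : μ → ℝ) :
    ∃ g : μ → ℝ, LinearIndependent ℚ (Sum.elim h g) ∧ ∀ m, B m ≤ g m := by
  obtain ⟨g, hg⟩ := exists_ext (μ := μ) h hh
  have hne : ∀ m, g m ≠ 0 := fun m => hg.ne_zero (Sum.inr m)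
  choose q hq using fun m => exists_mul_ge (g m) (max (B m) 1) (hne m)
  have hq0 : ∀ m, q m ≠ 0 := by
    intro m h0
    have h1 := hq m
    rw [h0, Rat.cast_zero, zero_mul] at h1
    have h2 := le_max_right (B m) 1
    linarith
  refine ⟨fun m => q m * g m, ?_, fun m => (le_max_left _ _).trans (hq m)⟩
  have h3 := hg.units_smul (Sum.elim (fun _ => 1) fun m => Units.mk0 (q m) (hq0 m))
  have h4 : (Sum.elim (fun _ => 1) fun m => Units.mk0 (q m) (hq0 m) : κ ⊕ μ → ℚˣ) •
      (Sum.elim h g : κ ⊕ μ → ℝ) = Sum.elim h fun m => q m * g m := by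
    funext a
    cases a with
    | inl a => simp
    | inr m =>
      simp only [Pi.smul_apply', Sum.elim_inr, Units.smul_def, Units.val_mk0]
      rw [Rat.smul_def]
  rw [h4] at h3
  exact h3

section

variable {ι κ μ : Type} [Fintype ι] [DecidableEq ι] [Fintype κ] [DecidableEq κ] [Fintype μ]
  [DecidableEq μ]

theorem lamX_ne {lam : (κ →₀ ℕ) → ℚ} {m : (κ ⊕ μ) →₀ ℕ} (h : lamX lam m ≠ 0) :
    (∀ b : μ, m (Sum.inr b) = 0) ∧
      lam (Finsupp.comapDomain Sum.inl m Sum.inl_injective.injOn) ≠ 0 := by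
  unfold lamX at h
  split_ifs at h with h1
  · exact ⟨h1, h⟩
  · exact absurd rfl h

theorem lamX_eq {lam : (κ →₀ ℕ) → ℚ} {m : (κ ⊕ μ) →₀ ℕ} (h : ∀ b : μ, m (Sum.inr b) = 0) :
    lamX lam m = lam (Finsupp.comapDomain Sum.inl m Sum.inl_injective.injOn) := by
  unfold lamX
  rw [if_pos h]

theorem lamX_zero {lam : (κ →₀ ℕ) → ℚ} {m : (κ ⊕ μ) →₀ ℕ} (b : μ) (h : m (Sum.inr b) ≠ 0) :
    lamX lam m = 0 := by
  unfold lamX
  rw [if_neg fun h1 => h (h1 b)]

/-- the sums over `κ ⊕ μ` -/
theorem sum_lamX (lam : (κ →₀ ℕ) → ℚ) (W : κ ⊕ μ → ℚ) (m : (κ ⊕ μ) →₀ ℕ)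
    (h : (∀ b : μ, m (Sum.inr b) = 0) → ∑ a, W (Sum.inl a) *
      lam (Finsupp.comapDomain Sum.inl m Sum.inl_injective.injOn + Finsupp.single a 1) = 0) :
    ∑ a, W a * lamX lam (m + Finsupp.single a 1) = 0 := by
  by_cases hm : ∀ b : μ, m (Sum.inr b) = 0
  · rw [Fintype.sum_sum_type]
    have h1 : ∑ b : μ, W (Sum.inr b) *
        lamX lam (m + Finsupp.single (Sum.inr b) 1) = 0 := by
      refine Finset.sum_eq_zero fun b _ => ?_
      rw [lamX_zero b, mul_zero]
      simp
    rw [h1, add_zero, ← h hm]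
    refine Finset.sum_congr rfl fun a _ => ?_
    rw [lamX_eq]
    · congr 2
      ext x
      simp only [Finsupp.comapDomain_apply, Finsupp.add_apply]
      rw [Finsupp.single_apply, Finsupp.single_apply]
      by_cases hx : a = x
      · rw [if_pos (congrArg Sum.inl hx), if_pos hx]
      · rw [if_neg fun h => hx (Sum.inl_injective h), if_neg hx]
    · intro b
      rw [Finsupp.add_apply, hm b, Finsupp.single_apply, if_neg (by simp), add_zero]
  · push Not at hm
    obtain ⟨b, hb⟩ := hm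
    refine Finset.sum_eq_zero fun a _ => ?_
    rw [lamX_zero b, mul_zero]
    rw [Finsupp.add_apply]
    omega

theorem cov_res {w : κ → ι → ℕ} {w' : μ → ι → ℕ} {c : κ → ℚ} {m : (κ ⊕ μ) →₀ ℕ} {j : ι}
    (hm : ∀ b : μ, m (Sum.inr b) = 0)
    (h : Cov (Sum.elim w w') (Sum.elim c fun _ => 0) m j) :
    Cov w c (Finsupp.comapDomain Sum.inl m Sum.inl_injective.injOn) j := by
  obtain ⟨a, ha, h1⟩ := h
  cases a with
  | inl a =>
    refine ⟨a, ha, ?_⟩
    rw [Finsupp.comapDomain_apply]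
    exact h1
  | inr b =>
    exfalso
    rcases h1 with h1 | h1
    · exact h1 (hm b)
    · exact h1 0 (by simp)

theorem sum_le {w : κ → ι → ℕ} {w' : μ → ι → ℕ} {m : μ} {v : κ} (h : ∀ i, w v i ≤ w' m i)
    (x : ι → ℝ) (hx : ∀ i, 0 ≤ x i) : ∑ i, x i * w v i ≤ ∑ i, x i * w' m i :=
  Finset.sum_le_sum fun i _ => mul_le_mul_of_nonneg_left (by exact_mod_cast h i) (hx i)

theorem sum_le' {w : κ → ι → ℕ} {w' : μ → ι → ℕ} {m : μ} {v : κ} (h : ∀ i, w v i ≤ w' m i)
    (x : ι → ℚ) (hx : ∀ i, 0 ≤ x i) : ∑ i, x i * w v i ≤ ∑ i, x i * w' m i :=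
  Finset.sum_le_sum fun i _ => mul_le_mul_of_nonneg_left (by exact_mod_cast h i) (hx i)

end

end EXDAux

open EXDAux

theorem stmt_EXD : Stmt_EXD := by
  intro ι κ μ _ _ _ _ _ _ w w' h s₀ c J d lam hh hL hv
  choose V hV using hv
  obtain ⟨g, hg, hgB⟩ := exists_heights h hh fun m => h (V m)
  refine ⟨Sum.elim h g, hg, ?_⟩
  obtain ⟨l1, l2, l3, l4, l5, l6, l7, l8⟩ := hL
  have hval_inl : ∀ (k : ι → ℝ) (a : κ), hval (Sum.elim w w') (Sum.elim h g) k (Sum.inl a) =
      hval w h k a := fun k a => rfl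
  refine ⟨?_, ?_, ?_, ?_, ?_, ?_, ?_, ?_⟩
  · rw [Fintype.sum_sum_type]
    simpa using l1
  · intro i hi
    obtain ⟨z, hz⟩ := l2 i hi
    refine ⟨z, ?_⟩
    rw [Fintype.sum_sum_type]
    simpa using hz
  · intro m hm
    obtain ⟨h1, h2⟩ := lamX_ne hm
    rw [← l3 _ h2, Finsupp.degree_eq_sum, Finsupp.degree_eq_sum, Fintype.sum_sum_type]
    simp [h1]
  · intro m hm
    obtain ⟨h1, h2⟩ := lamX_ne hm
    obtain ⟨k, hk, hc⟩ := l4 _ h2
    refine ⟨k, hk, fun a ha => ?_⟩
    cases a with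
    | inl a =>
      have h3 := hc a (by rw [Finsupp.comapDomain_apply]; exact ha)
      simp only [cell, Finset.mem_filter, Finset.mem_univ, true_and, Sum.elim_inl] at h3 ⊢
      intro b
      rw [hval_inl]
      cases b with
      | inl b => exact h3 b
      | inr b =>
        refine (h3 (V b)).trans ?_
        unfold hval
        simp only [Sum.elim_inr]
        exact add_le_add (sum_le (hV b) k hk) (hgB b)
    | inr b =>
      exfalso
      rcases ha with ha | ha
      · exact ha (h1 b)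
      · exact ha 0 (by simp)
  · intro m hm
    obtain ⟨h1, h2⟩ := lamX_ne hm
    obtain ⟨x, N, hN, hx, hxJ, h3, h4⟩ := l5 _ h2
    refine ⟨x, N, hN, hx, hxJ, fun a => ?_, fun a ha => ?_⟩
    · cases a with
      | inl a => exact h3 a
      | inr b =>
        simp only [Sum.elim_inr]
        exact (h3 (V b)).trans (sum_le' (hV b) x hx)
    · cases a with
      | inl a => exact h4 a (by rw [Finsupp.comapDomain_apply]; exact ha)
      | inr b =>
        exfalso
        rcases ha with ha | ha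
        · exact ha (h1 b)
        · exact ha 0 (by simp)
  · intro i m hc
    refine sum_lamX lam (fun a => (Sum.elim w w' a i : ℚ)) m fun hm => ?_
    exact l6 i _ fun j hj hji => cov_res hm (hc j hj hji)
  · intro m hc
    have h1 := sum_lamX lam (fun _ : κ ⊕ μ => 1) m fun hm => by
      simp only [one_mul]
      exact l7 _ fun j hj => cov_res hm (hc j hj)
    simpa using h1
  · obtain ⟨m, hm, hne⟩ := l8
    have hinl : ∀ a, Finsupp.mapDomain (Sum.inl : κ → κ ⊕ μ) m (Sum.inl a) = m a := fun a =>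
      Finsupp.mapDomain_apply Sum.inl_injective m a
    have hinr : ∀ b, Finsupp.mapDomain (Sum.inl : κ → κ ⊕ μ) m (Sum.inr b) = 0 := fun b =>
      Finsupp.mapDomain_notin_range m (Sum.inr b) (by simp)
    refine ⟨Finsupp.mapDomain Sum.inl m, fun j hj => ?_, ?_⟩
    · obtain ⟨a, ha, h1⟩ := hm j hj
      refine ⟨Sum.inl a, ha, ?_⟩
      rw [hinl]
      exact h1
    · rw [lamX_eq hinr]
      have h2 : Finsupp.comapDomain Sum.inl (Finsupp.mapDomain (Sum.inl : κ → κ ⊕ μ) m)
          Sum.inl_injective.injOn = m := by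
        ext a
        rw [Finsupp.comapDomain_apply, hinl]
      rw [h2]
      exact hne

end Pool.Agent.Mono.LO
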