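import Pool.Agent.Work.Monodromy.InterfaceL

/-! # Block EXT (helper55) -/

set_option autoImplicit false
set_option linter.unusedSectionVars false

namespace Pool.Agent.Mono.LO

open MvPolynomial Filter Topology NP

namespace EXTLAux

/-! ### Part 1: arcs through the origin -/

lemma ord {ι : Type} (x : ι → Polynomial ℂ) (hx : ∀ i, (x i).coeff 0 = 0) (K : ℕ)
    (H : MvPolynomial ι ℂ) (hH : ∀ m : ι →₀ ℕ, m.degree ≤ K → H.coeff m = 0) (l : ℕ)
    (hl : l ≤ K) : (aeval x H : Polynomial ℂ).coeff l = 0 := by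
  have key : (Polynomial.X : Polynomial ℂ) ^ (K + 1) ∣ aeval x H := by
    rw [H.as_sum, map_sum]
    refine Finset.dvd_sum fun m hm => ?_
    rw [aeval_monomial]
    refine dvd_mul_of_dvd_right ?_ _
    have h1 : K + 1 ≤ m.degree := by
      by_contra hc
      exact (mem_support_iff.mp hm) (hH m (by omega))
    refine (pow_dvd_pow _ h1).trans ?_
    rw [Finsupp.degree_apply, Finsupp.prod, ← Finset.prod_pow_eq_pow_sum]
    refine Finset.prod_dvd_prod_of_dvd _ _ fun i _ => ?_
    exact pow_dvd_pow_of_dvd (Polynomial.X_dvd_iff.mpr (hx i)) _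
  exact Polynomial.X_pow_dvd_iff.mp key l (by omega)

lemma ord2 {ι : Type} (x : ι → Polynomial ℂ) (hx : ∀ i, (x i).coeff 0 = 0) (K : ℕ)
    (G H : MvPolynomial ι ℂ) (hH : ∀ m : ι →₀ ℕ, m.degree ≤ K → G.coeff m = H.coeff m) (l : ℕ)
    (hl : l ≤ K) : (aeval x G : Polynomial ℂ).coeff l = (aeval x H : Polynomial ℂ).coeff l := by
  have h := ord x hx K (G - H) (fun m hm => by rw [coeff_sub, hH m hm, sub_self]) l hl
  rw [map_sub, Polynomial.coeff_sub, sub_eq_zero] at h
  exact h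

lemma jet_zero {ι : Type} {K : ℕ} (v : ι × Fin (K + 1) → ℂ) (hv : ∀ i, v (i, 0) = 0) (i : ι) :
    (jet v i).coeff 0 = 0 := by
  unfold jet
  rw [Polynomial.finsetSum_coeff]
  refine Finset.sum_eq_zero fun l _ => ?_
  rw [Polynomial.coeff_C_mul, Polynomial.coeff_X_pow]
  by_cases h : (0 : ℕ) = (l : ℕ)
  · have : l = 0 := by
      apply Fin.ext
      rw [← h]
      rfl
    rw [this, hv, zero_mul]
  · rw [if_neg h, mul_zero]

lemma jetAt_congr {ι : Type} (G H : MvPolynomial ι ℂ) (d K : ℕ)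
    (hH : ∀ m : ι →₀ ℕ, m.degree ≤ K → G.coeff m = H.coeff m) :
    jetAt G (fun _ => 0) d K = jetAt H (fun _ => 0) d K := by
  ext z
  unfold jetAt
  simp only [Set.mem_ofPred_eq]
  refine and_congr_left fun hz => ?_
  have h1 := ord2 (jet fun s => z (Sum.inl s)) (jet_zero _ hz) K G H hH
  unfold jetSet
  simp only [Set.mem_ofPred_eq]
  rw [h1 K le_rfl]
  refine and_congr_left fun _ => ?_
  refine forall_congr' fun l => ?_
  refine imp_congr_right fun hl => ?_
  rw [h1 l hl.le]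

/-! ### Part 2: the coefficients -/

section

variable {ι κ : Type} [Fintype ι] [DecidableEq ι] [Fintype κ] [DecidableEq κ]

/-- the coefficients of the polynomial -/
noncomputable def aX (K : ℕ) (A : κ → MvPowerSeries ι ℂ) :
    κ ⊕ (κ × (ι → Fin (K + 1))) → ℂ :=
  Sum.elim (lead A) fun q => if q.2 = 0 then 0 else
    MvPowerSeries.coeff (Finsupp.equivFunOnFinite.symm fun i => (q.2 i : ℕ)) (A q.1)

lemma prodX (n : ι → ℕ) : (∏ i, X i ^ n i : MvPolynomial ι ℂ) =
    monomial (Finsupp.equivFunOnFinite.symm n) 1 := by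
  rw [monomial_eq, Finsupp.prod_fintype _ _ (fun i => pow_zero _), C_1, one_mul]
  rfl

lemma prodXs (n : ι → ℕ) : (∏ i, MvPowerSeries.X i ^ n i : MvPowerSeries ι ℂ) =
    MvPowerSeries.monomial (Finsupp.equivFunOnFinite.symm n) 1 := by
  rw [← MvPolynomial.coe_monomial, ← prodX]
  rw [← MvPolynomial.coeToMvPowerSeries.ringHom_apply, map_prod]
  refine Finset.prod_congr rfl fun i _ => ?_
  rw [map_pow, MvPolynomial.coeToMvPowerSeries.ringHom_apply, MvPolynomial.coe_X]

lemma coeff_ser (w : κ → ι → ℕ) (A : κ → MvPowerSeries ι ℂ) (m : ι →₀ ℕ) :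
    MvPowerSeries.coeff m (ser w A) = ∑ v, if Finsupp.equivFunOnFinite.symm (w v) ≤ m then
      MvPowerSeries.coeff (m - Finsupp.equivFunOnFinite.symm (w v)) (A v) else 0 := by
  unfold ser
  rw [map_sum]
  refine Finset.sum_congr rfl fun v _ => ?_
  rw [prodXs, MvPowerSeries.coeff_mul_monomial]
  split_ifs
  · rw [mul_one]
  · rfl

lemma coeff_poly {μ : Type} [Fintype μ] [DecidableEq μ] (w : μ → ι → ℕ) (a : μ → ℂ)
    (m : ι →₀ ℕ) : (poly w a).coeff m =
      ∑ v, if Finsupp.equivFunOnFinite.symm (w v) = m then a v else 0 := by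
  unfold poly
  rw [coeff_sum]
  refine Finset.sum_congr rfl fun v _ => ?_
  rw [prodX, coeff_C_mul, coeff_monomial]
  split_ifs
  · rw [mul_one]
  · rw [mul_zero]

lemma coeff_eq (w : κ → ι → ℕ) (A : κ → MvPowerSeries ι ℂ) (K : ℕ) (m : ι →₀ ℕ)
    (hm : m.degree ≤ K) : MvPowerSeries.coeff m (ser w A) = (poly (wX w K) (aX K A)).coeff m := by
  rw [coeff_ser, coeff_poly, Fintype.sum_sum_type, Fintype.sum_prod_type, ← Finset.sum_add_distrib]
  refine Finset.sum_congr rfl fun v _ => ?_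
  have e1 : wX w K (Sum.inl v) = w v := rfl
  have e2 : ∀ δ : ι → Fin (K + 1), Finsupp.equivFunOnFinite.symm (wX w K (Sum.inr (v, δ))) =
      Finsupp.equivFunOnFinite.symm (w v) +
        Finsupp.equivFunOnFinite.symm fun i => (δ i : ℕ) := by
    intro δ
    ext i
    rfl
  have e3 : aX K A (Sum.inl v) = MvPowerSeries.coeff 0 (A v) := by
    change MvPowerSeries.constantCoeff (A v) = _
    rw [MvPowerSeries.coeff_zero_eq_constantCoeff_apply]
  rw [e1, e3]
  by_cases hle : Finsupp.equivFunOnFinite.symm (w v) ≤ m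
  · rw [if_pos hle]
    obtain ⟨γ, rfl⟩ := exists_add_of_le hle
    rw [add_tsub_cancel_left]
    have hγ : ∀ i, γ i < K + 1 := by
      intro i
      have h1 := Finsupp.le_degree i γ
      rw [map_add] at hm
      omega
    set δ₀ : ι → Fin (K + 1) := fun i => ⟨γ i, hγ i⟩ with hδ
    have e4 : (Finsupp.equivFunOnFinite.symm fun i => (δ₀ i : ℕ)) = γ := by
      ext i
      rfl
    rw [Finset.sum_eq_single δ₀]
    · rw [e2, e4, if_pos rfl]
      change _ = _ + (if δ₀ = 0 then 0 else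
        MvPowerSeries.coeff (Finsupp.equivFunOnFinite.symm fun i => (δ₀ i : ℕ)) (A v))
      rw [e4]
      by_cases h0 : γ = 0
      · have : δ₀ = 0 := by
          funext i
          apply Fin.ext
          simp only [hδ, h0]
          rfl
        rw [if_pos this, h0, if_pos (by rw [add_zero]), add_zero]
      · have h1 : δ₀ ≠ 0 := by
          intro h
          apply h0
          ext i
          have := congrFun h i
          rw [Fin.ext_iff] at this
          exact this
        rw [if_neg h1, if_neg, zero_add]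
        intro h
        exact h0 (left_eq_add.mp h)
    · intro δ _ hne
      rw [if_neg]
      intro h
      rw [e2] at h
      have h1 := add_left_cancel h
      apply hne
      funext i
      apply Fin.ext
      have := DFunLike.congr_fun h1 i
      exact this
    · intro h
      exact absurd (Finset.mem_univ _) h
  · rw [if_neg hle, if_neg, zero_add]
    · symm
      refine Finset.sum_eq_zero fun δ _ => ?_
      rw [if_neg]
      intro h
      rw [e2] at h
      exact hle (h ▸ le_self_add)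
    · intro h
      exact hle (h ▸ le_rfl)

/-! ### Part 3: the faces -/

variable [Nonempty κ]

lemma kw_inl (w : κ → ι → ℕ) (K : ℕ) (k : ι → ℕ) (v : κ) :
    kw (wX w K) k (Sum.inl v) = kw w k v := rfl

lemma kw_inr (w : κ → ι → ℕ) (K : ℕ) (k : ι → ℕ) (v : κ) (δ : ι → Fin (K + 1)) :
    kw (wX w K) k (Sum.inr (v, δ)) = kw w k v + ∑ i, k i * (δ i : ℕ) := by
  unfold kw
  rw [← Finset.sum_add_distrib]
  refine Finset.sum_congr rfl fun i _ => ?_
  change k i * (w v i + (δ i : ℕ)) = _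
  rw [mul_add]

lemma mnk_eq (w : κ → ι → ℕ) (K : ℕ) (k : ι → ℕ) : mnk (wX w K) k = mnk w k := by
  unfold mnk
  apply le_antisymm
  · refine le_ciInf fun v => ?_
    exact (ciInf_le (OrderBot.bddBelow _) (Sum.inl v)).trans (kw_inl w K k v).le
  · refine le_ciInf fun q => ?_
    rcases q with v | ⟨v, δ⟩
    · rw [kw_inl]
      exact ciInf_le (OrderBot.bddBelow _) v
    · rw [kw_inr]
      exact (ciInf_le (OrderBot.bddBelow _) v).trans (Nat.le_add_right _ _)

lemma mem_fc {μ : Type} [Fintype μ] [DecidableEq μ] (w : μ → ι → ℕ) (k : ι → ℕ) (a : μ) :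
    a ∈ fc w k ↔ ∀ b, kw w k a ≤ kw w k b := by
  unfold fc
  simp

lemma inl_mem (w : κ → ι → ℕ) (K : ℕ) (k : ι → ℕ) (v : κ) :
    Sum.inl v ∈ fc (wX w K) k ↔ v ∈ fc w k := by
  rw [mem_fc, mem_fc]
  constructor
  · intro h b
    exact h (Sum.inl b)
  · intro h b
    rcases b with b | ⟨b, δ⟩
    · exact h b
    · rw [kw_inl, kw_inr]
      exact (h b).trans (Nat.le_add_right _ _)

lemma inr_mem (w : κ → ι → ℕ) (K : ℕ) (k : ι → ℕ) (hk : ∀ i, 1 ≤ k i) (v : κ)
    (δ : ι → Fin (K + 1)) (h : Sum.inr (v, δ) ∈ fc (wX w K) k) : δ = 0 := by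
  rw [mem_fc] at h
  have h1 := h (Sum.inl v)
  rw [kw_inl, kw_inr] at h1
  have h2 : ∑ i, k i * (δ i : ℕ) = 0 := by omega
  rw [Finset.sum_eq_zero_iff] at h2
  funext i
  apply Fin.ext
  have h3 := h2 i (Finset.mem_univ i)
  rcases Nat.mul_eq_zero.mp h3 with h4 | h4
  · have := hk i
    omega
  · exact h4

/-- the sums over the faces are the same -/
lemma sum_face (w : κ → ι → ℕ) (A : κ → MvPowerSeries ι ℂ) (K : ℕ) (k : ι → ℕ)
    (hk : ∀ i, 1 ≤ k i) (g : (ι → ℕ) → ℂ) :
    ∑ q ∈ fc (wX w K) k, aX K A q * g (wX w K q) = ∑ v ∈ fc w k, lead A v * g (w v) := by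
  classical
  have h1 : ∑ q ∈ fc (wX w K) k, aX K A q * g (wX w K q) =
      ∑ q, if q ∈ fc (wX w K) k then aX K A q * g (wX w K q) else 0 := by
    rw [Finset.sum_ite_mem, Finset.univ_inter]
  have h2 : ∑ v ∈ fc w k, lead A v * g (w v) =
      ∑ v, if v ∈ fc w k then lead A v * g (w v) else 0 := by
    rw [Finset.sum_ite_mem, Finset.univ_inter]
  rw [h1, h2, Fintype.sum_sum_type]
  have h3 : ∑ q : κ × (ι → Fin (K + 1)), (if Sum.inr q ∈ fc (wX w K) k then
      aX K A (Sum.inr q) * g (wX w K (Sum.inr q)) else 0) = 0 := by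
    refine Finset.sum_eq_zero fun q _ => ?_
    rcases q with ⟨v, δ⟩
    by_cases h : Sum.inr (v, δ) ∈ fc (wX w K) k
    · rw [if_pos h]
      have : aX K A (Sum.inr (v, δ)) = 0 := by
        change (if δ = 0 then 0 else _) = _
        rw [if_pos (inr_mem w K k hk v δ h)]
      rw [this, zero_mul]
    · rw [if_neg h]
  rw [h3, add_zero]
  refine Finset.sum_congr rfl fun v _ => ?_
  rw [if_congr (inl_mem w K k v) rfl rfl]
  rfl

lemma VF_eq (w : κ → ι → ℕ) (A : κ → MvPowerSeries ι ℂ) (K : ℕ) (k : ι → ℕ)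
    (hk : ∀ i, 1 ≤ k i) : VF (wX w K) (aX K A) (fc (wX w K) k) = VF w (lead A) (fc w k) := by
  ext x
  unfold VF
  simp only [Set.mem_ofPred_eq]
  rw [sum_face w A K k hk fun n => ∏ i, x i ^ n i]

lemma WF_eq (w : κ → ι → ℕ) (A : κ → MvPowerSeries ι ℂ) (K : ℕ) (k : ι → ℕ)
    (hk : ∀ i, 1 ≤ k i) (d : ℕ) :
    WF (wX w K) (aX K A) d (fc (wX w K) k) = WF w (lead A) d (fc w k) := by
  ext z
  unfold WF
  simp only [Set.mem_ofPred_eq]
  rw [sum_face w A K k hk fun n => ∏ i, z (Sum.inl i) ^ n i]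

lemma NdC_X (w : κ → ι → ℕ) (A : κ → MvPowerSeries ι ℂ) (K : ℕ) (h : NdC w (lead A)) :
    NdC (wX w K) (aX K A) := by
  intro k hk x hx h0
  rw [sum_face w A K k hk fun n => ∏ i, x i ^ n i] at h0
  obtain ⟨i, hi⟩ := h k hk x hx h0
  refine ⟨i, ?_⟩
  have h1 := sum_face w A K k hk fun n => (n i : ℂ) * ∏ i, x i ^ n i
  have h2 : ∑ v ∈ fc (wX w K) k, (wX w K v i : ℂ) * (aX K A v * ∏ i', x i' ^ wX w K v i') =
      ∑ v ∈ fc w k, (w v i : ℂ) * (lead A v * ∏ i', x i' ^ w v i') := by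
    refine Eq.trans ?_ (h1.trans ?_)
    · exact Finset.sum_congr rfl fun v _ => by ring
    · exact Finset.sum_congr rfl fun v _ => by ring
  rw [h2]
  exact hi

lemma ctL_eq (P : HodgeMeasure) (w : κ → ι → ℕ) (A : κ → MvPowerSeries ι ℂ) (K' d K : ℕ)
    (u : ℝ) : ctL P (wX w K') (aX K' A) d K u = ctL P w (lead A) d K u := by
  funext k
  unfold ctL
  by_cases hk : ∀ i, 1 ≤ k i
  · rw [if_pos hk, if_pos hk]
    unfold ct
    rw [mnk_eq, VF_eq w A K' k hk, WF_eq w A K' k hk]
  · rw [if_neg hk, if_neg hk]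

end

/-! ### Part 4: polynomials -/

lemma poly_ext (p q : Polynomial ℤ)
    (h : ∀ u : ℝ, 1 < u → Polynomial.aeval u p = Polynomial.aeval u q) : p = q := by
  have h1 : p.map (Int.castRingHom ℝ) = q.map (Int.castRingHom ℝ) := by
    refine Polynomial.eq_of_infinite_eval_eq _ _ ?_
    refine (Set.Ioi_infinite (1 : ℝ)).mono ?_
    intro u hu
    have h2 := h u hu
    simp only [Set.mem_ofPred_eq]
    rw [Polynomial.eval_map, Polynomial.eval_map]
    rw [Polynomial.aeval_def, Polynomial.aeval_def] at h2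
    exact h2
  exact Polynomial.map_injective _ Int.cast_injective h1

end EXTLAux

open EXTLAux in
theorem stmt_EXT (hS : Stmt_SUMKL) : Stmt_EXT := by
  intro P ι κ _ _ _ _ _ w A G K d hN hd hE
  have h1 : jetAt G (fun _ => 0) d K = jetAt (poly (wX w K) (aX K A)) (fun _ => 0) d K := by
    refine jetAt_congr _ _ d K fun m hm => ?_
    rw [← coeff_eq w A K m hm, hE m hm, MvPolynomial.coeff_coe]
  rw [h1]
  apply poly_ext
  intro u hu
  have s1 := hS ι (κ ⊕ (κ × (ι → Fin (K + 1)))) (wX w K) (aX K A) P d K u (NdC_X w A K hN) hd hu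
  have s2 := hS ι κ w (lead A) P d K u hN hd hu
  rw [ctL_eq] at s1
  have h2 := s1.unique s2
  have h3 : u⁻¹ ^ (K * Fintype.card ι) ≠ 0 := by positivity
  exact mul_right_cancel₀ h3 h2

end Pool.Agent.Mono.LO
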