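import Pool.Agent.Work.Monodromy.InterfaceL

/-!
# Phase L, block GDP: points of corank at most two (helper76)
-/

set_option autoImplicit false

namespace Pool.Agent.Mono.LO

open MvPolynomial C9 SP PC

namespace GDPLAux

variable {ι : Type} [Fintype ι]

/-- a point is constructible -/
theorem con_point (p : ι → ℂ) : Constructible ({p} : Set (ι → ℂ)) := by
  have h1 : Constructible {v : ι → ℂ | ∀ a, eval v (X a - C (p a)) = 0} :=
    Constructible.all fun a => Constructible.zero _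
  have h2 : ({p} : Set (ι → ℂ)) = {v : ι → ℂ | ∀ a, eval v (X a - C (p a)) = 0} := by
    ext v
    simp only [Set.mem_singleton_iff, Set.mem_ofPred_eq, map_sub, eval_X, eval_C, sub_eq_zero]
    exact ⟨fun h a => congrFun h a, fun h => funext h⟩
  rw [h2]
  exact h1

end GDPLAux

open GDPLAux in
/-- **GDP** -/
theorem stmt_GDP (hRNK : C9.Stmt_RNK9) (hGEN : C9.Stmt_GEN9) (hVGG : C9.Stmt_VGG9)
    (hSPC : C9.Stmt_SPC9) : Stmt_GDP := by
  intro ι _ _ f p htd hp hrk
  have hmem : ∀ g : MvPolynomial ι ℂ, g ∈ RingHom.ker (eval p) ↔ eval p g = 0 :=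
    fun g => RingHom.mem_ker
  have hI : (RingHom.ker (eval p)).IsPrime := RingHom.ker_isPrime _
  have hf : f ∈ RingHom.ker (eval p) := (hmem f).2 hp.1
  have hd : ∀ a, pderiv a f ∈ RingHom.ker (eval p) := fun a => (hmem _).2 (hp.2 a)
  obtain ⟨Z, hZ, h2, h3⟩ := hRNK ι f (RingHom.ker (eval p)) hI hd
  have hdt : eval p (dt f Z) ≠ 0 := fun h => hZ ((hmem _).2 h)
  have h4 := h3 p (fun g hg => (hmem g).1 hg) hdt
  have h5 : Zᶜ.card ≤ 2 := by
    rw [Finset.card_compl]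
    omega
  by_cases h6 : (∀ L : List ι, wd f Z L ∈ RingHom.ker (eval p)) ∨ Zᶜ.card ≤ 1
  · have h7 : (∀ L : List ι, wd f Z L ∈ RingHom.ker (eval p)) ∨
        (Zᶜ.card ≤ 2 ∧ (Zᶜ.card = 2 → ¬ (RingHom.ker (eval p)).IsMaximal)) := by
      rcases h6 with h6 | h6
      · exact Or.inl h6
      · exact Or.inr ⟨h5, fun h7 => by omega⟩
    obtain ⟨s₀, hs₀, h⟩ := hGEN ι f (RingHom.ker (eval p)) hI hf hd Z hZ h2 h7
    have hs : eval p s₀ ≠ 0 := fun h => hs₀ ((hmem _).2 h)
    have hsub : ∀ q ∈ ({p} : Set (ι → ℂ)),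
        q ∈ {q : ι → ℂ | (∀ g ∈ RingHom.ker (eval p), eval q g = 0) ∧ eval q s₀ ≠ 0} := by
      intro q hq
      rw [Set.mem_singleton_iff] at hq
      subst hq
      exact ⟨fun g hg => (hmem g).1 hg, hs⟩
    rcases h with ⟨s, h⟩ | ⟨b, h', s, w, e, h⟩
    · exact (hVGG ι f htd {p} Z s (con_point p)).1
        ⟨fun q hq => h.crit q (hsub q hq), fun q hq => h.det q (hsub q hq),
          fun q hq => h.s0 q (hsub q hq), h.eq⟩
    · exact (hVGG ι f htd {p} Z s (con_point p)).2 b h' w e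
        ⟨h.hb, h.he, fun q hq => h.crit q (hsub q hq), fun q hq => h.det q (hsub q hq),
          fun q hq => h.h0 q (hsub q hq), fun q hq => h.h1 q (hsub q hq),
          fun q hq => h.s0 q (hsub q hq), fun q hq => h.w0 q (hsub q hq), h.eq⟩
  · push Not at h6
    obtain ⟨⟨L, hL⟩, h7⟩ := h6
    exact hSPC ι f Z p htd hp (by omega) hdt ⟨L, fun h => hL ((hmem _).2 h)⟩

end Pool.Agent.Mono.LO
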