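import Pool.Agent.Work.Monodromy.InterfaceL
import Pool.Agent.Work.Monodromy8.SMZ8
import Pool.Agent.Work.Monodromy5.TC5

/-!
# Block GDS (helper89): smooth points of `f = 0`
-/

set_option autoImplicit false
set_option linter.unusedSectionVars false

namespace Pool.Agent.Mono.LO

open MvPolynomial TS RO SP PC VGAux O5Aux VSMAux SMZ8Aux C9

namespace GDSLAux

/-- the volume of the arcs through a smooth point -/
theorem vol_smooth_pt {ι : Type} [Fintype ι] [DecidableEq ι] {E : Type} [Finite E]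
    (P : HodgeMeasure) (f : MvPolynomial ι ℂ) (p : ι → ℂ) (h0 : eval p f = 0)
    (h1 : ∃ a, eval p (pderiv a f) ≠ 0) (Q : Set (E ⊕ Unit → ℂ)) (hQ : QU Q) {m : ℕ}
    (hm : 1 ≤ m) :
    vol P.rat xq (ZL f {p} Q m) =
      xq ^ Fintype.card ι * P.rat.val (RP f (QZ Q) ∩ ZP {p}) * xq ^ m := by
  have hz : ∀ x ∈ ({p} : Set (ι → ℂ)), eval x f = 0 := by
    intro x hx
    rw [Set.mem_singleton_iff] at hx
    rw [hx]; exact h0
  have hz' : ∀ x ∈ ({p} : Set (ι → ℂ)), ∃ i, eval x (pderiv i f) ≠ 0 := by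
    intro x hx
    rw [Set.mem_singleton_iff] at hx
    rw [hx]; exact h1
  have hcp : Constructible ({p} : Set (ι → ℂ)) := Constructible.point p
  rw [ZL_eq f _ hz Q hm, vol_SDz P f hcp hz' (con_QZ hQ.1) hm, pow_add]
  ring

end GDSLAux

open GDSLAux

theorem stmt_GDS : Stmt_GDS := by
  classical
  intro ι _ _ f p h0 h1 P E _ Q hQ
  set c : K := xq ^ Fintype.card ι * P.rat.val (RP f (QZ Q) ∩ ZP {p}) with hc
  have hΛ : (1 / ((1 : ℕ) : ℚ)) ∈ ({1} ∪ EV f : Set ℚ) := by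
    left
    simp
  have h3 := stmt_Q1.2.1 _ _ _ (TC5Aux.eseq_hpow _ 1 le_rfl hΛ c)
    (stmt_Q1.2.2.2.1 ({1} ∪ EV f) (fun m => if m = 0 then vol P.rat xq (ZL f {p} Q 0) - c else 0) 1
      (fun m hm => if_neg (by omega)))
  refine cast ?_ h3
  congr 1
  funext m
  rcases Nat.eq_zero_or_pos m with rfl | hm
  · simp
  · rw [if_neg (by omega : ¬ m = 0), if_pos (one_dvd m), Nat.div_one, add_zero,
      vol_smooth_pt P f p h0 h1 Q hQ hm]

end Pool.Agent.Mono.LO
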