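import Pool.Agent.Work.Monodromy.InterfaceL

/-!
# Block GNX of phase L (helper54): the functional for additional exponents
-/

set_option autoImplicit false

namespace Pool.Agent.Mono.LO

open MvPolynomial Filter Topology NP

namespace GNXLAux

variable {ι κ : Type} [Fintype ι] [DecidableEq ι] [Fintype κ] [DecidableEq κ]

theorem mem_fc (w : κ → ι → ℕ) (k : ι → ℕ) (a : κ) :
    a ∈ fc w k ↔ ∀ b, kw w k a ≤ kw w k b := by
  unfold fc
  simp

theorem mnk_le (w : κ → ι → ℕ) (k : ι → ℕ) (a : κ) : mnk w k ≤ kw w k a :=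
  ciInf_le (OrderBot.bddBelow _) a

theorem mnk_eq (w : κ → ι → ℕ) (k : ι → ℕ) (a : κ) (ha : a ∈ fc w k) :
    kw w k a = mnk w k := by
  haveI : Nonempty κ := ⟨a⟩
  exact le_antisymm (le_ciInf ((mem_fc w k a).1 ha)) (mnk_le w k a)

theorem kw_cast (w : κ → ι → ℕ) (k : ι → ℕ) (a : κ) :
    ((kw w k a : ℕ) : ℚ) = ∑ i, (k i : ℚ) * (w a i : ℚ) := by
  unfold kw
  push_cast
  rfl

/-- the supports of the functional are in finitely many compact faces -/
theorem exists_X (w : κ → ι → ℕ) (h : κ → ℝ) (hC : Cpt w h) (s₀ : ℚ) (c : κ → ℚ)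
    (J : Finset ι) (d : ℕ) (lam : (κ →₀ ℕ) → ℚ) (hlam : LamD w h s₀ c J d lam) :
    ∃ X : Finset ((ι → ℚ) × ℚ), XPos X ∧ SX w c lam X := by
  classical
  obtain ⟨-, -, hdeg, hcell, -⟩ := hlam
  have hch : ∀ m : κ →₀ ℕ, ∃ k' : ι → ℕ, (∀ i, 1 ≤ k' i) ∧
      (lam m ≠ 0 → ∀ a, (m a ≠ 0 ∨ ∀ z : ℤ, c a ≠ z) → a ∈ fc w k') := by
    intro m
    by_cases hm : lam m = 0
    · exact ⟨fun _ => 1, fun _ => le_rfl, fun h => absurd hm h⟩
    · obtain ⟨k, hk0, hk⟩ := hcell m hm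
      obtain ⟨k', hk'1, hk'⟩ := hC k hk0
      refine ⟨k', hk'1, fun _ a ha => hk' a ?_⟩
      have := hk a ha
      unfold cell at this
      simpa using this
  choose k' hk1 hk2 using hch
  have hfin : {m : κ →₀ ℕ | m.degree = d}.Finite := Finsupp.finite_of_degree_eq d
  refine ⟨hfin.toFinset.image fun m => ((fun i => (k' m i : ℚ)), (mnk w (k' m) : ℚ)), ?_, ?_⟩
  · intro q hq i
    obtain ⟨m, -, rfl⟩ := Finset.mem_image.1 hq
    have := hk1 m i
    show (0 : ℚ) < (k' m i : ℚ)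
    exact_mod_cast this
  · intro m hm
    refine ⟨((fun i => (k' m i : ℚ)), (mnk w (k' m) : ℚ)), ?_, ?_, ?_, ?_⟩
    · exact Finset.mem_image.2 ⟨m, hfin.mem_toFinset.2 (hdeg m hm), rfl⟩
    · intro i
      have := hk1 m i
      show (0 : ℚ) < (k' m i : ℚ)
      exact_mod_cast this
    · intro a
      show (mnk w (k' m) : ℚ) ≤ ∑ i, (k' m i : ℚ) * (w a i : ℚ)
      rw [← kw_cast]
      exact_mod_cast mnk_le w (k' m) a
    · intro a ha
      show ∑ i, (k' m i : ℚ) * (w a i : ℚ) = (mnk w (k' m) : ℚ)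
      rw [← kw_cast, mnk_eq w (k' m) a (hk2 m hm a ha)]

variable {μ : Type} [Fintype μ] [DecidableEq μ]

/-- the same supports for additional exponents -/
theorem SX_ext (w : κ → ι → ℕ) (w' : μ → ι → ℕ) (hw : ∀ m : μ, ∃ v, ∀ i, w v i ≤ w' m i)
    (c : κ → ℚ) (lam : (κ →₀ ℕ) → ℚ) (X : Finset ((ι → ℚ) × ℚ)) (hX : SX w c lam X) :
    SX (Sum.elim w w') (Sum.elim c fun _ => 0) (lamX (μ := μ) lam) X := by
  classical
  intro m hm
  unfold lamX at hm
  by_cases hm0 : ∀ b : μ, m (Sum.inr b) = 0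
  · rw [if_pos hm0] at hm
    obtain ⟨q, hq, hq0, hq1, hq2⟩ := hX _ hm
    refine ⟨q, hq, hq0, ?_, ?_⟩
    · rintro (a | b)
      · exact hq1 a
      · obtain ⟨v, hv⟩ := hw b
        refine le_trans (hq1 v) (Finset.sum_le_sum fun i _ => ?_)
        refine mul_le_mul_of_nonneg_left ?_ (hq0 i).le
        show (w v i : ℚ) ≤ (w' b i : ℚ)
        exact_mod_cast hv i
    · rintro (a | b) ha
      · refine hq2 a ?_
        rcases ha with ha | ha
        · left
          rwa [Finsupp.comapDomain_apply]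
        · right
          exact ha
      · exfalso
        rcases ha with ha | ha
        · exact ha (hm0 b)
        · exact ha 0 (by simp)
  · rw [if_neg hm0] at hm
    exact absurd rfl hm

theorem nuc_ext (w : κ → ι → ℕ) (w' : μ → ι → ℕ) (c : κ → ℚ) (J : Finset ι) :
    nuc (Sum.elim w w') (Sum.elim c fun _ => 0) J = nuc w c J := by
  funext i
  unfold nuc
  split
  · rw [Fintype.sum_sum_type]
    simp
  · rfl

end GNXLAux

theorem stmt_GNX (hEXD : Stmt_EXD) (hGNRL : Stmt_GNRL) : Stmt_GNX := by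
  intro ι κ _ _ _ _ w h s₀ hh hs hC hD
  rw [lamDatum_iff] at hD
  obtain ⟨c, J, d, lam, hlam⟩ := hD
  obtain ⟨X, hXp, hX⟩ := GNXLAux.exists_X w h hC s₀ c J d lam hlam
  refine ⟨J, nuc w c J, ⌊s₀⌋, X, hXp, ?_, ?_⟩
  · intro i hi
    unfold nuc
    rw [if_neg hi]
  · intro μ _ _ w' hw' b hb
    obtain ⟨h', hh', hlam'⟩ := hEXD ι κ μ w w' h s₀ c J d lam hh hlam hw'
    have h1 := hGNRL ι (κ ⊕ μ) (Sum.elim w w') h' s₀ (Sum.elim c fun _ => 0) J d (lamX lam) X
      hh' hs hlam' (GNXLAux.SX_ext w w' hw' c lam X hX) b hb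
    rw [GNXLAux.nuc_ext] at h1
    exact h1

end Pool.Agent.Mono.LO
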