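import Pool.Agent.Work.Monodromy.InterfaceL
import Pool.Agent.Work.Monodromy12.FULL12

/-! # Phase L, block HLOC (helper96): heights such that all cells are in compact faces

`h a = g a + L |w a|` with `g` generic and `L` large: the minima of `h` for `k ≥ 0` are the minima
of `g` for `k + L (1, …, 1)`. -/

set_option autoImplicit false

namespace Pool.Agent.Mono.LO

open Finset NP

namespace HLOCAux

variable {ι κ : Type} [Fintype ι] [DecidableEq ι] [Fintype κ] [DecidableEq κ]

theorem good_or_bdd (hMW : NP.Stmt_MW) (w : κ → ι → ℕ) (g : κ → ℝ) (C : Finset κ) :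
    (∃ k' : ι → ℕ, (∀ i, 1 ≤ k' i) ∧ C ⊆ fc w k') ∨
    ∃ R : ℝ, ∀ K : ι → ℝ, (∀ i, 0 ≤ K i) → (∀ a ∈ C, ∀ b, hval w g K a ≤ hval w g K b) →
      ∃ i, K i ≤ R := by
  classical
  obtain ⟨L, hL1, hL2⟩ := hMW ι ((C × κ) ⊕ ι)
    (Sum.elim (fun p i => (w p.2 i : ℤ) - w p.1 i) (fun j => Pi.single j 1))
  have hl0 : ∀ l ∈ L, ∀ i, 0 ≤ l i := by
    intro l hl i
    have := hL1 l hl (Sum.inr i)
    simpa [Pi.single_apply] using this
  by_cases hy : ∀ i, 1 ≤ ∑ l ∈ L, l i
  · left
    refine ⟨fun i => (∑ l ∈ L, l i).toNat, ?_, ?_⟩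
    · intro i
      have := hy i
      show 1 ≤ (∑ l ∈ L, l i).toNat
      omega
    · intro a ha
      rw [fc, mem_filter]
      refine ⟨mem_univ _, fun b => ?_⟩
      show ∑ i, (∑ l ∈ L, l i).toNat * w a i ≤ ∑ i, (∑ l ∈ L, l i).toNat * w b i
      have h1 : ∀ l ∈ L, 0 ≤ ∑ i, l i * ((w b i : ℤ) - w a i) := fun l hl => by
        simpa using hL1 l hl (Sum.inl (⟨a, ha⟩, b))
      have h2 := Finset.sum_nonneg h1
      rw [Finset.sum_comm] at h2
      have h3 : ∑ i, ∑ l ∈ L, l i * ((w b i : ℤ) - w a i) =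
          ∑ i, (∑ l ∈ L, l i) * (w b i : ℤ) - ∑ i, (∑ l ∈ L, l i) * (w a i : ℤ) := by
        rw [← Finset.sum_sub_distrib]
        apply Finset.sum_congr rfl
        intro i _
        rw [← Finset.sum_mul]
        ring
      rw [h3] at h2
      have h4 : ∀ c : κ, ((∑ i, (∑ l ∈ L, l i).toNat * w c i : ℕ) : ℤ) =
          ∑ i, (∑ l ∈ L, l i) * (w c i : ℤ) := by
        intro c
        push_cast
        apply Finset.sum_congr rfl
        intro i _
        rw [Int.toNat_of_nonneg (by have := hy i; omega)]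
      have h5 := h4 a
      have h6 := h4 b
      omega
  · right
    push Not at hy
    obtain ⟨i, hi⟩ := hy
    have h0 : ∀ l ∈ L, l i = 0 := by
      have h1 : ∑ l ∈ L, l i = 0 := by
        have : 0 ≤ ∑ l ∈ L, l i := Finset.sum_nonneg fun l hl => hl0 l hl i
        omega
      exact (Finset.sum_eq_zero_iff_of_nonneg fun l hl => hl0 l hl i).1 h1
    obtain ⟨c, hc0, hc⟩ := hL2 (fun j => if j = i then -1 else 0) (by
      intro l hl
      simp [h0 l hl])
    refine ⟨∑ p : C × κ, (c (Sum.inl p) : ℝ) * (g p.2 - g p.1), fun K hK hC => ⟨i, ?_⟩⟩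
    have h1 : -K i = ∑ j, K j * (((if j = i then -1 else 0 : ℚ)) : ℝ) := by
      rw [Finset.sum_eq_single i]
      · rw [if_pos rfl]
        push_cast
        ring
      · intro j _ hj
        rw [if_neg hj]
        push_cast
        ring
      · intro h
        exact absurd (Finset.mem_univ i) h
    have h2 : ∀ j, (((if j = i then -1 else 0 : ℚ)) : ℝ) =
        ∑ p : C × κ, (c (Sum.inl p) : ℝ) * ((w p.2 j : ℝ) - w p.1 j) +
          (c (Sum.inr j) : ℝ) := by
      intro j
      have := hc j
      rw [Fintype.sum_sum_type] at this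
      simp only [Sum.elim_inl, Sum.elim_inr] at this
      rw [this]
      push_cast
      congr 1
      rw [Finset.sum_eq_single j]
      · simp
      · intro b _ hb
        rw [Pi.single_apply, if_neg (Ne.symm hb)]
        simp
      · simp
    have h3 : -K i = ∑ p : C × κ, (c (Sum.inl p) : ℝ) *
        (∑ j, K j * (w p.2 j : ℝ) - ∑ j, K j * (w p.1 j : ℝ)) +
          ∑ j, K j * (c (Sum.inr j) : ℝ) := by
      rw [h1]
      simp_rw [h2, mul_add, Finset.sum_add_distrib]
      congr 1
      simp_rw [Finset.mul_sum]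
      rw [Finset.sum_comm]
      apply Finset.sum_congr rfl
      intro p _
      rw [← Finset.sum_sub_distrib, Finset.mul_sum]
      apply Finset.sum_congr rfl
      intro j _
      ring
    have h4 : 0 ≤ ∑ j, K j * (c (Sum.inr j) : ℝ) := by
      apply Finset.sum_nonneg
      intro j _
      apply mul_nonneg (hK j)
      exact_mod_cast hc0 (Sum.inr j)
    have h5 : -∑ p : C × κ, (c (Sum.inl p) : ℝ) * (g p.2 - g p.1) ≤
        ∑ p : C × κ, (c (Sum.inl p) : ℝ) *
        (∑ j, K j * (w p.2 j : ℝ) - ∑ j, K j * (w p.1 j : ℝ)) := by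
      rw [← Finset.sum_neg_distrib]
      apply Finset.sum_le_sum
      intro p _
      rw [← mul_neg]
      apply mul_le_mul_of_nonneg_left
      · have := hC p.1 p.1.2 p.2
        unfold hval at this
        linarith
      · exact_mod_cast hc0 (Sum.inl p)
    linarith

end HLOCAux

open HLOCAux in
theorem stmt_HLOC (hMW : NP.Stmt_MW) : Stmt_HLOC := by
  classical
  intro ι κ _ _ _ _ w
  obtain ⟨f, hf⟩ := NP.FULLAux.exists_indep (Option κ)
  have hR : ∀ C : Finset κ, ∃ R : ℝ, (∃ k' : ι → ℕ, (∀ i, 1 ≤ k' i) ∧ C ⊆ fc w k') ∨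
      ∀ K : ι → ℝ, (∀ i, 0 ≤ K i) →
        (∀ a ∈ C, ∀ b, hval w (fun a => f (some a)) K a ≤ hval w (fun a => f (some a)) K b) →
        ∃ i, K i ≤ R := by
    intro C
    rcases good_or_bdd hMW w (fun a => f (some a)) C with h | ⟨R, h⟩
    · exact ⟨0, Or.inl h⟩
    · exact ⟨R, Or.inr h⟩
  choose R hR using hR
  obtain ⟨B, hB⟩ := (Set.finite_range R).bddAbove
  obtain ⟨q, hq⟩ := NP.FULLAux.exists_mul_ge (f none) (max B 0 + 1) (hf.ne_zero none)
  refine ⟨fun a => f (some a) + q * f none * ∑ i, (w a i : ℝ), ?_, ?_⟩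
  · rw [Fintype.linearIndependent_iff] at hf ⊢
    intro g hg a
    have h1 := hf (fun o => o.elim (q * ∑ a, g a * ∑ i, (w a i : ℚ)) g) (by
      rw [Fintype.sum_option]
      have h2 : ∑ a, g a • (f (some a) + q * f none * ∑ i, (w a i : ℝ)) =
          (∑ a, g a • f (some a)) + (q * ∑ a, (g a : ℝ) * ∑ i, (w a i : ℝ)) * f none := by
        rw [Finset.mul_sum, Finset.sum_mul, ← Finset.sum_add_distrib]
        apply Finset.sum_congr rfl
        intro a _
        simp only [Rat.smul_def]
        ring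
      rw [h2] at hg
      simp only [Option.elim]
      rw [Rat.smul_def]
      push_cast
      linear_combination hg) (some a)
    exact h1
  · intro k hk
    have key : ∀ (k1 : ι → ℝ) (a : κ),
        hval w (fun a => f (some a) + q * f none * ∑ i, (w a i : ℝ)) k1 a =
        hval w (fun a => f (some a)) (fun i => k1 i + q * f none) a := by
      intro k1 a
      unfold hval
      have h1 : ∑ i, (k1 i + q * f none) * (w a i : ℝ) =
          ∑ i, k1 i * (w a i : ℝ) + q * f none * ∑ i, (w a i : ℝ) := by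
        rw [Finset.mul_sum, ← Finset.sum_add_distrib]
        apply Finset.sum_congr rfl
        intro i _
        ring
      rw [h1]
      ring
    have hmax : (0 : ℝ) ≤ max B 0 := le_max_right _ _
    have hmax2 : B ≤ max B 0 := le_max_left _ _
    set C : Finset κ := univ.filter (fun a => ∀ b,
      hval w (fun a => f (some a) + q * f none * ∑ i, (w a i : ℝ)) k a ≤
        hval w (fun a => f (some a) + q * f none * ∑ i, (w a i : ℝ)) k b) with hC
    rcases hR C with ⟨k', hk', hCk⟩ | h
    · refine ⟨k', hk', fun a ha => hCk ?_⟩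
      rw [hC, mem_filter]
      exact ⟨mem_univ _, ha⟩
    · exfalso
      obtain ⟨i, hi⟩ := h (fun i => k i + q * f none) (fun i => by
        have := hk i
        linarith) (by
        intro a ha b
        rw [hC, mem_filter] at ha
        rw [← key, ← key]
        exact ha.2 b)
      have h1 := hk i
      have h2 : R C ≤ B := hB ⟨C, rfl⟩
      linarith

end Pool.Agent.Mono.LO
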