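import Pool.Agent.Work.Monodromy.InterfaceL

/-!
# Block IIIL of phase L (helper54): the datum gives a witness for `f`
-/

set_option autoImplicit false

namespace Pool.Agent.Mono.LO

open MvPolynomial Filter Topology NP

namespace IIILLAux

variable {ι : Type} [DecidableEq ι]

/-- formal derivatives commute -/
theorem pderiv_comm (i j : ι) (g : MvPowerSeries ι ℂ) :
    MvPowerSeries.pderiv ℂ i (MvPowerSeries.pderiv ℂ j g) =
      MvPowerSeries.pderiv ℂ j (MvPowerSeries.pderiv ℂ i g) := by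
  ext n
  rw [MvPowerSeries.coeff_pderiv, MvPowerSeries.coeff_pderiv, MvPowerSeries.coeff_pderiv,
    MvPowerSeries.coeff_pderiv]
  by_cases hij : i = j
  · subst hij
    rfl
  · rw [add_right_comm, Finsupp.add_apply, Finsupp.add_apply, Finsupp.single_eq_of_ne hij,
      Finsupp.single_eq_of_ne (Ne.symm hij)]
    simp only [add_zero]
    ring

variable [Fintype ι]

/-- the Jacobian matrix of formal coordinates is invertible -/
theorem exists_inv (p : ι → ℂ) (φ : ι → MvPowerSeries ι ℂ) (hφ : FCo p φ) :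
    ∃ M : Matrix ι ι (MvPowerSeries ι ℂ),
      (Matrix.of fun a b => MvPowerSeries.pderiv ℂ b (φ a)) * M = 1 := by
  refine ⟨(Matrix.of fun a b => MvPowerSeries.pderiv ℂ b (φ a))⁻¹, ?_⟩
  apply Matrix.mul_nonsing_inv
  rw [MvPowerSeries.isUnit_iff_constantCoeff, RingHom.map_det, isUnit_iff_ne_zero]
  exact hφ.2

end IIILLAux

theorem stmt_IIIL (hGNX : Stmt_GNX) (hSPCL : Stmt_SPCL) (hWITL : Stmt_WITL)
    (hETA : Stmt_ETA) : Stmt_IIIL := by
  intro ι κ _ _ _ _ f p φ w A h s₀ hφ hf hnd hC hh hs hD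
  obtain ⟨J, ν, k₀, X, hX, hν, H⟩ := hGNX ι κ w h s₀ hh hs hC hD
  obtain ⟨Φ, hΦ1, hΦ2, hΦ3⟩ := hSPCL ι κ w A J ν s₀ k₀ X hnd hX hν (fun n b hb =>
    H (κ × (ι → Fin (n + 1))) (fun q i => w q.1 i + (q.2 i : ℕ))
      (fun m => ⟨m.1, fun i => Nat.le_add_right _ _⟩) b hb)
  obtain ⟨V, iV1, iV2, P, DV, z, v, h1, h2, h3, h4, h5, h6, h7⟩ :=
    hWITL ι κ w A J ν s₀ k₀ X Φ hX hν hΦ1 hΦ2 hΦ3
  obtain ⟨M, hM⟩ := IIILLAux.exists_inv p φ hφ
  refine ⟨s₀ + z, z, rfl, ?_⟩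
  refine hETA ι (MvPowerSeries ι ℂ) (fun i => MvPowerSeries.pderiv ℂ i)
    (fun i j g => IIILLAux.pderiv_comm i j g) φ M hM V P DV h1 h2 f _ v h3 ?_ ?_ ?_ ?_
  · rw [hf]
    exact h4
  · intro a
    rw [hf]
    exact h5 a
  · intro i a
    rw [hf]
    exact h6 i a
  · intro i
    rw [hf]
    exact h7 i

end Pool.Agent.Mono.LO
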