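import Pool.Agent.Work.Monodromy.InterfaceL
import Pool.Agent.Work.Monodromy12.IASM12

/-!
# Phase L, block IL: the local zeta function is given by the triangulation (helper30; copy of
`stmt_I13`)
-/

set_option autoImplicit false

namespace Pool.Agent.Mono.LO

open MvPolynomial Filter Topology NP

/-- block IL -/
theorem stmt_IL (hLIMB : Stmt_LIMBL) (hFAC : Stmt_FACL) (hJC : NP.Stmt_JC)
    (hGENR : NP.Stmt_GENR) (hREL : NP.Stmt_REL) : Stmt_IL := by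
  classical
  intro E ι κ _ _ _ _ _ w a h e R P D hw ha hh hcpt he hR hTf
  obtain ⟨c, hc⟩ := hLIMB E ι κ w a e R ha he hR
  obtain ⟨ζ, hζ, hgen⟩ := hGENR ι κ w h hh
  refine ⟨c, ?_⟩
  rw [IASMAux.aeval_line, IASMAux.aeval_line]
  apply IASMAux.ratfunc_id
  intro s hs hd
  have hs0 : (0 : ℝ) < s := by exact_mod_cast hs
  have hJ : ∀ C : Finset κ, ∃ J : ℝ, C ∈ cls0 w h →
      Tendsto (fun ε : ℝ => ε ^ (Fintype.card ι + 1 - C.card) *
        Fs w C (pz (fun _ => 0) (s : ℝ) 0) ε) (𝓝[>] 0) (𝓝 J) ∧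
      Tendsto (fun η : ℝ => (nuE w 1 C : ℝ) * Itg w h (inl C) 1 (pz ζ (s : ℝ) η)) (𝓝[>] 0)
        (𝓝 J) := by
    intro C
    by_cases hC : C ∈ cls0 w h
    · obtain ⟨J, h1⟩ := hJC ι κ w h hh ζ s hζ hs0 (hgen s hs0) C hC
      exact ⟨J, fun _ => h1⟩
    · exact ⟨0, fun hC' => absurd hC' hC⟩
  choose J hJ using hJ
  have h1 := tendsto_nhds_unique (hc s hd)
    (hFAC E ι κ w a h e s J hw ha hh hcpt he (fun C hC => (hJ C hC).1))
  -- the limit of the sums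
  have h2 : Tendsto (fun η : ℝ => ∑ C ∈ cls0 w h, (-1) ^ (C.card + 1) * ((nuE w e C : ℝ) -
        (if e = 1 ∧ 2 ≤ C.card then (nuE w 1 C : ℝ) / (1 + s) else 0)) *
          ((nuE w 1 C : ℝ) * Itg w h (inl C) 1 (pz ζ (s : ℝ) η))) (𝓝[>] 0)
      (𝓝 (∑ C ∈ cls0 w h, (-1) ^ (C.card + 1) * ((nuE w e C : ℝ) -
        (if e = 1 ∧ 2 ≤ C.card then (nuE w 1 C : ℝ) / (1 + s) else 0)) * J C)) := by
    apply tendsto_finsetSum
    intro C hC
    exact ((hJ C hC).2).const_mul _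
  rw [← h1] at h2
  have h3 := h2.mul (IASMAux.tendsto_aeval ζ s D)
  have h4 := (IASMAux.tendsto_aeval ζ s P).const_mul (if e = 1 then -(s : ℝ) / (s + 1) else -1)
  have h5 : (fun η : ℝ => (∑ C ∈ cls0 w h, (-1) ^ (C.card + 1) * ((nuE w e C : ℝ) -
        (if e = 1 ∧ 2 ≤ C.card then (nuE w 1 C : ℝ) / (1 + s) else 0)) *
          ((nuE w 1 C : ℝ) * Itg w h (inl C) 1 (pz ζ (s : ℝ) η))) *
            (aeval (pz ζ (s : ℝ) η) D : ℝ)) =ᶠ[𝓝[>] 0]
      fun η : ℝ => (if e = 1 then -(s : ℝ) / (s + 1) else -1) *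
        (aeval (pz ζ (s : ℝ) η) P : ℝ) := by
    filter_upwards [hgen s hs0] with η hη
    rw [IASMAux.main_id hREL w h hh e s (pz ζ (s : ℝ) η) hη rfl, mul_assoc, hTf _ hη]
  have h6 := tendsto_nhds_unique_of_eventuallyEq h3 h4 h5
  rw [IASMAux.aeval_pz, IASMAux.aeval_pz] at h6
  have h7 : ((((e.totient : ℚ) * R.eval (RingHom.id ℚ) (s : ℚ) + c) *
      (IASMAux.lineP D).eval (s : ℚ) : ℚ) : ℝ) =
      (((if e = 1 then -(s : ℚ) / (s + 1) else -1) * (IASMAux.lineP P).eval (s : ℚ) : ℚ) : ℝ) := by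
    push_cast
    rw [h6]
    split_ifs <;> push_cast <;> rfl
  exact_mod_cast h7

end Pool.Agent.Mono.LO
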