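import Pool.Agent.Work.Monodromy.InterfaceL

/-!
# KFL: the class of the hypersurface of a compact face (helper99)
-/

set_option autoImplicit false

namespace Pool.Agent.Mono.LO

open MvPolynomial Filter Topology NP

namespace KFLAux

theorem fc_nonempty {ι κ : Type} [Fintype ι] [Fintype κ] [Nonempty κ] (w : κ → ι → ℕ)
    (k : ι → ℕ) : (fc w k).Nonempty := by
  obtain ⟨v, hv⟩ := Finite.exists_min (kw w k)
  refine ⟨v, ?_⟩
  unfold fc
  rw [Finset.mem_filter]
  exact ⟨Finset.mem_univ _, hv⟩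

theorem fce_univ {ι κ : Type} [Fintype ι] [Fintype κ] (w : κ → ι → ℕ) :
    Fce w Finset.univ :=
  fun _ _ _ _ v hv => absurd (Finset.mem_univ v) hv

end KFLAux

open KFLAux in
theorem stmt_KFL (hK : NP.Stmt_KF13) (hN : Stmt_NDR) (hR : Stmt_RST) : Stmt_KFL := by
  intro E ι κ _ _ _ _ _ w a h k hk hw ha hh
  obtain ⟨r1, _, r3, r4⟩ := hR ι κ w a h (fc w k)
  have hne : (Finset.univ : Finset (fc w k)).Nonempty := by
    obtain ⟨v, hv⟩ := fc_nonempty w k
    exact ⟨⟨v, hv⟩, Finset.mem_univ _⟩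
  obtain ⟨q, h1, h2, h3⟩ := hK E ι (fc w k) (fun v : fc w k => w (v : κ))
    (fun v : fc w k => a (v : κ)) (fun v : fc w k => h (v : κ)) Finset.univ hne (fce_univ _)
    (fun v v' hv => Subtype.ext (hw hv)) (hN ι κ w a k hk ha)
    (hh.comp (fun v : fc w k => (v : κ)) Subtype.val_injective)
  rw [r3] at h1 h2 h3
  rw [r1] at h1
  refine ⟨q, h1, h2, fun h4 => ?_⟩
  rw [h3 h4, r4 1]

end Pool.Agent.Mono.LO
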