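import Pool.Agent.Work.MonodromyL.KFL

/-!
# KWL: the class of the cover of a compact face (helper99)
-/

set_option autoImplicit false

namespace Pool.Agent.Mono.LO

open MvPolynomial Filter Topology NP

open KFLAux in
theorem stmt_KWL (hK : NP.Stmt_KW13) (hN : Stmt_NDR) (hR : Stmt_RST) : Stmt_KWL := by
  intro E ι κ _ _ _ _ _ w a h k d hk hd hw ha hh
  obtain ⟨_, r2, r3, r4⟩ := hR ι κ w a h (fc w k)
  have hne : (Finset.univ : Finset (fc w k)).Nonempty := by
    obtain ⟨v, hv⟩ := fc_nonempty w k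
    exact ⟨⟨v, hv⟩, Finset.mem_univ _⟩
  obtain ⟨q, h1, h2⟩ := hK E ι (fc w k) (fun v : fc w k => w (v : κ))
    (fun v : fc w k => a (v : κ)) (fun v : fc w k => h (v : κ)) Finset.univ d hne (fce_univ _) hd
    (fun v v' hv => Subtype.ext (hw hv)) (hN ι κ w a k hk ha)
    (hh.comp (fun v : fc w k => (v : κ)) Subtype.val_injective)
  rw [r3] at h1 h2
  rw [r2] at h1
  refine ⟨q, h1, ?_⟩
  rw [h2, Finset.sum_comm, Finset.sum_comm (s := smp w h (fc w k))]
  congr 1
  exact Finset.sum_congr rfl fun e _ => r4 e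

end Pool.Agent.Mono.LO
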