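import Pool.Agent.Work.Monodromy.InterfaceL
import Pool.Agent.Work.Monodromy12.LIMB12

/-!
# Phase L, block LIMBL: the values of the local zeta function as limits
(helper51, from LIMB12 of helper52)
-/

set_option autoImplicit false

namespace Pool.Agent.Mono.LO

open MvPolynomial Filter Topology NP

namespace LIMBLAux

open LIMAAux LIMBAux

variable {ι κ : Type} [Fintype ι] [DecidableEq ι] [Fintype κ] [DecidableEq κ]

open Classical in
/-- the sum over the positive `k` of a face, as a sum over all `k` -/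
theorem SFp_eq (w : κ → ι → ℕ) (s : ℕ) (F : Finset κ) (ε : ℝ) :
    SFp w s F ε = ∑' k : ι → ℕ, if (∀ i, 1 ≤ k i) ∧ fc w k = F then ex w s ε k else 0 := by
  have := tsum_subtype {k : ι → ℕ | (∀ i, 1 ≤ k i) ∧ fc w k = F} (fun k : ι → ℕ => ex w s ε k)
  rw [show SFp w s F ε = ∑' k : {k : ι → ℕ | (∀ i, 1 ≤ k i) ∧ fc w k = F}, ex w s ε k from rfl,
    this]
  refine tsum_congr fun k => ?_
  simp only [Set.indicator_apply, Set.mem_ofPred_eq]

open Classical in
theorem summ_pos [Nonempty κ] (hG : Stmt_GRK) (w : κ → ι → ℕ) (s : ℕ) (F : Finset κ)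
    (ε : ℝ) (hε : 0 < ε) :
    Summable fun k : ι → ℕ => if (∀ i, 1 ≤ k i) ∧ fc w k = F then ex w s ε k else 0 := by
  refine Summable.of_nonneg_of_le (fun k => ?_) (fun k => ?_) (summ_eq hG w s F ε hε)
  · split_ifs
    · exact (ex_pos _ _ _ _).le
    · exact le_rfl
  · by_cases h : fc w k = F
    · rw [if_pos h]
      split_ifs
      · exact le_rfl
      · exact (ex_pos _ _ _ _).le
    · rw [if_neg h, if_neg fun h' => h h'.2]

open Classical in
/-- the sum over the positive `k` as a sum over the faces -/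
theorem sum_facesL [Nonempty κ] (hG : Stmt_GRK) (w : κ → ι → ℕ) (s : ℕ) (ε : ℝ) (hε : 0 < ε)
    (c : Finset κ → ℝ) (z : ℝ)
    (h : HasSum (fun k : ι → ℕ => if ∀ i, 1 ≤ k i then ex w s ε k * c (fc w k) else 0) z) :
    z = ∑ F : Finset κ, SFp w s F ε * c F := by
  have h1 : ∀ F : Finset κ, HasSum
      (fun k : ι → ℕ => (if (∀ i, 1 ≤ k i) ∧ fc w k = F then ex w s ε k else 0) * c F)
      (SFp w s F ε * c F) := fun F => by
    rw [SFp_eq]
    exact (summ_pos hG w s F ε hε).hasSum.mul_right (c F)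
  have h2 : HasSum (fun k : ι → ℕ => ∑ F : Finset κ,
      (if (∀ i, 1 ≤ k i) ∧ fc w k = F then ex w s ε k else 0) * c F)
      (∑ F : Finset κ, SFp w s F ε * c F) :=
    hasSum_sum fun F _ => h1 F
  refine h.unique ?_
  have h3 : (fun k : ι → ℕ => if ∀ i, 1 ≤ k i then ex w s ε k * c (fc w k) else 0) =
      fun k : ι → ℕ => ∑ F : Finset κ,
      (if (∀ i, 1 ≤ k i) ∧ fc w k = F then ex w s ε k else 0) * c F := by
    funext k
    by_cases hk : ∀ i, 1 ≤ k i
    · rw [if_pos hk, Finset.sum_eq_single (fc w k)]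
      · rw [if_pos ⟨hk, rfl⟩]
      · intro F _ hF
        rw [if_neg (fun h' => (Ne.symm hF) h'.2), zero_mul]
      · intro h'
        exact absurd (Finset.mem_univ _) h'
    · rw [if_neg hk]
      symm
      refine Finset.sum_eq_zero fun F _ => ?_
      rw [if_neg (fun h' => hk h'.1), zero_mul]
  rw [h3]
  exact h2

end LIMBLAux

open LIMAAux LIMBAux LIMBLAux in
theorem stmt_LIMBL (hRA : NP.Stmt_RA) (hEXCH : Stmt_EXCHL) (hGRK : NP.Stmt_GRK) :
    Stmt_LIMBL := by
  classical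
  intro E ι κ _ _ _ _ _ w a e R hNd he hZ
  obtain ⟨r, hr, hR⟩ := hZ
  set n : ℕ := Fintype.card ι with hn
  set c : ℚ := ∑ d ∈ e.divisors, ((ArithmeticFunction.moebius (e / d) : ℤ) : ℚ) *
    (((E.val (jetAt (poly w a) (fun _ => 0) d 0)).eval 1 : ℤ) : ℚ) with hc
  refine ⟨c, fun s hs => ?_⟩
  -- the limits of the series
  have hd1 : ∀ d ∈ e.divisors, 1 ≤ d := fun d hd => Nat.pos_of_mem_divisors hd
  have hlim : ∀ d ∈ e.divisors, Tendsto (fun u : ℝ => ∑' K : ℕ,
      Polynomial.aeval u (E.val (jetAt (poly w a) (fun _ => 0) d K)) * u⁻¹ ^ (K * n) *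
        u⁻¹ ^ (K * s)) (𝓝[>] 1)
      (𝓝 ((((r d).eval (RingHom.id ℚ) (s : ℚ) : ℚ) : ℝ) +
        (((E.val (jetAt (poly w a) (fun _ => 0) d 0)).eval 1 : ℤ) : ℝ))) := by
    intro d hd
    exact full_lim hRA n (fun K => E.val (jetAt (poly w a) (fun _ => 0) d K)) (r d) (hr d hd)
      (fun u hu => (hEXCH ι κ w a E.toHodgeMeasure d u 0 hNd (hd1 d hd) hu).1) s
  -- the series as sums over the faces
  have hface : ∀ d ∈ e.divisors, ∀ ε : ℝ, 0 < ε → (∑' K : ℕ,
      Polynomial.aeval (Real.exp ε) (E.val (jetAt (poly w a) (fun _ => 0) d K)) *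
        (Real.exp ε)⁻¹ ^ (K * n) * (Real.exp ε)⁻¹ ^ (K * s)) =
      ∑ F : Finset κ, SFp w s F ε * (Polynomial.aeval (Real.exp ε) (E.val (WF w a d F)) +
            Polynomial.aeval (Real.exp ε) (E.val (VF w a F)) *
              ((Real.exp ε - 1) / (Real.exp ε ^ (s + 1) - 1))) := by
    intro d hd ε hε
    have h1 := (hEXCH ι κ w a E.toHodgeMeasure d (Real.exp ε) s hNd (hd1 d hd)
      (Real.one_lt_exp_iff.2 hε)).2
    refine sum_facesL hGRK w s ε hε (fun F => Polynomial.aeval (Real.exp ε) (E.val (WF w a d F)) +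
            Polynomial.aeval (Real.exp ε) (E.val (VF w a F)) *
              ((Real.exp ε - 1) / (Real.exp ε ^ (s + 1) - 1))) _ ?_
    refine h1.congr_fun ?_
    intro k
    rw [exL]
    split_ifs
    · rw [ex_eq]
    · rfl
  -- the combination
  have hcomb : Tendsto (fun ε : ℝ => ∑ d ∈ e.divisors,
      ((ArithmeticFunction.moebius (e / d) : ℤ) : ℝ) * ∑' K : ℕ,
      Polynomial.aeval (Real.exp ε) (E.val (jetAt (poly w a) (fun _ => 0) d K)) *
        (Real.exp ε)⁻¹ ^ (K * n) * (Real.exp ε)⁻¹ ^ (K * s)) (𝓝[>] 0)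
      (𝓝 (∑ d ∈ e.divisors, ((ArithmeticFunction.moebius (e / d) : ℤ) : ℝ) *
        ((((r d).eval (RingHom.id ℚ) (s : ℚ) : ℚ) : ℝ) +
        (((E.val (jetAt (poly w a) (fun _ => 0) d 0)).eval 1 : ℤ) : ℝ)))) := by
    refine tendsto_finsetSum _ fun d hd => ?_
    exact ((hlim d hd).comp exp_tendsto).const_mul _
  have hval : ∑ d ∈ e.divisors, ((ArithmeticFunction.moebius (e / d) : ℤ) : ℝ) *
        ((((r d).eval (RingHom.id ℚ) (s : ℚ) : ℚ) : ℝ) +
        (((E.val (jetAt (poly w a) (fun _ => 0) d 0)).eval 1 : ℤ) : ℝ)) =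
      (e.totient : ℝ) * ((R.eval (RingHom.id ℚ) (s : ℚ) : ℚ) : ℝ) + (c : ℝ) := by
    have hden : ∀ d ∈ e.divisors, (r d).denom.eval (s : ℚ) ≠ 0 := by
      intro d hd
      obtain ⟨num, den, -, -, h3⟩ := hr d hd
      exact (h3 s).2.1
    have h1 := (eval_sum e.divisors (fun d => ((ArithmeticFunction.moebius (e / d) : ℤ) : ℚ)) r
      (s : ℚ) hden).2
    rw [← hR, RatFunc.eval_mul _ _ (by rw [RatFunc.denom_C]; simp)
      (by simpa [Polynomial.eval₂_id] using hs), RatFunc.eval_C, RingHom.id_apply] at h1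
    have h2 := congrArg (fun q : ℚ => (q : ℝ)) h1
    simp only [Rat.cast_mul, Rat.cast_natCast, Rat.cast_sum, Rat.cast_intCast] at h2
    rw [h2, hc]
    push_cast
    rw [← Finset.sum_add_distrib]
    refine Finset.sum_congr rfl fun d _ => ?_
    ring
  rw [← hval]
  refine hcomb.congr' ?_
  filter_upwards [self_mem_nhdsWithin] with ε hε
  have hε' : 0 < ε := hε
  rw [Finset.sum_congr rfl fun d hd => by rw [hface d hd ε hε']]
  simp only [Finset.mul_sum]
  rw [Finset.sum_comm]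
  refine Finset.sum_congr rfl fun F _ => ?_
  rw [BrL, Finset.mul_sum]
  refine Finset.sum_congr rfl fun d _ => ?_
  ring

end Pool.Agent.Mono.LO
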