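import Pool.Agent.Work.Monodromy.InterfaceL

/-!
# Block NDR of phase L (helper54): a compact face is nondegenerate for all its faces
-/

set_option autoImplicit false

namespace Pool.Agent.Mono.LO

open MvPolynomial Filter Topology NP

namespace NDRLAux

variable {ι κ : Type} [Fintype ι] [Fintype κ]

theorem mem_fc (w : κ → ι → ℕ) (k : ι → ℕ) (a : κ) :
    a ∈ fc w k ↔ ∀ b, kw w k a ≤ kw w k b := by
  unfold fc
  simp

/-- faces of a compact face are compact faces -/
theorem key (w : κ → ι → ℕ) (k : ι → ℕ) (hk : ∀ i, 1 ≤ k i) (F : Finset (fc w k))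
    (hF : F.Nonempty) (l : ι → ℤ)
    (hl : ∀ v, v ∈ F ↔ ∀ v' : fc w k,
      ∑ i, l i * (w (v : κ) i : ℤ) ≤ ∑ i, l i * (w (v' : κ) i : ℤ)) :
    ∃ k' : ι → ℕ, (∀ i, 1 ≤ k' i) ∧ fc w k' = F.map (Function.Embedding.subtype _) := by
  classical
  set L : κ → ℤ := fun a => ∑ i, l i * (w a i : ℤ) with hL
  set M : ℤ := 1 + ∑ i, |l i| + ∑ a : κ, ∑ b : κ, |L a - L b| with hM
  have hM1 : ∀ i, 1 ≤ M * k i + l i := by
    intro i
    have h1 : |l i| ≤ ∑ i, |l i| := Finset.single_le_sum (f := fun i => |l i|)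
      (fun j _ => abs_nonneg _) (Finset.mem_univ i)
    have h2 : 0 ≤ ∑ a : κ, ∑ b : κ, |L a - L b| :=
      Finset.sum_nonneg fun a _ => Finset.sum_nonneg fun b _ => abs_nonneg _
    have h3 : (1 : ℤ) ≤ (k i : ℤ) := by exact_mod_cast hk i
    have h4 : 1 + |l i| ≤ M := by rw [hM]; linarith
    have h5 : M ≤ M * k i := by nlinarith [abs_nonneg (l i)]
    have h6 := neg_abs_le (l i)
    linarith
  have hM2 : ∀ a b, |L a - L b| < M := by
    intro a b
    have h1 : |L a - L b| ≤ ∑ b : κ, |L a - L b| := Finset.single_le_sum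
      (f := fun b => |L a - L b|) (fun j _ => abs_nonneg _) (Finset.mem_univ b)
    have h2 : ∑ b : κ, |L a - L b| ≤ ∑ a : κ, ∑ b : κ, |L a - L b| := Finset.single_le_sum
      (f := fun a => ∑ b : κ, |L a - L b|)
      (fun j _ => Finset.sum_nonneg fun b _ => abs_nonneg _) (Finset.mem_univ a)
    have h3 : 0 ≤ ∑ i, |l i| := Finset.sum_nonneg fun i _ => abs_nonneg _
    rw [hM]
    linarith
  refine ⟨fun i => (M * k i + l i).toNat, fun i => ?_, ?_⟩
  · have := hM1 i
    show 1 ≤ (M * k i + l i).toNat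
    omega
  have hkw : ∀ a, ((kw w (fun i => (M * k i + l i).toNat) a : ℕ) : ℤ) =
      M * (kw w k a : ℤ) + L a := by
    intro a
    unfold kw
    push_cast
    rw [hL, Finset.mul_sum, ← Finset.sum_add_distrib]
    refine Finset.sum_congr rfl fun i _ => ?_
    rw [Int.toNat_of_nonneg (by have := hM1 i; linarith)]
    ring
  obtain ⟨v₀, hv₀⟩ := hF
  have hv₀k := (mem_fc w k v₀).1 v₀.2
  have hv₀l := (hl v₀).1 hv₀
  have hmin : ∀ b, kw w (fun i => (M * k i + l i).toNat) (v₀ : κ) ≤
      kw w (fun i => (M * k i + l i).toNat) b := by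
    intro b
    have : ((kw w (fun i => (M * k i + l i).toNat) (v₀ : κ) : ℕ) : ℤ) ≤
        ((kw w (fun i => (M * k i + l i).toNat) b : ℕ) : ℤ) := by
      rw [hkw, hkw]
      by_cases hb : b ∈ fc w k
      · have h1 : kw w k (v₀ : κ) = kw w k b := le_antisymm (hv₀k b) ((mem_fc w k b).1 hb _)
        have h2 := hv₀l ⟨b, hb⟩
        rw [h1]
        have h3 : L (v₀ : κ) ≤ L b := h2
        linarith
      · have h1 : kw w k (v₀ : κ) < kw w k b := by
          rcases lt_or_eq_of_le (hv₀k b) with h | h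
          · exact h
          · exfalso
            apply hb
            rw [mem_fc]
            intro c
            rw [← h]
            exact hv₀k c
        have h2 : (kw w k (v₀ : κ) : ℤ) + 1 ≤ (kw w k b : ℤ) := by exact_mod_cast h1
        have h3 := hM2 (v₀ : κ) b
        have h4 : 0 < M := lt_of_le_of_lt (abs_nonneg _) h3
        have h5 := (abs_lt.1 h3).2
        nlinarith
    exact_mod_cast this
  ext b
  rw [mem_fc, Finset.mem_map]
  constructor
  · intro hb
    have h0 := hb (v₀ : κ)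
    have h0' : ((kw w (fun i => (M * k i + l i).toNat) b : ℕ) : ℤ) ≤
      ((kw w (fun i => (M * k i + l i).toNat) (v₀ : κ) : ℕ) : ℤ) := by exact_mod_cast h0
    rw [hkw, hkw] at h0'
    have hbk : b ∈ fc w k := by
      by_contra hbn
      have h1 : kw w k (v₀ : κ) < kw w k b := by
        rcases lt_or_eq_of_le (hv₀k b) with h | h
        · exact h
        · exfalso
          apply hbn
          rw [mem_fc]
          intro c
          rw [← h]
          exact hv₀k c
      have h2 : (kw w k (v₀ : κ) : ℤ) + 1 ≤ (kw w k b : ℤ) := by exact_mod_cast h1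
      have h3 := hM2 (v₀ : κ) b
      have h4 : 0 < M := lt_of_le_of_lt (abs_nonneg _) h3
      have h5 := (abs_lt.1 h3).2
      nlinarith
    refine ⟨⟨b, hbk⟩, ?_, rfl⟩
    rw [hl]
    intro v'
    have h1 : kw w k (v₀ : κ) = kw w k b := le_antisymm (hv₀k b) ((mem_fc w k b).1 hbk _)
    rw [h1] at h0'
    have h2 : L b ≤ L (v₀ : κ) := by linarith
    have h3 : L (v₀ : κ) ≤ L (v' : κ) := hv₀l v'
    exact le_trans h2 h3
  · rintro ⟨v, hv, rfl⟩ c
    refine le_trans ?_ (hmin c)
    have : ((kw w (fun i => (M * k i + l i).toNat)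
        ((Function.Embedding.subtype fun x => x ∈ fc w k) v) : ℕ) : ℤ) ≤
        ((kw w (fun i => (M * k i + l i).toNat) (v₀ : κ) : ℕ) : ℤ) := by
      rw [hkw, hkw]
      have h1 : kw w k ((Function.Embedding.subtype fun x => x ∈ fc w k) v) ≤
          kw w k (v₀ : κ) := (mem_fc w k (v : κ)).1 v.2 _
      have h1' : (kw w k ((Function.Embedding.subtype fun x => x ∈ fc w k) v) : ℤ) ≤
          (kw w k (v₀ : κ) : ℤ) := by exact_mod_cast h1
      have h2 : L ((Function.Embedding.subtype fun x => x ∈ fc w k) v) ≤ L (v₀ : κ) :=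
        (hl v).1 hv v₀
      have h4 : 0 < M := lt_of_le_of_lt (abs_nonneg _) (hM2 (v₀ : κ) (v₀ : κ))
      nlinarith
    exact_mod_cast this

end NDRLAux

theorem stmt_NDR (hFACE : NP.Stmt_FACE) : Stmt_NDR := by
  intro ι κ _ _ _ _ _ w a k hk hnd F hF hFce x hx hsum
  obtain ⟨l, hl⟩ := hFACE ι (fc w k) (fun v : fc w k => w (v : κ)) F hF hFce
  obtain ⟨k', hk', hfc⟩ := NDRLAux.key w k hk F hF l hl
  have h1 := hnd k' hk' x hx
  rw [hfc, Finset.sum_map] at h1
  obtain ⟨i, hi⟩ := h1 hsum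
  rw [Finset.sum_map] at hi
  exact ⟨i, hi⟩

end Pool.Agent.Mono.LO
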