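import Pool.Agent.Work.Monodromy.InterfaceL

/-!
# Block NLS (phase L): the monomials of degree `d` are in the ideal of the linear forms, the toric
ideal and `(x)` (helper24; after `Monodromy13/NUL13`, helper48)
-/

set_option autoImplicit false
set_option linter.unusedSectionVars false

namespace Pool.Agent.Mono.LO

open MvPolynomial NP

namespace NLSLAux

variable {ι κ : Type} [Fintype ι] [DecidableEq ι] [Fintype κ] [DecidableEq κ]

/-- the weight of the variables `T_v` is one, of the variables `x_i` zero -/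
def wt : κ ⊕ ι → ℕ := Sum.elim (fun _ => 1) fun _ => 0

lemma weight_eq (M : (κ ⊕ ι) →₀ ℕ) : Finsupp.weight (wt : κ ⊕ ι → ℕ) M = tdeg M := by
  rw [Finsupp.weight_apply, Finsupp.sum_fintype _ _ (by simp), Fintype.sum_sum_type, tdeg]
  simp [wt]

/-- the toric relations -/
def Rel (w : κ → ι → ℕ) (M M' : (κ ⊕ ι) →₀ ℕ) : Prop :=
  tdeg M = tdeg M' ∧ ∀ i, twt w M i = twt w M' i

/-- the binomials -/
def Bin (w : κ → ι → ℕ) : Set (MvPolynomial (κ ⊕ ι) ℂ) :=
  {p | ∃ M M' : (κ ⊕ ι) →₀ ℕ, Rel w M M' ∧ p = monomial M 1 - monomial M' 1}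

lemma tdeg_add (M N : (κ ⊕ ι) →₀ ℕ) : tdeg (M + N) = tdeg M + tdeg N := by
  simp [tdeg, Finset.sum_add_distrib]

lemma twt_add (w : κ → ι → ℕ) (M N : (κ ⊕ ι) →₀ ℕ) (i : ι) :
    twt w (M + N) i = twt w M i + twt w N i := by
  simp only [twt, Finsupp.add_apply, add_mul, Finset.sum_add_distrib]
  ring

lemma Rel.add {w : κ → ι → ℕ} {m m' : (κ ⊕ ι) →₀ ℕ} (h : Rel w m m') (n : (κ ⊕ ι) →₀ ℕ) :
    Rel w (n + m) (n + m') := by
  refine ⟨by simp only [tdeg_add, h.1], fun i => ?_⟩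
  simp only [twt_add, h.2 i]

lemma mul_mem_span {w : κ → ι → ℕ} (r : MvPolynomial (κ ⊕ ι) ℂ) {q : MvPolynomial (κ ⊕ ι) ℂ}
    (hq : q ∈ Submodule.span ℂ (Bin w)) : r * q ∈ Submodule.span ℂ (Bin w) := by
  induction r using MvPolynomial.induction_on' with
  | monomial n c =>
    induction hq using Submodule.span_induction with
    | mem x hx =>
      obtain ⟨m, m', h, rfl⟩ := hx
      have : monomial n c * (monomial m 1 - monomial m' 1 : MvPolynomial (κ ⊕ ι) ℂ) =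
          c • (monomial (n + m) 1 - monomial (n + m') 1) := by
        rw [mul_sub, monomial_mul, monomial_mul, mul_one, smul_sub, smul_monomial, smul_monomial,
          smul_eq_mul, mul_one]
      rw [this]
      exact Submodule.smul_mem _ _ (Submodule.subset_span ⟨_, _, h.add n, rfl⟩)
    | zero => simp
    | add x y _ _ hx hy => rw [mul_add]; exact Submodule.add_mem _ hx hy
    | smul a x _ hx => rw [mul_smul_comm]; exact Submodule.smul_mem _ _ hx
  | add p p' hp hp' => rw [add_mul]; exact Submodule.add_mem _ hp hp'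

/-- the linear forms -/
noncomputable def Lin (w : κ → ι → ℕ) (a : κ → ℂ) (o : Option ι) : MvPolynomial (κ ⊕ ι) ℂ :=
  rename Sum.inl (LinF w a o)

/-- the ideal -/
noncomputable def Idl (w : κ → ι → ℕ) (a : κ → ℂ) : Ideal (MvPolynomial (κ ⊕ ι) ℂ) :=
  Ideal.span ((Bin w ∪ Set.range (Lin w a)) ∪ Set.range fun i => X (Sum.inr i))

lemma mem_Idl {w : κ → ι → ℕ} {a : κ → ℂ} {p : MvPolynomial (κ ⊕ ι) ℂ} (hp : p ∈ Idl w a) :
    ∃ (G : Option ι → MvPolynomial (κ ⊕ ι) ℂ) (q : MvPolynomial (κ ⊕ ι) ℂ)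
      (h : ι → MvPolynomial (κ ⊕ ι) ℂ), q ∈ Submodule.span ℂ (Bin w) ∧
        p = ∑ o, G o * Lin w a o + q + ∑ i, h i * X (Sum.inr i) := by
  unfold Idl at hp
  induction hp using Submodule.span_induction with
  | mem x hx =>
    rcases hx with (hx | ⟨o, rfl⟩) | ⟨i, rfl⟩
    · exact ⟨0, x, 0, Submodule.subset_span hx, by simp⟩
    · refine ⟨Pi.single o 1, 0, 0, Submodule.zero_mem _, ?_⟩
      rw [add_zero, Finset.sum_eq_single o]
      · simp
      · intro b _ hb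
        simp [Pi.single_eq_of_ne hb]
      · intro h; exact absurd (Finset.mem_univ _) h
    · refine ⟨0, 0, Pi.single i 1, Submodule.zero_mem _, ?_⟩
      rw [add_zero]
      rw [Finset.sum_eq_single (s := Finset.univ) (f := fun j => (Pi.single i 1 :
        ι → MvPolynomial (κ ⊕ ι) ℂ) j * X (Sum.inr j)) i]
      · simp
      · intro b _ hb
        simp [Pi.single_eq_of_ne hb]
      · intro h; exact absurd (Finset.mem_univ _) h
  | zero => exact ⟨0, 0, 0, Submodule.zero_mem _, by simp⟩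
  | add x y _ _ hx hy =>
    obtain ⟨G, q, h, hq, rfl⟩ := hx
    obtain ⟨G', q', h', hq', rfl⟩ := hy
    refine ⟨G + G', q + q', h + h', Submodule.add_mem _ hq hq', ?_⟩
    simp only [Pi.add_apply, add_mul, Finset.sum_add_distrib]
    ring
  | smul r x _ hx =>
    obtain ⟨G, q, h, hq, rfl⟩ := hx
    refine ⟨fun o => r * G o, r * q, fun i => r * h i, mul_mem_span r hq, ?_⟩
    rw [smul_eq_mul, mul_add, mul_add, Finset.mul_sum, Finset.mul_sum]
    simp only [mul_assoc]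

lemma eval_Lin_none (w : κ → ι → ℕ) (a : κ → ℂ) (t : κ ⊕ ι → ℂ) :
    eval t (Lin w a none) = ∑ v, a v * t (Sum.inl v) := by
  simp [Lin, LinF]

lemma eval_Lin_some (w : κ → ι → ℕ) (a : κ → ℂ) (t : κ ⊕ ι → ℂ) (i : ι) :
    eval t (Lin w a (some i)) = ∑ v, (w v i : ℂ) * a v * t (Sum.inl v) := by
  simp [Lin, LinF]

lemma zero_of_mem (hTOR : Stmt_TORL) {w : κ → ι → ℕ} {a : κ → ℂ} (hN : NdC w a)
    {z : κ ⊕ ι → ℂ} (hz : ∀ p ∈ Idl w a, eval z p = 0) (v : κ) : z (Sum.inl v) = 0 := by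
  classical
  by_contra hne
  have hx0 : ∀ i, z (Sum.inr i) = 0 := fun i => by
    have h := hz _ (Ideal.subset_span (Or.inr ⟨i, rfl⟩))
    simpa using h
  obtain ⟨ρ, x, c, hρ, hx, hc, hmem, hxc⟩ := hTOR ι κ w (fun v => z (Sum.inl v)) (by
    intro m m' γ γ' h1 h2
    have h := hz _ (Ideal.subset_span (Or.inl (Or.inl
      ⟨Finsupp.equivFunOnFinite.symm (Sum.elim m γ),
      Finsupp.equivFunOnFinite.symm (Sum.elim m' γ'), ⟨by simpa [tdeg] using h1, by
        simpa [twt] using h2⟩, rfl⟩)))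
    rw [map_sub, sub_eq_zero, eval_monomial, eval_monomial, one_mul, one_mul,
      Finsupp.prod_fintype _ _ (by simp), Finsupp.prod_fintype _ _ (by simp),
      Fintype.prod_sum_type, Fintype.prod_sum_type] at h
    simpa [hx0] using h) ⟨v, hne⟩
  set F : Finset κ := fc w ρ with hF
  have key : ∀ g : κ → ℂ, ∑ v, g v * z (Sum.inl v) = c * ∑ v ∈ F, g v * ∏ i, x i ^ w v i := by
    intro g
    rw [Finset.mul_sum]
    rw [← Finset.sum_subset (Finset.subset_univ F) (f := fun v => g v * z (Sum.inl v))]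
    · refine Finset.sum_congr rfl fun v hv => ?_
      rw [hxc v hv]; ring
    · intro v _ hv
      have : z (Sum.inl v) = 0 := by
        by_contra h
        exact hv ((hmem v).2 h)
      rw [this, mul_zero]
  have h0 : ∑ v ∈ F, a v * ∏ i, x i ^ w v i = 0 := by
    have h := hz _ (Ideal.subset_span (Or.inl (Or.inr ⟨none, rfl⟩)))
    rw [eval_Lin_none, key] at h
    exact (mul_eq_zero.1 h).resolve_left hc
  obtain ⟨i, hi⟩ := hN ρ hρ x hx h0
  have h := hz _ (Ideal.subset_span (Or.inl (Or.inr ⟨some i, rfl⟩)))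
  rw [eval_Lin_some, key (fun v => (w v i : ℂ) * a v)] at h
  apply hi
  have h' := (mul_eq_zero.1 h).resolve_left hc
  rw [← h']
  exact Finset.sum_congr rfl fun v _ => by ring

lemma pow_mem (hTOR : Stmt_TORL) {w : κ → ι → ℕ} {a : κ → ℂ} (hN : NdC w a) (v : κ) :
    ∃ n : ℕ, (X (Sum.inl v) : MvPolynomial (κ ⊕ ι) ℂ) ^ n ∈ Idl w a := by
  have h : (X (Sum.inl v) : MvPolynomial (κ ⊕ ι) ℂ) ∈
      vanishingIdeal ℂ (zeroLocus ℂ (Idl w a)) := by
    rw [mem_vanishingIdeal_iff]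
    intro t ht
    rw [mem_zeroLocus_iff] at ht
    have : t (Sum.inl v) = 0 := zero_of_mem hTOR hN (fun p hp => by
      have := ht p hp
      simpa [aeval_eq_eval] using this) v
    simp [this]
  rw [vanishingIdeal_zeroLocus_eq_radical] at h
  exact h

lemma mapDomain_inl (m : κ →₀ ℕ) (v : κ) : m.mapDomain (Sum.inl : κ → κ ⊕ ι) (Sum.inl v) = m v :=
  Finsupp.mapDomain_apply Sum.inl_injective m v

lemma mapDomain_inr (m : κ →₀ ℕ) (i : ι) : m.mapDomain (Sum.inl : κ → κ ⊕ ι) (Sum.inr i) = 0 :=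
  Finsupp.mapDomain_of_notMem_range m _ (by simp)

lemma tdeg_mapDomain (m : κ →₀ ℕ) : tdeg (m.mapDomain (Sum.inl : κ → κ ⊕ ι)) = m.degree := by
  rw [tdeg, Finsupp.degree_eq_sum]
  exact Finset.sum_congr rfl fun v _ => mapDomain_inl m v

lemma exists_degree (hTOR : Stmt_TORL) {w : κ → ι → ℕ} {a : κ → ℂ} (hN : NdC w a) :
    ∃ d : ℕ, 1 ≤ d ∧ ∀ m : κ →₀ ℕ, m.degree = d →
      (monomial (m.mapDomain Sum.inl) 1 : MvPolynomial (κ ⊕ ι) ℂ) ∈ Idl w a := by
  choose n hn using fun v => pow_mem hTOR hN v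
  refine ⟨∑ v, n v + 1, by omega, fun m hm => ?_⟩
  obtain ⟨v, hv⟩ : ∃ v, n v ≤ m v := by
    by_contra h
    push Not at h
    rw [Finsupp.degree_eq_sum] at hm
    have : ∑ v, m v ≤ ∑ v, n v := Finset.sum_le_sum fun v _ => (h v).le
    omega
  have h1 : (monomial (m.mapDomain Sum.inl) 1 : MvPolynomial (κ ⊕ ι) ℂ) =
      monomial (m.mapDomain Sum.inl - Finsupp.single (Sum.inl v) (n v)) 1 *
        X (Sum.inl v) ^ n v := by
    rw [X_pow_eq_monomial, monomial_mul, one_mul, tsub_add_cancel_of_le]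
    rw [Finsupp.single_le_iff, mapDomain_inl]
    exact hv
  rw [h1]
  exact Ideal.mul_mem_left _ _ (hn v)

/-- the component of `T`-degree `d` -/
noncomputable def cmp (d : ℕ) : MvPolynomial (κ ⊕ ι) ℂ →ₗ[ℂ] MvPolynomial (κ ⊕ ι) ℂ :=
  weightedHomogeneousComponent (wt : κ ⊕ ι → ℕ) d

lemma cmp_of {n : ℕ} {p : MvPolynomial (κ ⊕ ι) ℂ}
    (h : IsWeightedHomogeneous (wt : κ ⊕ ι → ℕ) p n) (d : ℕ) :
    cmp d p = if d = n then p else 0 :=
  weightedHomogeneousComponent_of_mem h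

lemma isWH_monomial (M : (κ ⊕ ι) →₀ ℕ) (c : ℂ) :
    IsWeightedHomogeneous (wt : κ ⊕ ι → ℕ) (monomial M c) (tdeg M) :=
  isWeightedHomogeneous_monomial _ _ _ (weight_eq M)

lemma isWH_Lin (w : κ → ι → ℕ) (a : κ → ℂ) (o : Option ι) :
    IsWeightedHomogeneous (wt : κ ⊕ ι → ℕ) (Lin w a o) 1 := by
  have h1 : ∀ (c : ℂ) (v : κ), IsWeightedHomogeneous (wt : κ ⊕ ι → ℕ)
      (C c * X (Sum.inl v)) 1 := fun c v =>
    IsWeightedHomogeneous.C_mul (isWeightedHomogeneous_X ℂ (wt : κ ⊕ ι → ℕ) (Sum.inl v)) c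
  cases o with
  | none =>
    simp only [Lin, LinF, map_sum, map_mul, rename_C, rename_X]
    exact IsWeightedHomogeneous.sum _ _ _ fun v _ => h1 _ _
  | some i =>
    simp only [Lin, LinF, map_sum, map_mul, rename_C, rename_X]
    refine IsWeightedHomogeneous.sum _ _ _ fun v _ => ?_
    have := h1 ((w v i : ℂ) * a v) v
    rwa [map_mul] at this

/-- the component of a product with a linear form -/
lemma comp_mul {L : MvPolynomial (κ ⊕ ι) ℂ} {l : ℕ}
    (hL : IsWeightedHomogeneous (wt : κ ⊕ ι → ℕ) L l) (G : MvPolynomial (κ ⊕ ι) ℂ) {d : ℕ}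
    (hd : l ≤ d) : cmp d (G * L) = cmp (d - l) G * L := by
  induction G using MvPolynomial.induction_on' with
  | monomial M c =>
    rw [cmp_of ((isWH_monomial M c).mul hL), cmp_of (isWH_monomial M c)]
    by_cases h : d = tdeg M + l
    · rw [if_pos h, if_pos (by omega)]
    · rw [if_neg h, if_neg (by omega), zero_mul]
  | add p q hp hq => rw [add_mul, map_add, map_add, hp, hq, add_mul]

lemma tdeg_of_mem_cmp {d : ℕ} {p : MvPolynomial (κ ⊕ ι) ℂ} {M : (κ ⊕ ι) →₀ ℕ}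
    (hM : M ∈ (cmp d p).support) : tdeg M = d := by
  have h := weightedHomogeneousComponent_isWeightedHomogeneous (w := (wt : κ ⊕ ι → ℕ)) d p
  rw [← weight_eq]
  exact h (mem_support_iff.1 hM)

lemma vanish {w : κ → ι → ℕ} (Λ : MvPolynomial (κ ⊕ ι) ℂ →ₗ[ℂ] ℂ)
    (h : ∀ M M' : (κ ⊕ ι) →₀ ℕ, tdeg M = tdeg M' → (∀ i, twt w M i = twt w M' i) →
      Λ (monomial M 1) = Λ (monomial M' 1))
    (d : ℕ) {q : MvPolynomial (κ ⊕ ι) ℂ} (hq : q ∈ Submodule.span ℂ (Bin w)) :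
    Λ (cmp d q) = 0 := by
  induction hq using Submodule.span_induction with
  | mem x hx =>
    obtain ⟨m, m', hR, rfl⟩ := hx
    have h2 := isWH_monomial m' 1
    rw [← hR.1] at h2
    rw [cmp_of ((isWH_monomial m 1).sub h2)]
    split_ifs
    · rw [map_sub, h m m' hR.1 hR.2, sub_self]
    · rw [map_zero]
  | zero => simp
  | add x y _ _ hx hy => rw [map_add, map_add, hx, hy, add_zero]
  | smul a x _ hx => rw [map_smul, map_smul, hx, smul_zero]

end NLSLAux

open NLSLAux in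
theorem stmt_NLS (hTOR : Stmt_TORL) : Stmt_NLS := by
  classical
  intro ι κ _ _ _ _ w a hN
  obtain ⟨d, hd, hmem⟩ := exists_degree hTOR hN
  refine ⟨d, hd, fun m hm => ?_⟩
  obtain ⟨G, q, h, hq, hG⟩ := mem_Idl (hmem m hm)
  refine ⟨fun o => cmp (d - 1) (G o), ∑ i, cmp d (h i) * X (Sum.inr i),
    fun o M hM => tdeg_of_mem_cmp hM, fun M hM => ?_, fun Λ hΛ => ?_⟩
  · obtain ⟨i, _, hi⟩ := Finset.mem_biUnion.1 (support_sum hM)
    have hX : IsWeightedHomogeneous (wt : κ ⊕ ι → ℕ) (X (Sum.inr i) : MvPolynomial (κ ⊕ ι) ℂ) 0 :=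
      isWeightedHomogeneous_X ℂ (wt : κ ⊕ ι → ℕ) (Sum.inr i)
    refine ⟨?_, i, ?_⟩
    · have h1 := comp_mul hX (h i) (Nat.zero_le d)
      rw [Nat.sub_zero] at h1
      rw [← h1] at hi
      exact tdeg_of_mem_cmp hi
    · rw [support_mul_X, Finset.mem_map] at hi
      obtain ⟨M', _, rfl⟩ := hi
      simp
  · have h1 : cmp d (monomial (m.mapDomain (Sum.inl : κ → κ ⊕ ι)) (1 : ℂ)) =
        monomial (m.mapDomain Sum.inl) 1 := by
      rw [cmp_of (isWH_monomial _ 1), if_pos (by rw [tdeg_mapDomain, hm])]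
    rw [← h1, hG, map_add, map_add, map_add, map_add, vanish Λ hΛ d hq, add_zero]
    simp only [map_sum]
    congr 1
    · refine Finset.sum_congr rfl fun o _ => ?_
      rw [comp_mul (isWH_Lin w a o) _ hd]
      rfl
    · refine Finset.sum_congr rfl fun i _ => ?_
      have hX : IsWeightedHomogeneous (wt : κ ⊕ ι → ℕ)
          (X (Sum.inr i) : MvPolynomial (κ ⊕ ι) ℂ) 0 :=
        isWeightedHomogeneous_X ℂ (wt : κ ⊕ ι → ℕ) (Sum.inr i)
      rw [comp_mul hX (h i) (Nat.zero_le d), Nat.sub_zero]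

end Pool.Agent.Mono.LO
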