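import Pool.Agent.Work.Monodromy.InterfaceL
import Pool.Agent.Work.Monodromy.SS

/-!
# Phase L, block POLL: the poles of the local zeta function (helper78)

As `Monodromy9/POL9` (helper83) and `C9.cor_tw` (helper2).
-/

set_option autoImplicit false
set_option linter.unusedSectionVars false

namespace Pool.Agent.Mono.LO

open MvPolynomial TS RO SP PC C9

namespace POLLAux

open SP.POL8Aux

/-- the core: a sequence with the volumes of the arcs at `p` as coefficients -/
theorem core (P : HodgeMeasure) {ι : Type} [Fintype ι] [DecidableEq ι]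
    (f : MvPolynomial ι ℂ) (p : ι → ℂ) (hf : f.totalDegree ≠ 0) (hG : Gd f {p}) (e : ℕ)
    (κ : ℕ → K) (R : K)
    (hκ : ∀ m, 1 ≤ m → κ m = P.rat.L ^ Fintype.card ι * vol P.rat xq (ZL f {p} (QE e) m))
    (hR : IsLim (PowerSeries.mk κ) R) (s : ℂ) (hs : Polynomial.aeval s R.denom = 0) :
    IsEigenvalue f (Complex.exp (2 * Real.pi * Complex.I * s)) := by
  obtain ⟨Qmono, Qadd, Qsc, Qfin, -⟩ := stmt_Q1
  set u : K := P.rat.L ^ Fintype.card ι with hu
  have E1 : ESeq ({1} ∪ EV f) fun m => u * vol P.rat xq (ZL f {p} (QE e) m) :=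
    Qsc _ _ _ (hG P Bool (QE e) (QU_QE e))
  have E2 : ESeq ({1} ∪ EV f) κ := by
    have F3 : ESeq ({1} ∪ EV f) fun m => if m = 0 then
        κ m - u * vol P.rat xq (ZL f {p} (QE e) m) else 0 :=
      Qfin _ _ 1 fun m hm => by rw [if_neg (by omega)]
    have h := Qadd _ _ _ E1 F3
    have e1 : κ = fun m => u * vol P.rat xq (ZL f {p} (QE e) m) +
        if m = 0 then κ m - u * vol P.rat xq (ZL f {p} (QE e) m) else 0 := by
      funext m
      by_cases hm : m = 0
      · rw [if_pos hm]; ring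
      · rw [if_neg hm, add_zero, hκ m (by omega)]
    rw [e1]
    exact h
  obtain ⟨r, hr, rfl⟩ := stmt_Q5 _ κ R E2 hR s hs
  rcases hr with hr | hr
  · rw [Set.mem_singleton_iff] at hr
    subst hr
    refine SSAux.eig_int f hf _ (Or.inr ?_)
    rw [Rat.cast_one]
  · exact hr.2

end POLLAux

open POLLAux SP.POL8Aux

theorem stmt_POLL (hV : Stmt_VOLL) : Stmt_POLL := by
  intro P ι _ _ f p hf hG e R he hR
  obtain ⟨r, hr, hR'⟩ := hR
  have hxq : (xq : K) ≠ 0 := inv_ne_zero RatFunc.X_ne_zero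
  have hg : ∀ d ∈ e.divisors, GoodPoles f (r d) := by
    intro d hd s hs
    refine core P f p hf hG d
      (fun m => PowerSeries.coeff m (locSer1 P.rat (RatFunc.X)⁻¹ f p d)) (r d) ?_ ?_ s hs
    · intro m hm
      show PowerSeries.coeff m (locSer1 P.rat (RatFunc.X)⁻¹ f p d) = _
      rw [locSer1, PowerSeries.coeff_mk, if_neg (by omega)]
      exact hV P ι f p d m
    · have e1 : (PowerSeries.mk fun m =>
          PowerSeries.coeff m (locSer1 P.rat (RatFunc.X)⁻¹ f p d)) =
          locSer1 P.rat (RatFunc.X)⁻¹ f p d := by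
        ext m
        rw [PowerSeries.coeff_mk]
      rw [e1]
      exact hr d hd
  have htot : ((e.totient : ℚ)) ≠ 0 := by exact_mod_cast (Nat.totient_pos.2 he).ne'
  have h3 : R = RatFunc.C ((e.totient : ℚ)⁻¹) * (RatFunc.C (e.totient : ℚ) * R) := by
    rw [← mul_assoc, ← map_mul, inv_mul_cancel₀ htot, map_one, one_mul]
  have hgood : GoodPoles f R := by
    rw [h3, hR']
    refine goodPoles_mul (goodPoles_C _) (goodPoles_sum _ _ fun d hd => ?_)
    exact goodPoles_mul (goodPoles_C _) (hg d hd)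
  exact hgood

end Pool.Agent.Mono.LO
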