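import Pool.Agent.Work.Monodromy.InterfaceL

/-!
# Phase L, block RST: restriction to the elements of a face
-/

set_option autoImplicit false
set_option linter.unusedSectionVars false

namespace Pool.Agent.Mono.LO

open MvPolynomial Filter Topology NP

namespace RSTAux

variable {ι κ : Type} [Fintype ι] [DecidableEq ι] [Fintype κ] [DecidableEq κ]

/-- extension by zero -/
def ext0 {F : Finset κ} (b : F → ℚ) (a : κ) : ℚ := if h : a ∈ F then b ⟨a, h⟩ else 0

theorem ext0_mem {F : Finset κ} (b : F → ℚ) (a : F) : ext0 b (a : κ) = b a := by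
  simp [ext0]

theorem ext0_not {F : Finset κ} (b : F → ℚ) {a : κ} (h : a ∉ F) : ext0 b a = 0 := by
  simp [ext0, h]

theorem sum_ext0 {F : Finset κ} (b : F → ℚ) (c : κ → ℚ) :
    ∑ a, ext0 b a * c a = ∑ a : F, b a * c a := by
  have h1 : ∑ a : F, b a * c a = ∑ a : F, (fun a : κ => ext0 b a * c a) (a : κ) := by
    refine Finset.sum_congr rfl fun a _ => ?_
    simp only [ext0_mem]
  rw [h1, Finset.sum_coe_sort F (fun a : κ => ext0 b a * c a)]
  refine (Finset.sum_subset (Finset.subset_univ F) fun a _ ha => ?_).symm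
  rw [ext0_not b ha, zero_mul]

theorem sum_ext0' {F : Finset κ} (b : F → ℚ) : ∑ a, ext0 b a = ∑ a : F, b a := by
  have h := sum_ext0 b (fun _ => 1)
  simpa using h

theorem sum_res {F : Finset κ} (b : κ → ℚ) (hb : ∀ a, a ∉ F → b a = 0) (c : κ → ℚ) :
    ∑ a : F, b a * c a = ∑ a, b a * c a := by
  rw [Finset.sum_coe_sort F (fun a : κ => b a * c a)]
  refine Finset.sum_subset (Finset.subset_univ F) fun a _ ha => ?_
  rw [hb a ha, zero_mul]

theorem sum_res' {F : Finset κ} (b : κ → ℚ) (hb : ∀ a, a ∉ F → b a = 0) :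
    ∑ a : F, b a = ∑ a, b a := by
  have h := sum_res b hb (fun _ => 1)
  simpa using h

theorem nuE_map (w : κ → ι → ℕ) (F : Finset κ) (e : ℕ) (C : Finset F) :
    nuE (fun v : F => w (v : κ)) e C =
      nuE w e (C.map (Function.Embedding.subtype (· ∈ F))) := by
  unfold nuE
  have hmem : ∀ a : κ, a ∈ C.map (Function.Embedding.subtype (· ∈ F)) ↔
      ∃ h : a ∈ F, (⟨a, h⟩ : F) ∈ C := by
    intro a
    simp only [Finset.mem_map, Function.Embedding.subtype_apply]
    constructor
    · rintro ⟨⟨x, hx⟩, hxC, rfl⟩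
      exact ⟨hx, hxC⟩
    · rintro ⟨h, hC⟩
      exact ⟨⟨a, h⟩, hC, rfl⟩
  refine Nat.card_congr
    { toFun := fun b => ⟨ext0 b.1, ⟨⟨fun a => ?_, fun a ha => ?_, fun i => ?_⟩, ?_⟩⟩
      invFun := fun b => ⟨fun a => b.1 (a : κ), ⟨⟨fun a => ?_, fun a ha => ?_, fun i => ?_⟩, ?_⟩⟩
      left_inv := fun b => ?_
      right_inv := fun b => ?_ }
  · by_cases h : a ∈ F
    · have := b.2.1.1 ⟨a, h⟩
      rw [← ext0_mem b.1 ⟨a, h⟩] at this
      exact this
    · rw [ext0_not b.1 h]
      norm_num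
  · by_cases h : a ∈ F
    · have h1 : (⟨a, h⟩ : F) ∉ C := fun hc => ha ((hmem a).2 ⟨h, hc⟩)
      have := b.2.1.2.1 ⟨a, h⟩ h1
      rw [← ext0_mem b.1 ⟨a, h⟩] at this
      exact this
    · exact ext0_not b.1 h
  · obtain ⟨z, hz⟩ := b.2.1.2.2 i
    refine ⟨z, ?_⟩
    rw [← hz]
    exact sum_ext0 b.1 (fun a => (w a i : ℚ))
  · rw [sum_ext0']
    exact b.2.2
  · exact b.2.1.1 (a : κ)
  · refine b.2.1.2.1 (a : κ) fun hc => ha ?_
    obtain ⟨h, hC⟩ := (hmem (a : κ)).1 hc
    exact hC
  · obtain ⟨z, hz⟩ := b.2.1.2.2 i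
    refine ⟨z, ?_⟩
    rw [← hz]
    refine sum_res b.1 (fun a ha => b.2.1.2.1 a fun hc => ha ?_) (fun a => (w a i : ℚ))
    obtain ⟨h, hC⟩ := (hmem a).1 hc
    exact h
  · have h1 : ∑ a : F, b.1 (a : κ) = ∑ a, b.1 a := by
      refine sum_res' b.1 (fun a ha => b.2.1.2.1 a fun hc => ha ?_)
      obtain ⟨h, hC⟩ := (hmem a).1 hc
      exact h
    rw [h1]
    exact b.2.2
  · apply Subtype.ext
    funext a
    exact ext0_mem b.1 a
  · apply Subtype.ext
    funext a
    by_cases h : a ∈ F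
    · exact ext0_mem (fun a : F => b.1 (a : κ)) ⟨a, h⟩
    · have h1 : a ∉ C.map (Function.Embedding.subtype (· ∈ F)) := by
        intro hc
        exact h ((hmem a).1 hc).1
      change ext0 (fun a : F => b.1 (a : κ)) a = b.1 a
      rw [ext0_not _ h, b.2.1.2.1 a h1]

theorem rk_res (w : κ → ι → ℕ) (F : Finset κ) :
    rk (fun v : F => w (v : κ)) Finset.univ = rk w F := by
  unfold rk
  have h : (fun a => hat (fun v : F => w (v : κ)) (Sum.inl a)) ''
      ((Finset.univ : Finset F) : Set F) = (fun a => hat w (Sum.inl a)) '' (F : Set κ) := by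
    ext y
    simp only [Set.mem_image, Finset.coe_univ, Set.mem_univ, true_and, Finset.mem_coe]
    constructor
    · rintro ⟨a, rfl⟩
      exact ⟨(a : κ), a.2, rfl⟩
    · rintro ⟨a, ha, rfl⟩
      exact ⟨⟨a, ha⟩, rfl⟩
  rw [h]

end RSTAux

open RSTAux

theorem stmt_RST : Stmt_RST := by
  intro ι κ _ _ _ _ w a h F
  refine ⟨?_, ?_, rk_res w F, ?_⟩
  · ext x
    simp only [VF, Set.mem_ofPred_eq]
    rw [Finset.sum_coe_sort F (fun v : κ => a v * ∏ i, x i ^ w v i)]
  · intro d
    ext z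
    simp only [WF, Set.mem_ofPred_eq]
    rw [Finset.sum_coe_sort F (fun v : κ => a v * ∏ i, z (Sum.inl i) ^ w v i)]
  · intro e
    refine Finset.sum_bij (fun C _ => C.map (Function.Embedding.subtype (· ∈ F))) ?_ ?_ ?_ ?_
    · intro C hC
      simp only [smp, Finset.mem_filter, Finset.mem_univ, true_and] at hC ⊢
      obtain ⟨h1, k, hk⟩ := hC
      refine ⟨?_, k, fun x => ?_⟩
      · rw [Finset.card_map, h1, rk_res]
      · constructor
        · intro hx
          simp only [Finset.mem_map, Function.Embedding.subtype_apply] at hx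
          obtain ⟨⟨y, hy⟩, hyC, rfl⟩ := hx
          refine ⟨hy, fun b hb => ?_⟩
          exact (hk ⟨y, hy⟩).1 hyC ⟨b, hb⟩ trivial
        · rintro ⟨hx, hmin⟩
          simp only [Finset.mem_map, Function.Embedding.subtype_apply]
          exact ⟨⟨x, hx⟩, (hk ⟨x, hx⟩).2 fun b _ => hmin (b : κ) b.2, rfl⟩
    · intro C _ C' _ hCC
      exact Finset.map_injective _ hCC
    · intro C hC
      simp only [smp, Finset.mem_filter, Finset.mem_univ, true_and] at hC
      obtain ⟨h1, k, hk⟩ := hC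
      have hCF : C ⊆ F := fun x hx => ((hk x).1 hx).1
      refine ⟨C.subtype (· ∈ F), ?_, ?_⟩
      · simp only [smp, Finset.mem_filter, Finset.mem_univ, true_and]
        refine ⟨?_, k, fun x => ?_⟩
        · rw [rk_res, ← h1, Finset.card_subtype]
          congr 1
          exact Finset.filter_true_of_mem hCF
        · rw [Finset.mem_subtype, hk]
          constructor
          · rintro ⟨_, hm⟩ b _
            exact hm (b : κ) b.2
          · intro hm
            exact ⟨x.2, fun b hb => hm ⟨b, hb⟩ trivial⟩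
      · rw [Finset.subtype_map]
        exact Finset.filter_true_of_mem hCF
    · intro C _
      rw [nuE_map]

end Pool.Agent.Mono.LO
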