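import Pool.Agent.Work.MonodromyL.CNV

/-! # Phase L, block SEQL (helper96): generic polynomials which converge to a power series -/

set_option autoImplicit false

namespace Pool.Agent.Mono.LO

open NP Filter Finset Topology CNVAux

namespace SEQLAux

variable {ι κ : Type} [Fintype ι] [DecidableEq ι] [Fintype κ] [DecidableEq κ]

theorem dl_inj {n : ℕ} {δ δ' : ι → Fin (n + 1)} (h : dl δ = dl δ') : δ = δ' := by
  funext i
  have := DFunLike.congr_fun h i
  rw [dl_apply, dl_apply] at this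
  exact Fin.ext this

theorem exists_dl {n : ℕ} (γ : ι →₀ ℕ) (h : ∀ i, γ i ≤ n) :
    ∃ δ : ι → Fin (n + 1), dl δ = γ := by
  refine ⟨fun i => ⟨γ i, by have := h i; omega⟩, ?_⟩
  ext i
  rw [dl_apply]

theorem coeff_eq (n : ℕ) (b : κ ⊕ (κ × (ι → Fin (n + 1))) → ℂ) (v : κ)
    (δ : ι → Fin (n + 1)) :
    MvPowerSeries.coeff (dl δ) (serX n b v) =
      (if dl δ = 0 then b (Sum.inl v) else 0) + b (Sum.inr (v, δ)) := by
  rw [coeff_serX]
  congr 1
  rw [Finset.sum_eq_single δ]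
  · rw [if_pos rfl]
  · intro δ' _ h
    rw [if_neg]
    intro h'
    exact h (dl_inj h').symm
  · intro h
    exact absurd (Finset.mem_univ _) h

end SEQLAux

open SEQLAux in
theorem stmt_SEQL (hSEQ : NP.Stmt_SEQ) : Stmt_SEQL := by
  classical
  intro ι κ _ _ _ _ A
  -- the target
  let t : ∀ n : ℕ, κ ⊕ (κ × (ι → Fin (n + 1))) → ℂ := fun n => Sum.elim
    (fun v => MvPowerSeries.coeff 0 (A v))
    (fun q => if dl q.2 = 0 then 0 else MvPowerSeries.coeff (dl q.2) (A q.1))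
  have hb : ∀ n : ℕ, ∃ b : κ ⊕ (κ × (ι → Fin (n + 1))) → ℂ, AlgebraicIndependent ℚ b ∧
      ∀ q, ‖b q - t n q‖ ≤ 1 / ((n : ℝ) + 1) := by
    intro n
    obtain ⟨b, hb1, hb2⟩ := hSEQ (κ ⊕ (κ × (ι → Fin (n + 1)))) (t n)
    rw [Metric.tendsto_atTop] at hb2
    obtain ⟨m, hm⟩ := hb2 (1 / ((n : ℝ) + 1)) (by positivity)
    refine ⟨b m, hb1 m, fun q => ?_⟩
    have h1 := hm m le_rfl
    have h2 := dist_le_pi_dist (b m) (t n) q
    rw [dist_eq_norm] at h2
    exact h2.trans h1.le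
  choose b hb1 hb2 using hb
  refine ⟨b, hb1, fun v γ => ?_⟩
  rw [tendsto_iff_norm_sub_tendsto_zero]
  have hlim : Tendsto (fun n : ℕ => 2 * (1 / ((n : ℝ) + 1))) atTop (𝓝 0) := by
    have := tendsto_one_div_add_atTop_nhds_zero_nat (𝕜 := ℝ)
    simpa using this.const_mul 2
  refine squeeze_zero' (Eventually.of_forall fun n => norm_nonneg _) ?_ hlim
  filter_upwards [eventually_ge_atTop (∑ i, γ i)] with n hn
  obtain ⟨δ, hδ⟩ := exists_dl (n := n) γ fun i =>
    (Finset.single_le_sum (f := fun i => γ i) (fun _ _ => Nat.zero_le _)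
      (Finset.mem_univ i)).trans hn
  have h1 := hb2 n (Sum.inl v)
  have h2 := hb2 n (Sum.inr (v, δ))
  have h3 : (0 : ℝ) ≤ 1 / ((n : ℝ) + 1) := by positivity
  simp only [t, Sum.elim_inl, Sum.elim_inr] at h1 h2
  rw [← hδ, coeff_eq]
  by_cases h0 : dl δ = 0
  · rw [if_pos h0] at h2 ⊢
    rw [h0, show b n (Sum.inl v) + b n (Sum.inr (v, δ)) - MvPowerSeries.coeff 0 (A v) =
      (b n (Sum.inl v) - MvPowerSeries.coeff 0 (A v)) + (b n (Sum.inr (v, δ)) - 0) by ring]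
    refine (norm_add_le _ _).trans ?_
    linarith
  · rw [if_neg h0] at h2 ⊢
    rw [zero_add]
    linarith

end Pool.Agent.Mono.LO
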