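import Pool.Agent.Work.Monodromy.InterfaceL
import Pool.Agent.Work.Monodromy.SL

/-!
# Phase L, block SLL: the limits of the local zeta functions of `f + uv` (helper76)
-/

set_option autoImplicit false

namespace Pool.Agent.Mono.LO

namespace SLLAux

/-- the coefficients of `(c T^2 - T A) / (1 - T)^2` -/
def gb {R : Type} [CommRing R] (a : ℕ → R) (c : R) (k : ℕ) : R :=
  ∑ m ∈ Finset.range k, ((m : R) - 1) * a m + ((k : R) - 1) * (c - ∑ m ∈ Finset.range k, a m)

theorem gb_one {R : Type} [CommRing R] (a : ℕ → R) (c : R) (h0 : a 0 = 0) : gb a c 1 = 0 := by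
  simp [gb, h0]

theorem gb_succ {R : Type} [CommRing R] (a : ℕ → R) (c : R) (k : ℕ) :
    gb a c (k + 1) = gb a c k + (c - SLAux.ps a (k + 1)) := by
  unfold gb SLAux.ps
  rw [Finset.sum_range_succ, Finset.sum_range_succ]
  push_cast
  ring

theorem gser {R : Type} [CommRing R] (a : ℕ → R) (c : R) (h0 : a 0 = 0) :
    (1 - PowerSeries.X) * ((1 - PowerSeries.X) *
      PowerSeries.mk (fun k => if k = 0 then 0 else gb a c k)) =
      PowerSeries.C c * PowerSeries.X ^ 2 - PowerSeries.X * PowerSeries.mk a := by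
  have h1 : (1 - PowerSeries.X) * PowerSeries.mk (fun k => if k = 0 then 0 else gb a c k) =
      PowerSeries.mk fun k => if k ≤ 1 then 0 else c - SLAux.ps a k := by
    ext k
    rcases k with _ | k
    · rw [sub_mul, one_mul, map_sub, PowerSeries.coeff_zero_X_mul]
      simp
    · rw [SLAux.one_sub_mul_coeff_succ, PowerSeries.coeff_mk, PowerSeries.coeff_mk,
        PowerSeries.coeff_mk, if_neg (Nat.succ_ne_zero k)]
      rcases k with _ | k
      · rw [if_pos rfl, if_pos (by omega), gb_one a c h0, sub_zero]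
      · rw [if_neg (Nat.succ_ne_zero k), if_neg (by omega), gb_succ a c (k + 1)]
        ring
  rw [h1]
  ext k
  rcases k with _ | _ | k
  · rw [sub_mul, one_mul, map_sub, map_sub, PowerSeries.coeff_zero_X_mul,
      PowerSeries.coeff_zero_X_mul, PowerSeries.coeff_C_mul, PowerSeries.coeff_X_pow,
      PowerSeries.coeff_mk]
    simp
  · rw [SLAux.one_sub_mul_coeff_succ, PowerSeries.coeff_mk, PowerSeries.coeff_mk, map_sub,
      PowerSeries.coeff_succ_X_mul, PowerSeries.coeff_mk, PowerSeries.coeff_C_mul,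
      PowerSeries.coeff_X_pow, if_pos (by omega), if_pos (by omega), if_neg (by omega), h0]
    ring
  · rw [SLAux.one_sub_mul_coeff_succ, PowerSeries.coeff_mk, PowerSeries.coeff_mk, map_sub,
      PowerSeries.coeff_succ_X_mul, PowerSeries.coeff_mk, PowerSeries.coeff_C_mul,
      PowerSeries.coeff_X_pow, if_neg (by omega)]
    rcases k with _ | k
    · rw [if_pos (by omega), if_pos rfl]
      unfold SLAux.ps
      rw [Finset.sum_range_succ, Finset.sum_range_succ, Finset.sum_range_zero, h0]
      ring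
    · rw [if_neg (by omega), if_neg (by omega)]
      unfold SLAux.ps
      rw [Finset.sum_range_succ a (k + 1 + 1)]
      ring

/-- there are no local jets on which `f` does not vanish -/
theorem vkA_zero {ι : Type} [Fintype ι] {R : Type} [CommRing R] (μ : MotivicMeasure R) (Li : R)
    (f : MvPolynomial ι ℂ) (p : ι → ℂ) (e : ℕ) (hp : MvPolynomial.eval p f = 0) :
    vkA μ Li f p e 0 = 0 := by
  have h1 : jetAt f p e 0 = ∅ := by
    rw [Set.eq_empty_iff_forall_notMem]
    rintro z ⟨⟨_, hz, _⟩, hzp⟩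
    apply hz
    have h2 : (MvPolynomial.aeval (jet (fun s => z (Sum.inl s))) f : Polynomial ℂ).coeff 0 =
        MvPolynomial.eval p f := by
      rw [Polynomial.coeff_zero_eq_eval_zero]
      have h3 : ∀ g : MvPolynomial ι ℂ,
          (MvPolynomial.aeval (jet (fun s => z (Sum.inl s))) g : Polynomial ℂ).eval 0 =
            MvPolynomial.eval p g := by
        intro g
        induction g using MvPolynomial.induction_on with
        | C c => simp
        | add g h hg hh => rw [map_add, map_add, Polynomial.eval_add, hg, hh]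
        | mul_X g i hg =>
          rw [map_mul, map_mul, Polynomial.eval_mul, hg, MvPolynomial.aeval_X,
            MvPolynomial.eval_X]
          congr 1
          simp [jet, hzp]
      exact h3 f
    rw [h2, hp]
  have h2 : μ.val (∅ : Set ((ι × Fin (0 + 1)) ⊕ Unit → ℂ)) = 0 := by
    have hc : Constructible (∅ : Set ((ι × Fin (0 + 1)) ⊕ Unit → ℂ)) := by
      have h3 := Constructible.zero (1 : MvPolynomial ((ι × Fin (0 + 1)) ⊕ Unit) ℂ)
      have h4 : {x : (ι × Fin (0 + 1)) ⊕ Unit → ℂ |
          MvPolynomial.eval x (1 : MvPolynomial ((ι × Fin (0 + 1)) ⊕ Unit) ℂ) = 0} = ∅ := by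
        ext x
        simp
      rwa [h4] at h3
    have h3 := μ.union ∅ ∅ hc hc (Set.disjoint_empty _)
    rw [Set.union_empty] at h3
    exact left_eq_add.1 h3
  rw [vkA, h1, h2, zero_mul]

/-- the local zeta function of `f + uv` as a power series -/
theorem sus_ser (hSZ : Stmt_SZL) {ι : Type} [Fintype ι] [DecidableEq ι] (f : MvPolynomial ι ℂ)
    (p : ι → ℂ) {R : Type} [CommRing R] (μ : MotivicMeasure R) (Li : R) (hL : μ.L * Li = 1)
    (hp : MvPolynomial.eval p f = 0) (e : ℕ) (he : 1 ≤ e) :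
    locSer1 μ Li (sus f) (Sum.elim p fun _ => 0) e =
      PowerSeries.C (μ.L ^ (Fintype.card ι + 1) * Li ^ Fintype.card ι) *
        (PowerSeries.C ((μ.L - 1) * (1 - Li)) *
        ((PowerSeries.C (Li ^ 2) * PowerSeries.X ^ 2 - PowerSeries.C Li * (PowerSeries.X ^ 1 *
          PowerSeries.rescale Li (locSer1 μ Li f p 1))) * (geo Li (1, 1) * geo Li (1, 1)))) +
      PowerSeries.C μ.L * PowerSeries.rescale Li (locSer1 μ Li f p e) := by
  set n := Fintype.card ι with hn
  have hcard : Fintype.card (ι ⊕ Bool) = n + 2 := by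
    rw [Fintype.card_sum, Fintype.card_bool]
  have hLp : ∀ j : ℕ, μ.L ^ j * Li ^ j = 1 := fun j => by rw [← mul_pow, hL, one_pow]
  -- the coefficients for `f`
  have hvk : ∀ e k, vkA μ Li f p e k = Li ^ n * PowerSeries.coeff k (locSer1 μ Li f p e) := by
    intro e k
    rw [locSer1, PowerSeries.coeff_mk]
    by_cases hk : k = 0
    · rw [if_pos hk, hk, vkA_zero μ Li f p e hp, mul_zero]
    · rw [if_neg hk, vkA, ← hn, add_mul, one_mul, pow_add]
      ring
  set a : ℕ → R := fun m => vkA μ Li f p 1 m with ha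
  have ha0 : a 0 = 0 := vkA_zero μ Li f p 1 hp
  have hmk : PowerSeries.mk a = PowerSeries.C (Li ^ n) * locSer1 μ Li f p 1 := by
    ext k
    rw [PowerSeries.coeff_mk, PowerSeries.coeff_C_mul, ha]
    exact hvk 1 k
  -- the series with coefficients `gb`
  have hG : PowerSeries.rescale Li
      (PowerSeries.mk (fun k => if k = 0 then 0 else gb a (Li ^ n) k)) =
      PowerSeries.C (Li ^ n) * ((PowerSeries.C (Li ^ 2) * PowerSeries.X ^ 2 -
        PowerSeries.C Li * (PowerSeries.X ^ 1 *
        PowerSeries.rescale Li (locSer1 μ Li f p 1))) * (geo Li (1, 1) * geo Li (1, 1))) := by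
    have h1 := congrArg (PowerSeries.rescale Li) (gser a (Li ^ n) ha0)
    rw [map_mul, map_mul, map_sub, map_sub, map_one, map_mul, map_mul, SLAux.rescale_C',
      map_pow (PowerSeries.rescale Li) PowerSeries.X 2, PowerSeries.rescale_X, hmk, map_mul, SLAux.rescale_C'] at h1
    have h2 := geo_mul Li (1, 1) le_rfl
    simp only [pow_one] at h2
    calc PowerSeries.rescale Li
          (PowerSeries.mk (fun k => if k = 0 then 0 else gb a (Li ^ n) k))
        = (((1 - PowerSeries.C Li * PowerSeries.X) * geo Li (1, 1)) *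
          ((1 - PowerSeries.C Li * PowerSeries.X) * geo Li (1, 1))) *
            PowerSeries.rescale Li
              (PowerSeries.mk (fun k => if k = 0 then 0 else gb a (Li ^ n) k)) := by
          rw [h2, one_mul, one_mul]
      _ = ((1 - PowerSeries.C Li * PowerSeries.X) * ((1 - PowerSeries.C Li * PowerSeries.X) *
            PowerSeries.rescale Li
              (PowerSeries.mk (fun k => if k = 0 then 0 else gb a (Li ^ n) k)))) *
                (geo Li (1, 1) * geo Li (1, 1)) := by
          ring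
      _ = _ := by
          rw [h1, map_pow _ Li 2, pow_one]
          ring
  ext k
  rw [map_add, PowerSeries.coeff_C_mul, PowerSeries.coeff_C_mul, PowerSeries.coeff_C_mul,
    PowerSeries.coeff_rescale]
  have hG' : PowerSeries.coeff k (PowerSeries.C (Li ^ n) * ((PowerSeries.C (Li ^ 2) *
        PowerSeries.X ^ 2 - PowerSeries.C Li * (PowerSeries.X ^ 1 *
        PowerSeries.rescale Li (locSer1 μ Li f p 1))) * (geo Li (1, 1) * geo Li (1, 1)))) =
      Li ^ k * (if k = 0 then 0 else gb a (Li ^ n) k) := by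
    rw [← hG, PowerSeries.coeff_rescale, PowerSeries.coeff_mk]
  rw [PowerSeries.coeff_C_mul] at hG'
  set Q := PowerSeries.coeff k ((PowerSeries.C (Li ^ 2) *
        PowerSeries.X ^ 2 - PowerSeries.C Li * (PowerSeries.X ^ 1 *
        PowerSeries.rescale Li (locSer1 μ Li f p 1))) * (geo Li (1, 1) * geo Li (1, 1))) with hQ
  by_cases hk : k = 0
  · subst hk
    rw [if_pos rfl, mul_zero] at hG'
    have h3 : PowerSeries.coeff 0 (locSer1 μ Li (sus f) (Sum.elim p fun _ => 0) e) = 0 := by
      rw [locSer1, PowerSeries.coeff_mk, if_pos rfl]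
    have h4 : PowerSeries.coeff 0 (locSer1 μ Li f p e) = 0 := by
      rw [locSer1, PowerSeries.coeff_mk, if_pos rfl]
    rw [h3, h4]
    linear_combination (-(μ.L ^ (n + 1) * ((μ.L - 1) * (1 - Li)))) * hG'
  · rw [if_neg hk] at hG'
    have hS := hSZ ι f p R μ Li hL hp e k he (by omega)
    have hc : PowerSeries.coeff k (locSer1 μ Li (sus f) (Sum.elim p fun _ => 0) e) =
        μ.L ^ (n + 2) * vkA μ Li (sus f) (Sum.elim p fun _ => 0) e k := by
      rw [locSer1, PowerSeries.coeff_mk, if_neg hk, vkA, hcard, add_mul, one_mul, pow_add]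
      have := hLp (n + 2)
      linear_combination (-(μ.val (jetAt (sus f) (Sum.elim p fun _ => 0) e k) *
        Li ^ (k * (n + 2)))) * this
    have hg : ∑ m ∈ Finset.range k, ((m : R) - 1) * vkA μ Li f p 1 m +
        ((k : R) - 1) * (Li ^ Fintype.card ι - ∑ m ∈ Finset.range k, vkA μ Li f p 1 m) =
          gb a (Li ^ n) k := rfl
    rw [hc, hS, hg, hvk e k]
    have h1 := hLp n
    have h2 : μ.L ^ (n + 2) * Li ^ (k + 1) = μ.L ^ (n + 1) * Li ^ k := by
      rw [pow_succ' μ.L (n + 1), pow_succ Li k]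
      linear_combination (μ.L ^ (n + 1) * Li ^ k) * hL
    have h3 : μ.L ^ (n + 2) * Li ^ (k + 1) * Li ^ n = μ.L * Li ^ k := by
      rw [h2, pow_succ' μ.L n]
      linear_combination (μ.L * Li ^ k) * h1
    linear_combination ((μ.L - 1) * (1 - Li) * gb a (Li ^ n) k) * h2 +
      (PowerSeries.coeff k (locSer1 μ Li f p e)) * h3 -
      (μ.L ^ (n + 1) * ((μ.L - 1) * (1 - Li))) * hG'

end SLLAux

open SLLAux SLAux in
theorem stmt_SLL (hSZ : Stmt_SZL) : Stmt_SLL := by
  have key : ∀ (ι : Type) [Fintype ι] [DecidableEq ι] (f : MvPolynomial ι ℂ) (p : ι → ℂ)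
      (P : HodgeMeasure) (R : RatFunc ℚ), MvPolynomial.eval p f = 0 →
      IsLim (locSer1 P.rat (RatFunc.X)⁻¹ f p 1) R → ∀ (e : ℕ) (Re : RatFunc ℚ), 1 ≤ e →
        IsLim (locSer1 P.rat (RatFunc.X)⁻¹ f p e) Re →
        IsLim (locSer1 P.rat (RatFunc.X)⁻¹ (sus f) (Sum.elim p fun _ => 0) e)
          (susR R + shR (Re - R)) := by
    intro ι _ _ f p P R hp hR e Re he hRe
    have hX : (RatFunc.X : RatFunc ℚ) ≠ 0 := RatFunc.X_ne_zero
    have hL : P.rat.L * (RatFunc.X : RatFunc ℚ)⁻¹ = 1 := by
      rw [P.rat_L, mul_inv_cancel₀ hX]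
    rw [SLLAux.sus_ser hSZ f p P.rat _ hL hp e he, P.rat_L]
    set n := Fintype.card ι
    have g1 := IsLim_geo (1, 1) le_rfl le_rfl
    have l1 := IsLim_shift hR
    have le := IsLim_shift hRe
    -- the first factor
    have hA := (IsLim.C ((LimOne.X.pow (n + 1)).mul (LimOne.Xinv.pow n))).mul
      ((IsLim.C LimOne.Xinv).mul
      ((((IsLim.C (LimOne.Xinv.pow 2)).mul (IsLim.Xpow 2)).add
        ((IsLim.C (LimOne.algebraMap (Polynomial.C (-1)))).mul
        ((IsLim.C LimOne.Xinv).mul ((IsLim.Xpow 1).mul l1)))).mul (g1.mul g1)))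
    have hB := (IsLim.C LimOne.X).mul le
    have hAB := hA.add hB
    have e1 : PowerSeries.C ((RatFunc.X - 1) * (1 - (RatFunc.X : RatFunc ℚ)⁻¹)) =
        PowerSeries.C (RatFunc.X : RatFunc ℚ)⁻¹ *
          (PowerSeries.C (RatFunc.X - 1) * PowerSeries.C (RatFunc.X - 1)) := by
      rw [← map_mul, ← map_mul]
      congr 1
      field_simp
    have e2 : PowerSeries.C (algebraMap (Polynomial ℚ) (RatFunc ℚ) (Polynomial.C (-1))) =
        (-1 : PowerSeries (RatFunc ℚ)) := by
      rw [map_neg, map_one, map_neg, map_one, map_neg, map_one]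
    have e3 : algebraMap (Polynomial ℚ) (RatFunc ℚ) (linQ (1, 1)) = RatFunc.X + 1 := by
      unfold linQ
      rw [map_add, map_mul, RatFunc.algebraMap_X]
      simp only [Nat.cast_one, map_one]
      ring
    have hX1 : (RatFunc.X + 1 : RatFunc ℚ) ≠ 0 := by
      rw [← e3]
      exact RatFunc.algebraMap_ne_zero (linQ_ne (1, 1) le_rfl)
    have e4 : RatFunc.C (1 ^ (n + 1) * 1 ^ n) * (RatFunc.C 1 *
        ((RatFunc.C (1 ^ 2) * 1 + RatFunc.C ((Polynomial.C (-1)).eval 1) *
        (RatFunc.C 1 * (1 * shR R))) *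
          ((algebraMap (Polynomial ℚ) (RatFunc ℚ) 1 /
            algebraMap (Polynomial ℚ) (RatFunc ℚ) (linQ (1, 1))) *
          (algebraMap (Polynomial ℚ) (RatFunc ℚ) 1 /
            algebraMap (Polynomial ℚ) (RatFunc ℚ) (linQ (1, 1)))))) + RatFunc.C 1 * shR Re =
        susR R + shR (Re - R) := by
      rw [e3, Polynomial.eval_C, map_sub, susR]
      simp only [one_pow, map_one, map_neg, mul_one]
      field_simp
      ring
    rw [e4] at hAB
    refine Eq.mp ?_ hAB
    congr 1
    rw [e1, e2]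
    ring
  intro ι _ _ f p P R hp hR
  refine ⟨?_, fun e Re he hRe => key ι f p P R hp hR e Re he hRe⟩
  have := key ι f p P R hp hR 1 R le_rfl hR
  rwa [sub_self, map_zero, add_zero] at this

end Pool.Agent.Mono.LO
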