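import Pool.Agent.Work.Monodromy.InterfaceL

/-!
# Phase L, block SMPL: the maximal simplices of a compact face are cells (helper78)

Copy of `Monodromy12/SMPF12` (helper9).
-/

set_option autoImplicit false

namespace Pool.Agent.Mono.LO

open NP

namespace SMPLAux

set_option linter.unusedSectionVars false

variable {ι κ : Type} [Fintype ι] [DecidableEq ι] [Fintype κ] [DecidableEq κ]

theorem hval_add (w : κ → ι → ℕ) (h : κ → ℝ) (k : ι → ℕ) (k₀ : ι → ℝ) (t : ℝ) (a : κ) :
    hval w h (fun i => t * (k i : ℝ) + k₀ i) a = t * (kw w k a : ℝ) + hval w h k₀ a := by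
  simp only [hval, kw, Nat.cast_sum, Nat.cast_mul, Finset.mul_sum]
  rw [← add_assoc, ← Finset.sum_add_distrib]
  congr 1
  refine Finset.sum_congr rfl fun i _ => by ring

theorem mem_fc (w : κ → ι → ℕ) (k : ι → ℕ) (a : κ) :
    a ∈ fc w k ↔ ∀ b, kw w k a ≤ kw w k b := by
  simp [fc]

theorem fc_nonempty [Nonempty κ] (w : κ → ι → ℕ) (k : ι → ℕ) : ∃ a, a ∈ fc w k := by
  obtain ⟨a, -, ha⟩ := Finset.exists_min_image (Finset.univ : Finset κ) (kw w k)
    Finset.univ_nonempty
  exact ⟨a, (mem_fc w k a).2 fun b => ha b (Finset.mem_univ b)⟩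

theorem card_le_rk (w : κ → ι → ℕ) (C F : Finset κ) (hCF : C ⊆ F)
    (hC : LinearIndependent ℚ fun a : C => hat w (Sum.inl (a : κ))) : C.card ≤ rk w F := by
  have h1 := finrank_span_eq_card hC
  rw [Fintype.card_coe] at h1
  rw [← h1, rk]
  apply Submodule.finrank_mono
  apply Submodule.span_mono
  rintro _ ⟨a, rfl⟩
  exact ⟨(a : κ), hCF a.2, rfl⟩

end SMPLAux

open SMPLAux

theorem stmt_SMPL (hM : NP.Stmt_MAXC) (hC : NP.Stmt_CELI) : Stmt_SMPL := by
  classical
  intro ι κ _ _ _ _ _ w h hh k hk1 C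
  constructor
  · intro hs
    simp only [smp, Finset.mem_filter, Finset.mem_univ, true_and] at hs
    obtain ⟨hcard, k₀, hk₀⟩ := hs
    have hCF : C ⊆ fc w k := fun a ha => ((hk₀ a).1 ha).1
    refine ⟨?_, hCF, hcard⟩
    simp only [cls0, Finset.mem_filter, Finset.mem_univ, true_and]
    constructor
    · obtain ⟨a, ha, hmin⟩ := Finset.exists_min_image (fc w k) (hval w h k₀)
        (fc_nonempty w k)
      exact ⟨a, (hk₀ a).2 ⟨ha, hmin⟩⟩
    · -- a large multiple of `k`
      obtain ⟨t₁, ht₁⟩ : ∃ t : ℝ, ∀ p : κ × κ, hval w h k₀ p.1 - hval w h k₀ p.2 ≤ t := by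
        obtain ⟨t, ht⟩ := (Set.finite_range
          fun p : κ × κ => hval w h k₀ p.1 - hval w h k₀ p.2).bddAbove
        exact ⟨t, fun p => ht ⟨p, rfl⟩⟩
      obtain ⟨t₂, ht₂⟩ : ∃ t : ℝ, ∀ i : ι, -(k₀ i) ≤ t := by
        obtain ⟨t, ht⟩ := (Set.finite_range fun i : ι => -(k₀ i)).bddAbove
        exact ⟨t, fun i => ht ⟨i, rfl⟩⟩
      set t : ℝ := max t₁ t₂ with htdef
      have ht : ∀ p : κ × κ, hval w h k₀ p.1 - hval w h k₀ p.2 ≤ t :=
        fun p => (ht₁ p).trans (le_max_left _ _)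
      have ht0 : 0 ≤ t := by
        obtain ⟨a⟩ := ‹Nonempty κ›
        simpa using ht (a, a)
      have hk'0 : ∀ i, 0 ≤ t * (k i : ℝ) + k₀ i := by
        intro i
        have h1 : -(k₀ i) ≤ t := (ht₂ i).trans (le_max_right _ _)
        have h2 : (1 : ℝ) ≤ k i := by exact_mod_cast hk1 i
        nlinarith
      obtain ⟨Δ, hΔ, hsub⟩ := hM ι κ w h hh (fun i => t * (k i : ℝ) + k₀ i) hk'0
      refine ⟨Δ, hΔ, fun v hv => hsub ?_⟩
      simp only [inl, Finset.mem_map, Function.Embedding.inl_apply] at hv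
      obtain ⟨a, ha, rfl⟩ := hv
      simp only [cell, Finset.mem_filter, Finset.mem_univ, true_and, Sum.elim_inl]
      intro b
      rw [hval_add, hval_add]
      have haF := (mem_fc w k a).1 (hCF ha)
      by_cases hb : b ∈ fc w k
      · have h1 := ((hk₀ a).1 ha).2 b hb
        have h2 : kw w k a = kw w k b := le_antisymm (haF b) ((mem_fc w k b).1 hb a)
        rw [h2]; linarith
      · have h2 : kw w k a + 1 ≤ kw w k b := by
          rw [mem_fc] at hb
          push Not at hb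
          obtain ⟨c, hc⟩ := hb
          have := haF c
          omega
        have h3 : (kw w k a : ℝ) + 1 ≤ kw w k b := by exact_mod_cast h2
        have h4 := ht (a, b)
        simp only at h4
        nlinarith
  · rintro ⟨hcls, hCF, hcard⟩
    simp only [cls0, Finset.mem_filter, Finset.mem_univ, true_and] at hcls
    obtain ⟨hne, Δ, hΔ, hsub⟩ := hcls
    simp only [maxCells, Finset.mem_filter, Finset.mem_univ, true_and] at hΔ
    obtain ⟨-, k', hk'0, rfl⟩ := hΔ
    have hmem : ∀ a : κ, Sum.inl a ∈ cell w h k' ↔ ∀ b, hval w h k' a ≤ hval w h k' b := by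
      intro a
      simp only [cell, Finset.mem_filter, Finset.mem_univ, true_and, Sum.elim_inl]
    have hCm : ∀ a ∈ C, ∀ b, hval w h k' a ≤ hval w h k' b := fun a ha =>
      (hmem a).1 (hsub (Finset.mem_map_of_mem _ ha))
    set C' : Finset κ := (fc w k).filter fun a => ∀ b, hval w h k' a ≤ hval w h k' b with hC'
    have hCC' : C ⊆ C' := fun a ha => Finset.mem_filter.2 ⟨hCF ha, hCm a ha⟩
    have hli := hC ι κ w h hh k' C' (fun a ha b hb =>
      le_antisymm ((Finset.mem_filter.1 ha).2 b) ((Finset.mem_filter.1 hb).2 a))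
    have h1 := card_le_rk w C' (fc w k) (Finset.filter_subset _ _) hli
    have h2 : C = C' := Finset.eq_of_subset_of_card_le hCC' (by rw [hcard]; exact h1)
    simp only [smp, Finset.mem_filter, Finset.mem_univ, true_and]
    refine ⟨hcard, k', fun a => ?_⟩
    rw [h2, hC', Finset.mem_filter]
    refine and_congr_right fun ha => ⟨fun hb b _ => hb b, fun hb b => ?_⟩
    obtain ⟨a₁, ha₁⟩ := hne
    exact (hb a₁ (hCF ha₁)).trans (hCm a₁ ha₁ b)

end Pool.Agent.Mono.LO
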