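import Pool.Agent.Work.Monodromy.InterfaceL
import Pool.Agent.Work.Monodromy13.SPEC13

/-!
# Phase L, block SPCL: specialisation of functionals, power series (helper4)
-/

set_option autoImplicit false

namespace Pool.Agent.Mono.LO

open MvPolynomial Filter Topology NP NP.SPECAux

namespace SPCLAux

variable {ι κ : Type} [Fintype ι] [DecidableEq ι] [Fintype κ] [DecidableEq κ]

/-- only finitely many translates matter -/
theorem sbfin (J : Finset ι) (ν : ι → ℚ) (β : ℚ) (X : Finset ((ι → ℚ) × ℚ)) (hX : XPos X)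
    (k : ℤ) (u : ι → ℤ) :
    ∃ Γ : Finset (ι →₀ ℕ), ∀ γ, γ ∉ Γ → ∀ Φ, SB J ν β X Φ → Al J (fun j => u j + γ j) →
      Φ k (fun j => u j + γ j) = 0 := by
  classical
  set g : ((ι → ℚ) × ℚ) → (ι →₀ ℕ) := fun q => Finsupp.equivFunOnFinite.symm fun i =>
    ⌈(q.2 * ((k : ℚ) - β) - ∑ j, q.1 j * ((u j : ℚ) + 1 + ν j)) / q.1 i⌉₊ with hg
  refine ⟨X.biUnion fun q => Finset.Icc 0 (g q), fun γ hγ Φ hS hal => ?_⟩
  by_contra hne
  obtain ⟨q, hq, hle⟩ := hS k (fun j => u j + γ j) hal hne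
  apply hγ
  rw [Finset.mem_biUnion]
  refine ⟨q, hq, Finset.mem_Icc.2 ⟨fun i => Nat.zero_le _, fun i => ?_⟩⟩
  have h1 : ∑ j, q.1 j * (γ j : ℚ) ≤
      q.2 * ((k : ℚ) - β) - ∑ j, q.1 j * ((u j : ℚ) + 1 + ν j) := by
    have h2 : ∑ i, q.1 i * (((u i + γ i : ℤ) : ℚ) + 1 + ν i) =
        ∑ j, q.1 j * (γ j : ℚ) + ∑ j, q.1 j * ((u j : ℚ) + 1 + ν j) := by
      rw [← Finset.sum_add_distrib]
      refine Finset.sum_congr rfl fun j _ => ?_
      push_cast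
      ring
    rw [h2] at hle
    linarith
  have h3 : q.1 i * (γ i : ℚ) ≤ ∑ j, q.1 j * (γ j : ℚ) :=
    Finset.single_le_sum (f := fun j => q.1 j * (γ j : ℚ))
      (fun j _ => mul_nonneg (hX q hq j).le (Nat.cast_nonneg _)) (Finset.mem_univ i)
  have h4 : (γ i : ℚ) ≤
      (q.2 * ((k : ℚ) - β) - ∑ j, q.1 j * ((u j : ℚ) + 1 + ν j)) / q.1 i := by
    rw [le_div_iff₀ (hX q hq i)]
    linarith
  have h5 : (γ i : ℚ) ≤ ((g q i : ℕ) : ℚ) := h4.trans (Nat.le_ceil _)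
  exact_mod_cast h5

/-- only finitely many translates matter, for all `v` -/
theorem sbfin2 (w : κ → ι → ℕ) (J : Finset ι) (ν : ι → ℚ) (β : ℚ) (X : Finset ((ι → ℚ) × ℚ))
    (hX : XPos X) (k : ℤ) (u : ι → ℤ) :
    ∃ Γ : Finset (ι →₀ ℕ), ∀ (v : κ) (γ : ι →₀ ℕ), γ ∉ Γ → ∀ Φ, SB J ν β X Φ →
      (∀ k u, ¬ Al J u → Φ k u = 0) → Φ k (fun j => u j + w v j + γ j) = 0 := by
  classical
  choose Γ hΓ using fun v : κ => sbfin J ν β X hX k (fun j => u j + w v j)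
  refine ⟨Finset.univ.biUnion Γ, fun v γ hγ Φ hS hc => ?_⟩
  by_cases hal : Al J (fun j => u j + w v j + γ j)
  · exact hΓ v γ (fun h => hγ (Finset.mem_biUnion.2 ⟨v, Finset.mem_univ _, h⟩)) Φ hS hal
  · exact hc _ _ hal

theorem ev_fin {f : κ → (ι →₀ ℕ) → ℂ} {R : ℂ} (Γ₀ : Finset (ι →₀ ℕ))
    (h0 : ∀ v γ, γ ∉ Γ₀ → f v γ = 0)
    (h : ∀ᶠ Γ : Finset (ι →₀ ℕ) in atTop, ∑ v, ∑ γ ∈ Γ, f v γ = R) (Γ : Finset (ι →₀ ℕ))
    (hΓ : Γ₀ ⊆ Γ) : ∑ v, ∑ γ ∈ Γ, f v γ = R := by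
  classical
  obtain ⟨Γ₁, h₁⟩ := Filter.eventually_atTop.1 h
  rw [← h₁ (Γ₁ ∪ Γ) Finset.subset_union_left]
  refine Finset.sum_congr rfl fun v _ => ?_
  refine Finset.sum_subset Finset.subset_union_right fun γ _ hγ => ?_
  exact h0 v γ fun h => hγ (hΓ h)

end SPCLAux

open SPCLAux

theorem stmt_SPCL (hU : Stmt_UBDL) (hCNV : Stmt_CNV) (hS : Stmt_SEQL) : Stmt_SPCL := by
  classical
  intro ι κ _ _ _ _ w A J ν β k₀ X hNd hX hν hex
  obtain ⟨I₀, δ, hδ, hI0, hB⟩ := hU ι κ w (lead A) hNd J ν β k₀ X hX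
  obtain ⟨b, hbi, hbt⟩ := hS ι κ A
  -- near `A`
  have hnear : ∀ᶠ n in atTop, ∀ v, ‖lead (serX n (b n)) v - lead A v‖ ≤ δ := by
    rw [Filter.eventually_all]
    intro v
    have h1 := (hbt v 0).eventually (Metric.closedBall_mem_nhds _ hδ)
    filter_upwards [h1] with n hn
    rw [dist_eq_norm] at hn
    exact hn
  obtain ⟨N, hN⟩ := Filter.eventually_atTop.1 hnear
  choose F hF1 hF2 hF3 using fun n : ℕ => hex (N + n) (b (N + n)) (hbi (N + n))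
  set B : ℕ → κ → MvPowerSeries ι ℂ := fun n => serX (N + n) (b (N + n)) with hBd
  have hBN : ∀ n v, ‖lead (B n) v - lead A v‖ ≤ δ := fun n => hN _ (Nat.le_add_right _ _)
  have hBt : ∀ v γ, Tendsto (fun n => MvPowerSeries.coeff γ (B n v)) atTop
      (𝓝 (MvPowerSeries.coeff γ (A v))) := fun v γ =>
    (hbt v γ).comp (tendsto_atTop_mono (fun n => Nat.le_add_left n N) tendsto_id)
  have hc : ∀ n, Rl (wX w (N + n)) (b (N + n)) J ν β k₀ (cut J (F n)) :=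
    fun n => rl_cut hν (hF1 n)
  have hcS : ∀ n, RlS w (B n) J ν β k₀ (cut J (F n)) := fun n =>
    hCNV ι κ w (N + n) (b (N + n)) J ν β k₀ _ (hc n)
  have hcB : ∀ n, SB J ν β X (cut J (F n)) := by
    intro n k u hu hne
    rw [cut_pos hu] at hne
    exact hF2 n k u hu hne
  set S : ℕ → ℝ := fun n => ∑ q ∈ I₀, ‖cut J (F n) q.1 q.2‖ with hSdef
  have hSnn : ∀ n, 0 ≤ S n := fun n => Finset.sum_nonneg fun q _ => norm_nonneg _
  have hle : ∀ n, ∀ q ∈ I₀, ‖cut J (F n) q.1 q.2‖ ≤ S n := fun n q hq =>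
    Finset.single_le_sum (f := fun q => ‖cut J (F n) q.1 q.2‖) (fun q _ => norm_nonneg _) hq
  -- bounds of the coefficients
  have hM : ∀ Γ : Finset (ι →₀ ℕ), ∃ M : ℝ, ∀ n v, ∀ γ ∈ Γ,
      ‖MvPowerSeries.coeff γ (B n v)‖ ≤ M := by
    intro Γ
    have h1 : ∀ v γ, ∃ M : ℝ, ∀ n, ‖MvPowerSeries.coeff γ (B n v)‖ ≤ M := by
      intro v γ
      obtain ⟨M, hM⟩ := ((hBt v γ).norm).bddAbove_range
      exact ⟨M, fun n => hM ⟨n, rfl⟩⟩
    choose M hM using h1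
    have hM0 : ∀ v γ, 0 ≤ M v γ := fun v γ => (norm_nonneg _).trans (hM v γ 0)
    refine ⟨∑ v, ∑ γ ∈ Γ, M v γ, fun n v γ hγ => ?_⟩
    calc ‖MvPowerSeries.coeff γ (B n v)‖ ≤ M v γ := hM v γ n
      _ ≤ ∑ γ ∈ Γ, M v γ := Finset.single_le_sum (fun γ _ => hM0 v γ) hγ
      _ ≤ ∑ v, ∑ γ ∈ Γ, M v γ := Finset.single_le_sum (f := fun v => ∑ γ ∈ Γ, M v γ)
          (fun v _ => Finset.sum_nonneg fun γ _ => hM0 v γ) (Finset.mem_univ v)
  have hSpos : ∀ n, 0 < S n := by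
    intro n
    rcases (hSnn n).lt_or_eq with h | h
    · exact h
    · exfalso
      obtain ⟨k, u, hu, hne⟩ := hF3 n
      obtain ⟨Γ, hΓ⟩ := hB k u hu
      obtain ⟨M, hM⟩ := hM Γ
      obtain ⟨C, _, hC⟩ := hΓ M
      have h2 := hC (B n) (cut J (F n)) (S n) (hBN n) (hM n) (hcS n) (hcB n) (hSnn n) (hle n)
      rw [← h, mul_zero, cut_pos hu] at h2
      exact hne (norm_le_zero_iff.1 h2)
  -- normalised functions
  set Ψ : ℕ → ℤ → (ι → ℤ) → ℂ := fun n k u => ((S n : ℂ))⁻¹ * cut J (F n) k u with hΨ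
  have hΨr : ∀ n, RlS w (B n) J ν β k₀ (Ψ n) := fun n =>
    hCNV ι κ w (N + n) (b (N + n)) J ν β k₀ _ (rl_smul _ (hc n))
  have hΨB : ∀ n, SB J ν β X (Ψ n) := fun n k u hu hne =>
    hcB n k u hu fun h0 => hne (by
      change ((S n : ℂ))⁻¹ * cut J (F n) k u = 0
      rw [h0, mul_zero])
  have hΨ0 : ∀ n k u, ¬ Al J u → Ψ n k u = 0 := by
    intro n k u hu
    change ((S n : ℂ))⁻¹ * cut J (F n) k u = 0
    rw [cut_neg hu, mul_zero]
  have hΨn : ∀ n k u, ‖Ψ n k u‖ = (S n)⁻¹ * ‖cut J (F n) k u‖ := by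
    intro n k u
    change ‖((S n : ℂ))⁻¹ * cut J (F n) k u‖ = _
    rw [norm_mul, norm_inv, Complex.norm_real, Real.norm_eq_abs, abs_of_pos (hSpos n)]
  have hΨ1 : ∀ n, ∑ q ∈ I₀, ‖Ψ n q.1 q.2‖ = 1 := by
    intro n
    rw [Finset.sum_congr rfl fun q _ => hΨn n q.1 q.2, ← Finset.mul_sum]
    exact inv_mul_cancel₀ (hSpos n).ne'
  clear_value Ψ B
  have hbd : ∀ (k : ℤ) (u : ι → ℤ), ∃ C : ℝ, ∀ n, ‖Ψ n k u‖ ≤ C := by
    intro k u
    by_cases hu : Al J u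
    · obtain ⟨Γ, hΓ⟩ := hB k u hu
      obtain ⟨M, hM⟩ := hM Γ
      obtain ⟨C, _, hC⟩ := hΓ M
      refine ⟨C * 1, fun n => ?_⟩
      have hq1 : ∀ q ∈ I₀, ‖Ψ n q.1 q.2‖ ≤ 1 := fun q hq =>
        (Finset.single_le_sum (f := fun q => ‖Ψ n q.1 q.2‖)
          (fun q _ => norm_nonneg _) hq).trans (hΨ1 n).le
      exact hC (B n) (Ψ n) 1 (hBN n) (hM n) (hΨr n) (hΨB n) zero_le_one hq1
    · refine ⟨0, fun n => ?_⟩
      rw [hΨ0 n k u hu, norm_zero]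
  -- the limit
  have hlim : ∀ (k : ℤ) (u : ι → ℤ), ∃ z : ℂ,
      Tendsto (fun n => Ψ n k u) (Filter.hyperfilter ℕ : Filter ℕ) (𝓝 z) := by
    intro k u
    obtain ⟨C, hC⟩ := hbd k u
    exact exists_lim _ _ C hC
  choose Φ hΦ using hlim
  have hBU : ∀ v γ, Tendsto (fun n => MvPowerSeries.coeff γ (B n v))
      (Filter.hyperfilter ℕ : Filter ℕ) (𝓝 (MvPowerSeries.coeff γ (A v))) := fun v γ =>
    (hBt v γ).mono_left (Nat.hyperfilter_le_atTop)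
  refine ⟨Φ, ⟨?_, ?_, ?_⟩, ?_, ?_⟩
  · intro k u i hu
    obtain ⟨Γ₀, hΓ₀⟩ := sbfin2 w J ν β X hX (k + 1) (fun j => u j - if j = i then 1 else 0)
    refine Filter.eventually_atTop.2 ⟨Γ₀, fun Γ hΓ => ?_⟩
    have e0 : ∀ (v : κ) (γ : ι →₀ ℕ), (fun j => u j + (w v j : ℤ) + (γ j : ℤ) -
        if j = i then 1 else 0) =
        fun j => (u j - if j = i then (1 : ℤ) else 0) + w v j + γ j := by
      intro v γ
      funext j
      ring
    refine tendsto_nhds_unique (l := (Filter.hyperfilter ℕ : Filter ℕ))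
      (f := fun n => ∑ v, ∑ γ ∈ Γ, ((w v i : ℂ) + (γ i : ℂ)) *
        (MvPowerSeries.coeff γ (B n v) * Ψ n (k + 1)
          (fun j => u j + w v j + γ j - if j = i then 1 else 0))) ?_ ?_
    · exact tendsto_finsetSum _ fun v _ => tendsto_finsetSum _ fun γ _ =>
        tendsto_const_nhds.mul ((hBU v γ).mul (hΦ _ _))
    · have e : (fun n => ∑ v, ∑ γ ∈ Γ, ((w v i : ℂ) + (γ i : ℂ)) *
          (MvPowerSeries.coeff γ (B n v) * Ψ n (k + 1)
            (fun j => u j + w v j + γ j - if j = i then 1 else 0))) =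
          fun n => -((u i : ℂ) + (ν i : ℂ)) * Ψ n k (fun j => u j - if j = i then 1 else 0) := by
        funext n
        refine ev_fin Γ₀ (fun v γ hγ => ?_) ((hΨr n).1 k u i hu) Γ hΓ
        rw [e0 v γ, hΓ₀ v γ hγ (Ψ n) (hΨB n) (hΨ0 n), mul_zero, mul_zero]
      rw [e]
      exact tendsto_const_nhds.mul (hΦ _ _)
  · intro k u hu
    obtain ⟨Γ₀, hΓ₀⟩ := sbfin2 w J ν β X hX (k + 1) u
    refine Filter.eventually_atTop.2 ⟨Γ₀, fun Γ hΓ => ?_⟩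
    refine tendsto_nhds_unique (l := (Filter.hyperfilter ℕ : Filter ℕ))
      (f := fun n => ∑ v, ∑ γ ∈ Γ, MvPowerSeries.coeff γ (B n v) *
        Ψ n (k + 1) (fun j => u j + w v j + γ j)) ?_ ?_
    · exact tendsto_finsetSum _ fun v _ => tendsto_finsetSum _ fun γ _ =>
        (hBU v γ).mul (hΦ _ _)
    · have e : (fun n => ∑ v, ∑ γ ∈ Γ, MvPowerSeries.coeff γ (B n v) *
          Ψ n (k + 1) (fun j => u j + w v j + γ j)) =
          fun n => ((β : ℂ) - k) * Ψ n k u := by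
        funext n
        refine ev_fin Γ₀ (fun v γ hγ => ?_) ((hΨr n).2.1 k u hu) Γ hΓ
        rw [hΓ₀ v γ hγ (Ψ n) (hΨB n) (hΨ0 n), mul_zero]
      rw [e]
      exact tendsto_const_nhds.mul (hΦ _ _)
  · intro k hk u hu
    refine tendsto_nhds_unique (hΦ k u) ?_
    have e : (fun n => Ψ n k u) = fun _ => 0 := by
      funext n
      exact (hΨr n).2.2 k hk u hu
    rw [e]
    exact tendsto_const_nhds
  · intro k u hu hne
    by_contra hcon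
    apply hne
    refine tendsto_nhds_unique (hΦ k u) ?_
    have e : (fun n => Ψ n k u) = fun _ => 0 := by
      funext n
      by_contra h0
      exact hcon (hΨB n k u hu h0)
    rw [e]
    exact tendsto_const_nhds
  · have h1 : Tendsto (fun n => ∑ q ∈ I₀, ‖Ψ n q.1 q.2‖) (Filter.hyperfilter ℕ : Filter ℕ)
        (𝓝 (∑ q ∈ I₀, ‖Φ q.1 q.2‖)) := tendsto_finsetSum _ fun q _ => (hΦ _ _).norm
    have h2 : ∑ q ∈ I₀, ‖Φ q.1 q.2‖ = 1 := by
      refine tendsto_nhds_unique h1 ?_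
      rw [show (fun n => ∑ q ∈ I₀, ‖Ψ n q.1 q.2‖) = fun _ => 1 from funext hΨ1]
      exact tendsto_const_nhds
    by_contra hcon
    have h3 : ∑ q ∈ I₀, ‖Φ q.1 q.2‖ = 0 := by
      refine Finset.sum_eq_zero fun q hq => ?_
      by_contra hne
      exact hcon ⟨q.1, q.2, hI0 q hq, fun h0 => hne (by rw [h0, norm_zero])⟩
    rw [h2] at h3
    exact one_ne_zero h3

end Pool.Agent.Mono.LO
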