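import Pool.Agent.Work.Monodromy.InterfaceL
import Pool.Agent.Work.Monodromy.SS

/-!
# Block SSL (phase L): good poles of `f + uv` give good poles of `f` (helper24)
-/

set_option autoImplicit false

namespace Pool.Agent.Mono.LO

open MvPolynomial SSAux

theorem stmt_SSL (hSLL : Stmt_SLL) : Stmt_SSL := by
  classical
  intro ι _ _ f p P hf hp hMC e R he hR s hs
  by_cases hint : s = 1 ∨ s = -1
  · exact eig_int f hf s hint
  push Not at hint
  obtain ⟨r, hr, hR'⟩ := hR
  have hpos : ∀ d ∈ e.divisors, 1 ≤ d := fun d hd => Nat.pos_of_mem_divisors hd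
  have h1e : 1 ∈ e.divisors := Nat.one_mem_divisors.2 (by omega)
  have hsus : ∀ d ∈ e.divisors, IsLim (locSer1 P.rat (RatFunc.X)⁻¹ (sus f)
      (Sum.elim p fun _ => 0) d) (susR (r 1) + shR (r d - r 1)) := fun d hd =>
    (hSLL ι f p P (r 1) hp (hr 1 h1e)).2 d (r d) (hpos d hd) (hr d hd)
  have htot : ((e.totient : ℚ)) ≠ 0 := by exact_mod_cast (Nat.totient_pos.2 he).ne'
  set S : RatFunc ℚ := ∑ d ∈ e.divisors,
    RatFunc.C ((ArithmeticFunction.moebius (e / d) : ℤ) : ℚ) *
      (susR (r 1) + shR (r d - r 1)) with hS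
  have hT : IsTwTopZetaAt P (sus f) (Sum.elim p fun _ => 0) e
      (RatFunc.C ((e.totient : ℚ)⁻¹) * S) := by
    refine ⟨_, fun d hd => hsus d hd, ?_⟩
    rw [← mul_assoc, ← map_mul, mul_inv_cancel₀ htot, map_one, one_mul]
  -- the Moebius sum of the constants
  set M : RatFunc ℚ := ∑ d ∈ e.divisors,
    RatFunc.C ((ArithmeticFunction.moebius (e / d) : ℤ) : ℚ) with hM
  have hSum : S = M * (susR (r 1) - shR (r 1)) + RatFunc.C (e.totient : ℚ) * shR R := by
    have h1 : RatFunc.C (e.totient : ℚ) * shR R = shR (RatFunc.C (e.totient : ℚ) * R) := by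
      rw [map_mul, shR_C]
    rw [h1, hR', map_sum, hM, Finset.sum_mul, ← Finset.sum_add_distrib, hS]
    refine Finset.sum_congr rfl fun d _ => ?_
    simp only [map_mul, map_sub, shR_C]
    ring
  have hMval : (e = 1 ∧ M = 1) ∨ (e ≠ 1 ∧ M = 0) := by
    have h1 : ∑ d ∈ e.divisors, ArithmeticFunction.moebius (e / d) = if e = 1 then 1 else 0 := by
      rw [Nat.sum_div_divisors e fun d => ArithmeticFunction.moebius d]
      have h0 := congrArg (fun g : ArithmeticFunction ℤ => g e)
        ArithmeticFunction.moebius_mul_coe_zeta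
      simp only [ArithmeticFunction.coe_mul_zeta_apply, ArithmeticFunction.one_apply] at h0
      exact h0
    have h2 : M = RatFunc.C (((if e = 1 then 1 else 0 : ℤ)) : ℚ) := by
      rw [← h1, hM]
      push_cast
      rw [map_sum]
    by_cases he1 : e = 1
    · left
      refine ⟨he1, ?_⟩
      rw [h2, if_pos he1]
      simp
    · right
      refine ⟨he1, ?_⟩
      rw [h2, if_neg he1]
      simp
  have hpole : Polynomial.aeval (s - 1) (RatFunc.C ((e.totient : ℚ)⁻¹) * S).denom = 0 := by
    apply pole_C_mul (inv_ne_zero htot)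
    rw [hSum]
    rcases hMval with ⟨he1, hM1⟩ | ⟨he1, hM0⟩
    · subst he1
      have h1 : r 1 = R := by
        have := hR'
        simp at this
        exact this.symm
      have h2 : M * (susR (r 1) - shR (r 1)) + RatFunc.C ((Nat.totient 1 : ℕ) : ℚ) * shR R =
          susR R := by
        rw [hM1, h1]
        simp
      rw [h2]
      exact stmt_SP.2 R s hint.1 hint.2 hs
    · rw [hM0, zero_mul, zero_add]
      exact pole_C_mul htot (stmt_SP.1 R s hs)
  have h3 := hMC e _ he hT (s - 1) hpole
  rw [exp_sub_one] at h3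
  exact stmt_SE ι f _ hf h3

end Pool.Agent.Mono.LO
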