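import Pool.Agent.Work.Monodromy.InterfaceL
import Pool.Agent.Work.Monodromy.Cubic
import Pool.Agent.Work.Monodromy.SI

/-!
# Block STN (phase L): `N` suspensions, local version (helper24)
-/

set_option autoImplicit false

namespace Pool.Agent.Mono.LO

open MvPolynomial

namespace STNLAux

variable {ι κ : Type} [Fintype ι] [Fintype κ]

omit [Fintype κ] in
theorem con_jetAt (f : MvPolynomial ι ℂ) (p : ι → ℂ) (e k : ℕ) :
    Constructible (jetAt f p e k) := by
  have h1 : Constructible {z : (ι × Fin (k + 1)) ⊕ Unit → ℂ | ∀ i, z (Sum.inl (i, 0)) = p i} := by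
    have h2 : {z : (ι × Fin (k + 1)) ⊕ Unit → ℂ | ∀ i, z (Sum.inl (i, 0)) = p i} =
        {z : (ι × Fin (k + 1)) ⊕ Unit → ℂ |
          ∀ i, eval z (X (Sum.inl (i, 0)) - C (p i)) = 0} := by
      ext z
      simp only [Set.mem_ofPred_eq, map_sub, eval_X, eval_C, sub_eq_zero]
    rw [h2]
    exact Constructible.all fun i => Constructible.zero _
  exact (SIAux.constructible_jetSet f e k).and h1

theorem mem_jetAt (α : MvPolynomial ι ℂ →ₐ[ℂ] MvPolynomial κ ℂ) (σ : ι → κ)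
    (hσ : ∀ i, α (X i) = X (σ i)) (f : MvPolynomial ι ℂ) (p : ι → ℂ) (q : κ → ℂ)
    (hq : ∀ i, q (σ i) = p i) (e k : ℕ) (z : (κ × Fin (k + 1)) ⊕ Unit → ℂ)
    (hz : z ∈ jetAt (α f) q e k) : SIAux.TJ α k z ∈ jetAt f p e k := by
  refine ⟨(SIAux.mem_iff α e k z f).2 hz.1, fun i => ?_⟩
  rw [SIAux.TJ_inl]
  simp only [hσ, aeval_X]
  have h1 := SIAux.coeff_jet' (fun s => z (Sum.inl s)) (σ i) 0
  rw [h1, hz.2, hq]

theorem locSer1_eq (σ : ι ≃ κ) (f : MvPolynomial ι ℂ) (p : ι → ℂ) (q : κ → ℂ)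
    (hq : ∀ i, q (σ i) = p i) {R : Type} [CommRing R] (μ : MotivicMeasure R) (Li : R) (e : ℕ) :
    locSer1 μ Li (renameEquiv ℂ σ f) q e = locSer1 μ Li f p e := by
  have hcard : Fintype.card ι = Fintype.card κ := Fintype.card_congr σ
  have hq' : ∀ j, p (σ.symm j) = q j := fun j => by
    rw [← hq, Equiv.apply_symm_apply]
  ext k
  simp only [locSer1, PowerSeries.coeff_mk]
  rw [hcard]
  congr 2
  set α : MvPolynomial ι ℂ ≃ₐ[ℂ] MvPolynomial κ ℂ := renameEquiv ℂ σ with hα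
  refine μ.val_of_inv (con_jetAt (α f) q e k) (con_jetAt f p e k)
    (SIAux.φJ α.toAlgHom k) (SIAux.TJ α.symm.toAlgHom k) ?_ ?_ ?_ ?_
  · intro z hz
    exact mem_jetAt α.toAlgHom σ (fun i => by simp [hα]) f p q hq e k z hz
  · intro y hy
    refine mem_jetAt α.symm.toAlgHom σ.symm (fun i => by simp [hα]) (α f) q p hq' e k y ?_
    have : (α.symm.toAlgHom (α f)) = f := α.symm_apply_apply f
    rw [this]
    exact hy
  · intro z _
    exact SIAux.TJ_TJ α.toAlgHom α.symm.toAlgHom (fun p => α.apply_symm_apply p) k z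
  · intro y _
    exact SIAux.TJ_TJ α.symm.toAlgHom α.toAlgHom (fun p => α.symm_apply_apply p) k y

theorem tw_iff (σ : ι ≃ κ) (f : MvPolynomial ι ℂ) (p : ι → ℂ) (q : κ → ℂ)
    (hq : ∀ i, q (σ i) = p i) (P : HodgeMeasure) (e : ℕ) (R : RatFunc ℚ) :
    IsTwTopZetaAt P (renameEquiv ℂ σ f) q e R ↔ IsTwTopZetaAt P f p e R := by
  unfold IsTwTopZetaAt
  simp only [locSer1_eq σ f p q hq]

theorem gpo_iff (σ : ι ≃ κ) (f : MvPolynomial ι ℂ) (R : RatFunc ℚ) :
    GPo (renameEquiv ℂ σ f) R ↔ GPo f R := by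
  unfold GPo
  simp only [Cub.eig_iff stmt_SI (renameEquiv ℂ σ) f (Fintype.card_congr σ)]

/-- the property for a polynomial and a point -/
def PP (P : HodgeMeasure) (f : MvPolynomial ι ℂ) (p : ι → ℂ) : Prop :=
  ∀ (e : ℕ) (R : RatFunc ℚ), 1 ≤ e → IsTwTopZetaAt P f p e R → GPo f R

theorem pp_iff (σ : ι ≃ κ) (f : MvPolynomial ι ℂ) (p : ι → ℂ) (q : κ → ℂ)
    (hq : ∀ i, q (σ i) = p i) (P : HodgeMeasure) :
    PP P (renameEquiv ℂ σ f) q ↔ PP P f p := by
  unfold PP
  simp only [tw_iff σ f p q hq, gpo_iff]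

theorem eval_susN (N : ℕ) (f : MvPolynomial ι ℂ) (p : ι → ℂ) (h : eval p f = 0) :
    eval (Sum.elim p fun _ => 0) (susN N f) = 0 := by
  rw [susN, map_add, eval_rename, Sum.elim_comp_inl, h, zero_add, map_sum]
  exact Finset.sum_eq_zero fun k _ => by simp

end STNLAux

open STNLAux

theorem stmt_STN (hSSL : Stmt_SSL) : Stmt_STN := by
  classical
  intro ι _ _ f p P N hf hp
  change PP P (susN N f) (Sum.elim p fun _ => 0) → PP P f p
  induction N with
  | zero =>
    have h1 := pp_iff (Equiv.sumEmpty ι (Fin 0 × Bool)) (susN 0 f)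
      (Sum.elim p fun _ => 0) p (fun i => by
        rcases i with i | i
        · simp
        · exact i.1.elim0) P
    rw [Cub.rename_susZero] at h1
    exact h1.2
  | succ N ih =>
    have h1 := pp_iff (Cub.eqv ι N) (susN (N + 1) f) (Sum.elim p fun _ => 0)
      (Sum.elim (Sum.elim p fun _ => 0) fun _ => 0) (fun i => by
        rcases i with i | ⟨k, b⟩
        · rw [Cub.eqv_inl]
          simp
        · refine Fin.lastCases ?_ (fun k => ?_) k
          · rw [Cub.eqv_last]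
            simp
          · rw [Cub.eqv_castSucc]
            simp) P
    rw [Cub.rename_susN] at h1
    intro h
    exact ih (hSSL _ (susN N f) (Sum.elim p fun _ => 0) P (Cub.totalDegree_susN N hf)
      (eval_susN N f p hp) (h1.2 h))

end Pool.Agent.Mono.LO
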