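import Pool.Agent.Work.Monodromy.InterfaceL
import Pool.Agent.Work.Monodromy12.SUMK12

/-!
# Phase L, block SUMKL: the coefficients of the local zeta function as sums over positive `k`
(helper84, from SUMK12 of helper49)
-/

set_option autoImplicit false
set_option linter.unusedSectionVars false

namespace Pool.Agent.Mono.LO

open MvPolynomial NP

namespace SUMKLAux

open NP.SUMKAux

variable {ι κ : Type} [Fintype ι] [DecidableEq ι] [Fintype κ] [DecidableEq κ]

theorem fib_pos (w : κ → ι → ℕ) (a : κ → ℂ) (d K : ℕ) (b : ι → Fin (K + 2))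
    (hb : ∀ i, 1 ≤ vec b i) :
    {z | z ∈ jetAt (poly w a) (fun _ => 0) d K ∧ ord z = b} = Jt w a d K (vec b) := by
  rw [← Jt_eq]
  ext z
  constructor
  · rintro ⟨⟨h1, _⟩, h2⟩
    exact ⟨h1, h2⟩
  · rintro ⟨h1, h2⟩
    refine ⟨⟨h1, fun i => ?_⟩, h2⟩
    apply ord_zero z i 0
    rw [h2]
    have := hb i
    exact this

theorem fib_neg (w : κ → ι → ℕ) (a : κ → ℂ) (d K : ℕ) (b : ι → Fin (K + 2))
    (hb : ¬ ∀ i, 1 ≤ vec b i) :
    {z | z ∈ jetAt (poly w a) (fun _ => 0) d K ∧ ord z = b} = ∅ := by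
  rw [Set.eq_empty_iff_forall_notMem]
  rintro z ⟨⟨_, h1⟩, h2⟩
  push Not at hb
  obtain ⟨i, hi⟩ := hb
  have h3 : ((0 : Fin (K + 1)) : ℕ) = ord z i := by
    rw [h2]
    have h4 : vec b i = (b i : ℕ) := rfl
    have h5 : ((0 : Fin (K + 1)) : ℕ) = 0 := rfl
    omega
  exact ord_ne z i 0 h3 (h1 i)

theorem val_jetAt (E : HodgeMeasure) (w : κ → ι → ℕ) (a : κ → ℂ) (d K : ℕ) :
    E.val (jetAt (poly w a) (fun _ => 0) d K) =
      ∑ b : ι → Fin (K + 2), if ∀ i, 1 ≤ vec b i then E.val (Jt w a d K (vec b)) else 0 := by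
  rw [E.toMotivicMeasure.val_fibers (s := jetAt (poly w a) (fun _ => 0) d K) ord (fun b => by
    by_cases hb : ∀ i, 1 ≤ vec b i
    · rw [fib_pos w a d K b hb]
      exact CLS0Aux.cons_Jt w a d K (vec b)
    · rw [fib_neg w a d K b hb]
      exact Constructible.empty)]
  refine Finset.sum_congr rfl fun b _ => ?_
  by_cases hb : ∀ i, 1 ≤ vec b i
  · rw [fib_pos w a d K b hb, if_pos hb]
  · rw [fib_neg w a d K b hb, if_neg hb, E.toMotivicMeasure.val_empty]

theorem tr_pos {K : ℕ} {k : ι → ℕ} {b : ι → Fin (K + 2)} (h : tr K k = b) :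
    (∀ i, 1 ≤ k i) ↔ ∀ i, 1 ≤ vec b i := by
  have h1 : ∀ i, vec b i = min (k i) (K + 1) := fun i => by
    rw [← h]
    rfl
  refine forall_congr' fun i => ?_
  rw [h1]
  omega

end SUMKLAux

open SUMKLAux NP.SUMKAux in
theorem stmt_SUMKL (hCLS0 : NP.Stmt_CLS0) (hCLSL : Stmt_CLSL) (hCLS2 : NP.Stmt_CLS2) :
    Stmt_SUMKL := by
  intro ι κ _ _ _ _ _ w a E d K u hNd hd hu
  have hu0 : u ≠ 0 := by linarith
  have hu1 : u - 1 ≠ 0 := by linarith
  have hL : E.toMotivicMeasure.L = Polynomial.X := E.line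
  -- the value of each part
  have hval : ∀ k : ι → ℕ, (∀ i, 1 ≤ k i) → br E w a d K u k * ∏ i, Sf K u (k i) =
      Polynomial.aeval u (E.val (Jt w a d K k)) * u⁻¹ ^ (K * Fintype.card ι) := by
    intro k hk
    have hpr := prod_Sf K hu k
    have hB : (u - 1) ^ (Finset.univ.filter fun i => K < k i).card ≠ 0 := pow_ne_zero _ hu1
    apply mul_right_cancel₀ hB
    rw [mul_assoc, hpr]
    unfold br
    rcases Nat.lt_trichotomy (mnk w k) K with h | h | h
    · rw [if_neg (by omega), if_pos h]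
      have h1 := congrArg (Polynomial.aeval u) (hCLSL ι κ w a (Polynomial ℤ)
        E.toMotivicMeasure d K k (hNd k hk) hd h)
      rw [hL] at h1
      simp only [map_mul, map_pow, map_sub, map_one, Polynomial.aeval_X] at h1
      have h2 : u ^ (K - mnk w k) ≠ 0 := pow_ne_zero _ hu0
      have h3 : u⁻¹ ^ (K - mnk w k) * u ^ (K - mnk w k) = 1 := by
        rw [← mul_pow, inv_mul_cancel₀ hu0, one_pow]
      apply mul_right_cancel₀ h2
      calc _ = (Polynomial.aeval u (E.val (VF w a (fc w k))) * (u - 1) *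
            u ^ (∑ i, (K - k i))) * (u⁻¹ ^ (K - mnk w k) * u ^ (K - mnk w k)) *
              u⁻¹ ^ (K * Fintype.card ι) := by ring
        _ = _ := by rw [h3, mul_one, ← h1]; ring
    · rw [if_pos h]
      have h1 := congrArg (Polynomial.aeval u) (hCLS0 ι κ w a (Polynomial ℤ)
        E.toMotivicMeasure d K k hd h)
      rw [hL] at h1
      simp only [map_mul, map_pow, map_sub, map_one, Polynomial.aeval_X] at h1
      rw [← mul_assoc, ← h1]
      ring
    · rw [if_neg (by omega), if_neg (by omega), hCLS2 ι κ w a d K k h,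
        E.toMotivicMeasure.val_empty]
      simp
  have hsum : ∀ b : ι → Fin (K + 2), HasSum
      (fun k : ι → ℕ => if ∀ i, 1 ≤ k i then
        (if tr K k = b then u⁻¹ ^ (∑ i, k i) else 0) * br E w a d K u (vec b) else 0)
      (Polynomial.aeval u (if ∀ i, 1 ≤ vec b i then E.val (Jt w a d K (vec b)) else 0) *
        u⁻¹ ^ (K * Fintype.card ι)) := by
    intro b
    by_cases hb : ∀ i, 1 ≤ vec b i
    · rw [if_pos hb, ← hval _ hb, mul_comm (br E w a d K u (vec b))]
      have h1 := (hasSum_tr K hu b).mul_right (br E w a d K u (vec b))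
      have h2 : (fun k : ι → ℕ => if ∀ i, 1 ≤ k i then
          (if tr K k = b then u⁻¹ ^ (∑ i, k i) else 0) * br E w a d K u (vec b) else 0) =
          fun k : ι → ℕ =>
            (if tr K k = b then u⁻¹ ^ (∑ i, k i) else 0) * br E w a d K u (vec b) := by
        funext k
        by_cases hk : tr K k = b
        · rw [if_pos ((tr_pos hk).2 hb)]
        · rw [if_neg hk, zero_mul, ite_self]
      rw [h2]
      exact h1
    · rw [if_neg hb, map_zero, zero_mul]
      have h2 : (fun k : ι → ℕ => if ∀ i, 1 ≤ k i then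
          (if tr K k = b then u⁻¹ ^ (∑ i, k i) else 0) * br E w a d K u (vec b) else 0) =
          fun _ : ι → ℕ => (0 : ℝ) := by
        funext k
        by_cases hk : tr K k = b
        · rw [if_neg fun h => hb ((tr_pos hk).1 h)]
        · rw [if_neg hk, zero_mul, ite_self]
      rw [h2]
      exact hasSum_zero
  have h1 := hasSum_sum (s := Finset.univ) (fun b _ => hsum b)
  rw [← Finset.sum_mul, ← map_sum, ← val_jetAt] at h1
  have h2 : (fun k : ι → ℕ => ∑ b : ι → Fin (K + 2), if ∀ i, 1 ≤ k i then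
      (if tr K k = b then u⁻¹ ^ (∑ i, k i) else 0) * br E w a d K u (vec b) else 0) =
      ctL E w a d K u := by
    funext k
    unfold ctL
    by_cases hk : ∀ i, 1 ≤ k i
    · rw [if_pos hk]
      have h3 : ∀ b : ι → Fin (K + 2), (if ∀ i, 1 ≤ k i then
          (if tr K k = b then u⁻¹ ^ (∑ i, k i) else 0) * br E w a d K u (vec b) else 0) =
          (if tr K k = b then u⁻¹ ^ (∑ i, k i) else 0) * br E w a d K u (vec b) :=
        fun b => if_pos hk
      rw [Finset.sum_congr rfl fun b _ => h3 b, Finset.sum_eq_single (tr K k)]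
      · rw [if_pos rfl, ← br_tr]
        rfl
      · intro b _ hb
        rw [if_neg (Ne.symm hb), zero_mul]
      · intro h
        exact absurd (Finset.mem_univ _) h
    · rw [if_neg hk]
      exact Finset.sum_eq_zero fun b _ => if_neg hk
  rw [h2] at h1
  exact h1

end Pool.Agent.Mono.LO
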