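import Pool.Agent.Work.Monodromy.InterfaceL
import Pool.Agent.Work.Monodromy.SZ

/-!
# Phase L, block SZL: the local classes of `f + uv` (local version of `Monodromy/SZ`)
-/

set_option autoImplicit false
set_option linter.unusedSectionVars false

namespace Pool.Agent.Mono.LO

open MvPolynomial SZAux

namespace SZLAux

/-! ### jets at `p` -/

section jets

variable {ι : Type}

/-- jets which start at `p` -/
def Sp (k : ℕ) (p : ι → ℂ) : Set (ι × Fin (k + 1) → ℂ) := {x | ∀ a, x (a, 0) = p a}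

theorem cons_Sp [Finite ι] (k : ℕ) (p : ι → ℂ) : Constructible (Sp k p) := by
  refine Constructible.all fun a => ?_
  have h := Constructible.eq (X (a, 0) : MvPolynomial (ι × Fin (k + 1)) ℂ) (C (p a))
  simpa only [eval_X, eval_C] using h

theorem cons_jetAt [Finite ι] (f : MvPolynomial ι ℂ) (p : ι → ℂ) (e k : ℕ) :
    Constructible (jetAt f p e k) := by
  refine Constructible.and (SIAux.constructible_jetSet f e k) (Constructible.all fun a => ?_)
  have h := Constructible.eq
    (X (Sum.inl (a, 0)) : MvPolynomial ((ι × Fin (k + 1)) ⊕ Unit) ℂ) (C (p a))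
  simpa only [eval_X, eval_C] using h

/-- jets at `p` with `ord f ≥ i` -/
def AgP (k : ℕ) (f : MvPolynomial ι ℂ) (p : ι → ℂ) (i : ℕ) : Set (ι × Fin (k + 1) → ℂ) :=
  {x | x ∈ Ag k f i ∧ ∀ a, x (a, 0) = p a}

theorem cons_AgP [Finite ι] (k : ℕ) (f : MvPolynomial ι ℂ) (p : ι → ℂ) (i : ℕ) :
    Constructible (AgP k f p i) := Constructible.and (cons_Ag k f i) (cons_Sp k p)

variable {R : Type} [CommRing R] (μ : MotivicMeasure R)

theorem val_Sp [Fintype ι] (k : ℕ) (p : ι → ℂ) :
    μ.val (Sp k p) = μ.L ^ (Fintype.card ι * k) := by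
  have h1 := μ.val_univ (ι × Fin k)
  rw [Fintype.card_prod, Fintype.card_fin] at h1
  rw [← h1]
  refine μ.map _ _ (fun s : ι × Fin k => (X (s.1, s.2.succ) : MvPolynomial (ι × Fin (k + 1)) ℂ))
    (cons_Sp k p) Constructible.univ ⟨?_, ?_, ?_⟩
  · intro x _
    exact Set.mem_univ _
  · intro x hx y hy hxy
    ext ⟨a, l⟩
    refine Fin.cases ?_ (fun l => ?_) l
    · rw [hx a, hy a]
    · have h2 := congrFun hxy (a, l)
      simpa only [eval_X] using h2
  · intro y _
    refine ⟨fun s => Fin.cases (p s.1) (fun l => y (s.1, l)) s.2, fun a => rfl, ?_⟩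
    ext ⟨a, l⟩
    simp only [eval_X, Fin.cases_succ]

/-- change of the level -/
theorem val_levelP [Fintype ι] (f : MvPolynomial ι ℂ) (p : ι → ℂ) (k i : ℕ) (hi : i ≤ k) :
    μ.val {x | (x ∈ Sp k p ∧ ∀ l < i, eval x (cG k f l) = 0) ∧ eval x (cG k f i) ≠ 0} =
      μ.val (jetAt f p 1 i) * μ.L ^ (Fintype.card ι * (k - i)) := by
  classical
  have hcard : Fintype.card (ι × Fin (k - i)) = Fintype.card ι * (k - i) := by
    rw [Fintype.card_prod, Fintype.card_fin]
  rw [← hcard, ← μ.val_prod_univ (cons_jetAt f p 1 i) (ι × Fin (k - i))]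
  refine μ.map _ _ (fun j : ((ι × Fin (i + 1)) ⊕ Unit) ⊕ (ι × Fin (k - i)) => match j with
    | Sum.inl (Sum.inl s) => (X (s.1, ⟨s.2, by omega⟩) : MvPolynomial (ι × Fin (k + 1)) ℂ)
    | Sum.inl (Sum.inr _) => cG k f i
    | Sum.inr s => X (s.1, ⟨i + 1 + s.2, by omega⟩)) ?_ ?_ ?_
  · refine Constructible.and (Constructible.and (cons_Sp k p)
      (Constructible.all_lt i fun l _ => Constructible.zero _)) (Constructible.ne _)
  · exact Constructible.comap Sum.inl (cons_jetAt f p 1 i)
  have key : ∀ x : ι × Fin (k + 1) → ℂ, ∀ l ≤ i,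
      gl i f l (fun s : ι × Fin (i + 1) => x (s.1, ⟨s.2, by omega⟩)) = gl k f l x := by
    intro x l hl
    refine gl_congr f _ _ i le_rfl hi ?_ l hl
    intro a m hm
    rfl
  refine ⟨?_, ?_, ?_⟩
  · rintro x ⟨⟨h0, h1⟩, h2⟩
    simp only [Set.mem_ofPred_eq, jetAt, jetSet, eval_X]
    refine ⟨⟨?_, ?_, ?_⟩, ?_⟩
    · intro l hl
      have h3 := key x l (by omega)
      rw [gl] at h3
      rw [h3, ← eval_cG]
      exact h1 l hl
    · have h3 := key x i le_rfl
      rw [gl] at h3
      rw [h3, ← eval_cG]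
      exact h2
    · have h3 := key x i le_rfl
      rw [gl] at h3
      rw [h3, ← eval_cG, pow_one]
    · intro a
      exact h0 a
  · intro x _ y _ hxy
    ext ⟨a, l⟩
    by_cases hl : (l : ℕ) < i + 1
    · have h1 := congrFun hxy (Sum.inl (Sum.inl (a, ⟨l, hl⟩)))
      simpa only [eval_X] using h1
    · have h1 := congrFun hxy (Sum.inr (a, ⟨l - (i + 1), by omega⟩))
      simp only [eval_X] at h1
      have h2 : (⟨i + 1 + (l - (i + 1)), by omega⟩ : Fin (k + 1)) = l := by
        ext
        simp only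
        omega
      rw [h2] at h1
      exact h1
  · intro y hy
    simp only [Set.mem_ofPred_eq, jetAt, jetSet] at hy
    obtain ⟨⟨h1, h2, h3⟩, h4⟩ := hy
    let x : ι × Fin (k + 1) → ℂ := fun s =>
      if h : (s.2 : ℕ) < i + 1 then y (Sum.inl (Sum.inl (s.1, ⟨s.2, h⟩)))
        else y (Sum.inr (s.1, ⟨s.2 - (i + 1), by omega⟩))
    have hx : (fun s : ι × Fin (i + 1) => x (s.1, ⟨s.2, by omega⟩)) =
        fun s => y (Sum.inl (Sum.inl s)) := by
      ext s
      simp only [x]
      rw [dif_pos (by omega)]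
    have hg : ∀ l ≤ i, gl k f l x =
        (aeval (jet fun s => y (Sum.inl (Sum.inl s))) f : Polynomial ℂ).coeff l := by
      intro l hl
      rw [← key x l hl, hx]
      rfl
    refine ⟨x, ⟨⟨?_, ?_⟩, ?_⟩, ?_⟩
    · intro a
      rw [← h4 a]
      have h5 := congrFun hx (a, 0)
      exact h5
    · intro l hl
      rw [eval_cG, hg l (by omega)]
      exact h1 l hl
    · rw [eval_cG, hg i le_rfl]
      exact h2
    · ext j
      rcases j with (s | ⟨⟩) | s
      · simp only [eval_X]
        exact congrFun hx s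
      · simp only
        rw [eval_cG, hg i le_rfl, ← h3, pow_one]
      · simp only [eval_X, x]
        rw [dif_neg (by omega)]
        congr 2
        ext
        · rfl
        · simp

/-- the measure of `ord f ≥ i` -/
theorem val_AgP [Fintype ι] (Li : R) (hL : μ.L * Li = 1) (f : MvPolynomial ι ℂ) (p : ι → ℂ)
    (k i : ℕ) (hi : i ≤ k + 1) :
    μ.val (AgP k f p i) = μ.L ^ ((k + 1) * Fintype.card ι) *
      (Li ^ Fintype.card ι - ∑ m ∈ Finset.range i, vkA μ Li f p 1 m) := by
  have h1 := tele μ (Sp k p) (cons_Sp k p) (cG k f) i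
  have h2 : {z : ι × Fin (k + 1) → ℂ | z ∈ Sp k p ∧
      ∀ l < i, eval z (cG k f l) = 0} = AgP k f p i := by
    ext z
    simp only [Set.mem_ofPred_eq, eval_cG, Ag, AgP, Sp]
    exact and_comm
  rw [h2, val_Sp] at h1
  have h3 : ∀ m ∈ Finset.range i,
      μ.val {z | (z ∈ Sp k p ∧ ∀ l < m, eval z (cG k f l) = 0) ∧
        eval z (cG k f m) ≠ 0} = μ.L ^ ((k + 1) * Fintype.card ι) * vkA μ Li f p 1 m := by
    intro m hm
    have hm' : m < i := Finset.mem_range.1 hm
    rw [val_levelP μ f p k m (by omega), vkA]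
    have h4 : (k + 1) * Fintype.card ι = Fintype.card ι * (k - m) + (m + 1) * Fintype.card ι := by
      have : k + 1 = (k - m) + (m + 1) := by omega
      conv_lhs => rw [this]
      ring
    rw [h4, pow_add]
    have h5 : μ.L ^ ((m + 1) * Fintype.card ι) * Li ^ ((m + 1) * Fintype.card ι) = 1 := by
      rw [← mul_pow, hL, one_pow]
    linear_combination (-(μ.val (jetAt f p 1 m) * μ.L ^ (Fintype.card ι * (k - m)))) * h5
  rw [Finset.sum_congr rfl h3, ← Finset.mul_sum] at h1
  have h6 : μ.L ^ (Fintype.card ι * k) =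
      μ.L ^ ((k + 1) * Fintype.card ι) * Li ^ Fintype.card ι := by
    have h7 : (k + 1) * Fintype.card ι = Fintype.card ι * k + Fintype.card ι := by ring
    rw [h7, pow_add, mul_assoc, ← mul_pow, hL, one_pow, mul_one]
  rw [h6] at h1
  linear_combination -h1

end jets

/-! ### jets of `f + uv` at `(p, 0)` -/

section susjets

variable {ι : Type} {R : Type} [CommRing R] (μ : MotivicMeasure R)

theorem val_partP [Fintype ι] (f : MvPolynomial ι ℂ) (q : ι → ℂ) (e k i : ℕ) (he : 1 ≤ e)
    (hi0 : 1 ≤ i) (hik : i < k)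
    (p : ℕ → MvPolynomial (((ι ⊕ Bool) × Fin (k + 1)) ⊕ Unit) ℂ)
    (hp : ∀ l, (hl : l < k + 1) → p l = X (Sum.inl (Sum.inr true, ⟨l, hl⟩))) :
    μ.val {z | (z ∈ jetAt (sus f) (Sum.elim q fun _ => 0) e k ∧ ∀ l < i, eval z (p l) = 0) ∧
        eval z (p i) ≠ 0} =
      (μ.val (AgP k f q (i + 1)) * (μ.L - 1)) * ((μ.L - 1) * μ.L ^ k) := by
  classical
  have hi : i ≤ k := hik.le
  have hpe : ∀ z : ((ι ⊕ Bool) × Fin (k + 1)) ⊕ Unit → ℂ, ∀ l, l < k + 1 →
      eval z (p l) = PowerSeries.coeff l (bz true z) := by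
    intro z l hl
    rw [hp l hl, eval_X, coeff_bz true z l hl]
  have hv : μ.val (pset (pset (AgP k f q (i + 1)) Gm) (pset Gm (Set.univ : Set (Fin k → ℂ)))) =
      (μ.val (AgP k f q (i + 1)) * (μ.L - 1)) * ((μ.L - 1) * μ.L ^ k) := by
    rw [μ.val_pset (Constructible.pset (cons_AgP k f q (i + 1)) cons_Gm)
      (Constructible.pset cons_Gm Constructible.univ), μ.val_pset (cons_AgP k f q (i + 1)) cons_Gm,
      μ.val_pset cons_Gm Constructible.univ, val_Gm, μ.val_univ, Fintype.card_fin]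
  rw [← hv]
  refine μ.map _ _ (φi k i hi) ?_ ?_ ?_
  · exact Constructible.and (Constructible.and (cons_jetAt (sus f) _ e k)
      (Constructible.all_lt i fun l _ => Constructible.zero _)) (Constructible.ne _)
  · exact Constructible.pset (Constructible.pset (cons_AgP k f q (i + 1)) cons_Gm)
      (Constructible.pset cons_Gm Constructible.univ)
  have hlow : ∀ z : ((ι ⊕ Bool) × Fin (k + 1)) ⊕ Unit → ℂ,
      z ∈ {z | (z ∈ jetAt (sus f) (Sum.elim q fun _ => 0) e k ∧
        ∀ l < i, eval z (p l) = 0) ∧ eval z (p i) ≠ 0} →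
      (∀ a < i, PowerSeries.coeff a (bz true z) = 0) ∧ PowerSeries.coeff i (bz true z) ≠ 0 := by
    rintro z ⟨⟨-, h2⟩, h3⟩
    refine ⟨fun a ha => ?_, ?_⟩
    · rw [← hpe z a (by omega)]
      exact h2 a ha
    · rw [← hpe z i (by omega)]
      exact h3
  have hzero : ∀ (U V : PowerSeries ℂ), (∀ a < i, PowerSeries.coeff a U = 0) →
      PowerSeries.coeff 0 V = 0 → ∀ a < i + 1, PowerSeries.coeff a (U * V) = 0 := by
    intro U V h hV
    have h1 := PowerSeries.X_pow_dvd_iff.2 h
    have h2 : (PowerSeries.X : PowerSeries ℂ) ∣ V := by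
      rw [PowerSeries.X_dvd_iff, ← PowerSeries.coeff_zero_eq_constantCoeff_apply]
      exact hV
    have h3 := mul_dvd_mul h1 h2
    rw [← pow_succ] at h3
    exact PowerSeries.X_pow_dvd_iff.1 h3
  refine ⟨?_, ?_, ?_⟩
  · intro z hz
    obtain ⟨h1, h2⟩ := hlow z hz
    obtain ⟨h3, h4⟩ := (mem_sus e he f z).1 hz.1.1.1
    have h0 := hz.1.1.2
    have hv0 : PowerSeries.coeff 0 (bz false z) = 0 := by
      rw [coeff_bz false z 0 (by omega)]
      exact h0 (Sum.inr false)
    refine ⟨⟨⟨?_, ?_⟩, ?_⟩, ⟨?_, Set.mem_univ _⟩⟩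
    · intro l hl
      have h5 := h4 l (by omega)
      rw [hzero _ _ h1 hv0 l hl, if_neg (by omega), add_zero] at h5
      have h6 : (fun s : ι × Fin (k + 1) => eval z (φi k i hi (Sum.inl (Sum.inl s)))) = xz z := by
        ext s
        simp only [φi, eval_X, xz]
      change gl k f l (fun s : ι × Fin (k + 1) => eval z (φi k i hi (Sum.inl (Sum.inl s)))) = 0
      rw [h6]
      exact h5
    · intro a
      change eval z (φi k i hi (Sum.inl (Sum.inl (a, 0)))) = q a
      simp only [φi, eval_X]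
      exact h0 (Sum.inl a)
    · change eval z (φi k i hi (Sum.inl (Sum.inr ()))) ≠ 0
      simpa only [φi, eval_X] using h3
    · change eval z (φi k i hi (Sum.inr (Sum.inl ()))) ≠ 0
      rw [coeff_bz true z i (by omega)] at h2
      simpa only [φi, eval_X] using h2
  · intro z hz z' hz' hzz
    obtain ⟨h1, h2⟩ := hlow z hz
    obtain ⟨h1', h2'⟩ := hlow z' hz'
    obtain ⟨h3, h4⟩ := (mem_sus e he f z).1 hz.1.1.1
    obtain ⟨h3', h4'⟩ := (mem_sus e he f z').1 hz'.1.1.1
    have hx : ∀ a l, z (Sum.inl (Sum.inl a, l)) = z' (Sum.inl (Sum.inl a, l)) := by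
      intro a l
      have h5 := congrFun hzz (Sum.inl (Sum.inl (a, l)))
      simpa only [φi, eval_X] using h5
    have hw : z (Sum.inr ()) = z' (Sum.inr ()) := by
      have h5 := congrFun hzz (Sum.inl (Sum.inr ()))
      simpa only [φi, eval_X] using h5
    have hu : ∀ l, (hl : l < k + 1) → z (Sum.inl (Sum.inr true, ⟨l, hl⟩)) =
        z' (Sum.inl (Sum.inr true, ⟨l, hl⟩)) := by
      intro l hl
      rcases lt_trichotomy l i with h5 | h5 | h5
      · rw [← coeff_bz true z l hl, ← coeff_bz true z' l hl, h1 l h5, h1' l h5]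
      · subst h5
        have h6 := congrFun hzz (Sum.inr (Sum.inl ()))
        simpa only [φi, eval_X] using h6
      · have h6 := congrFun hzz (Sum.inr (Sum.inr ⟨l - 1, by omega⟩))
        simp only [φi] at h6
        rw [if_neg (by omega), eval_X, eval_X] at h6
        have h7 : (⟨l - 1 + 1, by omega⟩ : Fin (k + 1)) = ⟨l, hl⟩ := by
          ext
          simp only
          omega
        rwa [h7] at h6
    have hxz : xz z = xz z' := by
      ext s
      exact hx _ _
    have hU : ∀ l ≤ k, PowerSeries.coeff l (bz true z) = PowerSeries.coeff l (bz true z') := by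
      intro l hl
      rw [coeff_bz true z l (by omega), coeff_bz true z' l (by omega)]
      exact hu l (by omega)
    have hUV : ∀ l ≤ k, PowerSeries.coeff l (bz true z * bz false z) =
        PowerSeries.coeff l (bz true z * bz false z') := by
      intro l hl
      rw [coeff_mul_congr k (bz true z) (bz false z') (bz true z') (bz false z') hU
        (fun _ _ => rfl) l hl]
      have h5 := h4 l hl
      have h5' := h4' l hl
      rw [hxz, hw] at h5
      rw [← h5'] at h5
      exact add_left_cancel h5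
    have hv : ∀ l, (hl : l < k + 1) → z (Sum.inl (Sum.inr false, ⟨l, hl⟩)) =
        z' (Sum.inl (Sum.inr false, ⟨l, hl⟩)) := by
      intro l hl
      by_cases h5 : l + i ≤ k
      · rw [← coeff_bz false z l hl, ← coeff_bz false z' l hl]
        exact conv_unique k i (bz true z) _ _ h1 h2 hUV l h5
      · have h6 := congrFun hzz (Sum.inr (Sum.inr ⟨k - l, by omega⟩))
        simp only [φi] at h6
        rw [if_pos (by omega), eval_X, eval_X] at h6
        have h7 : (⟨k - (k - l), by omega⟩ : Fin (k + 1)) = ⟨l, hl⟩ := by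
          ext
          simp only
          omega
        rwa [h7] at h6
    ext j
    rcases j with ⟨(a | (_ | _)), l⟩ | ⟨⟩
    · exact hx a l
    · exact hv l l.2
    · exact hu l l.2
    · exact hw
  · rintro y ⟨⟨⟨hyA, hyq⟩, hyw⟩, ⟨hyu, -⟩⟩
    set x : ι × Fin (k + 1) → ℂ := fun s => y (Sum.inl (Sum.inl s)) with hx
    have hyA' : ∀ l < i + 1, gl k f l x = 0 := hyA
    have hyq' : ∀ a, x (a, 0) = q a := hyq
    have hyw' : y (Sum.inl (Sum.inr ())) ≠ 0 := hyw
    have hyu' : y (Sum.inr (Sum.inl ())) ≠ 0 := hyu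
    set U : PowerSeries ℂ := PowerSeries.mk fun l =>
      if l < i then 0 else if l = i then y (Sum.inr (Sum.inl ())) else
        if h : l - 1 < k then y (Sum.inr (Sum.inr ⟨l - 1, h⟩)) else 0 with hU
    set H : PowerSeries ℂ := PowerSeries.mk fun l =>
      (if l = k then y (Sum.inl (Sum.inr ())) ^ e else 0) - gl k f l x with hH
    have hUlow : ∀ a < i, PowerSeries.coeff a U = 0 := fun a ha => by
      rw [hU, PowerSeries.coeff_mk, if_pos ha]
    have hUi : PowerSeries.coeff i U ≠ 0 := by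
      rw [hU, PowerSeries.coeff_mk, if_neg (lt_irrefl i), if_pos rfl]; exact hyu'
    have hHlow : ∀ l < i + 1, PowerSeries.coeff l H = 0 := fun l hl => by
      rw [hH, PowerSeries.coeff_mk, if_neg (by omega), hyA' l hl, sub_zero]
    obtain ⟨V, hV1, hV2⟩ := conv_exists k i U H
      (fun b => if h : k - b < k then y (Sum.inr (Sum.inr ⟨k - b, h⟩)) else 0)
      hUlow hUi (fun l hl => hHlow l (by omega))
    have hV0 : PowerSeries.coeff 0 V = 0 := by
      have h5 := conv_unique i i U V 0 hUlow hUi (fun l hl => by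
        rw [hV2 l (by omega), hHlow l (by omega), mul_zero, map_zero]) 0 (by omega)
      rw [h5, map_zero]
    let z : ((ι ⊕ Bool) × Fin (k + 1)) ⊕ Unit → ℂ := fun j => match j with
      | Sum.inl (Sum.inl a, l) => y (Sum.inl (Sum.inl (a, l)))
      | Sum.inl (Sum.inr true, l) => PowerSeries.coeff l U
      | Sum.inl (Sum.inr false, l) => PowerSeries.coeff l V
      | Sum.inr _ => y (Sum.inl (Sum.inr ()))
    have hzU : ∀ l ≤ k, PowerSeries.coeff l (bz true z) = PowerSeries.coeff l U := by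
      intro l hl
      rw [coeff_bz true z l (by omega)]
    have hzV : ∀ l ≤ k, PowerSeries.coeff l (bz false z) = PowerSeries.coeff l V := by
      intro l hl
      rw [coeff_bz false z l (by omega)]
    have hzx : xz z = x := by
      ext s
      rfl
    refine ⟨z, ⟨⟨⟨?_, ?_⟩, ?_⟩, ?_⟩, ?_⟩
    · rw [mem_sus e he f z]
      refine ⟨hyw', ?_⟩
      intro l hl
      rw [coeff_mul_congr k _ _ U V hzU hzV l hl, hV2 l hl, hzx, hH, PowerSeries.coeff_mk]
      ring
    · rintro (a | b)
      · exact hyq' a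
      · cases b
        · exact hV0
        · exact hUlow 0 (by omega)
    · intro l hl
      rw [hpe z l (by omega), hzU l (by omega), hU, PowerSeries.coeff_mk, if_pos hl]
    · rw [hpe z i (by omega), hzU i (by omega), hU, PowerSeries.coeff_mk, if_neg (lt_irrefl i),
        if_pos rfl]
      exact hyu'
    · ext j
      rcases j with (s | ⟨⟩) | (⟨⟩ | l)
      · simp only [φi, eval_X]
        rfl
      · simp only [φi, eval_X]
        rfl
      · simp only [φi, eval_X]
        change PowerSeries.coeff i U = _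
        rw [hU, PowerSeries.coeff_mk, if_neg (lt_irrefl i), if_pos rfl]
      · simp only [φi]
        split_ifs with h5
        · rw [eval_X]
          change PowerSeries.coeff (k - (l : ℕ)) V = _
          rw [hV1 _ (by omega), dif_pos (by omega)]
          congr 3
          ext
          simp only
          omega
        · rw [eval_X]
          change PowerSeries.coeff ((l : ℕ) + 1) U = _
          rw [hU, PowerSeries.coeff_mk, if_neg (by omega), if_neg (by omega),
            dif_pos (by omega)]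
          congr 3

theorem val_lastP [Fintype ι] (f : MvPolynomial ι ℂ) (q : ι → ℂ) (e k : ℕ) (hk : 1 ≤ k)
    (p : ℕ → MvPolynomial (((ι ⊕ Bool) × Fin (k + 1)) ⊕ Unit) ℂ)
    (hp : ∀ l, (hl : l < k + 1) → p l = X (Sum.inl (Sum.inr true, ⟨l, hl⟩))) :
    μ.val {z | z ∈ jetAt (sus f) (Sum.elim q fun _ => 0) e k ∧ ∀ l < k, eval z (p l) = 0} =
      μ.val (jetAt f q e k) * μ.L ^ (k + 1) := by
  classical
  have hv := μ.val_prod_univ (cons_jetAt f q e k) (Fin (k + 1))
  rw [Fintype.card_fin] at hv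
  rw [← hv]
  have hpe : ∀ z : ((ι ⊕ Bool) × Fin (k + 1)) ⊕ Unit → ℂ, ∀ l, l < k + 1 →
      eval z (p l) = PowerSeries.coeff l (bz true z) := by
    intro z l hl
    rw [hp l hl, eval_X, coeff_bz true z l hl]
  have hzero : ∀ z : ((ι ⊕ Bool) × Fin (k + 1)) ⊕ Unit → ℂ,
      (∀ l < k, eval z (p l) = 0) → z (Sum.inl (Sum.inr false, 0)) = 0 →
      ∀ l ≤ k, PowerSeries.coeff l (bz true z * bz false z) = 0 := by
    intro z hz hz0 l hl
    have h0 : (PowerSeries.X : PowerSeries ℂ) ^ k ∣ bz true z := by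
      rw [PowerSeries.X_pow_dvd_iff]
      intro m hm
      rw [← hpe z m (by omega)]
      exact hz m hm
    have h1 : (PowerSeries.X : PowerSeries ℂ) ∣ bz false z := by
      rw [PowerSeries.X_dvd_iff, ← PowerSeries.coeff_zero_eq_constantCoeff_apply,
        coeff_bz false z 0 (by omega)]
      exact hz0
    have h3 := mul_dvd_mul h0 h1
    rw [← pow_succ] at h3
    exact PowerSeries.X_pow_dvd_iff.1 h3 l (by omega)
  have hmem : ∀ z : ((ι ⊕ Bool) × Fin (k + 1)) ⊕ Unit → ℂ, (∀ l < k, eval z (p l) = 0) →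
      z (Sum.inl (Sum.inr false, 0)) = 0 →
      ∀ l ≤ k, (aeval (jet fun s => z (Sum.inl s)) (sus f) : Polynomial ℂ).coeff l =
        gl k f l (xz z) := by
    intro z hz hz0 l hl
    rw [coeff_sus, hzero z hz hz0 l hl, add_zero]
  refine μ.map _ _ (fun j : ((ι × Fin (k + 1)) ⊕ Unit) ⊕ Fin (k + 1) => match j with
    | Sum.inl (Sum.inl s) => (X (Sum.inl (Sum.inl s.1, s.2)) :
        MvPolynomial (((ι ⊕ Bool) × Fin (k + 1)) ⊕ Unit) ℂ)
    | Sum.inl (Sum.inr _) => X (Sum.inr ())
    | Sum.inr l => if (l : ℕ) = 0 then X (Sum.inl (Sum.inr true, ⟨k, by omega⟩))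
        else X (Sum.inl (Sum.inr false, l))) ?_ ?_ ?_
  · exact Constructible.and (cons_jetAt (sus f) _ e k)
      (Constructible.all_lt k fun l _ => Constructible.zero _)
  · exact Constructible.comap Sum.inl (cons_jetAt f q e k)
  refine ⟨?_, ?_, ?_⟩
  · rintro z ⟨⟨h1, h0⟩, h2⟩
    have hz0 : z (Sum.inl (Sum.inr false, 0)) = 0 := h0 (Sum.inr false)
    simp only [jetSet, Set.mem_ofPred_eq] at h1
    simp only [jetAt, jetSet, Set.mem_ofPred_eq, eval_X]
    obtain ⟨h3, h4, h5⟩ := h1
    rw [hmem z h2 hz0 k le_rfl] at h4 h5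
    refine ⟨⟨?_, h4, h5⟩, fun a => h0 (Sum.inl a)⟩
    intro l hl
    have h6 := h3 l hl
    rw [hmem z h2 hz0 l hl.le] at h6
    exact h6
  · rintro z ⟨⟨h1, h0⟩, h2⟩ z' ⟨⟨h1', h0'⟩, h2'⟩ hzz
    ext j
    rcases j with ⟨(a | (_ | _)), l⟩ | ⟨⟩
    · have h5 := congrFun hzz (Sum.inl (Sum.inl (a, l)))
      simpa only [eval_X] using h5
    · by_cases hl : (l : ℕ) = 0
      · have h6 : l = 0 := Fin.ext hl
        rw [h6]
        exact (h0 (Sum.inr false)).trans (h0' (Sum.inr false)).symm
      · have h5 := congrFun hzz (Sum.inr l)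
        simp only [if_neg hl] at h5
        simpa only [eval_X] using h5
    · by_cases hl : (l : ℕ) < k
      · have h5 := h2 l hl
        have h5' := h2' l hl
        rw [hp l l.2, eval_X] at h5 h5'
        exact h5.trans h5'.symm
      · have h6 : l = ⟨k, by omega⟩ := by
          ext
          have := l.2
          simp only
          omega
        rw [h6]
        have h5 := congrFun hzz (Sum.inr (0 : Fin (k + 1)))
        simp only [Fin.val_zero, if_true] at h5
        simpa only [eval_X] using h5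
    · have h5 := congrFun hzz (Sum.inl (Sum.inr ()))
      simpa only [eval_X] using h5
  · intro y hy
    simp only [jetAt, jetSet, Set.mem_ofPred_eq] at hy
    obtain ⟨⟨h3, h4, h5⟩, h0⟩ := hy
    let z : ((ι ⊕ Bool) × Fin (k + 1)) ⊕ Unit → ℂ := fun j => match j with
      | Sum.inl (Sum.inl a, l) => y (Sum.inl (Sum.inl (a, l)))
      | Sum.inl (Sum.inr true, l) => if (l : ℕ) = k then y (Sum.inr 0) else 0
      | Sum.inl (Sum.inr false, l) => if (l : ℕ) = 0 then 0 else y (Sum.inr l)
      | Sum.inr _ => y (Sum.inl (Sum.inr ()))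
    have h2 : ∀ l < k, eval z (p l) = 0 := by
      intro l hl
      rw [hp l (by omega), eval_X]
      change (if l = k then y (Sum.inr 0) else 0) = 0
      rw [if_neg (by omega)]
    have hz0 : z (Sum.inl (Sum.inr false, 0)) = 0 := rfl
    have hzx : xz z = fun s => y (Sum.inl (Sum.inl s)) := by
      ext s
      rfl
    refine ⟨z, ⟨⟨?_, ?_⟩, h2⟩, ?_⟩
    · simp only [jetSet, Set.mem_ofPred_eq]
      rw [hmem z h2 hz0 k le_rfl, hzx]
      refine ⟨?_, h4, h5⟩
      intro l hl
      rw [hmem z h2 hz0 l hl.le, hzx]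
      exact h3 l hl
    · rintro (a | b)
      · exact h0 a
      · cases b
        · rfl
        · change (if ((0 : Fin (k + 1)) : ℕ) = k then y (Sum.inr 0) else 0) = 0
          rw [if_neg (by simp only [Fin.val_zero]; omega)]
    · ext j
      rcases j with (s | ⟨⟩) | l
      · simp only [eval_X]
        rfl
      · simp only [eval_X]
        rfl
      · simp only
        by_cases hl : (l : ℕ) = 0
        · rw [if_pos hl, eval_X]
          change (if k = k then y (Sum.inr 0) else 0) = _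
          rw [if_pos rfl]
          congr 2
          exact (Fin.ext hl).symm
        · rw [if_neg hl, eval_X]
          change (if (l : ℕ) = 0 then 0 else y (Sum.inr l)) = _
          rw [if_neg hl]

end susjets

/-! ### algebra -/

theorem sum_idP {R : Type} [CommRing R] (c : R) (v : ℕ → R) (hv : v 0 = 0) (k : ℕ) :
    ∑ i ∈ Finset.range k, (c - ∑ m ∈ Finset.range (i + 2), v m) =
      ∑ m ∈ Finset.range (k + 1), ((m : R) - 1) * v m +
        (k : R) * (c - ∑ m ∈ Finset.range (k + 1), v m) := by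
  induction k with
  | zero => simp [hv]
  | succ k ih =>
    rw [Finset.sum_range_succ, ih, Finset.sum_range_succ _ (k + 1),
      Finset.sum_range_succ _ (k + 1)]
    push_cast
    ring

end SZLAux

open SZLAux

theorem stmt_SZL : Stmt_SZL := by
  intro ι _ _ f q R _ μ Li hL hfq e k he hk
  obtain ⟨j, rfl⟩ : ∃ j, k = j + 1 := ⟨k - 1, by omega⟩
  set p : ℕ → MvPolynomial (((ι ⊕ Bool) × Fin (j + 1 + 1)) ⊕ Unit) ℂ :=
    fun l => if h : l < j + 1 + 1 then X (Sum.inl (Sum.inr true, ⟨l, h⟩)) else 0 with hpdef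
  have hp : ∀ l, (hl : l < j + 1 + 1) → p l = X (Sum.inl (Sum.inr true, ⟨l, hl⟩)) := by
    intro l hl
    simp only [hpdef, dif_pos hl]
  have ht := tele μ (jetAt (sus f) (Sum.elim q fun _ => 0) e (j + 1))
    (cons_jetAt (sus f) _ e (j + 1)) p (j + 1)
  have hz : μ.val {z | (z ∈ jetAt (sus f) (Sum.elim q fun _ => 0) e (j + 1) ∧
      ∀ l < 0, eval z (p l) = 0) ∧ eval z (p 0) ≠ 0} = 0 := by
    have h1 : {z | (z ∈ jetAt (sus f) (Sum.elim q fun _ => 0) e (j + 1) ∧
      ∀ l < 0, eval z (p l) = 0) ∧ eval z (p 0) ≠ 0} = ∅ := by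
      rw [Set.eq_empty_iff_forall_notMem]
      rintro z ⟨⟨h1, -⟩, h2⟩
      apply h2
      rw [hp 0 (by omega), eval_X]
      exact h1.2 (Sum.inr true)
    rw [h1, μ.val_empty]
  rw [val_lastP μ f q e (j + 1) hk _ hp, Finset.sum_range_succ', hz, add_zero,
    Finset.sum_congr rfl fun i hi => val_partP μ f q e (j + 1) (i + 1) he (by omega)
      (by have := Finset.mem_range.1 hi; omega) _ hp] at ht
  have h1 : ∀ i ∈ Finset.range j,
      (μ.val (AgP (j + 1) f q (i + 1 + 1)) * (μ.L - 1)) * ((μ.L - 1) * μ.L ^ (j + 1)) =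
        (μ.L ^ ((j + 1 + 1) * Fintype.card ι) * (μ.L - 1) * ((μ.L - 1) * μ.L ^ (j + 1))) *
          (Li ^ Fintype.card ι - ∑ m ∈ Finset.range (i + 2), vkA μ Li f q 1 m) := by
    intro i hi
    rw [val_AgP μ Li hL f q (j + 1) (i + 1 + 1) (by have := Finset.mem_range.1 hi; omega)]
    ring
  have hv0 : vkA μ Li f q 1 0 = 0 := by
    have h2 : jetAt f q 1 0 = ∅ := by
      rw [Set.eq_empty_iff_forall_notMem]
      rintro z ⟨⟨-, h2, -⟩, h3⟩
      apply h2
      have h4 : jet (fun s => z (Sum.inl s)) = fun i => Polynomial.C (q i) := by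
        funext i
        rw [← h3 i]
        simp [jet]
      rw [h4]
      have h5 : (aeval (fun i => Polynomial.C (q i)) f : Polynomial ℂ) =
          Polynomial.C (eval q f) := by
        have h6 := MvPolynomial.aeval_algebraMap_apply (Polynomial ℂ) q f
        rw [Polynomial.algebraMap_eq] at h6
        exact h6
      rw [h5, hfq, map_zero, Polynomial.coeff_zero]
    rw [vkA, h2, μ.val_empty, zero_mul]
  rw [Finset.sum_congr rfl h1, ← Finset.mul_sum, sum_idP _ _ hv0] at ht
  rw [vkA, ht]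
  have hcard : Fintype.card (ι ⊕ Bool) = Fintype.card ι + 2 := by
    rw [Fintype.card_sum, Fintype.card_bool]
  rw [hcard]
  have hcast : ((j + 1 : ℕ) : R) - 1 = (j : R) := by
    push_cast
    ring
  rw [hcast]
  set S := ∑ m ∈ Finset.range (j + 1), ((m : R) - 1) * vkA μ Li f q 1 m +
        (j : R) * (Li ^ Fintype.card ι - ∑ m ∈ Finset.range (j + 1), vkA μ Li f q 1 m) with hS
  rw [vkA]
  set n := Fintype.card ι with hn
  set k := j + 1 with hkj
  have e1 : μ.L ^ ((k + 1) * n) * Li ^ ((k + 1) * n) = 1 := by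
    rw [← mul_pow, hL, one_pow]
  have e2 : μ.L ^ k * Li ^ k = 1 := by
    rw [← mul_pow, hL, one_pow]
  have e3 : Li ^ ((k + 1) * (n + 2)) = Li ^ ((k + 1) * n) * (Li ^ (k + 1) * (Li ^ k * Li)) := by
    rw [← pow_succ, ← pow_add, ← pow_add]
    congr 1
    ring
  have e4 : μ.L ^ (k + 1) * (Li ^ k * Li) = 1 := by
    rw [← pow_succ, ← mul_pow, hL, one_pow]
  rw [e3]
  have e5 : μ.L ^ ((k + 1) * n) * (μ.L - 1) * ((μ.L - 1) * μ.L ^ k) * S *
      (Li ^ ((k + 1) * n) * (Li ^ (k + 1) * (Li ^ k * Li))) =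
      Li ^ (k + 1) * ((μ.L - 1) * (1 - Li) * S) := by
    calc _ = (μ.L ^ ((k + 1) * n) * Li ^ ((k + 1) * n)) * (μ.L ^ k * Li ^ k) *
          (Li ^ (k + 1) * ((μ.L - 1) * ((μ.L * Li) - Li) * S)) := by ring
      _ = _ := by rw [e1, e2, hL]; ring
  have e6 : μ.val (jetAt f q e k) * μ.L ^ (k + 1) *
      (Li ^ ((k + 1) * n) * (Li ^ (k + 1) * (Li ^ k * Li))) =
      Li ^ (k + 1) * (μ.val (jetAt f q e k) * Li ^ ((k + 1) * n)) := by
    calc _ = (μ.L ^ (k + 1) * (Li ^ k * Li)) *
          (Li ^ (k + 1) * (μ.val (jetAt f q e k) * Li ^ ((k + 1) * n))) := by ring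
      _ = _ := by rw [e4, one_mul]
  rw [add_mul, e5, e6]
  ring

end Pool.Agent.Mono.LO
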