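import Pool.Agent.Work.Monodromy.InterfaceL

/-! # Phase L, block TORL (helper96): toric points with `x = 0` -/

set_option autoImplicit false

namespace Pool.Agent.Mono.LO

open NP Finset

namespace TORLAux

variable {ι κ : Type} [Fintype ι] [DecidableEq ι] [Fintype κ] [DecidableEq κ]

theorem clear_den {σ : Type} [Fintype σ] (c : σ → ℚ) (hc : ∀ k, 0 ≤ c k) :
    ∃ N : ℕ, 1 ≤ N ∧ ∃ m : σ → ℕ, ∀ k, (m k : ℚ) = N * c k := by
  classical
  refine ⟨∏ k, (c k).den, Finset.prod_pos fun k _ => (c k).pos,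
    fun k => (∏ j ∈ Finset.univ.erase k, (c j).den) * (c k).num.toNat, fun k => ?_⟩
  rw [← Finset.mul_prod_erase Finset.univ (fun k => (c k).den) (Finset.mem_univ k)]
  have h1 : (((c k).num.toNat : ℕ) : ℚ) = (c k).num := by
    have : (((c k).num.toNat : ℕ) : ℤ) = (c k).num :=
      Int.toNat_of_nonneg (Rat.num_nonneg.2 (hc k))
    exact_mod_cast this
  have h2 : ((c k).den : ℚ) * c k = (c k).num := Rat.den_mul_eq_num (c k)
  push_cast
  rw [h1, ← h2]
  push_cast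
  ring

/-- the vectors `ŵ_v`, `ê_i` and `-ŵ_v`, `v ∈ F` -/
def W (w : κ → ι → ℕ) (F : Finset κ) : (κ ⊕ ι) ⊕ κ → ι ⊕ Unit → ℤ :=
  Sum.elim (Sum.elim (fun v => Sum.elim (fun i => (w v i : ℤ)) fun _ => 1)
    (fun i => Sum.elim (Pi.single i 1) fun _ => 0))
    (fun v => if v ∈ F then Sum.elim (fun i => -(w v i : ℤ)) fun _ => -1 else 0)

theorem not_cone (w : κ → ι → ℕ) (t : κ → ℂ) (F : Finset κ) (hF : ∀ v, v ∈ F ↔ t v ≠ 0)
    (ht : ∀ (m m' : κ → ℕ) (γ γ' : ι → ℕ), ∑ v, m v = ∑ v, m' v →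
      (∀ i, ∑ v, m v * w v i + γ i = ∑ v, m' v * w v i + γ' i) →
      (∏ v, t v ^ m v) * ∏ i, (0 : ℂ) ^ γ i = (∏ v, t v ^ m' v) * ∏ i, (0 : ℂ) ^ γ' i)
    (p : κ → ℕ) (q : ι → ℕ) (hpq : (∃ v, v ∉ F ∧ 1 ≤ p v) ∨ ∃ i, 1 ≤ q i)
    (c : (κ ⊕ ι) ⊕ κ → ℚ) (hc0 : ∀ k, 0 ≤ c k)
    (h1 : ∀ i, -((∑ v, (p v : ℚ) * w v i) + q i) = ∑ k, c k * (W w F k (Sum.inl i) : ℚ))
    (h2 : -∑ v, (p v : ℚ) = ∑ k, c k * (W w F k (Sum.inr ()) : ℚ)) : False := by
  obtain ⟨N, hN, m, hm⟩ := clear_den c hc0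
  have e1 : ∀ i, ((∑ v, (N * p v + m (Sum.inl (Sum.inl v))) * w v i +
      (N * q i + m (Sum.inl (Sum.inr i))) : ℕ) : ℚ) =
      ((∑ v, (if v ∈ F then m (Sum.inr v) else 0) * w v i + 0 : ℕ) : ℚ) := by
    intro i
    have h := h1 i
    rw [Fintype.sum_sum_type, Fintype.sum_sum_type] at h
    simp only [W, Sum.elim_inl, Sum.elim_inr] at h
    have h3 : ∑ x : ι, c (Sum.inl (Sum.inr x)) * ((Pi.single x 1 : ι → ℤ) i : ℚ) =
        c (Sum.inl (Sum.inr i)) := by
      rw [Finset.sum_eq_single i]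
      · simp
      · intro b _ hb
        rw [Pi.single_apply, if_neg (Ne.symm hb)]
        simp
      · intro h; exact absurd (Finset.mem_univ _) h
    rw [h3] at h
    have h4 : ∑ v, c (Sum.inr v) * (((if v ∈ F then Sum.elim (fun i => -(w v i : ℤ))
        (fun _ => -1) else 0 : ι ⊕ Unit → ℤ) (Sum.inl i) : ℤ) : ℚ) =
        -∑ v, (if v ∈ F then c (Sum.inr v) else 0) * (w v i : ℚ) := by
      rw [← Finset.sum_neg_distrib]
      apply Finset.sum_congr rfl
      intro v _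
      split_ifs
      · simp only [Sum.elim_inl]
        push_cast
        ring
      · simp
    rw [h4] at h
    have h5 : (N : ℚ) * ∑ v, (if v ∈ F then c (Sum.inr v) else 0) * (w v i : ℚ) =
        ∑ v, (if v ∈ F then (m (Sum.inr v) : ℚ) else 0) * (w v i : ℚ) := by
      rw [Finset.mul_sum]
      apply Finset.sum_congr rfl
      intro v _
      split_ifs
      · rw [hm]; ring
      · ring
    have h6 : ∑ v, ((N : ℚ) * p v + m (Sum.inl (Sum.inl v))) * w v i =
        N * (∑ v, (p v : ℚ) * w v i) + N * ∑ v, c (Sum.inl (Sum.inl v)) * (w v i : ℚ) := by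
      rw [Finset.mul_sum, Finset.mul_sum, ← Finset.sum_add_distrib]
      apply Finset.sum_congr rfl
      intro v _
      rw [hm]; ring
    push_cast
    rw [h6, add_zero, ← h5, hm]
    push_cast at h
    linear_combination (-(N : ℚ)) * h
  have e2 : ((∑ v, (N * p v + m (Sum.inl (Sum.inl v))) : ℕ) : ℚ) =
      ((∑ v, (if v ∈ F then m (Sum.inr v) else 0) : ℕ) : ℚ) := by
    have h := h2
    rw [Fintype.sum_sum_type, Fintype.sum_sum_type] at h
    simp only [W, Sum.elim_inl, Sum.elim_inr] at h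
    have h4 : ∑ v, c (Sum.inr v) * (((if v ∈ F then Sum.elim (fun i => -(w v i : ℤ))
        (fun _ => -1) else 0 : ι ⊕ Unit → ℤ) (Sum.inr ()) : ℤ) : ℚ) =
        -∑ v, (if v ∈ F then c (Sum.inr v) else 0) := by
      rw [← Finset.sum_neg_distrib]
      apply Finset.sum_congr rfl
      intro v _
      split_ifs
      · simp only [Sum.elim_inr]
        push_cast
        ring
      · simp
    rw [h4] at h
    have h5 : (N : ℚ) * ∑ v, (if v ∈ F then c (Sum.inr v) else 0) =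
        ∑ v, (if v ∈ F then (m (Sum.inr v) : ℚ) else 0) := by
      rw [Finset.mul_sum]
      apply Finset.sum_congr rfl
      intro v _
      split_ifs
      · rw [hm]
      · ring
    have h6 : ∑ v, ((N : ℚ) * p v + m (Sum.inl (Sum.inl v))) =
        N * (∑ v, (p v : ℚ)) + N * ∑ v, c (Sum.inl (Sum.inl v)) := by
      rw [Finset.mul_sum, Finset.mul_sum, ← Finset.sum_add_distrib]
      apply Finset.sum_congr rfl
      intro v _
      rw [hm]
    push_cast
    rw [h6, ← h5]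
    push_cast at h
    simp only [mul_one, mul_zero, Finset.sum_const_zero, add_zero] at h
    linear_combination (-(N : ℚ)) * h
  have e3 := ht (fun v => N * p v + m (Sum.inl (Sum.inl v)))
    (fun v => if v ∈ F then m (Sum.inr v) else 0) (fun i => N * q i + m (Sum.inl (Sum.inr i)))
    (fun _ => 0) (by exact_mod_cast e2) (fun i => by exact_mod_cast e1 i)
  have e4 : (∏ v, t v ^ (if v ∈ F then m (Sum.inr v) else 0)) * ∏ _i : ι, (0 : ℂ) ^ 0 ≠ 0 := by
    apply mul_ne_zero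
    · rw [Finset.prod_ne_zero_iff]
      intro v _
      split_ifs with hv
      · exact pow_ne_zero _ ((hF v).1 hv)
      · simp
    · simp
  apply e4
  rw [← e3]
  rcases hpq with ⟨v, hv, hp⟩ | ⟨i, hi⟩
  · have htv : t v = 0 := by
      by_contra h
      exact hv ((hF v).2 h)
    have : ∏ v, t v ^ (N * p v + m (Sum.inl (Sum.inl v))) = 0 := by
      apply Finset.prod_eq_zero (Finset.mem_univ v)
      rw [htv, zero_pow]
      have : 1 ≤ N * p v := Nat.mul_pos hN hp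
      omega
    rw [this, zero_mul]
  · have : ∏ i, (0 : ℂ) ^ (N * q i + m (Sum.inl (Sum.inr i))) = 0 := by
      apply Finset.prod_eq_zero (Finset.mem_univ i)
      rw [zero_pow]
      have : 1 ≤ N * q i := Nat.mul_pos hN hi
      omega
    rw [this, mul_zero]

end TORLAux

open TORLAux in
theorem stmt_TORL (hTOR : NP.Stmt_TOR) (hMW : NP.Stmt_MW) : Stmt_TORL := by
  classical
  intro ι κ _ _ _ _ w t ht hne
  set F : Finset κ := univ.filter fun v => t v ≠ 0 with hFdef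
  have hF : ∀ v, v ∈ F ↔ t v ≠ 0 := fun v => by rw [hFdef, mem_filter]; simp
  obtain ⟨_, x, c, hx, hc, hxc⟩ := hTOR ι κ w t (by
    intro m m' h1 h2
    have := ht m m' (fun _ => 0) (fun _ => 0) h1 (fun i => by simpa using h2 i)
    simpa using this) F hF
  obtain ⟨L, hL1, hL2⟩ := hMW (ι ⊕ Unit) ((κ ⊕ ι) ⊕ κ) (W w F)
  -- the evaluations
  have hev1 : ∀ l ∈ L, ∀ v, 0 ≤ ∑ i, l (Sum.inl i) * (w v i : ℤ) + l (Sum.inr ()) := by
    intro l hl v
    have := hL1 l hl (Sum.inl (Sum.inl v))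
    rw [Fintype.sum_sum_type] at this
    simpa [W] using this
  have hev2 : ∀ l ∈ L, ∀ i, 0 ≤ l (Sum.inl i) := by
    intro l hl i
    have := hL1 l hl (Sum.inl (Sum.inr i))
    rw [Fintype.sum_sum_type] at this
    simpa [W, Pi.single_apply] using this
  have hev3 : ∀ l ∈ L, ∀ v ∈ F, ∑ i, l (Sum.inl i) * (w v i : ℤ) + l (Sum.inr ()) = 0 := by
    intro l hl v hv
    have h1 := hL1 l hl (Sum.inr v)
    rw [Fintype.sum_sum_type] at h1
    simp only [W, Sum.elim_inr, if_pos hv, Sum.elim_inl, mul_neg, Finset.sum_neg_distrib,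
      Finset.univ_unique, Finset.sum_singleton, mul_one] at h1
    have h2 := hev1 l hl v
    have h3 : l (Sum.inr default) = l (Sum.inr ()) := rfl
    rw [h3] at h1
    linarith
  -- the sum
  have key : ∀ (p : κ → ℕ) (q : ι → ℕ), ((∃ v, v ∉ F ∧ 1 ≤ p v) ∨ ∃ i, 1 ≤ q i) →
      ∃ l ∈ L, 1 ≤ ∑ v, (p v : ℤ) * (∑ i, l (Sum.inl i) * (w v i : ℤ) + l (Sum.inr ())) +
        ∑ i, (q i : ℤ) * l (Sum.inl i) := by
    intro p q hpq
    by_contra hcon
    push Not at hcon
    obtain ⟨c', hc0, hc'⟩ := hL2 (Sum.elim (fun i => -((∑ v, (p v : ℚ) * w v i) + q i))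
      fun _ => -∑ v, (p v : ℚ)) (by
      intro l hl
      have h1 := hcon l hl
      have h2 : ∑ v, (p v : ℤ) * (∑ i, l (Sum.inl i) * (w v i : ℤ) + l (Sum.inr ())) +
        ∑ i, (q i : ℤ) * l (Sum.inl i) ≤ 0 := by omega
      have h3 : ((∑ v, (p v : ℤ) * (∑ i, l (Sum.inl i) * (w v i : ℤ) + l (Sum.inr ())) +
        ∑ i, (q i : ℤ) * l (Sum.inl i) : ℤ) : ℚ) ≤ 0 := by exact_mod_cast h2
      rw [Fintype.sum_sum_type]
      simp only [Sum.elim_inl, Sum.elim_inr, Finset.univ_unique, Finset.sum_singleton]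
      have h4 : l (Sum.inr default) = l (Sum.inr ()) := rfl
      rw [h4]
      have h5 : ∑ i, (l (Sum.inl i) : ℚ) * -((∑ v, (p v : ℚ) * w v i) + q i) +
          (l (Sum.inr ()) : ℚ) * -∑ v, (p v : ℚ) =
          -((∑ v, (p v : ℤ) * (∑ i, l (Sum.inl i) * (w v i : ℤ) + l (Sum.inr ())) +
        ∑ i, (q i : ℤ) * l (Sum.inl i) : ℤ) : ℚ) := by
        push_cast
        simp only [mul_add, mul_neg, Finset.sum_add_distrib, Finset.sum_neg_distrib, neg_add,
          Finset.mul_sum]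
        rw [Finset.sum_comm (s := (Finset.univ : Finset ι))]
        have e1 : ∀ v ∈ (Finset.univ : Finset κ), ∀ i ∈ (Finset.univ : Finset ι),
            (l (Sum.inl i) : ℚ) * ((p v : ℚ) * (w v i : ℚ)) =
              (p v : ℚ) * ((l (Sum.inl i) : ℚ) * (w v i : ℚ)) := by
          intros; ring
        rw [Finset.sum_congr rfl fun v hv => Finset.sum_congr rfl (e1 v hv)]
        have e2 : ∑ i, (l (Sum.inl i) : ℚ) * (q i : ℚ) = ∑ i, (q i : ℚ) * (l (Sum.inl i) : ℚ) :=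
          Finset.sum_congr rfl fun _ _ => mul_comm _ _
        have e3 : ∑ v, (l (Sum.inr ()) : ℚ) * (p v : ℚ) =
            ∑ v, (p v : ℚ) * (l (Sum.inr ()) : ℚ) :=
          Finset.sum_congr rfl fun _ _ => mul_comm _ _
        rw [e2, e3]
        ring
      rw [h5]
      linarith)
    exact not_cone w t F hF ht p q hpq c' hc0 (fun i => by simpa using hc' (Sum.inl i))
      (by simpa using hc' (Sum.inr ()))
  have hρ : ∀ i, 1 ≤ ∑ l ∈ L, l (Sum.inl i) := by
    intro i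
    obtain ⟨l, hl, h⟩ := key (fun _ => 0) (Pi.single i 1) (Or.inr ⟨i, by simp⟩)
    have h1 : ∑ j, ((Pi.single i 1 : ι → ℕ) j : ℤ) * l (Sum.inl j) = l (Sum.inl i) := by
      rw [Finset.sum_eq_single i]
      · simp
      · intro b _ hb
        rw [Pi.single_apply, if_neg hb]
        simp
      · intro h; exact absurd (Finset.mem_univ _) h
    rw [h1] at h
    simp only [Nat.cast_zero, zero_mul, Finset.sum_const_zero, zero_add] at h
    exact h.trans (Finset.single_le_sum (f := fun l : ι ⊕ Unit → ℤ => l (Sum.inl i))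
      (fun l hl => hev2 l hl i) hl)
  have hkw : ∀ v, ((∑ i, (∑ l ∈ L, l (Sum.inl i)).toNat * w v i : ℕ) : ℤ) +
      ∑ l ∈ L, l (Sum.inr ()) =
      ∑ l ∈ L, (∑ i, l (Sum.inl i) * (w v i : ℤ) + l (Sum.inr ())) := by
    intro v
    rw [Finset.sum_add_distrib, Finset.sum_comm]
    congr 1
    push_cast
    apply Finset.sum_congr rfl
    intro i _
    rw [← Finset.sum_mul]
    congr 1
    have := hρ i
    omega
  have h0 : ∀ v, 0 ≤ ∑ l ∈ L, (∑ i, l (Sum.inl i) * (w v i : ℤ) + l (Sum.inr ())) :=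
    fun v => Finset.sum_nonneg fun l hl => hev1 l hl v
  have h1 : ∀ v ∈ F, ∑ l ∈ L, (∑ i, l (Sum.inl i) * (w v i : ℤ) + l (Sum.inr ())) = 0 :=
    fun v hv => Finset.sum_eq_zero fun l hl => hev3 l hl v hv
  have h2 : ∀ v, v ∉ F →
      1 ≤ ∑ l ∈ L, (∑ i, l (Sum.inl i) * (w v i : ℤ) + l (Sum.inr ())) := by
    intro v hv
    obtain ⟨l, hl, h⟩ := key (Pi.single v 1) (fun _ => 0) (Or.inl ⟨v, hv, by simp⟩)
    have h1 : ∑ u, ((Pi.single v 1 : κ → ℕ) u : ℤ) *
        (∑ i, l (Sum.inl i) * (w u i : ℤ) + l (Sum.inr ())) =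
        ∑ i, l (Sum.inl i) * (w v i : ℤ) + l (Sum.inr ()) := by
      rw [Finset.sum_eq_single v]
      · simp
      · intro b _ hb
        rw [Pi.single_apply, if_neg hb]
        simp
      · intro h; exact absurd (Finset.mem_univ _) h
    rw [h1] at h
    simp only [Nat.cast_zero, zero_mul, Finset.sum_const_zero, add_zero] at h
    exact h.trans (Finset.single_le_sum
      (f := fun l : ι ⊕ Unit → ℤ => ∑ i, l (Sum.inl i) * (w v i : ℤ) + l (Sum.inr ()))
      (fun l hl => hev1 l hl v) hl)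
  obtain ⟨v₀, hv₀⟩ := hne
  have hfc : ∀ v, v ∈ fc w (fun i => (∑ l ∈ L, l (Sum.inl i)).toNat) ↔ t v ≠ 0 := by
    intro v
    rw [← hF, fc, mem_filter]
    constructor
    · rintro ⟨_, h⟩
      by_contra hv
      have e1 := h v₀
      change ∑ i, (∑ l ∈ L, l (Sum.inl i)).toNat * w v i ≤
        ∑ i, (∑ l ∈ L, l (Sum.inl i)).toNat * w v₀ i at e1
      have e2 := hkw v
      have e3 := hkw v₀
      rw [h1 v₀ ((hF v₀).2 hv₀)] at e3
      have e4 := h2 v hv
      omega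
    · intro hv
      refine ⟨mem_univ _, fun b => ?_⟩
      change ∑ i, (∑ l ∈ L, l (Sum.inl i)).toNat * w v i ≤
        ∑ i, (∑ l ∈ L, l (Sum.inl i)).toNat * w b i
      have e2 := hkw v
      have e3 := hkw b
      rw [h1 v hv] at e2
      have e4 := h0 b
      omega
  refine ⟨fun i => (∑ l ∈ L, l (Sum.inl i)).toNat, x, c, fun i => ?_, hx, hc, hfc,
    fun v hv => hxc v ((hF v).2 ((hfc v).1 hv))⟩
  have := hρ i
  show 1 ≤ (∑ l ∈ L, l (Sum.inl i)).toNat
  omega

end Pool.Agent.Mono.LO
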