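import Pool.Agent.Work.Monodromy.InterfaceL
import Pool.Agent.Work.Monodromy9.CTV9
import Pool.Agent.Work.Monodromy4.VA

/-!
# Block TRJ: local jets in formal coordinates (helper31)
-/

set_option autoImplicit false
set_option linter.unusedSectionVars false

namespace Pool.Agent.Mono.LO

open MvPolynomial

namespace TRJAux

open TS RO SP PC C9

section

variable {ι : Type} [Fintype ι] [DecidableEq ι]

theorem eqm_refl (K : ℕ) (g : MvPowerSeries ι ℂ) : Eqm K g g := fun _ _ => rfl

theorem eqm_add {K : ℕ} {g g' h h' : MvPowerSeries ι ℂ} (h1 : Eqm K g g') (h2 : Eqm K h h') :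
    Eqm K (g + h) (g' + h') := by
  intro m hm
  rw [map_add, map_add, h1 m hm, h2 m hm]

theorem eqm_mul {K : ℕ} {g g' h h' : MvPowerSeries ι ℂ} (h1 : Eqm K g g') (h2 : Eqm K h h') :
    Eqm K (g * h) (g' * h') := by
  intro m hm
  rw [MvPowerSeries.coeff_mul, MvPowerSeries.coeff_mul]
  refine Finset.sum_congr rfl fun q hq => ?_
  rw [Finset.HasAntidiagonal.mem_antidiagonal] at hq
  have h3 : q.1.degree + q.2.degree = m.degree := by rw [← hq, map_add]
  rw [h1 q.1 (by omega), h2 q.2 (by omega)]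

theorem eqm_aeval {K : ℕ} {φ ψ : ι → MvPowerSeries ι ℂ} (h : ∀ i, Eqm K (φ i) (ψ i))
    (f : MvPolynomial ι ℂ) : Eqm K (aeval φ f) (aeval ψ f) := by
  induction f using MvPolynomial.induction_on with
  | C a =>
    rw [aeval_C, aeval_C]
    exact eqm_refl K _
  | add p q hp hq =>
    rw [map_add, map_add]
    exact eqm_add hp hq
  | mul_X p i hp =>
    rw [map_mul, map_mul, aeval_X, aeval_X]
    exact eqm_mul hp (h i)

theorem coe_bind (ψ : ι → MvPolynomial ι ℂ) (f : MvPolynomial ι ℂ) :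
    (aeval (fun i => (ψ i : MvPowerSeries ι ℂ)) f : MvPowerSeries ι ℂ) =
      (bind₁ ψ f : MvPolynomial ι ℂ) := by
  induction f using MvPolynomial.induction_on with
  | C a =>
    rw [aeval_C, bind₁_C_right, MvPolynomial.coe_C]
    rfl
  | add p q hp hq =>
    rw [map_add, map_add, hp, hq, MvPolynomial.coe_add]
  | mul_X p i hp =>
    rw [map_mul, map_mul, hp, aeval_X, bind₁_X_right, MvPolynomial.coe_mul]

/-- the terms of degree at most `K` -/
noncomputable def tr (K : ℕ) (g : MvPowerSeries ι ℂ) : MvPolynomial ι ℂ :=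
  ∑ e : ι → Fin (K + 1), if ∑ i, (e i : ℕ) ≤ K then
    monomial (Finsupp.equivFunOnFinite.symm fun i => (e i : ℕ))
      (MvPowerSeries.coeff (Finsupp.equivFunOnFinite.symm fun i => (e i : ℕ)) g) else 0

theorem coeff_tr (K : ℕ) (g : MvPowerSeries ι ℂ) (m : ι →₀ ℕ) (hm : m.degree ≤ K) :
    MvPolynomial.coeff m (tr K g) = MvPowerSeries.coeff m g := by
  have hm' : ∑ i, m i ≤ K := by
    have : m.degree = ∑ i, m i := by
      rw [Finsupp.degree_eq_sum]
    omega
  have hmi : ∀ i, m i < K + 1 := fun i => by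
    have := Finset.single_le_sum (f := fun i => m i) (fun j _ => Nat.zero_le _)
      (Finset.mem_univ i)
    omega
  rw [tr, MvPolynomial.coeff_sum]
  rw [Finset.sum_eq_single (fun i => (⟨m i, hmi i⟩ : Fin (K + 1)))]
  · have h1 : (Finsupp.equivFunOnFinite.symm fun i => m i) = m := by
      ext i
      simp
    rw [if_pos (by exact hm')]
    simp only [h1]
    rw [MvPolynomial.coeff_monomial, if_pos rfl]
  · intro e _ he
    split_ifs with h
    · rw [MvPolynomial.coeff_monomial, if_neg]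
      intro h2
      apply he
      funext i
      apply Fin.ext
      have := DFunLike.congr_fun h2 i
      simpa using this
    · exact MvPolynomial.coeff_zero _
  · intro h
    exact absurd (Finset.mem_univ _) h

theorem eqm_tr (K : ℕ) (g : MvPowerSeries ι ℂ) : Eqm K g (tr K g : MvPowerSeries ι ℂ) := by
  intro m hm
  rw [MvPolynomial.coeff_coe, coeff_tr K g m hm]

/-- a polynomial without terms of degree at most `K` has order at least `K + 1` on arcs which
start at the origin -/
theorem dvd_of_coeff (K : ℕ) (g : MvPolynomial ι ℂ)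
    (hg : ∀ m : ι →₀ ℕ, m.degree ≤ K → MvPolynomial.coeff m g = 0) (y : ι → PowerSeries ℂ)
    (hy : ∀ a, PowerSeries.coeff 0 (y a) = 0) :
    (PowerSeries.X : PowerSeries ℂ) ^ (K + 1) ∣ aeval y g := by
  have h1 : aeval y g = ∑ m ∈ g.support, aeval y (monomial m (MvPolynomial.coeff m g)) := by
    conv_lhs => rw [MvPolynomial.as_sum g]
    rw [map_sum]
  rw [h1]
  refine Finset.dvd_sum fun m hm => ?_
  rw [aeval_monomial]
  refine Dvd.dvd.mul_left ?_ _
  have hd : K + 1 ≤ m.degree := by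
    by_contra hc
    exact (MvPolynomial.mem_support_iff.1 hm) (hg m (by omega))
  refine dvd_trans (pow_dvd_pow _ hd) ?_
  rw [Finsupp.degree_eq_sum, ← Finset.prod_pow_eq_pow_sum, Finsupp.prod_fintype _ _
    (fun i => pow_zero _)]
  refine Finset.prod_dvd_prod_of_dvd _ _ fun i _ => pow_dvd_pow_of_dvd ?_ _
  rw [PowerSeries.X_dvd_iff, ← PowerSeries.coeff_zero_eq_constantCoeff_apply]
  exact hy i

end

theorem toRat_inj : Function.Injective toRat := by
  have h1 : Function.Injective (algebraMap (Polynomial ℚ) (RatFunc ℚ)) :=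
    IsFractionRing.injective _ _
  have h2 : Function.Injective (Polynomial.mapRingHom (Int.castRingHom ℚ)) :=
    Polynomial.map_injective _ Int.cast_injective
  exact h1.comp h2

end TRJAux

open TRJAux TS RO SP PC C9 C9.CTV9Aux SP.POL8Aux in
theorem stmt_TRJ (hV : Stmt_VOLL) : Stmt_TRJ := by
  classical
  intro P ι _ _ f p φ G K d hφ hG
  set ψ : ι → MvPolynomial ι ℂ := fun i => tr (K + 1) (φ i) with hψ
  have hψc : ∀ i, Eqm (K + 1) (φ i) (ψ i : MvPowerSeries ι ℂ) := fun i => eqm_tr (K + 1) (φ i)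
  -- the truncations are coordinates
  have hc0 : ∀ g : MvPolynomial ι ℂ, eval (fun _ => (0 : ℂ)) g = MvPolynomial.coeff 0 g := by
    intro g
    have := MvPolynomial.eval_zero' (σ := ι) (R := ℂ)
    rw [← MvPolynomial.constantCoeff_eq, ← this]
  have hco1 : ∀ a, eval (fun _ => 0) (ψ a) = p a := by
    intro a
    rw [hc0, hψ]
    simp only
    rw [coeff_tr _ _ _ (by simp), ← hφ.1 a, MvPowerSeries.coeff_zero_eq_constantCoeff_apply]
  have hco2 : (Matrix.of fun a b => eval (fun _ => (0 : ℂ)) (pderiv b (ψ a))).det ≠ 0 := by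
    have h1 : (Matrix.of fun a b => eval (fun _ => (0 : ℂ)) (pderiv b (ψ a))) =
        Matrix.of fun i j => MvPowerSeries.constantCoeff (MvPowerSeries.pderiv ℂ j (φ i)) := by
      ext a b
      simp only [Matrix.of_apply]
      rw [hc0, ← MvPolynomial.coeff_coe, ← MvPowerSeries.pderiv_coe,
        ← MvPowerSeries.coeff_zero_eq_constantCoeff_apply, MvPowerSeries.coeff_pderiv,
        MvPowerSeries.coeff_pderiv, hψc a _ (by simp)]
    rw [h1]
    exact hφ.2
  -- the composite
  have hcomp : ∀ m : ι →₀ ℕ, m.degree ≤ K → MvPolynomial.coeff m (bind₁ ψ f - G) = 0 := by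
    intro m hm
    have h1 : Eqm K (aeval φ f) (aeval (fun i => (ψ i : MvPowerSeries ι ℂ)) f) :=
      eqm_aeval (fun i m hm => hψc i m (by omega)) f
    have h2 : (aeval (fun i => (ψ i : MvPowerSeries ι ℂ)) f : MvPowerSeries ι ℂ) =
        (bind₁ ψ f : MvPolynomial ι ℂ) := by
      exact coe_bind ψ f
    rw [MvPolynomial.coeff_sub, ← MvPolynomial.coeff_coe, ← MvPolynomial.coeff_coe, ← h2,
      ← h1 m hm, hG m hm, sub_self]
  -- the volumes
  have hvol : vol P.rat xq (ZL f {p} (QE d) K) = vol P.rat xq (ZL G {fun _ => 0} (QE d) K) := by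
    obtain ⟨N, hN⟩ := SP.SQV8Aux.cy_lead (E := Bool) f (QU_QE d).1 K
    have h1 := stmt_CVSQ P ι p ψ hco1 hco2 Bool _ (max N 1) (le_max_right _ _)
      (hN _ (le_max_left _ _))
    have e1 : ZL f {p} (QE d) K = {z : (Bool → ℂ) × (ι → PowerSeries ℂ) |
        (∀ a, PowerSeries.coeff 0 (z.2 a) = p a) ∧
        z ∈ {z : (Bool → ℂ) × (ι → PowerSeries ℂ) | Lead (QE d) K z.1 (aeval z.2 f)}} := by
      ext z
      constructor
      · rintro ⟨h1, h2⟩
        exact ⟨fun a => congrFun h1 a, h2⟩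
      · rintro ⟨h1, h2⟩
        exact ⟨funext h1, h2⟩
    have e2 : {z : (Bool → ℂ) × (ι → PowerSeries ℂ) | (∀ a, PowerSeries.coeff 0 (z.2 a) = 0) ∧
        (z.1, fun a => aeval z.2 (ψ a)) ∈
          {z : (Bool → ℂ) × (ι → PowerSeries ℂ) | Lead (QE d) K z.1 (aeval z.2 f)}} =
        ZL G {fun _ => 0} (QE d) K := by
      ext z
      have key : (∀ a, PowerSeries.coeff 0 (z.2 a) = 0) →
          (Lead (QE d) K z.1 (aeval (fun a => aeval z.2 (ψ a)) f) ↔
            Lead (QE d) K z.1 (aeval z.2 G)) := by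
        intro h0
        refine lead_unit (QE d) K z.1 _ 1 _ (map_one _) ?_
        have h2 := dvd_of_coeff K _ hcomp z.2 h0
        rw [map_sub, aeval_bind₁] at h2
        rw [one_mul]
        exact h2
      constructor
      · rintro ⟨h0, h2⟩
        exact ⟨funext h0, (key h0).1 h2⟩
      · rintro ⟨h0, h2⟩
        have h0' : ∀ a, PowerSeries.coeff 0 (z.2 a) = 0 := fun a => congrFun h0 a
        exact ⟨h0', (key h0').2 h2⟩
    rw [e1, h1, e2]
  have h1 := hV P ι f p d K
  have h2 := hV P ι G (fun _ => 0) d K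
  rw [hvol, ← h2] at h1
  have hx : (TS.xq : RatFunc ℚ) ^ (K * Fintype.card ι) ≠ 0 := by
    apply pow_ne_zero
    have := TS.VAAux.L_mul P
    intro h
    rw [h, mul_zero] at this
    exact zero_ne_one this
  exact toRat_inj (mul_right_cancel₀ hx h1)

end Pool.Agent.Mono.LO
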