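import Pool.Agent.Work.Monodromy.InterfaceL
import Pool.Agent.Work.Monodromy13.UBD13

/-!
# Phase L, block UBDL: all values are bounded by finitely many values (helper4)
-/

set_option autoImplicit false

namespace Pool.Agent.Mono.LO

open MvPolynomial Filter Topology NP NP.UBDAux

namespace UBDLAux

variable {ι κ : Type}

/-- the value at a point is bounded by a multiple of `S` -/
def BdL (G : (κ → MvPowerSeries ι ℂ) → (ℤ → (ι → ℤ) → ℂ) → ℝ → Prop) (k : ℤ)
    (u : ι → ℤ) : Prop :=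
  ∃ Γ : Finset (ι →₀ ℕ), ∀ M : ℝ, ∃ C : ℝ, 0 ≤ C ∧ ∀ B Φ S, G B Φ S →
    (∀ v, ∀ γ ∈ Γ, ‖MvPowerSeries.coeff γ (B v)‖ ≤ M) → ‖Φ k u‖ ≤ C * S

theorem unifL (G : (κ → MvPowerSeries ι ℂ) → (ℤ → (ι → ℤ) → ℂ) → ℝ → Prop)
    (hG : ∀ B Φ S, G B Φ S → 0 ≤ S) (T : Finset (ℤ × (ι → ℤ)))
    (h : ∀ p ∈ T, BdL G p.1 p.2) :
    ∃ Γ : Finset (ι →₀ ℕ), ∀ M : ℝ, ∃ C : ℝ, 0 ≤ C ∧ ∀ B Φ S, G B Φ S →
      (∀ v, ∀ γ ∈ Γ, ‖MvPowerSeries.coeff γ (B v)‖ ≤ M) →
        ∀ p ∈ T, ‖Φ p.1 p.2‖ ≤ C * S := by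
  classical
  induction T using Finset.induction_on with
  | empty => exact ⟨∅, fun _ => ⟨0, le_rfl, fun _ _ _ _ _ p hp =>
      absurd hp (Finset.notMem_empty p)⟩⟩
  | insert p T hp ih =>
    obtain ⟨Γ₁, h₁⟩ := ih (fun q hq => h q (Finset.mem_insert_of_mem hq))
    obtain ⟨Γ₂, h₂⟩ := h p (Finset.mem_insert_self _ _)
    refine ⟨Γ₁ ∪ Γ₂, fun M => ?_⟩
    obtain ⟨C₁, hC₁, h₁⟩ := h₁ M
    obtain ⟨C₂, hC₂, h₂⟩ := h₂ M
    refine ⟨max C₁ C₂, le_max_of_le_left hC₁, fun B Φ S hS hM q hq => ?_⟩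
    have hS0 := hG B Φ S hS
    rcases Finset.mem_insert.1 hq with rfl | hq
    · exact (h₂ B Φ S hS fun v γ hγ => hM v γ (Finset.mem_union_right _ hγ)).trans
        (mul_le_mul_of_nonneg_right (le_max_right _ _) hS0)
    · exact (h₁ B Φ S hS (fun v γ hγ => hM v γ (Finset.mem_union_left _ hγ)) q hq).trans
        (mul_le_mul_of_nonneg_right (le_max_left _ _) hS0)

variable [Fintype ι] [DecidableEq ι] [Fintype κ]

/-- only finitely many translates matter -/
theorem sbfin (J : Finset ι) (ν : ι → ℚ) (β : ℚ) (X : Finset ((ι → ℚ) × ℚ)) (hX : XPos X)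
    (k : ℤ) (u : ι → ℤ) (hu : Al J u) :
    ∃ Γ : Finset (ι →₀ ℕ), ∀ γ, γ ∉ Γ → ∀ Φ, SB J ν β X Φ →
      Φ k (fun j => u j + γ j) = 0 := by
  classical
  set g : ((ι → ℚ) × ℚ) → (ι →₀ ℕ) := fun q => Finsupp.equivFunOnFinite.symm fun i =>
    ⌈(q.2 * ((k : ℚ) - β) - ∑ j, q.1 j * ((u j : ℚ) + 1 + ν j)) / q.1 i⌉₊ with hg
  refine ⟨X.biUnion fun q => Finset.Icc 0 (g q), fun γ hγ Φ hS => ?_⟩
  by_contra hne
  obtain ⟨q, hq, hle⟩ := hS k (fun j => u j + γ j) (fun j hj => by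
    have := hu j hj
    positivity) hne
  apply hγ
  rw [Finset.mem_biUnion]
  refine ⟨q, hq, Finset.mem_Icc.2 ⟨fun i => Nat.zero_le _, fun i => ?_⟩⟩
  have h1 : ∑ j, q.1 j * (γ j : ℚ) ≤
      q.2 * ((k : ℚ) - β) - ∑ j, q.1 j * ((u j : ℚ) + 1 + ν j) := by
    have h2 : ∑ i, q.1 i * (((u i + γ i : ℤ) : ℚ) + 1 + ν i) =
        ∑ j, q.1 j * (γ j : ℚ) + ∑ j, q.1 j * ((u j : ℚ) + 1 + ν j) := by
      rw [← Finset.sum_add_distrib]
      refine Finset.sum_congr rfl fun j _ => ?_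
      push_cast
      ring
    rw [h2] at hle
    linarith
  have h3 : q.1 i * (γ i : ℚ) ≤ ∑ j, q.1 j * (γ j : ℚ) :=
    Finset.single_le_sum (f := fun j => q.1 j * (γ j : ℚ))
      (fun j _ => mul_nonneg (hX q hq j).le (Nat.cast_nonneg _)) (Finset.mem_univ i)
  have h4 : (γ i : ℚ) ≤
      (q.2 * ((k : ℚ) - β) - ∑ j, q.1 j * ((u j : ℚ) + 1 + ν j)) / q.1 i := by
    rw [le_div_iff₀ (hX q hq i)]
    linarith
  have h5 : (γ i : ℚ) ≤ ((g q i : ℕ) : ℚ) := h4.trans (Nat.le_ceil _)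
  exact_mod_cast h5

theorem relS (w : κ → ι → ℕ) (B : κ → MvPowerSeries ι ℂ) (J : Finset ι) (ν : ι → ℚ) (β : ℚ)
    (k₀ : ℤ) (Φ : ℤ → (ι → ℤ) → ℂ) (hR : RlS w B J ν β k₀ Φ) (l : ι ⊕ Unit → ℤ) (k : ℤ)
    (u : ι → ℤ) (hu : Al J u) :
    ∀ᶠ Γ : Finset (ι →₀ ℕ) in atTop, ∑ v, ∑ γ ∈ Γ,
      ((evl l 1 (fun i => (w v i : ℤ) + γ i) : ℤ) : ℂ) *
        (MvPowerSeries.coeff γ (B v) * Φ (k + 1) (fun j => u j + w v j + γ j)) =
      -(((evl l k u : ℤ) : ℂ) + ((cl l ν β : ℚ) : ℂ)) * Φ k u := by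
  have h0 : ∀ i : ι, ∀ᶠ Γ : Finset (ι →₀ ℕ) in atTop,
      ∑ v, ∑ γ ∈ Γ, ((w v i : ℂ) + (γ i : ℂ)) * (MvPowerSeries.coeff γ (B v) *
        Φ (k + 1) (fun j => u j + w v j + γ j)) = -((u i : ℂ) + 1 + (ν i : ℂ)) * Φ k u := by
    intro i
    have h2 := hR.1 k (fun j => u j + if j = i then 1 else 0) i (fun j hj => by
      have := hu j hj
      change 0 ≤ u j + if j = i then 1 else 0
      split_ifs <;> omega)
    filter_upwards [h2] with Γ h2
    have e1 : ∀ (v : κ) (γ : ι →₀ ℕ), (fun j => (u j + if j = i then (1 : ℤ) else 0) +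
        (w v j : ℤ) + (γ j : ℤ) - if j = i then 1 else 0) = fun j => u j + w v j + γ j := by
      intro v γ
      funext j
      ring
    have e2 : (fun j => (u j + if j = i then (1 : ℤ) else 0) - if j = i then 1 else 0) = u := by
      funext j
      ring
    simp only [e1, e2, if_true] at h2
    rw [h2]
    push_cast
    ring
  filter_upwards [Filter.eventually_all.2 h0, hR.2.1 k u hu] with Γ h1 h2
  have h3 : ∀ (v : κ) (γ : ι →₀ ℕ), ((evl l 1 (fun i => (w v i : ℤ) + γ i) : ℤ) : ℂ) *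
        (MvPowerSeries.coeff γ (B v) * Φ (k + 1) (fun j => u j + w v j + γ j)) =
      (∑ i, (l (Sum.inl i) : ℂ) * (((w v i : ℂ) + (γ i : ℂ)) * (MvPowerSeries.coeff γ (B v) *
        Φ (k + 1) (fun j => u j + w v j + γ j)))) +
        (l (Sum.inr ()) : ℂ) * (MvPowerSeries.coeff γ (B v) *
          Φ (k + 1) (fun j => u j + w v j + γ j)) := by
    intro v γ
    unfold evl
    push_cast
    rw [add_mul, Finset.sum_mul]
    congr 1
    · refine Finset.sum_congr rfl fun i _ => ?_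
      ring
    · ring
  simp only [h3]
  simp only [Finset.sum_add_distrib]
  have h4 : ∑ v, ∑ γ ∈ Γ, ∑ i, (l (Sum.inl i) : ℂ) * (((w v i : ℂ) + (γ i : ℂ)) *
      (MvPowerSeries.coeff γ (B v) * Φ (k + 1) (fun j => u j + w v j + γ j))) =
      ∑ i, (l (Sum.inl i) : ℂ) * (-((u i : ℂ) + 1 + (ν i : ℂ)) * Φ k u) := by
    have e : ∀ v, ∑ γ ∈ Γ, ∑ i, (l (Sum.inl i) : ℂ) * (((w v i : ℂ) + (γ i : ℂ)) *
      (MvPowerSeries.coeff γ (B v) * Φ (k + 1) (fun j => u j + w v j + γ j))) =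
        ∑ i, (l (Sum.inl i) : ℂ) * ∑ γ ∈ Γ, ((w v i : ℂ) + (γ i : ℂ)) *
      (MvPowerSeries.coeff γ (B v) * Φ (k + 1) (fun j => u j + w v j + γ j)) := by
      intro v
      rw [Finset.sum_comm]
      simp only [Finset.mul_sum]
    simp only [e]
    rw [Finset.sum_comm]
    refine Finset.sum_congr rfl fun i _ => ?_
    rw [← Finset.mul_sum, h1 i]
  have h5 : ∑ v, ∑ γ ∈ Γ, (l (Sum.inr ()) : ℂ) * (MvPowerSeries.coeff γ (B v) *
      Φ (k + 1) (fun j => u j + w v j + γ j)) =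
      (l (Sum.inr ()) : ℂ) * (((β : ℂ) - k) * Φ k u) := by
    rw [← h2]
    simp only [Finset.mul_sum]
  rw [h4, h5]
  unfold evl cl
  push_cast
  have h6 : ∑ i, (l (Sum.inl i) : ℂ) * (-((u i : ℂ) + 1 + (ν i : ℂ)) * Φ k u) =
      -(∑ i, (l (Sum.inl i) : ℂ) * (u i : ℂ) + ∑ i, (l (Sum.inl i) : ℂ) * (1 + (ν i : ℂ))) *
        Φ k u := by
    rw [← Finset.sum_add_distrib, neg_mul, Finset.sum_mul, ← Finset.sum_neg_distrib]
    refine Finset.sum_congr rfl fun i _ => ?_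
    ring
  rw [h6]
  ring

theorem relF (w : κ → ι → ℕ) (B : κ → MvPowerSeries ι ℂ) (J : Finset ι) (ν : ι → ℚ) (β : ℚ)
    (k₀ : ℤ) (Φ : ℤ → (ι → ℤ) → ℂ) (hR : RlS w B J ν β k₀ Φ) (l : ι ⊕ Unit → ℤ) (k : ℤ)
    (u : ι → ℤ) (hu : Al J u) (Γ₀ : Finset (ι →₀ ℕ))
    (hΓ : ∀ (v : κ) (γ : ι →₀ ℕ), γ ∉ Γ₀ → Φ (k + 1) (fun j => u j + w v j + γ j) = 0) :
    ∑ v, ∑ γ ∈ Γ₀,
      ((evl l 1 (fun i => (w v i : ℤ) + γ i) : ℤ) : ℂ) *
        (MvPowerSeries.coeff γ (B v) * Φ (k + 1) (fun j => u j + w v j + γ j)) =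
      -(((evl l k u : ℤ) : ℂ) + ((cl l ν β : ℚ) : ℂ)) * Φ k u := by
  classical
  obtain ⟨Γ₁, h₁⟩ := Filter.eventually_atTop.1 (relS w B J ν β k₀ Φ hR l k u hu)
  rw [← h₁ (Γ₁ ∪ Γ₀) Finset.subset_union_left]
  refine Finset.sum_congr rfl fun v _ => ?_
  refine Finset.sum_subset Finset.subset_union_right fun γ _ hγ => ?_
  rw [hΓ v γ hγ, mul_zero, mul_zero]

/-- the good functionals -/
def GoodL (w : κ → ι → ℕ) (a : κ → ℂ) (J : Finset ι) (ν : ι → ℚ) (β : ℚ) (k₀ : ℤ)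
    (X : Finset ((ι → ℚ) × ℚ)) (δ : ℝ) (I₀ : Finset (ℤ × (ι → ℤ)))
    (B : κ → MvPowerSeries ι ℂ) (Φ : ℤ → (ι → ℤ) → ℂ) (S : ℝ) : Prop :=
  (∀ v, ‖lead B v - a v‖ ≤ δ) ∧ RlS w B J ν β k₀ Φ ∧ SB J ν β X Φ ∧ 0 ≤ S ∧
    ∀ q ∈ I₀, ‖Φ q.1 q.2‖ ≤ S

/-- the generators `(w_v, 1)` and `(e_i, 0)` -/
def Wg (w : κ → ι → ℕ) : κ ⊕ ι → ι ⊕ Unit → ℤ := Sum.elim (Wh w) ej

end UBDLAux

open UBDLAux

theorem stmt_UBDL (hMW : NP.Stmt_MW) (hGOR : NP.Stmt_GOR) (hABS : Stmt_ABSL) : Stmt_UBDL := by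
  classical
  intro ι κ _ _ _ _ w a ha J ν β k₀ X hX
  obtain ⟨d, δ, hd, hδ, hA⟩ := hABS ι κ w a ha
  obtain ⟨L, hL0, hLc⟩ := hMW (ι ⊕ Unit) (κ ⊕ ι) (Wg w)
  obtain ⟨c, hc⟩ := exc L ν β
  have hL1 : ∀ l ∈ L, ∀ v, 0 ≤ evl l 1 (fun i => (w v i : ℤ)) := by
    intro l hl v
    have := hL0 l hl (Sum.inl v)
    rw [sum_ev] at this
    exact this
  have hL2 : ∀ l ∈ L, ∀ i, 0 ≤ l (Sum.inl i) := by
    intro l hl i
    have := hL0 l hl (Sum.inr i)
    simpa [Wg, ej, Fintype.sum_sum_type, Pi.single_apply] using this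
  have hL0' : ∀ l ∈ L, ∀ (v : κ) (γ : ι →₀ ℕ), 0 ≤ evl l 1 (fun i => (w v i : ℤ) + γ i) := by
    intro l hl v γ
    have h1 := hL1 l hl v
    have h2 : 0 ≤ ∑ i, l (Sum.inl i) * (γ i : ℤ) :=
      Finset.sum_nonneg fun i _ => mul_nonneg (hL2 l hl i) (Int.natCast_nonneg _)
    have h3 : evl l 1 (fun i => (w v i : ℤ) + γ i) =
        evl l 1 (fun i => (w v i : ℤ)) + ∑ i, l (Sum.inl i) * (γ i : ℤ) := by
      unfold evl
      simp only [mul_add, Finset.sum_add_distrib]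
      ring
    rw [h3]
    exact add_nonneg h1 h2
  set L' : Finset (ι ⊕ Unit → ℤ) := L ∪ (Finset.univ.filter (fun j => j ∉ J)).image ej with hL'
  set c' : (ι ⊕ Unit → ℤ) → ℤ := fun l => if ∃ j, j ∉ J ∧ l = ej j then 0 else -c with hc'
  obtain ⟨R, hR1, hR2⟩ := hGOR (ι ⊕ Unit) (κ ⊕ ι) (Wg w) L' c' (by
      intro l hl v
      rcases Finset.mem_union.1 hl with hl | hl
      · exact hL0 l hl v
      · obtain ⟨j, -, rfl⟩ := Finset.mem_image.1 hl
        rw [sum_ev, ev_ej]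
        rcases v with v | i
        · exact Int.natCast_nonneg _
        · simp only [Wg, Sum.elim_inr, ej, Sum.elim_inl, Pi.single_apply]
          split_ifs <;> norm_num) (fun y hy => hLc y fun l hl =>
          hy l (Finset.mem_union_left _ hl))
  have hRa : ∀ r ∈ R, Al J (fun i => r (Sum.inl i)) := by
    intro r hr j hj
    have h1 := hR1 r hr (ej j) (Finset.mem_union_right _
      (Finset.mem_image_of_mem _ (Finset.mem_filter.2 ⟨Finset.mem_univ _, hj⟩)))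
    rw [sum_ev, ev_ej, hc'] at h1
    simp only at h1
    rw [if_pos ⟨j, hj, rfl⟩] at h1
    exact h1
  -- the finitely many translates which matter
  have hfin : ∀ (k : ℤ) (u : ι → ℤ), ∃ Γ : Finset (ι →₀ ℕ), Al J u → ∀ γ, γ ∉ Γ → ∀ Φ,
      SB J ν β X Φ → Φ k (fun j => u j + γ j) = 0 := by
    intro k u
    by_cases hu : Al J u
    · obtain ⟨Γ, h⟩ := sbfin J ν β X hX k u hu
      exact ⟨Γ, fun _ => h⟩
    · exact ⟨∅, fun h => absurd h hu⟩
  choose Fn hFn using hfin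
  set I₀ : Finset (ℤ × (ι → ℤ)) := (R ×ˢ (Finsupp.finite_of_degree_lt (σ := κ) d).toFinset).biUnion
    (fun q => (Fn (pk (q.1 (Sum.inr ())) q.2) (pu w (fun i => q.1 (Sum.inl i)) q.2)).image
      fun γ => (pk (q.1 (Sum.inr ())) q.2,
        fun j => pu w (fun i => q.1 (Sum.inl i)) q.2 j + γ j)) with hI₀
  have hGS : ∀ B Φ S, GoodL w a J ν β k₀ X δ I₀ B Φ S → 0 ≤ S := fun _ _ _ h => h.2.2.2.1
  have claim1 : ∀ r ∈ R, ∀ D : ℕ, ∃ Γ : Finset (ι →₀ ℕ), ∀ M : ℝ, ∃ C : ℝ, 0 ≤ C ∧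
      ∀ B Φ S, GoodL w a J ν β k₀ X δ I₀ B Φ S →
        (∀ v, ∀ γ ∈ Γ, ‖MvPowerSeries.coeff γ (B v)‖ ≤ M) →
        ∀ (m : κ →₀ ℕ) (γ : ι →₀ ℕ), m.degree = D →
          ‖Φ (r (Sum.inr ()) + (D : ℕ)) (fun j => r (Sum.inl j) + γ j +
            ∑ v, (m v : ℤ) * w v j)‖ ≤ C * S := by
    intro r hr D
    induction D with
    | zero =>
      refine ⟨∅, fun M => ⟨1, zero_le_one, fun B Φ S h _ m γ hm => ?_⟩⟩
      rw [one_mul]
      have hp : pu w (fun i => r (Sum.inl i)) m = fun j => r (Sum.inl j) +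
          ∑ v, (m v : ℤ) * w v j := rfl
      have hk : pk (r (Sum.inr ())) m = r (Sum.inr ()) + ((0 : ℕ) : ℤ) := by
        rw [pk, hm]
      have hpt : (fun j => r (Sum.inl j) + (γ j : ℤ) + ∑ v, (m v : ℤ) * w v j) =
          fun j => pu w (fun i => r (Sum.inl i)) m j + γ j := by
        funext j
        rw [hp]
        ring
      rw [hpt, ← hk]
      by_cases hγ : γ ∈ Fn (pk (r (Sum.inr ())) m) (pu w (fun i => r (Sum.inl i)) m)
      · refine h.2.2.2.2 (pk (r (Sum.inr ())) m,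
          fun j => pu w (fun i => r (Sum.inl i)) m j + γ j) ?_
        rw [hI₀, Finset.mem_biUnion]
        refine ⟨(r, m), Finset.mem_product.2 ⟨hr, (Set.Finite.mem_toFinset _).2 ?_⟩,
          Finset.mem_image_of_mem _ hγ⟩
        change m.degree < d
        omega
      · rw [hFn _ _ (pu_allowed w J _ m (hRa r hr)) γ hγ Φ h.2.2.1, norm_zero]
        exact h.2.2.2.1
    | succ D ih =>
      by_cases hD : D + 1 < d
      · refine ⟨∅, fun M => ⟨1, zero_le_one, fun B Φ S h _ m γ hm => ?_⟩⟩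
        rw [one_mul]
        have hp : pu w (fun i => r (Sum.inl i)) m = fun j => r (Sum.inl j) +
            ∑ v, (m v : ℤ) * w v j := rfl
        have hk : pk (r (Sum.inr ())) m = r (Sum.inr ()) + ((D + 1 : ℕ) : ℤ) := by
          rw [pk, hm]
        have hpt : (fun j => r (Sum.inl j) + (γ j : ℤ) + ∑ v, (m v : ℤ) * w v j) =
            fun j => pu w (fun i => r (Sum.inl i)) m j + γ j := by
          funext j
          rw [hp]
          ring
        rw [hpt, ← hk]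
        by_cases hγ : γ ∈ Fn (pk (r (Sum.inr ())) m) (pu w (fun i => r (Sum.inl i)) m)
        · refine h.2.2.2.2 (pk (r (Sum.inr ())) m,
            fun j => pu w (fun i => r (Sum.inl i)) m j + γ j) ?_
          rw [hI₀, Finset.mem_biUnion]
          refine ⟨(r, m), Finset.mem_product.2 ⟨hr, (Set.Finite.mem_toFinset _).2 ?_⟩,
            Finset.mem_image_of_mem _ hγ⟩
          change m.degree < d
          omega
        · rw [hFn _ _ (pu_allowed w J _ m (hRa r hr)) γ hγ Φ h.2.2.1, norm_zero]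
          exact h.2.2.2.1
      · obtain ⟨Γ₁, h₁⟩ := ih
        obtain ⟨Γ₂, h₂⟩ := hA J ν β k₀ X hX (r (Sum.inr ())) (fun i => r (Sum.inl i))
          (hRa r hr) (D + 1) (by omega)
        refine ⟨Γ₁ ∪ Γ₂, fun M => ?_⟩
        obtain ⟨C₁, hC₁, h₁⟩ := h₁ M
        obtain ⟨C₂, hC₂, h₂⟩ := h₂ M
        refine ⟨C₂ * C₁, mul_nonneg hC₂ hC₁, fun B Φ S h hM m γ hm => ?_⟩
        have h3 := h₂ B Φ (C₁ * S) h.1 (fun v γ hγ => hM v γ (Finset.mem_union_right _ hγ))
          h.2.1 h.2.2.1 (mul_nonneg hC₁ h.2.2.2.1) (fun m' γ' hm' => by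
            exact h₁ B Φ S h (fun v γ hγ => hM v γ (Finset.mem_union_left _ hγ)) m' γ' hm')
          m γ hm
        rw [mul_assoc]
        exact h3
  set μ : ℤ → (ι → ℤ) → ℕ := fun k u => ∑ l ∈ L, (-c - evl l k u).toNat with hμ
  have claim2 : ∀ (n : ℕ) (k : ℤ) (u : ι → ℤ), Al J u → μ k u = n →
      BdL (GoodL w a J ν β k₀ X δ I₀) k u := by
    intro n
    induction n using Nat.strong_induction_on with
    | _ n ih =>
      intro k u hu hn
      by_cases hR : ∀ l ∈ L, -c ≤ evl l k u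
      · obtain ⟨r, hr, m, hm⟩ := hR2 (Sum.elim u (fun _ => k)) (by
          intro l hl
          rw [sum_ev, hc']
          simp only [Sum.elim_inr, Sum.elim_inl]
          split_ifs with h
          · obtain ⟨j, hj, rfl⟩ := h
            rw [ev_ej]
            exact hu j hj
          · rcases Finset.mem_union.1 hl with hl | hl
            · exact hR l hl
            · exfalso
              obtain ⟨j, hj, rfl⟩ := Finset.mem_image.1 hl
              exact h ⟨j, (Finset.mem_filter.1 hj).2, rfl⟩)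
        set m₁ : κ →₀ ℕ := Finsupp.equivFunOnFinite.symm (fun v => m (Sum.inl v)) with hm₁
        set m₂ : ι →₀ ℕ := Finsupp.equivFunOnFinite.symm (fun i => m (Sum.inr i)) with hm₂
        obtain ⟨Γ, h1⟩ := claim1 r hr m₁.degree
        refine ⟨Γ, fun M => ?_⟩
        obtain ⟨C, hC, h1⟩ := h1 M
        refine ⟨C, hC, fun B Φ S h hM => ?_⟩
        have h2 := h1 B Φ S h hM m₁ m₂ rfl
        have e1 : r (Sum.inr ()) + ((m₁.degree : ℕ) : ℤ) = k := by
          have h3 := hm (Sum.inr ())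
          rw [Fintype.sum_sum_type] at h3
          simp only [Sum.elim_inr, Wg, Wh, Sum.elim_inl, mul_one, ej, mul_zero,
            Finset.sum_const_zero, add_zero] at h3
          rw [h3, Finsupp.degree_eq_sum]
          push_cast
          rfl
        have e2 : (fun j => r (Sum.inl j) + (m₂ j : ℤ) + ∑ v, (m₁ v : ℤ) * w v j) = u := by
          funext i
          have h3 := hm (Sum.inl i)
          rw [Fintype.sum_sum_type] at h3
          simp only [Sum.elim_inr, Wg, Wh, Sum.elim_inl, ej, Pi.single_apply, mul_ite, mul_one,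
            mul_zero, Finset.sum_ite_eq, Finset.mem_univ, if_true] at h3
          rw [h3]
          change r (Sum.inl i) + (m (Sum.inr i) : ℤ) + ∑ v, (m (Sum.inl v) : ℤ) * w v i = _
          ring
        rw [e1, e2] at h2
        exact h2
      · push Not at hR
        obtain ⟨l, hl, hlt⟩ := hR
        -- the translates which matter
        set Γ₀ : Finset (ι →₀ ℕ) := Finset.univ.biUnion
          (fun v : κ => Fn (k + 1) (fun j => u j + w v j)) with hΓ₀
        have hal : ∀ v : κ, Al J (fun j => u j + w v j) := by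
          intro v j hj
          have := hu j hj
          positivity
        have hΓ : ∀ Φ, SB J ν β X Φ → ∀ (v : κ) (γ : ι →₀ ℕ), γ ∉ Γ₀ →
            Φ (k + 1) (fun j => u j + w v j + γ j) = 0 := by
          intro Φ hS v γ hγ
          refine hFn (k + 1) (fun j => u j + w v j) (hal v) γ (fun h => hγ ?_) Φ hS
          rw [hΓ₀, Finset.mem_biUnion]
          exact ⟨v, Finset.mem_univ _, h⟩
        set T : Finset (ℤ × (ι → ℤ)) := (((Finset.univ : Finset κ) ×ˢ Γ₀).filter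
          (fun q => 0 < evl l 1 (fun i => (w q.1 i : ℤ) + q.2 i))).image
          (fun q => (k + 1, fun j => u j + w q.1 j + q.2 j)) with hT
        obtain ⟨Γ₁, h₁⟩ := unifL (GoodL w a J ν β k₀ X δ I₀) hGS T (by
          intro p hp
          rw [hT, Finset.mem_image] at hp
          obtain ⟨⟨v, γ⟩, hv, rfl⟩ := hp
          have hv' := (Finset.mem_filter.1 hv).2
          simp only at hv'
          have hadd : ∀ l', evl l' (k + 1) (fun j => u j + w v j + γ j) =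
              evl l' k u + evl l' 1 (fun i => (w v i : ℤ) + γ i) := by
            intro l'
            rw [← ev_add]
            congr 1
            funext j
            ring
          refine ih (μ (k + 1) (fun j => u j + w v j + γ j)) ?_ _ _ ?_ rfl
          · rw [← hn, hμ]
            refine Finset.sum_lt_sum (fun l' hl' => ?_) ⟨l, hl, ?_⟩
            · rw [hadd]
              have := hL0' l' hl' v γ
              omega
            · rw [hadd]
              omega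
          · intro j hj
            have := hu j hj
            positivity)
        refine ⟨Γ₀ ∪ Γ₁, fun M => ?_⟩
        obtain ⟨C₁, hC₁, h₁⟩ := h₁ M
        have hB0 : 0 ≤ ∑ v, ∑ γ ∈ Γ₀, (evl l 1 (fun i => (w v i : ℤ) + γ i) : ℝ) *
            (|M| * C₁) := by
          refine Finset.sum_nonneg fun v _ => Finset.sum_nonneg fun γ _ =>
            mul_nonneg ?_ (by positivity)
          exact_mod_cast hL0' l hl v γ
        refine ⟨_, hB0, fun B Φ S h hM => ?_⟩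
        have hS : 0 ≤ S := h.2.2.2.1
        have h2 := relF w B J ν β k₀ Φ h.2.1 l k u hu Γ₀ (hΓ Φ h.2.2.1)
        have h3 : 1 ≤ ‖-(((evl l k u : ℤ) : ℂ) + ((cl l ν β : ℚ) : ℂ))‖ := by
          have e1 : (((evl l k u : ℤ) : ℂ) + ((cl l ν β : ℚ) : ℂ)) =
              ((((evl l k u : ℚ) + cl l ν β : ℚ) : ℝ) : ℂ) := by
            push_cast
            rfl
          rw [norm_neg, e1, Complex.norm_real, Real.norm_eq_abs, ← Rat.cast_abs]
          have h4 := hc l hl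
          have h5 : ((evl l k u : ℤ) : ℚ) < -(c : ℚ) := by exact_mod_cast hlt
          have h6 := le_abs_self (cl l ν β)
          have h7 : (1 : ℚ) ≤ |(evl l k u : ℚ) + cl l ν β| := by
            rw [abs_of_nonpos (by linarith)]
            linarith
          exact_mod_cast h7
        calc ‖Φ k u‖ ≤ ‖-(((evl l k u : ℤ) : ℂ) + ((cl l ν β : ℚ) : ℂ))‖ * ‖Φ k u‖ :=
              le_mul_of_one_le_left (norm_nonneg _) h3
          _ = ‖∑ v, ∑ γ ∈ Γ₀, ((evl l 1 (fun i => (w v i : ℤ) + γ i) : ℤ) : ℂ) *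
                (MvPowerSeries.coeff γ (B v) * Φ (k + 1) (fun j => u j + w v j + γ j))‖ := by
              rw [h2, norm_mul]
          _ ≤ ∑ v, ∑ γ ∈ Γ₀, ‖((evl l 1 (fun i => (w v i : ℤ) + γ i) : ℤ) : ℂ) *
                (MvPowerSeries.coeff γ (B v) * Φ (k + 1) (fun j => u j + w v j + γ j))‖ :=
              (norm_sum_le _ _).trans (Finset.sum_le_sum fun v _ => norm_sum_le _ _)
          _ ≤ ∑ v, ∑ γ ∈ Γ₀, (evl l 1 (fun i => (w v i : ℤ) + γ i) : ℝ) *
                (|M| * C₁) * S := by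
              refine Finset.sum_le_sum fun v _ => Finset.sum_le_sum fun γ hγ => ?_
              rw [norm_mul, norm_mul, Complex.norm_intCast]
              rcases (hL0' l hl v γ).eq_or_lt with h8 | h8
              · rw [← h8]
                simp
              · have h9 : |((evl l 1 (fun i => (w v i : ℤ) + γ i) : ℤ) : ℝ)| =
                    ((evl l 1 (fun i => (w v i : ℤ) + γ i) : ℤ) : ℝ) :=
                  abs_of_nonneg (by exact_mod_cast hL0' l hl v γ)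
                rw [h9, mul_assoc, mul_assoc]
                refine mul_le_mul_of_nonneg_left ?_ (by exact_mod_cast hL0' l hl v γ)
                have h10 : ‖MvPowerSeries.coeff γ (B v)‖ ≤ |M| :=
                  (hM v γ (Finset.mem_union_left _ hγ)).trans (le_abs_self M)
                have h13 := h₁ B Φ S h (fun v γ hγ => hM v γ (Finset.mem_union_right _ hγ))
                  (k + 1, fun j => u j + w v j + γ j) (by
                  rw [hT, Finset.mem_image]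
                  exact ⟨(v, γ), Finset.mem_filter.2 ⟨Finset.mem_product.2
                    ⟨Finset.mem_univ _, hγ⟩, h8⟩, rfl⟩)
                exact mul_le_mul h10 h13 (norm_nonneg _) (abs_nonneg _)
          _ = (∑ v, ∑ γ ∈ Γ₀, (evl l 1 (fun i => (w v i : ℤ) + γ i) : ℝ) *
                (|M| * C₁)) * S := by
              simp only [Finset.sum_mul]
  refine ⟨I₀, δ, hδ, ?_, ?_⟩
  · intro q hq
    rw [hI₀, Finset.mem_biUnion] at hq
    obtain ⟨⟨r, m⟩, hrm, hq⟩ := hq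
    obtain ⟨γ, -, rfl⟩ := Finset.mem_image.1 hq
    intro j hj
    have := pu_allowed w J _ m (hRa r (Finset.mem_product.1 hrm).1) j hj
    simp only at this ⊢
    positivity
  · intro k u hu
    obtain ⟨Γ, h⟩ := claim2 (μ k u) k u hu rfl
    refine ⟨Γ, fun M => ?_⟩
    obtain ⟨C, hC, h⟩ := h M
    exact ⟨C, hC, fun B Φ S h1 h2 h3 h4 h5 h6 => h B Φ S ⟨h1, h3, h4, h5, h6⟩ h2⟩

end Pool.Agent.Mono.LO
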