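import Pool.Agent.Work.Monodromy.InterfaceL
import Pool.Agent.Work.Monodromy.GJet
import Pool.Agent.Work.Monodromy4.VA

/-!
# Block VOLL: the classes of the local jets are volumes (helper31)
-/

set_option autoImplicit false
set_option linter.unusedSectionVars false

namespace Pool.Agent.Mono.LO

open MvPolynomial

namespace VOLLAux

open TS TS.VAAux GJetAux SP SP.POL8Aux RO PC

/-- values at `0` -/
theorem cc_mem {ι : Type} (x : ι → PowerSeries ℂ) (p : ι → ℂ) :
    (fun i => PowerSeries.constantCoeff (x i)) ∈ ({p} : Set (ι → ℂ)) ↔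
      (fun a => PowerSeries.coeff 0 (x a)) ∈ ({p} : Set (ι → ℂ)) := by
  simp only [PowerSeries.coeff_zero_eq_constantCoeff_apply]

/-- the local jets are a section of a contact set -/
theorem mem_jetAt {ι : Type} [Fintype ι] (f : MvPolynomial ι ℂ) (p : ι → ℂ) (e k : ℕ)
    (z : (ι × Fin (k + 1)) ⊕ Unit → ℂ) : z ∈ jetAt f p e k ↔
      (fun j => z ((ren ι k).symm j)) ∈ sec (fun _ : ι => k + 1) (contactS e f {p} k) := by
  classical
  have h1 : z ∈ jetSet f e k ↔
      (fun j => z ((ren ι k).symm j)) ∈ sec (fun _ : ι => k + 1) (contactS e f Set.univ k) := by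
    simp only [jetSet, sec, contactS, Set.mem_ofPred_eq, coeff_jet, Set.mem_univ, true_and]
    exact Iff.rfl
  have h2 : (fun i => PowerSeries.constantCoeff (toArc (fun _ : ι => k + 1)
      (fun s => (fun j => z ((ren ι k).symm j)) (Sum.inr s)) i)) =
      fun i => z (Sum.inl (i, 0)) := by
    funext i
    rw [← PowerSeries.coeff_zero_eq_constantCoeff_apply, coeff_toArc, dif_pos (Nat.succ_pos k)]
    rfl
  constructor
  · rintro ⟨h3, h4⟩
    have h5 := h1.1 h3
    refine ⟨?_, h5.2⟩
    change (fun i => PowerSeries.constantCoeff (toArc (fun _ : ι => k + 1)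
      (fun s => (fun j => z ((ren ι k).symm j)) (Sum.inr s)) i)) = p
    rw [h2]
    exact funext h4
  · rintro ⟨h3, h4⟩
    refine ⟨h1.2 ⟨Set.mem_univ _, h4⟩, fun i => ?_⟩
    change (fun i => PowerSeries.constantCoeff (toArc (fun _ : ι => k + 1)
      (fun s => (fun j => z ((ren ι k).symm j)) (Sum.inr s)) i)) = p at h3
    rw [h2] at h3
    exact congrFun h3 i

/-- the class of the local jets -/
theorem val_jetAt {ι : Type} [Fintype ι] {R : Type} [CommRing R] (μ : MotivicMeasure R)
    (f : MvPolynomial ι ℂ) (p : ι → ℂ) (e k : ℕ) : μ.val (jetAt f p e k) =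
      μ.val (sec (fun _ : ι => k + 1) (contactS e f {p} k)) := by
  classical
  have hcyl := contactS_cyl e f {p} (Constructible.point p) k
  have hmem := mem_jetAt f p e k
  have hcon : Constructible (jetAt f p e k) := by
    have : jetAt f p e k = {z : (ι × Fin (k + 1)) ⊕ Unit → ℂ |
      (fun j => z ((ren ι k).symm j)) ∈ sec (fun _ : ι => k + 1) (contactS e f {p} k)} := by
      ext z
      exact hmem z
    rw [this]
    exact Constructible.comap _ hcyl.2
  refine μ.map _ _ (fun j => X ((ren ι k).symm j)) hcon hcyl.2 ⟨?_, ?_, ?_⟩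
  · intro z hz
    simp only [eval_X]
    exact (hmem z).1 hz
  · intro z _ z' _ h
    simp only [eval_X] at h
    funext j
    have := congrFun h (ren ι k j)
    simpa using this
  · intro y hy
    refine ⟨fun j => y (ren ι k j), ?_, ?_⟩
    · rw [hmem]
      simpa using hy
    · funext j
      simp only [eval_X]
      simp

/-- `ZL f {p} (QE e) m` is a cylinder -/
theorem cyl_ZL {ι : Type} [Fintype ι] (f : MvPolynomial ι ℂ) (p : ι → ℂ) (e m : ℕ) :
    IsCyl (fun _ => m + 1) (ZL f {p} (QE e) m) := by
  classical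
  have hB : Constructible {z : Bool → ℂ | z false ≠ 0 ∧ z true ^ e = z false} := by
    have := Constructible.and (Constructible.ne (X false : MvPolynomial Bool ℂ))
      (Constructible.eq (X true ^ e : MvPolynomial Bool ℂ) (X false))
    simpa only [eval_X, map_pow] using this
  have hc2 := cyl_ctc f hB (X false) m
  rw [ctc_eq] at hc2
  refine ⟨?_, ?_⟩
  · intro q x y hxy
    have h1 := hc2.1 q x y hxy
    have h2 : (fun a => PowerSeries.coeff 0 (x a)) = fun a => PowerSeries.coeff 0 (y a) :=
      funext fun a => hxy a 0 (Nat.succ_pos m)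
    change (_ ∧ _) ↔ (_ ∧ _)
    refine and_congr ?_ h1
    change (fun a => PowerSeries.coeff 0 (x a)) = p ↔ (fun a => PowerSeries.coeff 0 (y a)) = p
    rw [h2]
  · have h0 : sec (fun _ : ι => m + 1) (ZL f {p} (QE e) m) =
        {v : Bool ⊕ (Σ _ : ι, Fin (m + 1)) → ℂ |
          (fun i => v (Sum.inr (⟨i, (⟨0, Nat.succ_pos m⟩ : Fin (m + 1))⟩ :
            Σ _ : ι, Fin (m + 1)))) ∈ ({p} : Set (ι → ℂ)) ∧
          v ∈ sec (fun _ : ι => m + 1) {z : (Bool → ℂ) × (ι → PowerSeries ℂ) |
            Lead (QE e) m z.1 (aeval z.2 f)}} := by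
      ext v
      have h5 : (fun i => PowerSeries.coeff 0
          (toArc (fun _ : ι => m + 1) (fun s => v (Sum.inr s)) i)) =
          fun i => v (Sum.inr (⟨i, (⟨0, Nat.succ_pos m⟩ : Fin (m + 1))⟩ :
            Σ _ : ι, Fin (m + 1))) := by
        funext i
        rw [coeff_toArc, dif_pos (Nat.succ_pos m)]
      change ((fun i => PowerSeries.coeff 0
          (toArc (fun _ : ι => m + 1) (fun s => v (Sum.inr s)) i)) ∈ ({p} : Set (ι → ℂ)) ∧ _) ↔ _
      rw [h5]
      exact Iff.rfl
    rw [h0]
    exact Constructible.and (Constructible.comap _ (Constructible.point p)) hc2.2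

end VOLLAux

open VOLLAux TS TS.VAAux GJetAux SP SP.POL8Aux RO PC in
theorem stmt_VOLL : Stmt_VOLL := by
  classical
  intro P ι _ _ f p e m
  have hL := L_mul P
  set K' : ι → ℕ := fun _ => m + 1 with hK
  have hc1 := contactS_cyl e f {p} (Constructible.point p) m
  have hc2 := cyl_ZL f p e m
  have e1 : toRat (P.val (jetAt f p e m)) = P.rat.val (sec K' (ZL f {p} (QE e) m)) := by
    have e0 : toRat (P.val (jetAt f p e m)) = P.rat.val (sec K' (contactS e f {p} m)) :=
      val_jetAt P.rat f p e m
    rw [e0]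
    refine P.rat.val_of_inv hc1.2 hc2.2
      (Sum.elim (fun b => if b then X (Sum.inl ()) else GJetAux.cA Unit K' f m)
        fun s => X (Sum.inr s))
      (fun y => Sum.elim (fun _ => y (Sum.inl true)) fun s => y (Sum.inr s)) ?_ ?_ ?_ ?_
    · intro v hv
      have h1 : (fun j => eval v (Sum.elim (fun b : Bool => if b then X (Sum.inl ())
          else GJetAux.cA Unit K' f m) (fun s => X (Sum.inr s)) j)) = Sum.elim (fun b : Bool =>
            if b then v (Sum.inl ()) else
            PowerSeries.coeff m (aeval (toArc K' fun s => v (Sum.inr s)) f))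
            fun s => v (Sum.inr s) := by
        funext j
        rcases j with j | j
        · rcases j with _ | _
          · exact GJetAux.eval_cA Unit K' f m v
          · simp
        · simp
      rw [h1]
      obtain ⟨h0, h2, h3, h4⟩ := hv
      exact ⟨(cc_mem _ p).1 h0, h2, ⟨h3, h4⟩, rfl⟩
    · intro y hy
      obtain ⟨h0, h2, ⟨h1, h1'⟩, h3⟩ := hy
      refine ⟨(cc_mem _ p).2 h0, h2, ?_, ?_⟩
      · intro h4
        exact h1 (h3.symm.trans h4)
      · exact h1'.trans h3.symm
    · intro v _
      funext j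
      rcases j with j | j
      · simp
      · simp
    · intro y hy
      obtain ⟨h0, h1, h2, h3⟩ := hy
      funext j
      rcases j with j | j
      · rcases j with _ | _
        · exact (GJetAux.eval_cA Unit K' f m _).trans h3
        · simp
      · simp
  rw [e1, vol_eq P.rat hL hc2]
  simp only [Finset.sum_const, Finset.card_univ, smul_eq_mul]
  have h1 : (P.rat.L * xq) ^ Fintype.card ι = 1 := by rw [hL, one_pow]
  have h2 : Fintype.card ι * (m + 1) = m * Fintype.card ι + Fintype.card ι := by ring
  rw [h2, pow_add]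
  calc _ = P.rat.val (sec K' (ZL f {p} (QE e) m)) *
          xq ^ (m * Fintype.card ι) * (P.rat.L * xq) ^ Fintype.card ι := by rw [h1, mul_one]
    _ = _ := by rw [mul_pow]; ring

end Pool.Agent.Mono.LO
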