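import Pool.Agent.Work.Monodromy.InterfaceL

/-!
# Phase L, block WITL: a function with the relations gives a module with a sequence of vectors
(helper30)
-/

set_option autoImplicit false

namespace Pool.Agent.Mono.LO

open MvPolynomial Filter Topology NP

namespace WITLAux

variable {ι : Type} [Fintype ι] [DecidableEq ι]

/-- shift by a unit vector stays allowed or the coordinate is zero -/
theorem al_sub (J : Finset ι) (u : ι → ℤ) (i : ι) (hu : Al J u)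
    (h : ¬ Al J (fun j => u j - if j = i then 1 else 0)) : i ∉ J ∧ u i = 0 := by
  unfold Al at h
  push Not at h
  obtain ⟨j, hj, hlt⟩ := h
  have h1 := hu j hj
  by_cases hji : j = i
  · subst hji
    rw [if_pos rfl] at hlt
    exact ⟨hj, by omega⟩
  · rw [if_neg hji] at hlt
    omega

theorem al_add (J : Finset ι) (u : ι → ℤ) (γ : ι → ℤ) (hγ : ∀ i, 0 ≤ γ i) (hu : Al J u) :
    Al J (fun j => u j + γ j) := fun j hj => add_nonneg (hu j hj) (hγ j)

/-- finiteness -/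
theorem fin_aux (X : Finset ((ι → ℚ) × ℚ)) (hX : XPos X) (c : ((ι → ℚ) × ℚ) → ℚ) :
    {γ : ι →₀ ℕ | ∃ q ∈ X, ∑ i, q.1 i * (γ i : ℚ) ≤ c q}.Finite := by
  have h1 : {γ : ι →₀ ℕ | ∃ q ∈ X, ∑ i, q.1 i * (γ i : ℚ) ≤ c q} ⊆
      ⋃ q ∈ X, Set.Iic (Finsupp.equivFunOnFinite.symm fun i => ⌊c q / q.1 i⌋₊) := by
    rintro γ ⟨q, hq, hle⟩
    simp only [Set.mem_iUnion]
    refine ⟨q, hq, ?_⟩
    rw [Set.mem_Iic]
    intro i
    show γ i ≤ ⌊c q / q.1 i⌋₊
    refine Nat.le_floor ?_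
    rw [le_div_iff₀ (hX q hq i), mul_comm]
    refine le_trans ?_ hle
    refine Finset.single_le_sum (f := fun i => q.1 i * (γ i : ℚ)) (fun j _ => ?_)
      (Finset.mem_univ i)
    exact mul_nonneg (hX q hq j).le (Nat.cast_nonneg _)
  exact (Set.Finite.biUnion X.finite_toSet fun q _ => Set.finite_Iic _).subset h1

open Classical in
/-- the values at the allowed points -/
noncomputable def res (J : Finset ι) (φ : (ι → ℤ) → ℂ) (u : ι → ℤ) : ℂ :=
  if Al J u then φ u else 0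

theorem res_pos {J : Finset ι} (φ : (ι → ℤ) → ℂ) {u : ι → ℤ} (h : Al J u) :
    res J φ u = φ u := if_pos h

theorem res_mem (J : Finset ι) (ν : ι → ℚ) (β : ℚ) (X : Finset ((ι → ℚ) × ℚ)) (hX : XPos X)
    (Φ : ℤ → (ι → ℤ) → ℂ) (hS : SB J ν β X Φ) (k : ℤ) : res J (Φ k) ∈ VJ J := by
  refine ⟨fun u hu => if_neg hu, fun u hu => ?_⟩
  refine (fin_aux X hX fun q => q.2 * ((k : ℚ) - β) -
    ∑ i, q.1 i * ((u i : ℚ) + 1 + ν i)).subset ?_
  intro γ hγ
  have ha : Al J (fun j => u j + γ j) := al_add J u (fun j => (γ j : ℤ))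
    (fun i => Int.natCast_nonneg _) hu
  have h1 : Φ k (fun j => u j + γ j) ≠ 0 := by
    intro h
    exact hγ (by rw [res_pos _ ha, h])
  obtain ⟨q, hq, hle⟩ := hS k _ ha h1
  refine ⟨q, hq, ?_⟩
  rw [le_sub_iff_add_le, ← Finset.sum_add_distrib]
  refine le_trans (le_of_eq ?_) hle
  refine Finset.sum_congr rfl fun i _ => ?_
  push_cast
  ring

/-- the exponent as a finitely supported function -/
noncomputable def ex (m : ι → ℕ) : ι →₀ ℕ := Finsupp.equivFunOnFinite.symm m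

theorem prod_X (m : ι → ℕ) :
    (∏ i, MvPowerSeries.X i ^ m i : MvPowerSeries ι ℂ) = MvPowerSeries.monomial (ex m) 1 := by
  have h1 : ∀ s : Finset ι, (∏ i ∈ s, MvPowerSeries.X i ^ m i : MvPowerSeries ι ℂ) =
      MvPowerSeries.monomial (∑ i ∈ s, Finsupp.single i (m i)) 1 := by
    intro s
    induction s using Finset.induction_on with
    | empty => simp
    | insert i s hi ih =>
      rw [Finset.prod_insert hi, Finset.sum_insert hi, ih, MvPowerSeries.X_pow_eq,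
        MvPowerSeries.monomial_mul_monomial, one_mul]
  rw [h1]
  congr 1
  have h2 : (∑ i, Finsupp.single i (m i)) = ex m := by
    ext j
    rw [Finsupp.finsetSum_apply]
    simp [Finsupp.single_apply, ex]
  rw [h2]

section

variable {J : Finset ι} {ν : ι → ℚ} (P : MvPowerSeries ι ℂ →ₐ[ℂ] Module.End ℂ (VJ J))
  (DV : ι → Module.End ℂ (VJ J))
  (hP : ∀ (g : MvPowerSeries ι ℂ) (φ : VJ J) (u : ι → ℤ), Al J u →
        ∀ᶠ Γ : Finset (ι →₀ ℕ) in atTop, (P g φ : (ι → ℤ) → ℂ) u =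
          ∑ γ ∈ Γ, MvPowerSeries.coeff γ g * (φ : (ι → ℤ) → ℂ) (fun j => u j + γ j))

include hP

theorem P_mon (m : ι → ℕ) (φ : VJ J) (u : ι → ℤ) (hu : Al J u) :
    (P (∏ i, MvPowerSeries.X i ^ m i) φ : (ι → ℤ) → ℂ) u =
      (φ : (ι → ℤ) → ℂ) (fun j => u j + m j) := by
  obtain ⟨Γ, hΓ⟩ := (Filter.eventually_atTop.1 (hP (∏ i, MvPowerSeries.X i ^ m i) φ u hu))
  rw [hΓ (insert (ex m) Γ) (Finset.subset_insert _ _), prod_X]
  rw [Finset.sum_eq_single (ex m)]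
  · rw [MvPowerSeries.coeff_monomial_same, one_mul]
    rfl
  · intro γ _ hγ
    rw [MvPowerSeries.coeff_monomial_ne hγ, zero_mul]
  · intro h
    exact absurd (Finset.mem_insert_self _ _) h

theorem P_ser {κ : Type} [Fintype κ] [DecidableEq κ] (w : κ → ι → ℕ)
    (A : κ → MvPowerSeries ι ℂ) (φ : VJ J) (u : ι → ℤ) (hu : Al J u) :
    ∀ᶠ Γ : Finset (ι →₀ ℕ) in atTop, (P (ser w A) φ : (ι → ℤ) → ℂ) u =
      ∑ v, ∑ γ ∈ Γ, MvPowerSeries.coeff γ (A v) *
        (φ : (ι → ℤ) → ℂ) (fun j => u j + w v j + γ j) := by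
  have h1 : ∀ v, ∀ᶠ Γ : Finset (ι →₀ ℕ) in atTop,
      (P (A v * ∏ i, MvPowerSeries.X i ^ w v i) φ : (ι → ℤ) → ℂ) u =
      ∑ γ ∈ Γ, MvPowerSeries.coeff γ (A v) *
        (φ : (ι → ℤ) → ℂ) (fun j => u j + w v j + γ j) := by
    intro v
    filter_upwards [hP (A v) (P (∏ i, MvPowerSeries.X i ^ w v i) φ) u hu] with Γ hΓ
    rw [map_mul, Module.End.mul_apply, hΓ]
    refine Finset.sum_congr rfl fun γ _ => ?_
    rw [P_mon P hP (w v) φ _ (al_add J u (fun j => (γ j : ℤ))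
      (fun i => Int.natCast_nonneg _) hu)]
    refine congrArg (fun z => MvPowerSeries.coeff γ (A v) * (φ : (ι → ℤ) → ℂ) z) ?_
    funext j
    ring
  filter_upwards [Filter.eventually_all.2 h1] with Γ hΓ
  rw [ser, map_sum, LinearMap.sum_apply, Submodule.coe_sum, Finset.sum_apply]
  exact Finset.sum_congr rfl fun v _ => hΓ v

theorem P_pd (hν : ∀ i, i ∉ J → ν i = 0)
    (h1 : ∀ i g, DV i * P g = P g * DV i + P (MvPowerSeries.pderiv ℂ i g))
    (h2 : ∀ (i : ι) (φ : VJ J) (u : ι → ℤ), Al J u → (DV i φ : (ι → ℤ) → ℂ) u =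
        -((u i : ℂ) + (ν i : ℂ)) * (φ : (ι → ℤ) → ℂ) (fun j => u j - if j = i then 1 else 0))
    {κ : Type} [Fintype κ] [DecidableEq κ] (w : κ → ι → ℕ)
    (A : κ → MvPowerSeries ι ℂ) (i : ι) (φ : VJ J) (u : ι → ℤ) (hu : Al J u) :
    ∀ᶠ Γ : Finset (ι →₀ ℕ) in atTop,
      (P (MvPowerSeries.pderiv ℂ i (ser w A)) φ : (ι → ℤ) → ℂ) u =
      ∑ v, ∑ γ ∈ Γ, ((w v i : ℂ) + (γ i : ℂ)) * (MvPowerSeries.coeff γ (A v) *
        (φ : (ι → ℤ) → ℂ) (fun j => u j + w v j + γ j - if j = i then 1 else 0)) := by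
  have e1 : (P (MvPowerSeries.pderiv ℂ i (ser w A)) φ : (ι → ℤ) → ℂ) u =
      (DV i (P (ser w A) φ) : (ι → ℤ) → ℂ) u - (P (ser w A) (DV i φ) : (ι → ℤ) → ℂ) u := by
    have h3 := congrArg (fun T : Module.End ℂ (VJ J) => (T φ : (ι → ℤ) → ℂ) u) (h1 i (ser w A))
    simp only [Module.End.mul_apply, LinearMap.add_apply, Submodule.coe_add, Pi.add_apply] at h3
    rw [h3, add_sub_cancel_left]
  have e2 := P_ser P hP w A (DV i φ) u hu
  have e3 : ∀ᶠ Γ : Finset (ι →₀ ℕ) in atTop, (DV i (P (ser w A) φ) : (ι → ℤ) → ℂ) u =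
      ∑ v, ∑ γ ∈ Γ, -((u i : ℂ) + (ν i : ℂ)) * (MvPowerSeries.coeff γ (A v) *
        (φ : (ι → ℤ) → ℂ) (fun j => u j + w v j + γ j - if j = i then 1 else 0)) := by
    by_cases ha : Al J (fun j => u j - if j = i then 1 else 0)
    · filter_upwards [P_ser P hP w A φ _ ha] with Γ hΓ
      rw [h2 i _ u hu, hΓ, Finset.mul_sum]
      refine Finset.sum_congr rfl fun v _ => ?_
      rw [Finset.mul_sum]
      refine Finset.sum_congr rfl fun γ _ => ?_
      refine congrArg (fun z => -((u i : ℂ) + (ν i : ℂ)) * (MvPowerSeries.coeff γ (A v) *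
        (φ : (ι → ℤ) → ℂ) z)) ?_
      funext j
      ring
    · obtain ⟨hi, hui⟩ := al_sub J u i hu ha
      refine Filter.Eventually.of_forall fun Γ => ?_
      rw [h2 i _ u hu, hui, hν i hi]
      simp
  filter_upwards [e2, e3] with Γ hΓ2 hΓ3
  rw [e1, hΓ2, hΓ3, ← Finset.sum_sub_distrib]
  refine Finset.sum_congr rfl fun v _ => ?_
  rw [← Finset.sum_sub_distrib]
  refine Finset.sum_congr rfl fun γ _ => ?_
  have ha : Al J (fun j => u j + w v j + γ j) := al_add J _ (fun j => (γ j : ℤ))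
    (fun i => Int.natCast_nonneg _) (al_add J u (fun j => (w v j : ℤ))
      (fun i => Int.natCast_nonneg _) hu)
  rw [h2 i φ _ ha]
  push_cast
  ring

end

end WITLAux

open WITLAux in
theorem stmt_WITL (hPACT : Stmt_PACT) : Stmt_WITL := by
  intro ι κ _ _ _ _ w A J ν β k₀ X Φ hX hν hR hS hne
  obtain ⟨P, DV, hDD, hDP, hP, hD⟩ := hPACT ι J ν hν
  obtain ⟨hR1, hR2, hR3⟩ := hR
  obtain ⟨k₂, u₂, hu₂, hΦ₂⟩ := hne
  obtain ⟨k₁, hk₁, hmin⟩ := Int.exists_least_of_bdd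
    (P := fun k => ∃ u, Al J u ∧ Φ k u ≠ 0)
    ⟨k₀, fun k hk => by
      obtain ⟨u, hu, hne⟩ := hk
      by_contra hlt
      exact hne (hR3 k (not_le.1 hlt) u hu)⟩
    ⟨k₂, u₂, hu₂, hΦ₂⟩
  obtain ⟨u₁, hu₁, hΦ₁⟩ := hk₁
  have hpred : ∀ u, Al J u → Φ (k₁ - 1) u = 0 := by
    intro u hu
    by_contra h
    have := hmin _ ⟨u, hu, h⟩
    omega
  let vv : ℤ → VJ J := fun k => ⟨res J (Φ k), res_mem J ν β X hX Φ hS k⟩
  have hvv : ∀ (k : ℤ) (u : ι → ℤ), Al J u → (vv k : (ι → ℤ) → ℂ) u = Φ k u :=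
    fun k u hu => res_pos _ hu
  have hext : ∀ φ ψ : VJ J, (∀ u, Al J u → (φ : (ι → ℤ) → ℂ) u = (ψ : (ι → ℤ) → ℂ) u) →
      φ = ψ := by
    intro φ ψ h
    refine Subtype.ext (funext fun u => ?_)
    by_cases hu : Al J u
    · exact h u hu
    · rw [φ.2.1 u hu, ψ.2.1 u hu]
  have r1 : ∀ (k : ℤ) (i : ι),
      DV i (vv k) = P (MvPowerSeries.pderiv ℂ i (ser w A)) (vv (k + 1)) := by
    intro k i
    refine hext _ _ fun u hu => ?_
    obtain ⟨Γ, hΓ1, hΓ2⟩ := ((P_pd P DV hP hν hDP hD w A i (vv (k + 1)) u hu).and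
      (hR1 k u i hu)).exists
    rw [hΓ1, hD i _ u hu]
    have h3 : -((u i : ℂ) + (ν i : ℂ)) *
        (vv k : (ι → ℤ) → ℂ) (fun j => u j - if j = i then 1 else 0) =
        -((u i : ℂ) + (ν i : ℂ)) * Φ k (fun j => u j - if j = i then 1 else 0) := by
      by_cases ha : Al J (fun j => u j - if j = i then 1 else 0)
      · rw [hvv k _ ha]
      · obtain ⟨hi, hui⟩ := al_sub J u i hu ha
        rw [hui, hν i hi]
        simp
    rw [h3, ← hΓ2]
    refine Finset.sum_congr rfl fun v _ => Finset.sum_congr rfl fun γ _ => ?_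
    have ha : Al J (fun j => u j + w v j + γ j) := al_add J _ (fun j => (γ j : ℤ))
      (fun i => Int.natCast_nonneg _) (al_add J u (fun j => (w v j : ℤ))
        (fun i => Int.natCast_nonneg _) hu)
    by_cases hb : Al J (fun j => u j + w v j + γ j - if j = i then 1 else 0)
    · rw [hvv _ _ hb]
    · obtain ⟨hi, hui⟩ := al_sub J _ i ha hb
      have hui' : u i + (w v i : ℤ) + (γ i : ℤ) = 0 := hui
      have h4 := hu i hi
      have h5 : w v i = 0 := by omega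
      have h6 : γ i = 0 := by omega
      rw [h5, h6]
      simp
  have r2 : ∀ k : ℤ, P (ser w A) (vv (k + 1)) = ((β : ℂ) - k) • vv k := by
    intro k
    refine hext _ _ fun u hu => ?_
    obtain ⟨Γ, hΓ1, hΓ2⟩ := ((P_ser P hP w A (vv (k + 1)) u hu).and (hR2 k u hu)).exists
    rw [hΓ1, Submodule.coe_smul, Pi.smul_apply, smul_eq_mul, hvv k u hu, ← hΓ2]
    refine Finset.sum_congr rfl fun v _ => Finset.sum_congr rfl fun γ _ => ?_
    have ha : Al J (fun j => u j + w v j + γ j) := al_add J _ (fun j => (γ j : ℤ))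
      (fun i => Int.natCast_nonneg _) (al_add J u (fun j => (w v j : ℤ))
        (fun i => Int.natCast_nonneg _) hu)
    rw [hvv _ _ ha]
  have hz : vv (k₁ - 1) = 0 := by
    refine hext _ _ fun u hu => ?_
    rw [hvv _ u hu, hpred u hu]
    rfl
  refine ⟨VJ J, inferInstance, inferInstance, P, DV, -k₁, fun n => vv (k₁ + n), hDD, hDP,
    ?_, ?_, ?_, ?_, ?_⟩
  · intro h
    have h' : vv (k₁ + ((0 : ℕ) : ℤ)) = 0 := h
    rw [Nat.cast_zero, add_zero] at h'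
    apply hΦ₁
    rw [← hvv k₁ u₁ hu₁, h']
    rfl
  · have h3 := r2 (k₁ - 1)
    rw [sub_add_cancel, hz, smul_zero] at h3
    show P (ser w A) (vv (k₁ + ((0 : ℕ) : ℤ))) = 0
    rw [Nat.cast_zero, add_zero, h3]
  · intro a
    have h3 := r1 (k₁ - 1) a
    rw [sub_add_cancel, hz, map_zero] at h3
    show P (MvPowerSeries.pderiv ℂ a (ser w A)) (vv (k₁ + ((0 : ℕ) : ℤ))) = 0
    rw [Nat.cast_zero, add_zero, ← h3]
  · intro n a
    have h3 := r1 (k₁ + n) a
    show DV a (vv (k₁ + (n : ℤ))) =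
      P (MvPowerSeries.pderiv ℂ a (ser w A)) (vv (k₁ + ((n + 1 : ℕ) : ℤ)))
    rw [h3]
    congr 2
    push_cast
    ring
  · intro n
    have h3 := r2 (k₁ + n)
    show P (ser w A) (vv (k₁ + ((n + 1 : ℕ) : ℤ))) =
      (((β + ((-k₁ : ℤ) : ℚ) : ℚ) : ℂ) - (n : ℂ)) • vv (k₁ + (n : ℤ))
    have h5 : (k₁ + ((n + 1 : ℕ) : ℤ)) = k₁ + (n : ℤ) + 1 := by push_cast; ring
    rw [h5, h3]
    congr 1
    push_cast
    ring

end Pool.Agent.Mono.LO
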