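import Pool.Agent.Work.Monodromy14.All14
import Pool.Agent.Work.MonodromyL.ABSL
import Pool.Agent.Work.MonodromyL.ASML
import Pool.Agent.Work.MonodromyL.BDYL
import Pool.Agent.Work.MonodromyL.CLSL
import Pool.Agent.Work.MonodromyL.CNV
import Pool.Agent.Work.MonodromyL.DCP
import Pool.Agent.Work.MonodromyL.ETA
import Pool.Agent.Work.MonodromyL.EXCHL
import Pool.Agent.Work.MonodromyL.EXD
import Pool.Agent.Work.MonodromyL.EXT
import Pool.Agent.Work.MonodromyL.FACL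
import Pool.Agent.Work.MonodromyL.GDP
import Pool.Agent.Work.MonodromyL.GDS
import Pool.Agent.Work.MonodromyL.GNRL
import Pool.Agent.Work.MonodromyL.GNX
import Pool.Agent.Work.MonodromyL.HLOC
import Pool.Agent.Work.MonodromyL.IIIL
import Pool.Agent.Work.MonodromyL.IL
import Pool.Agent.Work.MonodromyL.KFL
import Pool.Agent.Work.MonodromyL.KWL
import Pool.Agent.Work.MonodromyL.LIMBL
import Pool.Agent.Work.MonodromyL.NDR
import Pool.Agent.Work.MonodromyL.NLS
import Pool.Agent.Work.MonodromyL.PACT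
import Pool.Agent.Work.MonodromyL.POLL
import Pool.Agent.Work.MonodromyL.RST
import Pool.Agent.Work.MonodromyL.SEQL
import Pool.Agent.Work.MonodromyL.SLL
import Pool.Agent.Work.MonodromyL.SMPL
import Pool.Agent.Work.MonodromyL.SPCL
import Pool.Agent.Work.MonodromyL.SSL
import Pool.Agent.Work.MonodromyL.STN
import Pool.Agent.Work.MonodromyL.SUMKL
import Pool.Agent.Work.MonodromyL.SZL
import Pool.Agent.Work.MonodromyL.TORL
import Pool.Agent.Work.MonodromyL.TRJ
import Pool.Agent.Work.MonodromyL.TRZ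
import Pool.Agent.Work.MonodromyL.UBDL
import Pool.Agent.Work.MonodromyL.VOLL
import Pool.Agent.Work.MonodromyL.WITL

/-!
# Phase L, all blocks put together: the local theorem (helper2)
-/

set_option autoImplicit false

namespace Pool.Agent.Mono.LO

open MvPolynomial

theorem full_FACE : NP.Stmt_FACE := NP.stmt_FACE NP.stmt_MW

theorem full_TORL : Stmt_TORL := stmt_TORL NP.stmt_TOR NP.stmt_MW

theorem full_SUMKL : Stmt_SUMKL :=
  stmt_SUMKL (NP.stmt_CLS0 NP.stmt_XPD) (stmt_CLSL NP.stmt_XPD NP.stmt_TRIS)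
    (NP.stmt_CLS2 NP.stmt_XPD)

theorem full_EXCHL : Stmt_EXCHL := stmt_EXCHL full_SUMKL

theorem full_KFL : Stmt_KFL := stmt_KFL NP.full_KF13 (stmt_NDR full_FACE) stmt_RST

theorem full_KWL : Stmt_KWL := stmt_KWL NP.full_KW13 (stmt_NDR full_FACE) stmt_RST

theorem full_SMPL : Stmt_SMPL :=
  stmt_SMPL (NP.stmt_MAXC NP.stmt_VERT NP.stmt_TRI1) NP.stmt_CELI

theorem full_BDYL : Stmt_BDYL := stmt_BDYL NP.stmt_GRO NP.full_GRK NP.stmt_CELI

theorem full_LIMBL : Stmt_LIMBL := stmt_LIMBL NP.stmt_RA full_EXCHL NP.full_GRK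

theorem full_FACL : Stmt_FACL :=
  stmt_FACL full_KFL full_KWL full_SMPL full_BDYL NP.full_GRK NP.stmt_CELI

theorem full_IL : Stmt_IL :=
  stmt_IL full_LIMBL full_FACL NP.full_JC (NP.stmt_GENR NP.full_DUAL) NP.full_REL

theorem full_HLOC : Stmt_HLOC := stmt_HLOC NP.stmt_MW

theorem full_TRJ : Stmt_TRJ := stmt_TRJ stmt_VOLL

theorem full_EXT : Stmt_EXT := stmt_EXT full_SUMKL

theorem full_TRZ : Stmt_TRZ := stmt_TRZ full_TRJ full_EXT

theorem full_GNX : Stmt_GNX := stmt_GNX stmt_EXD stmt_GNRL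

theorem full_SPCL : Stmt_SPCL :=
  stmt_SPCL (stmt_UBDL NP.stmt_MW NP.stmt_GOR (stmt_ABSL (stmt_NLS full_TORL))) stmt_CNV
    (stmt_SEQL (NP.stmt_SEQ NP.stmt_KG))

theorem full_IIIL : Stmt_IIIL := stmt_IIIL full_GNX full_SPCL (stmt_WITL stmt_PACT) stmt_ETA

theorem full_GDP : Stmt_GDP := stmt_GDP C9.rnk9 C9.gen9 C9.vgg9 C9.spc9

theorem full_POLL : Stmt_POLL := stmt_POLL stmt_VOLL

theorem full_STN : Stmt_STN := stmt_STN (stmt_SSL (stmt_SLL stmt_SZL))

/-- the local theorem -/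
theorem loc_good (E : EulerMeasure) {ι : Type} [Fintype ι] [DecidableEq ι]
    (f : MvPolynomial ι ℂ) (hf : f.totalDegree ≠ 0)
    (hc : ∀ p ∈ SP.Crit0 f, Fintype.card ι ≤ (SP.Hs f p).rank + 2 ∨ (∃ r, RO.SQAt f p r) ∨
      IsStablyNondegenerateAt f p) (p : ι → ℂ)
    (e : ℕ) (he : 1 ≤ e) (R : RatFunc ℚ) (hR : IsTwTopZetaAt E.toHodgeMeasure f p e R) :
    GPo f R :=
  loc_all stmt_DCP full_HLOC full_TRZ full_IL full_IIIL full_STN full_GDP stmt_GDS full_POLL E f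
    hf hc p e he R hR

end Pool.Agent.Mono.LO
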