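import Pool.Agent.Work.Monodromy.InterfaceL
import Pool.Agent.Work.Monodromy12.LIMA12

/-!
# Phase L, block FACL: the limit of the sum over the compact faces
(helper51, from LIMA13 of helper28 and LIMA12 of helper2)
-/

set_option autoImplicit false

namespace Pool.Agent.Mono.LO

open MvPolynomial Filter Topology NP

namespace FACLAux

open LIMAAux

variable {ι κ : Type} [Fintype ι] [DecidableEq ι] [Fintype κ] [DecidableEq κ]

open Classical in
/-- the sum over the positive `k` of a face, as a sum over all `k` -/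
theorem SFp_eq (w : κ → ι → ℕ) (s : ℕ) (F : Finset κ) (ε : ℝ) :
    SFp w s F ε = ∑' k : ι → ℕ, if (∀ i, 1 ≤ k i) ∧ fc w k = F then ex w s ε k else 0 := by
  have := tsum_subtype {k : ι → ℕ | (∀ i, 1 ≤ k i) ∧ fc w k = F} (fun k : ι → ℕ => ex w s ε k)
  rw [show SFp w s F ε = ∑' k : {k : ι → ℕ | (∀ i, 1 ≤ k i) ∧ fc w k = F}, ex w s ε k from rfl,
    this]
  refine tsum_congr fun k => ?_
  simp only [Set.indicator_apply, Set.mem_ofPred_eq]

open Classical in
theorem SFp_term_le (w : κ → ι → ℕ) (s : ℕ) (F : Finset κ) (ε : ℝ) (k : ι → ℕ) :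
    (if (∀ i, 1 ≤ k i) ∧ fc w k = F then ex w s ε k else 0) ≤
      if fc w k = F then ex w s ε k else 0 := by
  by_cases h : fc w k = F
  · rw [if_pos h]
    split_ifs
    · exact le_rfl
    · exact (ex_pos _ _ _ _).le
  · rw [if_neg h, if_neg fun h' => h h'.2]

open Classical in
theorem summ_pos [Nonempty κ] (hG : Stmt_GRK) (w : κ → ι → ℕ) (s : ℕ) (F : Finset κ)
    (ε : ℝ) (hε : 0 < ε) :
    Summable fun k : ι → ℕ => if (∀ i, 1 ≤ k i) ∧ fc w k = F then ex w s ε k else 0 := by
  refine Summable.of_nonneg_of_le (fun k => ?_) (fun k => SFp_term_le w s F ε k)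
    (summ_eq hG w s F ε hε)
  split_ifs
  · exact (ex_pos _ _ _ _).le
  · exact le_rfl

theorem SFp_nonneg (w : κ → ι → ℕ) (s : ℕ) (F : Finset κ) (ε : ℝ) : 0 ≤ SFp w s F ε :=
  tsum_nonneg fun _ => (Real.exp_pos _).le

theorem SFp_le_SF [Nonempty κ] (hG : Stmt_GRK) (w : κ → ι → ℕ) (s : ℕ) (F : Finset κ)
    (ε : ℝ) (hε : 0 < ε) : SFp w s F ε ≤ SF w s F ε := by
  classical
  rw [SFp_eq, SF]
  exact Summable.tsum_le_tsum (fun k => SFp_term_le w s F ε k) (summ_pos hG w s F ε hε)
    (summ_eq hG w s F ε hε)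

theorem SFp_zero (w : κ → ι → ℕ) (s : ℕ) (F : Finset κ) (ε : ℝ)
    (h : ∀ k : ι → ℕ, (∀ i, 1 ≤ k i) → fc w k ≠ F) : SFp w s F ε = 0 := by
  classical
  rw [SFp_eq]
  have : (fun k : ι → ℕ => if (∀ i, 1 ≤ k i) ∧ fc w k = F then ex w s ε k else 0) =
      fun _ => 0 := by
    funext k
    rw [if_neg fun h' => h k h'.1 h'.2]
  rw [this, tsum_zero]

/-- growth -/
theorem SFp_bound [Nonempty κ] (hG : Stmt_GRK) (w : κ → ι → ℕ) (s : ℕ) (F : Finset κ)
    (hF : F.Nonempty) : ∃ A : ℝ, ∀ ε : ℝ, 0 < ε → ε ≤ 1 →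
      |ε ^ (Fintype.card ι + 1 - rk w F) * SFp w s F ε| ≤ A := by
  obtain ⟨A, hA⟩ := SF_bound hG w s F hF
  refine ⟨A, fun ε h0 h1 => le_trans ?_ (hA ε h0 h1)⟩
  rw [abs_of_nonneg (mul_nonneg (pow_nonneg h0.le _) (SFp_nonneg _ _ _ _)),
    abs_of_nonneg (mul_nonneg (pow_nonneg h0.le _) (SF_nonneg _ _ _ _))]
  exact mul_le_mul_of_nonneg_left (SFp_le_SF hG w s F ε h0) (pow_nonneg h0.le _)

theorem rk_mono (w : κ → ι → ℕ) {F G : Finset κ} (h : F ⊆ G) : rk w F ≤ rk w G := by
  rw [rk, rk]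
  exact Submodule.finrank_mono (Submodule.span_mono (Set.image_mono (by exact_mod_cast h)))

/-- a cell which spans a face spans a compact face -/
theorem exists_pos [Nonempty κ] (hCE : Stmt_CELI) (w : κ → ι → ℕ) (h : κ → ℝ)
    (hh : LinearIndependent ℚ h) (hcpt : Cpt w h) (C : Finset κ) (hC : C ∈ cls0 w h)
    (k : ι → ℕ) (hk : C ⊆ fc w k) (hr : rk w (fc w k) = C.card) :
    ∃ k' : ι → ℕ, (∀ i, 1 ≤ k' i) ∧ C ⊆ fc w k' ∧ rk w (fc w k') = C.card := by
  classical
  have hi := cls0_indep hCE w h hh C hC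
  obtain ⟨-, hne, Δ, hΔ, hCΔ⟩ := Finset.mem_filter.1 hC
  obtain ⟨-, -, x, hx, rfl⟩ := Finset.mem_filter.1 hΔ
  obtain ⟨k₁, hk₁, hk₁'⟩ := hcpt x hx
  have hC1 : C ⊆ fc w k₁ := by
    intro c hc
    refine hk₁' c ?_
    have h2 : Sum.inl c ∈ cell w h x := hCΔ (by
      rw [inl, Finset.mem_map]
      exact ⟨c, hc, rfl⟩)
    rw [cell, Finset.mem_filter] at h2
    exact h2.2
  have hadd : ∀ a, kw w (k + k₁) a = kw w k a + kw w k₁ a := by
    intro a
    simp only [kw, Pi.add_apply, add_mul, Finset.sum_add_distrib]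
  have hmem : ∀ (q : ι → ℕ) (a : κ), a ∈ fc w q ↔ ∀ b, kw w q a ≤ kw w q b := by
    intro q a
    rw [fc, Finset.mem_filter]
    exact ⟨fun h => h.2, fun h => ⟨Finset.mem_univ _, h⟩⟩
  have hsub : C ⊆ fc w (k + k₁) := by
    intro c hc
    rw [hmem]
    intro b
    rw [hadd, hadd]
    exact add_le_add ((hmem k c).1 (hk hc) b) ((hmem k₁ c).1 (hC1 hc) b)
  have hsub2 : fc w (k + k₁) ⊆ fc w k := by
    intro a ha
    obtain ⟨c, hc⟩ := hne
    rw [hmem]
    intro b
    have h1 := (hmem _ a).1 ha c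
    rw [hadd, hadd] at h1
    have h2 := (hmem k c).1 (hk hc) b
    have h3 := (hmem k₁ c).1 (hC1 hc) a
    omega
  refine ⟨k + k₁, fun i => ?_, hsub, le_antisymm ?_ (rk_ge w _ C hi hsub)⟩
  · rw [Pi.add_apply]
    exact le_trans (hk₁ i) (Nat.le_add_left _ _)
  · rw [← hr]
    exact rk_mono w hsub2

end FACLAux

open LIMAAux FACLAux in
theorem stmt_FACL (hKF : Stmt_KFL) (hKW : Stmt_KWL) (hSMP : Stmt_SMPL) (hBDY : Stmt_BDYL)
    (hGRK : NP.Stmt_GRK) (hCELI : NP.Stmt_CELI) : Stmt_FACL := by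
  classical
  intro E ι κ _ _ _ _ _ w a h e s J hinj ha hh hcpt he hJ
  -- the coefficients
  set x : Finset κ → ℝ := fun C => (-1) ^ (C.card + 1) * ((nuE w e C : ℝ) -
    (if e = 1 ∧ 2 ≤ C.card then (nuE w 1 C : ℝ) / (1 + s) else 0)) with hx
  -- the limit of the sum over a face
  have hlim : ∀ C ∈ cls0 w h, ∀ k : ι → ℕ, (∀ i, 1 ≤ k i) → C ⊆ fc w k →
      rk w (fc w k) = C.card → Tendsto (fun ε : ℝ => ε ^ (Fintype.card ι + 1 - rk w (fc w k)) *
        SFp w s (fc w k) ε) (𝓝[>] 0) (𝓝 (J C)) := by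
    intro C hC k hk hCk hr
    rw [hr]
    exact hBDY ι κ w h hh s C hC k hk hCk hr (J C) (hJ C hC)
  -- the limit of the contribution of a face
  have key : ∀ F : Finset κ, Tendsto (fun ε : ℝ => SFp w s F ε *
      BrL E.toHodgeMeasure w a e s F ε) (𝓝[>] 0)
      (𝓝 (if (∃ k : ι → ℕ, (∀ i, 1 ≤ k i) ∧ fc w k = F) then ∑ C ∈ smp w h F, x C * J C
        else 0)) := by
    intro F
    by_cases hF : ∃ k : ι → ℕ, (∀ i, 1 ≤ k i) ∧ fc w k = F
    swap
    · rw [if_neg hF]
      have : (fun ε : ℝ => SFp w s F ε * BrL E.toHodgeMeasure w a e s F ε) = fun _ => 0 := by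
        funext ε
        rw [SFp_zero w s F ε fun k h1 h2 => hF ⟨k, h1, h2⟩, zero_mul]
      rw [this]
      exact tendsto_const_nhds
    rw [if_pos hF]
    obtain ⟨k, hk, rfl⟩ := hF
    have hne := fc_nonempty w k
    obtain ⟨q, hq1, hq2, hq3⟩ := hKF E ι κ w a h k hk hinj ha hh
    have hW : ∀ d : ℕ, ∃ q : Polynomial ℤ, 1 ≤ d → (E.val (WF w a d (fc w k)) =
        (Polynomial.X - 1) ^ (Fintype.card ι + 1 - rk w (fc w k)) * q ∧
      q.eval 1 = (-1) ^ (rk w (fc w k) + 1) *
        ∑ C ∈ smp w h (fc w k), ∑ e ∈ d.divisors, (nuE w e C : ℤ)) := by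
      intro d
      by_cases hd : 1 ≤ d
      · obtain ⟨q, hq⟩ := hKW E ι κ w a h k d hk hd hinj ha hh
        exact ⟨q, fun _ => hq⟩
      · exact ⟨0, fun h => absurd h hd⟩
    choose qd hqd using hW
    set m := Fintype.card ι + 1 - rk w (fc w k) with hm
    -- the limit of the bracket
    have hG : Tendsto (fun ε : ℝ => ∑ d ∈ e.divisors,
        ((ArithmeticFunction.moebius (e / d) : ℤ) : ℝ) *
          (Polynomial.aeval (Real.exp ε) (qd d) + Polynomial.aeval (Real.exp ε) q *
            ((Real.exp ε - 1) / (Real.exp ε ^ (s + 1) - 1)))) (𝓝[>] 0)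
        (𝓝 (∑ C ∈ smp w h (fc w k), x C)) := by
      have h1 : Tendsto (fun ε : ℝ => ∑ d ∈ e.divisors,
        ((ArithmeticFunction.moebius (e / d) : ℤ) : ℝ) *
          (Polynomial.aeval (Real.exp ε) (qd d) + Polynomial.aeval (Real.exp ε) q *
            ((Real.exp ε - 1) / (Real.exp ε ^ (s + 1) - 1)))) (𝓝[>] 0)
        (𝓝 (∑ d ∈ e.divisors, ((ArithmeticFunction.moebius (e / d) : ℤ) : ℝ) *
          ((((qd d).eval 1 : ℤ) : ℝ) + ((q.eval 1 : ℤ) : ℝ) * (1 / (1 + (s : ℝ)))))) :=
        tendsto_finsetSum _ fun d _ =>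
          ((tendsto_aeval _).add ((tendsto_aeval _).mul (tendsto_quot2 s))).const_mul _
      have h2 : (∑ d ∈ e.divisors, ((ArithmeticFunction.moebius (e / d) : ℤ) : ℝ) *
          ((((qd d).eval 1 : ℤ) : ℝ) + ((q.eval 1 : ℤ) : ℝ) * (1 / (1 + (s : ℝ))))) =
          ∑ C ∈ smp w h (fc w k), x C := by
        have h3 : ∑ d ∈ e.divisors, ArithmeticFunction.moebius (e / d) * (qd d).eval 1 =
            (-1) ^ (rk w (fc w k) + 1) * ∑ C ∈ smp w h (fc w k), (nuE w e C : ℤ) := by
          have h4 : ∀ C, (nuE w e C : ℤ) = ∑ d ∈ e.divisors,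
              ArithmeticFunction.moebius (e / d) * ∑ i ∈ d.divisors, (nuE w i C : ℤ) :=
            fun C => (moebius_sum e he fun i => (nuE w i C : ℤ)).symm
          simp only [h4]
          rw [Finset.sum_comm, Finset.mul_sum]
          refine Finset.sum_congr rfl fun d hd => ?_
          rw [(hqd d (Nat.pos_of_mem_divisors hd)).2, ← Finset.mul_sum]
          ring
        have h5 : (∑ d ∈ e.divisors, ((ArithmeticFunction.moebius (e / d) : ℤ) : ℝ) *
            ((((qd d).eval 1 : ℤ) : ℝ) + ((q.eval 1 : ℤ) : ℝ) * (1 / (1 + (s : ℝ))))) =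
            ((∑ d ∈ e.divisors, ArithmeticFunction.moebius (e / d) * (qd d).eval 1 : ℤ) : ℝ) +
              ((∑ d ∈ e.divisors, ArithmeticFunction.moebius (e / d) : ℤ) : ℝ) *
                ((q.eval 1 : ℤ) : ℝ) * (1 / (1 + (s : ℝ))) := by
          push_cast
          rw [Finset.sum_mul, Finset.sum_mul, ← Finset.sum_add_distrib]
          exact Finset.sum_congr rfl fun d _ => by ring
        rw [h5, h3, moebius_one e he]
        have hcard : ∀ C ∈ smp w h (fc w k), C.card = rk w (fc w k) := fun C hC =>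
          (Finset.mem_filter.1 hC).2.1
        by_cases he1 : e = 1
        · by_cases hr2 : 2 ≤ rk w (fc w k)
          · rw [if_pos he1, hq3 hr2]
            push_cast
            rw [Finset.mul_sum, Finset.mul_sum, Finset.mul_sum, Finset.sum_mul,
              ← Finset.sum_add_distrib]
            refine Finset.sum_congr rfl fun C hC => ?_
            rw [hx]
            simp only
            rw [hcard C hC, if_pos ⟨he1, hr2⟩, he1]
            ring
          · have hr1 : rk w (fc w k) = 1 ∨ rk w (fc w k) = 0 := by omega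
            rcases hr1 with hr1 | hr1
            · rw [if_pos he1, hq2 hr1]
              push_cast
              rw [Finset.mul_sum]
              simp only [Polynomial.eval_zero, Int.cast_zero, mul_zero, zero_mul, add_zero]
              refine Finset.sum_congr rfl fun C hC => ?_
              rw [hx]
              simp only
              rw [hcard C hC, if_neg (fun hh => hr2 hh.2), sub_zero]
            · exfalso
              obtain ⟨b, hb⟩ := hne
              have h6 := rk_ge w (fc w k) {b} (by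
                refine LinearIndependent.of_subsingleton (v := fun a : ({b} : Finset κ) =>
                  hat w (Sum.inl (a : κ))) ⟨b, Finset.mem_singleton_self b⟩ ?_
                intro h0
                have := congrFun h0 (Sum.inr ())
                simp [hat] at this) (by simpa using hb)
              rw [Finset.card_singleton] at h6
              omega
        · rw [if_neg he1]
          push_cast
          rw [zero_mul, zero_mul, add_zero, Finset.mul_sum]
          refine Finset.sum_congr rfl fun C hC => ?_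
          rw [hx]
          simp only
          rw [hcard C hC, if_neg (fun hh => he1 hh.1), sub_zero]
      rw [h2] at h1
      exact h1
    -- the limit of the product
    have hprod : Tendsto (fun ε : ℝ => (ε ^ m * SFp w s (fc w k) ε) *
        (((Real.exp ε - 1) / ε) ^ m * ∑ d ∈ e.divisors,
        ((ArithmeticFunction.moebius (e / d) : ℤ) : ℝ) *
          (Polynomial.aeval (Real.exp ε) (qd d) + Polynomial.aeval (Real.exp ε) q *
            ((Real.exp ε - 1) / (Real.exp ε ^ (s + 1) - 1))))) (𝓝[>] 0)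
        (𝓝 (∑ C ∈ smp w h (fc w k), x C * J C)) := by
      have hbr : Tendsto (fun ε : ℝ => (((Real.exp ε - 1) / ε) ^ m * ∑ d ∈ e.divisors,
        ((ArithmeticFunction.moebius (e / d) : ℤ) : ℝ) *
          (Polynomial.aeval (Real.exp ε) (qd d) + Polynomial.aeval (Real.exp ε) q *
            ((Real.exp ε - 1) / (Real.exp ε ^ (s + 1) - 1))))) (𝓝[>] 0)
          (𝓝 (∑ C ∈ smp w h (fc w k), x C)) := by
        have := (tendsto_quot.pow m).mul hG
        rwa [one_pow, one_mul] at this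
      rcases (smp w h (fc w k)).eq_empty_or_nonempty with hemp | ⟨C₀, hC₀⟩
      · rw [hemp] at hbr ⊢
        rw [Finset.sum_empty] at hbr ⊢
        obtain ⟨A, hA⟩ := SFp_bound hGRK w s (fc w k) hne
        have hb : ∀ᶠ ε in 𝓝[>] (0 : ℝ), ‖ε ^ m * SFp w s (fc w k) ε‖ ≤ A := by
          filter_upwards [ev_Ioc] with ε hε
          exact hA ε hε.1 hε.2
        exact bdd_le_mul_tendsto_zero' A hb hbr
      · have hS := (hSMP ι κ w h hh k hk C₀).1 hC₀
        have hl := hlim C₀ hS.1 k hk hS.2.1 hS.2.2.symm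
        have h1 := hl.mul hbr
        rw [Finset.mul_sum] at h1
        have h2 : ∑ C ∈ smp w h (fc w k), J C₀ * x C = ∑ C ∈ smp w h (fc w k), x C * J C := by
          refine Finset.sum_congr rfl fun C hC => ?_
          have hS' := (hSMP ι κ w h hh k hk C).1 hC
          have hl' := hlim C hS'.1 k hk hS'.2.1 hS'.2.2.symm
          rw [tendsto_nhds_unique hl hl', mul_comm]
        rw [h2] at h1
        exact h1
    refine hprod.congr' ?_
    filter_upwards [ev_Ioc] with ε hε
    have hε0 : ε ≠ 0 := hε.1.ne'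
    have h1 : ∀ d ∈ e.divisors, ((ArithmeticFunction.moebius (e / d) : ℤ) : ℝ) *
        (Polynomial.aeval (Real.exp ε) (E.val (WF w a d (fc w k))) +
          Polynomial.aeval (Real.exp ε) (E.val (VF w a (fc w k))) *
            ((Real.exp ε - 1) / (Real.exp ε ^ (s + 1) - 1))) =
        (Real.exp ε - 1) ^ m * (((ArithmeticFunction.moebius (e / d) : ℤ) : ℝ) *
          (Polynomial.aeval (Real.exp ε) (qd d) + Polynomial.aeval (Real.exp ε) q *
            ((Real.exp ε - 1) / (Real.exp ε ^ (s + 1) - 1)))) := by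
      intro d hd
      rw [(hqd d (Nat.pos_of_mem_divisors hd)).1, hq1]
      simp only [map_mul, map_pow, map_sub, Polynomial.aeval_X, map_one]
      ring
    rw [BrL, Finset.sum_congr rfl h1, ← Finset.mul_sum, div_pow]
    field_simp
  -- the sum over all faces
  have hT := tendsto_finsetSum (Finset.univ : Finset (Finset κ)) fun F _ => key F
  suffices hfin : (∑ F : Finset κ, if (∃ k : ι → ℕ, (∀ i, 1 ≤ k i) ∧ fc w k = F) then
      ∑ C ∈ smp w h F, x C * J C else 0) = ∑ C ∈ cls0 w h, x C * J C by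
    rw [hfin] at hT
    exact hT
  rw [← Finset.sum_filter]
  -- exchange of the sums
  have h1 : ∀ F ∈ (Finset.univ : Finset (Finset κ)).filter
      (fun F => ∃ k : ι → ℕ, (∀ i, 1 ≤ k i) ∧ fc w k = F),
      ∑ C ∈ smp w h F, x C * J C =
        ∑ C ∈ cls0 w h, if C ∈ smp w h F then x C * J C else 0 := by
    intro F hF
    obtain ⟨k, hk, rfl⟩ := (Finset.mem_filter.1 hF).2
    rw [← Finset.sum_filter]
    refine Finset.sum_congr ?_ fun _ _ => rfl
    ext C
    rw [Finset.mem_filter]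
    exact ⟨fun hC => ⟨((hSMP ι κ w h hh k hk C).1 hC).1, hC⟩, fun hC => hC.2⟩
  rw [Finset.sum_congr rfl h1, Finset.sum_comm]
  refine Finset.sum_congr rfl fun C hC => ?_
  have hi := cls0_indep hCELI w h hh C hC
  by_cases hk : ∃ k, C ⊆ fc w k ∧ rk w (fc w k) = C.card
  · obtain ⟨k₀, hk01, hk02⟩ := hk
    obtain ⟨k, hk0, hk1, hk2⟩ := exists_pos hCELI w h hh hcpt C hC k₀ hk01 hk02
    rw [Finset.sum_eq_single (fc w k)]
    · rw [if_pos ((hSMP ι κ w h hh k hk0 C).2 ⟨hC, hk1, hk2.symm⟩)]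
    · intro F hF hFne
      obtain ⟨k', hk', rfl⟩ := (Finset.mem_filter.1 hF).2
      rw [if_neg]
      intro hCk'
      have hS := (hSMP ι κ w h hh k' hk' C).1 hCk'
      exact hFne (Finset.Subset.antisymm (face_unique w k' k C hi hS.2.1 hk1 hS.2.2.symm)
        (face_unique w k k' C hi hk1 hS.2.1 hk2))
    · intro hno
      exact absurd (Finset.mem_filter.2 ⟨Finset.mem_univ _, k, hk0, rfl⟩) hno
  · have hJ0 : J C = 0 := lim_zero hGRK hCELI w h hh s C hC
      (fun k h1 h2 => hk ⟨k, h1, h2⟩) (J C) (hJ C hC)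
    rw [hJ0, mul_zero]
    refine Finset.sum_eq_zero fun F _ => ?_
    rw [ite_self]

end Pool.Agent.Mono.LO
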