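import Pool.Agent.Work.Monodromy.InterfaceL

/-! # Block PACT (helper55) -/

set_option autoImplicit false
set_option linter.unusedSectionVars false

namespace Pool.Agent.Mono.LO

open MvPolynomial Filter Topology NP

namespace PACTLAux

variable {ι : Type}

/-- `u + γ` -/
def sh (u : ι → ℤ) (γ : ι →₀ ℕ) : ι → ℤ := fun j => u j + γ j

lemma sh_sh (u : ι → ℤ) (α β : ι →₀ ℕ) : sh (sh u α) β = sh u (α + β) := by
  funext j
  simp [sh, add_assoc]

lemma sh_zero (u : ι → ℤ) : sh u 0 = u := by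
  funext j
  simp [sh]

section

variable [Fintype ι] [DecidableEq ι] {J : Finset ι}

lemma al_sh {u : ι → ℤ} (hu : Al J u) (γ : ι →₀ ℕ) : Al J (sh u γ) := by
  intro j hj
  have h1 := hu j hj
  have h2 : (0 : ℤ) ≤ (γ j : ℤ) := Int.natCast_nonneg _
  simp only [sh]
  omega

lemma vj_zero (φ : VJ J) {u : ι → ℤ} (hu : ¬ Al J u) : (φ : (ι → ℤ) → ℂ) u = 0 := φ.2.1 u hu

lemma vj_fin (φ : VJ J) {u : ι → ℤ} (hu : Al J u) :
    {γ : ι →₀ ℕ | (φ : (ι → ℤ) → ℂ) (sh u γ) ≠ 0}.Finite := φ.2.2 u hu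

lemma fin_all (φ : VJ J) (u : ι → ℤ) :
    {γ : ι →₀ ℕ | (φ : (ι → ℤ) → ℂ) (sh u γ) ≠ 0}.Finite := by
  classical
  set u' : ι → ℤ := fun j => if j ∈ J then u j else max (u j) 0 with hu'
  have hal : Al J u' := by
    intro j hj
    simp only [hu', if_neg hj]
    exact le_max_right _ _
  set c : ι →₀ ℕ := Finsupp.equivFunOnFinite.symm fun j => (u' j - u j).toNat with hc
  have hcj : ∀ j, ((c j : ℕ) : ℤ) = u' j - u j := by
    intro j
    have : 0 ≤ u' j - u j := by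
      simp only [hu']
      split_ifs
      · simp
      · have := le_max_left (u j) 0
        omega
    simp only [hc, Finsupp.equivFunOnFinite_symm_apply_apply]
    exact Int.toNat_of_nonneg this
  refine ((vj_fin φ hal).image fun γ => γ + c).subset ?_
  intro γ hγ
  simp only [Set.mem_ofPred_eq] at hγ
  have hA : Al J (sh u γ) := by
    by_contra h
    exact hγ (vj_zero φ h)
  have hle : c ≤ γ := by
    intro j
    have h1 := hcj j
    by_cases hj : j ∈ J
    · simp only [hu', if_pos hj, sub_self] at h1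
      have : c j = 0 := by exact_mod_cast h1
      rw [this]
      exact Nat.zero_le _
    · simp only [hu', if_neg hj] at h1
      have h2 := hA j hj
      simp only [sh] at h2
      rcases max_cases (u j) 0 with ⟨h3, _⟩ | ⟨h3, _⟩
      · rw [h3] at h1
        omega
      · rw [h3] at h1
        omega
  refine ⟨γ - c, ?_, tsub_add_cancel_of_le hle⟩
  simp only [Set.mem_ofPred_eq]
  have : sh u' (γ - c) = sh u γ := by
    funext j
    have h1 := hcj j
    have h2 : ((γ - c) j : ℕ) = γ j - c j := by simp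
    have h3 := hle j
    simp only [sh]
    rw [h2, Nat.cast_sub h3, h1]
    ring
  rw [this]
  exact hγ

lemma exT (φ : VJ J) (u : ι → ℤ) : ∃ T : Finset (ι →₀ ℕ),
    (∀ γ, (φ : (ι → ℤ) → ℂ) (sh u γ) ≠ 0 → γ ∈ T) ∧ ∀ γ ∈ T, ∀ γ' ≤ γ, γ' ∈ T := by
  classical
  refine ⟨(fin_all φ u).toFinset.biUnion fun η => (Set.finite_Iic η).toFinset, ?_, ?_⟩
  · intro γ hγ
    rw [Finset.mem_biUnion]
    refine ⟨γ, ?_, ?_⟩
    · rw [Set.Finite.mem_toFinset]
      exact hγ
    · rw [Set.Finite.mem_toFinset]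
      exact le_refl γ
  · intro γ hγ γ' hle
    rw [Finset.mem_biUnion] at hγ ⊢
    obtain ⟨η, h1, h2⟩ := hγ
    refine ⟨η, h1, ?_⟩
    rw [Set.Finite.mem_toFinset] at h2 ⊢
    exact le_trans hle h2

/-- the action of a power series on a function -/
noncomputable def raw (g : MvPowerSeries ι ℂ) (φ : (ι → ℤ) → ℂ) (u : ι → ℤ) : ℂ :=
  ∑ᶠ γ : ι →₀ ℕ, MvPowerSeries.coeff γ g * φ (sh u γ)

lemma raw_eq (g : MvPowerSeries ι ℂ) (φ : (ι → ℤ) → ℂ) (u : ι → ℤ) (T : Finset (ι →₀ ℕ))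
    (hT : ∀ γ, φ (sh u γ) ≠ 0 → γ ∈ T) :
    raw g φ u = ∑ γ ∈ T, MvPowerSeries.coeff γ g * φ (sh u γ) := by
  refine finsum_eq_sum_of_support_subset _ ?_
  intro γ hγ
  rw [Function.mem_support] at hγ
  exact hT γ (right_ne_zero_of_mul hγ)

lemma raw_zero (g : MvPowerSeries ι ℂ) (φ : (ι → ℤ) → ℂ) (u : ι → ℤ)
    (h : ∀ γ, φ (sh u γ) = 0) : raw g φ u = 0 := by
  rw [raw_eq g φ u ∅ (fun γ hγ => absurd (h γ) hγ), Finset.sum_empty]

/-- the action, cut off to the allowed exponents -/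
noncomputable def pf (J : Finset ι) (g : MvPowerSeries ι ℂ) (φ : (ι → ℤ) → ℂ) (u : ι → ℤ) : ℂ :=
  open Classical in if Al J u then raw g φ u else 0

lemma pf_pos (g : MvPowerSeries ι ℂ) (φ : (ι → ℤ) → ℂ) {u : ι → ℤ} (hu : Al J u) :
    pf J g φ u = raw g φ u := by
  unfold pf
  rw [if_pos hu]

lemma pf_neg (g : MvPowerSeries ι ℂ) (φ : (ι → ℤ) → ℂ) {u : ι → ℤ} (hu : ¬ Al J u) :
    pf J g φ u = 0 := by
  unfold pf
  rw [if_neg hu]

lemma pf_mem (g : MvPowerSeries ι ℂ) (φ : VJ J) : pf J g (φ : (ι → ℤ) → ℂ) ∈ VJ J := by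
  refine ⟨fun u hu => pf_neg g _ hu, fun u hu => ?_⟩
  obtain ⟨T, h1, h2⟩ := exT φ u
  refine T.finite_toSet.subset ?_
  intro γ hγ
  by_contra hc
  apply hγ
  change pf J g (φ : (ι → ℤ) → ℂ) (sh u γ) = 0
  rw [pf_pos g _ (al_sh hu γ)]
  apply raw_zero
  intro δ
  rw [sh_sh]
  by_contra h3
  exact hc (h2 _ (h1 _ h3) γ (le_self_add))

/-- the derivation -/
noncomputable def df (J : Finset ι) (ν : ι → ℚ) (i : ι) (φ : (ι → ℤ) → ℂ) (u : ι → ℤ) : ℂ :=
  open Classical in if Al J u then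
    -((u i : ℂ) + (ν i : ℂ)) * φ (fun j => u j - if j = i then 1 else 0) else 0

lemma df_pos (ν : ι → ℚ) (i : ι) (φ : (ι → ℤ) → ℂ) {u : ι → ℤ} (hu : Al J u) :
    df J ν i φ u = -((u i : ℂ) + (ν i : ℂ)) * φ (fun j => u j - if j = i then 1 else 0) := by
  unfold df
  rw [if_pos hu]

lemma df_neg (ν : ι → ℚ) (i : ι) (φ : (ι → ℤ) → ℂ) {u : ι → ℤ} (hu : ¬ Al J u) :
    df J ν i φ u = 0 := by
  unfold df
  rw [if_neg hu]

/-- `u - e_i` -/
def dn (i : ι) (u : ι → ℤ) : ι → ℤ := fun j => u j - if j = i then 1 else 0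

lemma dn_sh (i : ι) (u : ι → ℤ) (γ : ι →₀ ℕ) : dn i (sh u γ) = sh (dn i u) γ := by
  funext j
  simp only [dn, sh]
  ring

lemma dn_dn (i j : ι) (u : ι → ℤ) : dn i (dn j u) = dn j (dn i u) := by
  funext l
  simp only [dn]
  ring

lemma df_mem (ν : ι → ℚ) (i : ι) (φ : VJ J) : df J ν i (φ : (ι → ℤ) → ℂ) ∈ VJ J := by
  refine ⟨fun u hu => df_neg ν i _ hu, fun u hu => ?_⟩
  refine (fin_all φ (dn i u)).subset ?_
  intro γ hγ
  simp only [Set.mem_ofPred_eq] at hγ ⊢
  intro hc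
  apply hγ
  change df J ν i (φ : (ι → ℤ) → ℂ) (sh u γ) = 0
  rw [df_pos ν i _ (al_sh hu γ)]
  change -(((sh u γ) i : ℂ) + (ν i : ℂ)) * (φ : (ι → ℤ) → ℂ) (dn i (sh u γ)) = 0
  rw [dn_sh, hc, mul_zero]

/-- in the allowed case, also when `u - e_i` is not allowed -/
lemma dn_al {ν : ι → ℚ} (hν : ∀ i, i ∉ J → ν i = 0) (i : ι) {u : ι → ℤ} (hu : Al J u)
    (h : ¬ Al J (dn i u)) : (u i : ℂ) + (ν i : ℂ) = 0 := by
  unfold Al at h
  push Not at h
  obtain ⟨j, hj, h1⟩ := h
  have h2 := hu j hj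
  simp only [dn] at h1
  by_cases hji : j = i
  · subst hji
    simp only [if_true] at h1
    have : u j = 0 := by omega
    rw [this, hν j hj]
    simp
  · rw [if_neg hji] at h1
    omega

/-- the module endomorphism of a power series -/
noncomputable def P1 (J : Finset ι) (g : MvPowerSeries ι ℂ) : Module.End ℂ (VJ J) where
  toFun φ := ⟨pf J g (φ : (ι → ℤ) → ℂ), pf_mem g φ⟩
  map_add' φ ψ := by
    apply Subtype.ext
    funext u
    change pf J g ((φ + ψ : VJ J) : (ι → ℤ) → ℂ) u = pf J g φ u + pf J g ψ u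
    by_cases hu : Al J u
    · rw [pf_pos _ _ hu, pf_pos _ _ hu, pf_pos _ _ hu]
      classical
      obtain ⟨T, hT, -⟩ := exT φ u
      obtain ⟨T', hT', -⟩ := exT ψ u
      rw [raw_eq g φ u (T ∪ T') (fun γ h => Finset.mem_union_left _ (hT γ h)),
        raw_eq g ψ u (T ∪ T') (fun γ h => Finset.mem_union_right _ (hT' γ h)),
        raw_eq g _ u (T ∪ T') ?_, ← Finset.sum_add_distrib]
      · refine Finset.sum_congr rfl fun γ _ => ?_
        rw [Submodule.coe_add, Pi.add_apply, mul_add]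
      · intro γ h
        rw [Submodule.coe_add, Pi.add_apply] at h
        by_contra hc
        rw [Finset.mem_union, not_or] at hc
        have h1 : (φ : (ι → ℤ) → ℂ) (sh u γ) = 0 := by
          by_contra h'
          exact hc.1 (hT γ h')
        have h2 : (ψ : (ι → ℤ) → ℂ) (sh u γ) = 0 := by
          by_contra h'
          exact hc.2 (hT' γ h')
        rw [h1, h2, add_zero] at h
        exact h rfl
    · rw [pf_neg _ _ hu, pf_neg _ _ hu, pf_neg _ _ hu, add_zero]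
  map_smul' c φ := by
    apply Subtype.ext
    funext u
    change pf J g ((c • φ : VJ J) : (ι → ℤ) → ℂ) u = c * pf J g φ u
    by_cases hu : Al J u
    · rw [pf_pos _ _ hu, pf_pos _ _ hu]
      obtain ⟨T, hT, -⟩ := exT φ u
      rw [raw_eq g φ u T hT, raw_eq g _ u T ?_, Finset.mul_sum]
      · refine Finset.sum_congr rfl fun γ _ => ?_
        rw [Submodule.coe_smul, Pi.smul_apply, smul_eq_mul]
        ring
      · intro γ h
        rw [Submodule.coe_smul, Pi.smul_apply, smul_eq_mul] at h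
        exact hT γ (right_ne_zero_of_mul h)
    · rw [pf_neg _ _ hu, pf_neg _ _ hu, mul_zero]

lemma P1_apply (g : MvPowerSeries ι ℂ) (φ : VJ J) (u : ι → ℤ) :
    (P1 J g φ : (ι → ℤ) → ℂ) u = pf J g φ u := rfl

lemma P1_add (g h : MvPowerSeries ι ℂ) : P1 J (g + h) = P1 J g + P1 J h := by
  apply LinearMap.ext
  intro φ
  apply Subtype.ext
  funext u
  change pf J (g + h) φ u = pf J g φ u + pf J h φ u
  by_cases hu : Al J u
  · rw [pf_pos _ _ hu, pf_pos _ _ hu, pf_pos _ _ hu]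
    obtain ⟨T, hT, -⟩ := exT φ u
    rw [raw_eq _ φ u T hT, raw_eq _ φ u T hT, raw_eq _ φ u T hT, ← Finset.sum_add_distrib]
    refine Finset.sum_congr rfl fun γ _ => ?_
    rw [map_add, add_mul]
  · rw [pf_neg _ _ hu, pf_neg _ _ hu, pf_neg _ _ hu, add_zero]

lemma P1_smul (c : ℂ) (g : MvPowerSeries ι ℂ) : P1 J (c • g) = c • P1 J g := by
  apply LinearMap.ext
  intro φ
  apply Subtype.ext
  funext u
  change pf J (c • g) φ u = c * pf J g φ u
  by_cases hu : Al J u
  · rw [pf_pos _ _ hu, pf_pos _ _ hu]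
    obtain ⟨T, hT, -⟩ := exT φ u
    rw [raw_eq _ φ u T hT, raw_eq _ φ u T hT, Finset.mul_sum]
    refine Finset.sum_congr rfl fun γ _ => ?_
    rw [map_smul, smul_eq_mul]
    ring
  · rw [pf_neg _ _ hu, pf_neg _ _ hu, mul_zero]

lemma P1_one : P1 J (1 : MvPowerSeries ι ℂ) = 1 := by
  apply LinearMap.ext
  intro φ
  apply Subtype.ext
  funext u
  change pf J 1 φ u = (φ : (ι → ℤ) → ℂ) u
  by_cases hu : Al J u
  · rw [pf_pos _ _ hu]
    classical
    obtain ⟨T, hT, -⟩ := exT φ u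
    rw [raw_eq _ φ u (insert 0 T) (fun γ h => Finset.mem_insert_of_mem (hT γ h)),
      Finset.sum_eq_single (0 : ι →₀ ℕ)]
    · rw [MvPowerSeries.coeff_zero_one, one_mul, sh_zero]
    · intro γ _ hγ
      rw [MvPowerSeries.coeff_one, if_neg hγ, zero_mul]
    · intro h
      exact absurd (Finset.mem_insert_self _ _) h
  · rw [pf_neg _ _ hu, vj_zero φ hu]

lemma P1_mul (g h : MvPowerSeries ι ℂ) : P1 J (g * h) = P1 J g * P1 J h := by
  apply LinearMap.ext
  intro φ
  apply Subtype.ext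
  funext u
  change pf J (g * h) φ u = pf J g (P1 J h φ : (ι → ℤ) → ℂ) u
  by_cases hu : Al J u
  · rw [pf_pos _ _ hu, pf_pos _ _ hu]
    classical
    obtain ⟨T, hT, hd⟩ := exT φ u
    have hin : ∀ α : ι →₀ ℕ, (P1 J h φ : (ι → ℤ) → ℂ) (sh u α) =
        ∑ β ∈ T, MvPowerSeries.coeff β h * (φ : (ι → ℤ) → ℂ) (sh u (α + β)) := by
      intro α
      rw [P1_apply, pf_pos _ _ (al_sh hu α), raw_eq h φ (sh u α) T]
      · refine Finset.sum_congr rfl fun β _ => ?_
        rw [sh_sh]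
      · intro β hβ
        rw [sh_sh] at hβ
        exact hd _ (hT _ hβ) β le_add_self
    rw [raw_eq g (P1 J h φ : (ι → ℤ) → ℂ) u T, raw_eq (g * h) φ u T hT]
    · have e1 : ∀ α ∈ T, MvPowerSeries.coeff α g * (P1 J h φ : (ι → ℤ) → ℂ) (sh u α) =
          ∑ β ∈ T, MvPowerSeries.coeff α g * MvPowerSeries.coeff β h *
            (φ : (ι → ℤ) → ℂ) (sh u (α + β)) := by
        intro α _
        rw [hin α, Finset.mul_sum]
        refine Finset.sum_congr rfl fun β _ => ?_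
        ring
      rw [Finset.sum_congr rfl e1, ← Finset.sum_product']
      have e2 : ∀ γ ∈ T, MvPowerSeries.coeff γ (g * h) * (φ : (ι → ℤ) → ℂ) (sh u γ) =
          ∑ p ∈ Finset.HasAntidiagonal.antidiagonal γ, MvPowerSeries.coeff p.1 g * MvPowerSeries.coeff p.2 h *
            (φ : (ι → ℤ) → ℂ) (sh u (p.1 + p.2)) := by
        intro γ _
        rw [MvPowerSeries.coeff_mul, Finset.sum_mul]
        refine Finset.sum_congr rfl fun p hp => ?_
        rw [Finset.HasAntidiagonal.mem_antidiagonal.mp hp]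
      rw [Finset.sum_congr rfl e2, Finset.sum_sigma']
      refine Finset.sum_bij_ne_zero (fun x _ _ => x.2) ?_ ?_ ?_ ?_
      · rintro ⟨γ, p⟩ hx _
        rw [Finset.mem_sigma] at hx
        have h1 := Finset.HasAntidiagonal.mem_antidiagonal.mp hx.2
        simp only at h1
        rw [Finset.mem_product]
        exact ⟨hd γ hx.1 p.1 (h1 ▸ le_self_add), hd γ hx.1 p.2 (h1 ▸ le_add_self)⟩
      · rintro ⟨γ, p⟩ hx _ ⟨γ', p'⟩ hx' _ he
        rw [Finset.mem_sigma] at hx hx'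
        have h1 := Finset.HasAntidiagonal.mem_antidiagonal.mp hx.2
        have h2 := Finset.HasAntidiagonal.mem_antidiagonal.mp hx'.2
        simp only at h1 h2 he
        subst he
        subst h1
        subst h2
        rfl
      · rintro ⟨α, β⟩ hx hne
        have h1 : α + β ∈ T := hT _ (right_ne_zero_of_mul hne)
        refine ⟨⟨α + β, (α, β)⟩, ?_, hne, rfl⟩
        rw [Finset.mem_sigma]
        exact ⟨h1, Finset.HasAntidiagonal.mem_antidiagonal.mpr rfl⟩
      · rintro ⟨γ, p⟩ _ _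
        rfl
    · intro α hα
      rw [hin α] at hα
      obtain ⟨β, _, h2⟩ := Finset.exists_ne_zero_of_sum_ne_zero hα
      exact hd _ (hT _ (right_ne_zero_of_mul h2)) α le_self_add
  · rw [pf_neg _ _ hu, pf_neg _ _ hu]

/-- the action as an algebra homomorphism -/
noncomputable def PA (J : Finset ι) : MvPowerSeries ι ℂ →ₐ[ℂ] Module.End ℂ (VJ J) :=
  AlgHom.ofLinearMap
    { toFun := P1 J
      map_add' := P1_add
      map_smul' := P1_smul } P1_one P1_mul

lemma PA_apply (g : MvPowerSeries ι ℂ) : PA J g = P1 J g := rfl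

/-- the derivations as endomorphisms -/
noncomputable def D1 (J : Finset ι) (ν : ι → ℚ) (i : ι) : Module.End ℂ (VJ J) where
  toFun φ := ⟨df J ν i (φ : (ι → ℤ) → ℂ), df_mem ν i φ⟩
  map_add' φ ψ := by
    apply Subtype.ext
    funext u
    change df J ν i ((φ + ψ : VJ J) : (ι → ℤ) → ℂ) u = df J ν i φ u + df J ν i ψ u
    by_cases hu : Al J u
    · rw [df_pos _ _ _ hu, df_pos _ _ _ hu, df_pos _ _ _ hu, Submodule.coe_add, Pi.add_apply,
        mul_add]
    · rw [df_neg _ _ _ hu, df_neg _ _ _ hu, df_neg _ _ _ hu, add_zero]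
  map_smul' c φ := by
    apply Subtype.ext
    funext u
    change df J ν i ((c • φ : VJ J) : (ι → ℤ) → ℂ) u = c * df J ν i φ u
    by_cases hu : Al J u
    · rw [df_pos _ _ _ hu, df_pos _ _ _ hu, Submodule.coe_smul, Pi.smul_apply, smul_eq_mul]
      ring
    · rw [df_neg _ _ _ hu, df_neg _ _ _ hu, mul_zero]

lemma D1_apply (ν : ι → ℚ) (i : ι) (φ : VJ J) (u : ι → ℤ) :
    (D1 J ν i φ : (ι → ℤ) → ℂ) u = df J ν i φ u := rfl

/-- the formula for `D1`, all `u` with `Al J u`, second form -/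
lemma D1_dn (ν : ι → ℚ) (i : ι) (φ : VJ J) {u : ι → ℤ} (hu : Al J u) :
    (D1 J ν i φ : (ι → ℤ) → ℂ) u = -((u i : ℂ) + (ν i : ℂ)) * (φ : (ι → ℤ) → ℂ) (dn i u) := by
  rw [D1_apply, df_pos _ _ _ hu]
  rfl

lemma D1_comm {ν : ι → ℚ} (hν : ∀ i, i ∉ J → ν i = 0) (i j : ι) :
    D1 J ν i * D1 J ν j = D1 J ν j * D1 J ν i := by
  have key : ∀ (i j : ι), i ≠ j → ∀ (φ : VJ J) (u : ι → ℤ), Al J u →
      (D1 J ν i (D1 J ν j φ) : (ι → ℤ) → ℂ) u =
        ((u i : ℂ) + (ν i : ℂ)) * ((u j : ℂ) + (ν j : ℂ)) *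
          (φ : (ι → ℤ) → ℂ) (dn i (dn j u)) := by
    intro i j hij φ u hu
    rw [D1_dn ν i _ hu]
    by_cases h : Al J (dn i u)
    · rw [D1_dn ν j _ h, dn_dn j i]
      have : dn i u j = u j := by
        simp [dn, hij.symm]
      rw [this]
      ring
    · rw [dn_al hν i hu h]
      ring
  by_cases hij : i = j
  · rw [hij]
  apply LinearMap.ext
  intro φ
  apply Subtype.ext
  funext u
  by_cases hu : Al J u
  · change (D1 J ν i (D1 J ν j φ) : (ι → ℤ) → ℂ) u = (D1 J ν j (D1 J ν i φ) : (ι → ℤ) → ℂ) u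
    rw [key i j hij φ u hu, key j i (fun h => hij h.symm) φ u hu, dn_dn i j]
    ring
  · rw [vj_zero _ hu, vj_zero _ hu]

lemma D1_P1 {ν : ι → ℚ} (hν : ∀ i, i ∉ J → ν i = 0) (i : ι) (g : MvPowerSeries ι ℂ) :
    D1 J ν i * P1 J g = P1 J g * D1 J ν i + P1 J (MvPowerSeries.pderiv ℂ i g) := by
  classical
  apply LinearMap.ext
  intro φ
  apply Subtype.ext
  funext u
  by_cases hu : Al J u
  · change (D1 J ν i (P1 J g φ) : (ι → ℤ) → ℂ) u = (P1 J g (D1 J ν i φ) : (ι → ℤ) → ℂ) u +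
      (P1 J (MvPowerSeries.pderiv ℂ i g) φ : (ι → ℤ) → ℂ) u
    obtain ⟨T, hT, hd⟩ := exT φ (dn i u)
    have e2 : (P1 J g (D1 J ν i φ) : (ι → ℤ) → ℂ) u = ∑ γ ∈ T, MvPowerSeries.coeff γ g *
        (-((u i : ℂ) + (γ i : ℂ) + (ν i : ℂ)) * (φ : (ι → ℤ) → ℂ) (sh (dn i u) γ)) := by
      have h1 : ∀ γ, (D1 J ν i φ : (ι → ℤ) → ℂ) (sh u γ) =
          -((u i : ℂ) + (γ i : ℂ) + (ν i : ℂ)) * (φ : (ι → ℤ) → ℂ) (sh (dn i u) γ) := by
        intro γ
        rw [D1_dn ν i φ (al_sh hu γ), dn_sh]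
        simp only [sh]
        push_cast
        ring
      rw [P1_apply, pf_pos _ _ hu, raw_eq g _ u T]
      · exact Finset.sum_congr rfl fun γ _ => by rw [h1]
      · intro γ hγ
        rw [h1] at hγ
        exact hT γ (right_ne_zero_of_mul hγ)
    have e3 : (P1 J (MvPowerSeries.pderiv ℂ i g) φ : (ι → ℤ) → ℂ) u =
        ∑ γ ∈ T, MvPowerSeries.coeff γ g * ((γ i : ℂ) *
          (φ : (ι → ℤ) → ℂ) (sh (dn i u) γ)) := by
      have hs : ∀ γ : ι →₀ ℕ, sh (dn i u) (γ + Finsupp.single i 1) = sh u γ := by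
        intro γ
        funext j
        simp only [sh, dn, Finsupp.add_apply]
        by_cases hj : j = i
        · subst hj
          simp
        · rw [if_neg hj, Finsupp.single_apply, if_neg (fun h => hj h.symm)]
          simp
      rw [P1_apply, pf_pos _ _ hu, raw_eq _ φ u T]
      · have : ∀ γ ∈ T, MvPowerSeries.coeff γ (MvPowerSeries.pderiv ℂ i g) *
            (φ : (ι → ℤ) → ℂ) (sh u γ) = MvPowerSeries.coeff (γ + Finsupp.single i 1) g *
              (((γ + Finsupp.single i 1 : ι →₀ ℕ) i : ℕ) : ℂ) *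
                (φ : (ι → ℤ) → ℂ) (sh (dn i u) (γ + Finsupp.single i 1)) := by
          intro γ _
          rw [MvPowerSeries.coeff_pderiv, hs]
          simp
        rw [Finset.sum_congr rfl this]
        refine Finset.sum_bij_ne_zero (fun γ _ _ => γ + Finsupp.single i 1) ?_ ?_ ?_ ?_
        · intro γ _ hne
          exact hT _ (right_ne_zero_of_mul hne)
        · intro γ _ _ γ' _ _ he
          exact add_right_cancel he
        · intro γ hγ hne
          have h1 : γ i ≠ 0 := by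
            intro h0
            apply hne
            rw [h0]
            simp
          have h2 : Finsupp.single i 1 ≤ γ := by
            rw [Finsupp.single_le_iff]
            omega
          refine ⟨γ - Finsupp.single i 1, hd γ hγ _ tsub_le_self, ?_,
            tsub_add_cancel_of_le h2⟩
          rw [tsub_add_cancel_of_le h2, mul_assoc]
          exact hne
        · intro γ _ _
          ring
      · intro γ hγ
        have h1 : (φ : (ι → ℤ) → ℂ) (sh (dn i u) (γ + Finsupp.single i 1)) ≠ 0 := by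
          rw [hs]
          exact hγ
        exact hd _ (hT _ h1) γ le_self_add
    have e1 : (D1 J ν i (P1 J g φ) : (ι → ℤ) → ℂ) u = ∑ γ ∈ T, MvPowerSeries.coeff γ g *
        (-((u i : ℂ) + (ν i : ℂ)) * (φ : (ι → ℤ) → ℂ) (sh (dn i u) γ)) := by
      rw [D1_dn ν i _ hu]
      by_cases h : Al J (dn i u)
      · rw [P1_apply, pf_pos _ _ h, raw_eq g φ (dn i u) T hT, Finset.mul_sum]
        refine Finset.sum_congr rfl fun γ _ => ?_
        ring
      · rw [dn_al hν i hu h]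
        simp
    rw [e1, e2, e3, ← Finset.sum_add_distrib]
    refine Finset.sum_congr rfl fun γ _ => ?_
    ring
  · rw [vj_zero _ hu, vj_zero _ hu]

end

end PACTLAux

open PACTLAux in
theorem stmt_PACT : Stmt_PACT := by
  intro ι _ _ J ν hν
  refine ⟨PA J, D1 J ν, D1_comm hν, ?_, ?_, ?_⟩
  · intro i g
    rw [PA_apply, PA_apply]
    exact D1_P1 hν i g
  · intro g φ u hu
    obtain ⟨T, hT, -⟩ := exT φ u
    filter_upwards [eventually_ge_atTop T] with Γ hΓ
    rw [PA_apply, P1_apply, pf_pos _ _ hu,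
      raw_eq g φ u Γ (fun γ h => hΓ (hT γ h))]
    rfl
  · intro i φ u hu
    exact D1_dn ν i φ hu

end Pool.Agent.Mono.LO
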