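import Pool.Agent.Work.Monodromy.InterfaceL

/-!
# Block TRZ of phase L (helper54): the local zeta functions of `f` and of the model
-/

set_option autoImplicit false

namespace Pool.Agent.Mono.LO

open MvPolynomial Filter Topology NP

namespace TRZLAux

variable {ι : Type} [Fintype ι]

/-- every power series agrees with a polynomial up to degree `K` -/
theorem exists_trunc (g : MvPowerSeries ι ℂ) (K : ℕ) :
    ∃ G : MvPolynomial ι ℂ, Eqm K g (G : MvPowerSeries ι ℂ) := by
  classical
  refine ⟨MvPowerSeries.trunc' ℂ (Finsupp.equivFunOnFinite.symm fun _ => K) g, ?_⟩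
  intro m hm
  rw [MvPolynomial.coeff_coe, MvPowerSeries.coeff_trunc', if_pos]
  intro i
  refine le_trans ?_ hm
  exact Finsupp.le_degree i m

end TRZLAux

theorem stmt_TRZ (hTRJ : Stmt_TRJ) (hEXT : Stmt_EXT) : Stmt_TRZ := by
  intro P ι κ _ _ _ _ _ f p φ w A e R hφ hf hnd he hR
  obtain ⟨r, hr, hsum⟩ := hR
  refine ⟨r, fun d hd => ?_, hsum⟩
  have hd1 : 1 ≤ d := Nat.pos_of_mem_divisors hd
  have key : locSer1 P.rat (RatFunc.X)⁻¹ (poly w (lead A)) (fun _ => 0) d =
      locSer1 P.rat (RatFunc.X)⁻¹ f p d := by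
    unfold locSer1
    ext K
    rw [PowerSeries.coeff_mk, PowerSeries.coeff_mk]
    by_cases hK : K = 0
    · rw [if_pos hK, if_pos hK]
    rw [if_neg hK, if_neg hK]
    obtain ⟨G, hG⟩ := TRZLAux.exists_trunc (aeval φ f : MvPowerSeries ι ℂ) K
    have h1 := hTRJ P ι f p φ G K d hφ hG
    rw [hf] at hG
    have h2 := hEXT P ι κ w A G K d hnd hd1 hG
    have h3 : P.val (jetAt (poly w (lead A)) (fun _ => 0) d K) = P.val (jetAt f p d K) := by
      rw [h1, h2]
    have h4 : P.rat.val (jetAt (poly w (lead A)) (fun _ => 0) d K) =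
        P.rat.val (jetAt f p d K) := by
      show toRat (P.val (jetAt (poly w (lead A)) (fun _ => 0) d K)) =
        toRat (P.val (jetAt f p d K))
      rw [h3]
    rw [h4]
  rw [key]
  exact hr d hd

end Pool.Agent.Mono.LO
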